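import Mathlib

set_option autoImplicit false
set_option linter.unusedSectionVars false

/-! Elementary geometry of flats in spaces with the CN midpoint inequality. -/

namespace Pool.Agent.FlatDich

open Metric Set

variable {X : Type*} [MetricSpace X]

/-- The CN inequality of Bruhat and Tits. -/
def CN (X : Type*) [MetricSpace X] : Prop :=
  ∀ x y : X, ∃ m : X, ∀ z : X,
    dist z m ^ 2 ≤ (dist z x ^ 2 + dist z y ^ 2) / 2 - dist x y ^ 2 / 4

def IsMid (x y m : X) : Prop :=
  ∀ z : X, dist z m ^ 2 ≤ (dist z x ^ 2 + dist z y ^ 2) / 2 - dist x y ^ 2 / 4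

lemma IsMid.left {x y m : X} (h : IsMid x y m) : dist x m ≤ dist x y / 2 := by
  have h1 := h x
  rw [dist_self] at h1
  have h2 : dist x m ^ 2 ≤ (dist x y / 2) ^ 2 := by nlinarith
  exact le_of_sq_le_sq h2 (by positivity)

lemma IsMid.right {x y m : X} (h : IsMid x y m) : dist y m ≤ dist x y / 2 := by
  have h1 := h y
  rw [dist_self, dist_comm y x] at h1
  have h2 : dist y m ^ 2 ≤ (dist x y / 2) ^ 2 := by nlinarith
  exact le_of_sq_le_sq h2 (by positivity)

lemma isMid_of (hX : CN X) {x y m : X} (h1 : dist x m ≤ dist x y / 2)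
    (h2 : dist y m ≤ dist x y / 2) : IsMid x y m := by
  obtain ⟨m', hm'⟩ := hX x y
  have h3 := hm' m
  rw [dist_comm m x, dist_comm m y] at h3
  have a1 : dist x m ^ 2 ≤ (dist x y / 2) ^ 2 := pow_le_pow_left₀ dist_nonneg h1 2
  have a2 : dist y m ^ 2 ≤ (dist x y / 2) ^ 2 := pow_le_pow_left₀ dist_nonneg h2 2
  have h4 : dist m m' ^ 2 ≤ 0 := by nlinarith
  have h5 : dist m m' = 0 := by
    have := sq_nonneg (dist m m')
    exact pow_eq_zero_iff (two_ne_zero) |>.1 (le_antisymm h4 this)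
  rw [dist_eq_zero] at h5
  subst h5
  exact hm'

lemma quad (hX : CN X) (x y z w : X) :
    dist x z ^ 2 + dist y w ^ 2 ≤ dist x y ^ 2 + dist y z ^ 2 + dist z w ^ 2 + dist w x ^ 2 := by
  obtain ⟨m, hm⟩ := hX x z
  have h1 := hm y
  have h2 := hm w
  have h3 : dist y w ≤ dist y m + dist w m := dist_triangle_right y w m
  have h4 : dist y w ^ 2 ≤ (dist y m + dist w m) ^ 2 := pow_le_pow_left₀ dist_nonneg h3 2
  rw [dist_comm y x, dist_comm w z] at *
  nlinarith [sq_nonneg (dist y m - dist w m)]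

lemma mid_mid (hX : CN X) {x y m x' y' m' : X} (h : IsMid x y m) (h' : IsMid x' y' m') :
    dist m m' ^ 2 ≤ (dist x x' ^ 2 + dist y y' ^ 2) / 2 := by
  have h1 := h m'
  have h2 := h' x
  have h3 := h' y
  have h4 := quad hX x y y' x'
  rw [dist_comm m' m, dist_comm m' x, dist_comm m' y] at h1
  rw [dist_comm y' x', dist_comm x' x] at h4
  nlinarith

variable {E : Type*} [NormedAddCommGroup E] [NormedSpace ℝ E]

lemma flat_mid (hX : CN X) {f : E → X} (hf : Isometry f) (a b : E) :
    IsMid (f a) (f b) (f (midpoint ℝ a b)) := by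
  apply isMid_of hX
  · rw [hf.dist_eq, hf.dist_eq, dist_left_midpoint (𝕜 := ℝ)]
    simp; linarith
  · rw [hf.dist_eq, hf.dist_eq, dist_right_midpoint (𝕜 := ℝ)]
    simp; linarith

lemma proj_ineq (hX : CN X) {f : E → X} (hf : Isometry f) {z : X} {a0 : E}
    (hmin : ∀ a, dist z (f a0) ≤ dist z (f a)) (a : E) :
    dist z (f a0) ^ 2 + dist a0 a ^ 2 ≤ dist z (f a) ^ 2 := by
  have key : ∀ k : ℕ, ∀ a : E,
      dist z (f a0) ^ 2 + (1 - (1 / 2 : ℝ) ^ k) * dist a0 a ^ 2 ≤ dist z (f a) ^ 2 := by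
    intro k
    induction k with
    | zero =>
      intro a
      have := pow_le_pow_left₀ dist_nonneg (hmin a) 2
      simpa using this
    | succ k ih =>
      intro a
      have h1 := ih (midpoint ℝ a0 a)
      have h2 := flat_mid hX hf a0 a z
      rw [hf.dist_eq] at h2
      have h3 : dist a0 (midpoint ℝ a0 a) = dist a0 a / 2 := by
        rw [dist_left_midpoint (𝕜 := ℝ)]; simp; ring
      rw [h3] at h1
      rw [pow_succ (1 / 2 : ℝ) k]
      nlinarith
  have ht : Filter.Tendsto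
      (fun k : ℕ => dist z (f a0) ^ 2 + (1 - (1 / 2 : ℝ) ^ k) * dist a0 a ^ 2) Filter.atTop
      (nhds (dist z (f a0) ^ 2 + (1 - 0) * dist a0 a ^ 2)) := by
    refine Filter.Tendsto.const_add _ (Filter.Tendsto.mul_const _ (Filter.Tendsto.const_sub _ ?_))
    exact tendsto_pow_atTop_nhds_zero_of_lt_one (by norm_num) (by norm_num)
  have := le_of_tendsto' ht (fun k => key k a)
  simpa using this

lemma rect (hX : CN X) {p q : E → X} (hp : Isometry p) (hq : Isometry q) {D : ℝ}
    (h1 : ∀ a, dist (p a) (q a) ≤ D) (h2 : ∀ a b, D ≤ dist (p a) (q b)) (a b : E) :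
    dist (p a) (q b) ^ 2 = D ^ 2 + dist a b ^ 2 := by
  have e : ∀ a, dist (q a) (p a) = D := fun a => by
    rw [dist_comm]; exact le_antisymm (h1 a) (h2 a a)
  have m : ∀ b c, dist (q b) (p b) ≤ dist (q b) (p c) := fun b c => by
    rw [e, dist_comm]; exact h2 c b
  have A := proj_ineq hX hp (m b) a
  have B := proj_ineq hX hp (m a) b
  have C := quad hX (p a) (p b) (q b) (q a)
  rw [hp.dist_eq, hq.dist_eq, dist_comm (p b) (q b), e, e, dist_comm b a] at C
  rw [e, dist_comm b a, dist_comm (q b)] at A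
  rw [e, dist_comm (q a)] at B
  linarith

/-- Aligned parallel flats. -/
def Al (f g : E → X) : Prop :=
  ∀ a b, dist (f a) (g b) ^ 2 = dist (f 0) (g 0) ^ 2 + dist a b ^ 2

lemma Al.symm {f g : E → X} (h : Al f g) : Al g f := fun a b => by
  rw [dist_comm (g a), dist_comm (g 0), h b a, dist_comm b a]

lemma Al.diag {f g : E → X} (h : Al f g) (a : E) : dist (f a) (g a) = dist (f 0) (g 0) := by
  have := h a a
  rw [dist_self] at this
  exact (pow_left_inj₀ dist_nonneg dist_nonneg two_ne_zero).1 (by simpa using this)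

lemma Al.le {f g : E → X} (h : Al f g) (a b : E) : dist (f 0) (g 0) ≤ dist (f a) (g b) := by
  have := h a b
  exact le_of_sq_le_sq (by nlinarith [sq_nonneg (dist a b)]) dist_nonneg

lemma Al.infDist_eq {f g : E → X} (h : Al f g) (a : E) :
    infDist (f a) (range g) = dist (f 0) (g 0) := by
  apply le_antisymm
  · rw [← h.diag a]; exact infDist_le_dist_of_mem (mem_range_self a)
  · rw [le_infDist (range_nonempty g)]
    rintro _ ⟨b, rfl⟩
    exact h.le a b

lemma Al.refl {f : E → X} (hf : Isometry f) : Al f f := fun a b => by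
  rw [hf.dist_eq, dist_self]; simp

/-- Parallel within `R`. -/
def ParR (R : ℝ) (f g : E → X) : Prop :=
  (∀ a, ∃ b, dist (f a) (g b) ≤ R) ∧ (∀ b, ∃ a, dist (f a) (g b) ≤ R)

def Par (f g : E → X) : Prop := ∃ R, ParR R f g

lemma ParR.symm {R : ℝ} {f g : E → X} (h : ParR R f g) : ParR R g f :=
  ⟨fun a => (h.2 a).imp fun b hb => by rwa [dist_comm],
    fun a => (h.1 a).imp fun b hb => by rwa [dist_comm]⟩

lemma Par.symm {f g : E → X} (h : Par f g) : Par g f := h.imp fun _ h => h.symm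

lemma Par.refl (f : E → X) : Par f f :=
  ⟨0, fun a => ⟨a, by simp⟩, fun a => ⟨a, by simp⟩⟩

lemma Par.trans {f g h : E → X} (h1 : Par f g) (h2 : Par g h) : Par f h := by
  obtain ⟨R, h1⟩ := h1
  obtain ⟨S, h2⟩ := h2
  refine ⟨R + S, fun a => ?_, fun c => ?_⟩
  · obtain ⟨b, hb⟩ := h1.1 a
    obtain ⟨c, hc⟩ := h2.1 b
    exact ⟨c, by linarith [dist_triangle (f a) (g b) (h c)]⟩
  · obtain ⟨b, hb⟩ := h2.2 c
    obtain ⟨a, ha⟩ := h1.2 b
    exact ⟨a, by linarith [dist_triangle (f a) (g b) (h c)]⟩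

lemma Al.parR {f g : E → X} (h : Al f g) : ParR (dist (f 0) (g 0)) f g :=
  ⟨fun a => ⟨a, (h.diag a).le⟩, fun a => ⟨a, (h.diag a).le⟩⟩

lemma Al.par {f g : E → X} (h : Al f g) : Par f g := ⟨_, h.parR⟩

lemma par_of_range_eq {f g : E → X} (h : range f = range g) : Par f g := by
  refine ⟨0, fun a => ?_, fun b => ?_⟩
  · obtain ⟨b, hb⟩ : f a ∈ range g := h ▸ mem_range_self a
    exact ⟨b, by simp [hb]⟩
  · obtain ⟨a, ha⟩ : g b ∈ range f := h ▸ mem_range_self b
    exact ⟨a, by simp [ha]⟩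

variable [ProperSpace X] [CompleteSpace E]

lemma exists_proj {f : E → X} (hf : Isometry f) (z : X) :
    ∃ a0, infDist z (range f) = dist z (f a0) := by
  obtain ⟨_, ⟨a0, rfl⟩, h⟩ := hf.isClosedEmbedding.isClosed_range.exists_infDist_eq_dist
    (range_nonempty f) z
  exact ⟨a0, h⟩

lemma const_dist (hX : CN X) {f g : E → X} (hf : Isometry f) (hg : Isometry g) {R : ℝ}
    (h : ∀ a, ∃ b, dist (f a) (g b) ≤ R) (a a' : E) :
    infDist (f a) (range g) = infDist (f a') (range g) := by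
  set δ : E → ℝ := fun a => infDist (f a) (range g) ^ 2 with hδ
  have hb : ∀ a, δ a ≤ R ^ 2 := fun a => by
    obtain ⟨b, hb⟩ := h a
    exact pow_le_pow_left₀ infDist_nonneg ((infDist_le_dist_of_mem (mem_range_self b)).trans hb) 2
  have hconv : ∀ a b, δ (midpoint ℝ a b) ≤ (δ a + δ b) / 2 := fun a b => by
    obtain ⟨p, hp⟩ := exists_proj hg (f a)
    obtain ⟨q, hq⟩ := exists_proj hg (f b)
    have h1 := mid_mid hX (flat_mid hX hf a b) (flat_mid hX hg p q)
    have h2 : infDist (f (midpoint ℝ a b)) (range g) ≤ _ :=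
      infDist_le_dist_of_mem (mem_range_self (midpoint ℝ p q))
    have h3 := pow_le_pow_left₀ infDist_nonneg h2 2
    simp only [hδ, hp, hq]
    linarith
  have hbdd : BddAbove (range δ) := ⟨R ^ 2, by rintro _ ⟨a, rfl⟩; exact hb a⟩
  have hS : ∀ a, δ a = ⨆ b, δ b := fun a => by
    apply le_antisymm (le_ciSup hbdd a)
    have : ∀ b, δ b ≤ (δ a + ⨆ b, δ b) / 2 := fun b => by
      have e : b = midpoint ℝ a (b + b - a) := by
        rw [midpoint_eq_smul_add]
        simp only [invOf_eq_inv]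
        rw [add_sub_cancel, ← two_smul ℝ b, smul_smul]; simp
      have h1 := hconv a (b + b - a)
      rw [← e] at h1
      linarith [le_ciSup hbdd (b + b - a)]
    have := ciSup_le this
    linarith
  have : δ a = δ a' := by rw [hS a, hS a']
  exact (pow_left_inj₀ infDist_nonneg infDist_nonneg two_ne_zero).1 this

lemma exists_al (hX : CN X) {f g : E → X} (hf : Isometry f) (hg : Isometry g) (h : Par f g) :
    ∃ π : E → E, Isometry π ∧ Function.Surjective π ∧ Al f (g ∘ π) := by
  obtain ⟨R, h1, h2⟩ := h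
  have h2' : ∀ b, ∃ a, dist (g b) (f a) ≤ R := fun b => (h2 b).imp fun a ha => by rwa [dist_comm]
  have c1 := const_dist hX hf hg h1
  have c2 := const_dist hX hg hf h2'
  choose π hπ using fun a => exists_proj hg (f a)
  choose σ hσ using fun b => exists_proj hf (g b)
  set D := infDist (f 0) (range g) with hD
  have lb : ∀ a b, D ≤ dist (f a) (g b) := fun a b => by
    rw [hD, c1 0 a]; exact infDist_le_dist_of_mem (mem_range_self b)
  have e1 : ∀ a, dist (f a) (g (π a)) = D := fun a => by rw [← hπ, hD, c1 0 a]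
  have e2 : ∀ b, dist (g b) (f (σ b)) = D := fun b => by
    apply le_antisymm
    · rw [← hσ, c2 b (π 0), ← e1 0, dist_comm]
      exact infDist_le_dist_of_mem (mem_range_self 0)
    · rw [dist_comm]; exact lb _ _
  have A : ∀ a q, D ^ 2 + dist (π a) q ^ 2 ≤ dist (f a) (g q) ^ 2 := fun a q => by
    have := proj_ineq hX hg (z := f a) (a0 := π a) (fun c => by rw [e1]; exact lb _ _) q
    rwa [e1] at this
  have B : ∀ a b, D ^ 2 + dist a b ^ 2 ≤ dist (f b) (g (π a)) ^ 2 := fun a b => by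
    have := proj_ineq hX hf (z := g (π a)) (a0 := a)
      (fun c => by rw [dist_comm, e1, dist_comm]; exact lb _ _) b
    rwa [dist_comm, e1, dist_comm (g (π a))] at this
  have hiso : Isometry π := by
    apply Isometry.of_dist_eq
    intro a b
    have C := quad hX (f a) (f b) (g (π b)) (g (π a))
    rw [hf.dist_eq, hg.dist_eq, e1, dist_comm (g (π a)), e1, dist_comm (π b)] at C
    have A1 := A a (π b)
    have A2 := A b (π a)
    have B1 := B a b
    have B2 := B b a
    rw [dist_comm (π b)] at A2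
    rw [dist_comm b] at B2
    exact (pow_left_inj₀ dist_nonneg dist_nonneg two_ne_zero).1 (by linarith)
  refine ⟨π, hiso, fun q => ⟨σ q, ?_⟩, ?_⟩
  · have := A (σ q) q
    rw [dist_comm (f _), e2] at this
    have h0 : dist (π (σ q)) q ^ 2 = 0 := le_antisymm (by linarith) (sq_nonneg _)
    exact dist_eq_zero.1 (pow_eq_zero_iff two_ne_zero |>.1 h0)
  · intro a b
    have := rect hX hf (hg.comp hiso) (D := D) (fun a => (e1 a).le) (fun a b => lb _ _) a b
    rw [this]
    simp only [Function.comp, e1]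

omit [ProperSpace X] [CompleteSpace E] in
lemma Al.mid (hX : CN X) {f g : E → X} (hf : Isometry f) (hg : Isometry g) (h : Al f g) :
    ∃ m : E → X, Isometry m ∧ (∀ a, IsMid (f a) (g a) (m a)) ∧ Al f m ∧ Al m g := by
  choose m hm using fun a => hX (f a) (g a)
  have hm' : ∀ a, IsMid (f a) (g a) (m a) := hm
  set D := dist (f 0) (g 0) with hD
  have l : ∀ a, dist (f a) (m a) ≤ D / 2 := fun a => by rw [hD, ← h.diag a]; exact (hm' a).left
  have r : ∀ a, dist (g a) (m a) ≤ D / 2 := fun a => by rw [hD, ← h.diag a]; exact (hm' a).right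
  have lbf : ∀ a b, D / 2 ≤ dist (f a) (m b) := fun a b => by
    have := h.le a b
    linarith [dist_triangle_right (f a) (g b) (m b), r b]
  have lbg : ∀ a b, D / 2 ≤ dist (m a) (g b) := fun a b => by
    have := h.le a b
    linarith [dist_triangle (f a) (m a) (g b), l a]
  have el : ∀ a, dist (f a) (m a) = D / 2 := fun a => le_antisymm (l a) (lbf a a)
  have er : ∀ a, dist (m a) (g a) = D / 2 := fun a =>
    le_antisymm (by rw [dist_comm]; exact r a) (lbg a a)
  have B : ∀ a b, (D / 2) ^ 2 + dist a b ^ 2 ≤ dist (f b) (m a) ^ 2 := fun a b => by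
    have := proj_ineq hX hf (z := m a) (a0 := a)
      (fun c => by rw [dist_comm, el, dist_comm]; exact lbf _ _) b
    rwa [dist_comm, el, dist_comm (m a)] at this
  have hiso : Isometry m := by
    apply Isometry.of_dist_eq
    intro a b
    have U := mid_mid hX (hm' a) (hm' b)
    rw [hf.dist_eq, hg.dist_eq] at U
    have C := quad hX (f a) (f b) (m b) (m a)
    rw [hf.dist_eq, el, dist_comm (m a) (f a), el, dist_comm (m b)] at C
    have B1 := B a b
    have B2 := B b a
    rw [dist_comm b] at B2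
    exact (pow_left_inj₀ dist_nonneg dist_nonneg two_ne_zero).1 (by linarith)
  refine ⟨m, hiso, hm', fun a b => ?_, fun a b => ?_⟩
  · rw [rect hX hf hiso l lbf a b, el]
  · rw [rect hX hiso hg (fun a => (er a).le) lbg a b, er]

lemma sqrt_bound {x D L : ℝ} (hL : 0 < L) (h : x ^ 2 = D ^ 2 + (L / 3) ^ 2) :
    x ≤ L / 3 + 3 * D ^ 2 / (2 * L) := by
  have h1 : 0 ≤ 3 * D ^ 2 / (2 * L) := by positivity
  have h2 : 2 * (L / 3) * (3 * D ^ 2 / (2 * L)) = D ^ 2 := by field_simp
  exact le_of_sq_le_sq (by nlinarith [sq_nonneg (3 * D ^ 2 / (2 * L))]) (by positivity)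
   

lemma Al.trans (hX : CN X) {f g h : E → X} (hf : Isometry f) (hh : Isometry h)
    (h1 : Al f g) (h2 : Al g h) : Al f h := by
  obtain ⟨π, -, -, h3⟩ := exists_al hX hh hf (h1.par.trans h2.par).symm
  suffices hπ : ∀ d, π d = d by
    have : f ∘ π = f := by funext d; simp [hπ]
    rw [this] at h3
    exact h3.symm
  intro d
  by_contra hne
  set w := π d - d with hw
  have hw0 : 0 < ‖w‖ := norm_pos_iff.2 (sub_ne_zero.2 hne)
  set C := 3 * (dist (f 0) (g 0) ^ 2 + dist (g 0) (h 0) ^ 2 + dist (h 0) ((f ∘ π) 0) ^ 2) / 2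
    with hC
  have hC0 : 0 ≤ C := by positivity
  have key : ∀ t : ℝ, 0 < t → t * ‖w‖ ^ 2 ≤ C := by
    intro t ht
    have hL : 0 < t * ‖w‖ := by positivity
    have n3 : ‖(t / 3) • w‖ = t * ‖w‖ / 3 := by
      rw [norm_smul, Real.norm_eq_abs, abs_of_pos (by positivity)]; ring
    have d1 : dist (d - t • w) (d - (2 * t / 3) • w) = t * ‖w‖ / 3 := by
      rw [dist_comm, dist_eq_norm, ← n3]; congr 1; module
    have d2 : dist (d - (2 * t / 3) • w) (d - (t / 3) • w) = t * ‖w‖ / 3 := by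
      rw [dist_comm, dist_eq_norm, ← n3]; congr 1; module
    have d3 : dist (d - (t / 3) • w) d = t * ‖w‖ / 3 := by
      rw [dist_comm, dist_eq_norm, ← n3]; congr 1; module
    have d4 : dist (d - t • w) (π d) = (t + 1) * ‖w‖ := by
      have : π d - (d - t • w) = (t + 1) • w := by rw [hw]; module
      rw [dist_comm, dist_eq_norm, this, norm_smul, Real.norm_eq_abs, abs_of_pos (by positivity)]
    have s1 := sqrt_bound hL (d1 ▸ h1 (d - t • w) (d - (2 * t / 3) • w))
    have s2 := sqrt_bound hL (d2 ▸ h2 (d - (2 * t / 3) • w) (d - (t / 3) • w))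
    have s3 := sqrt_bound hL (d3 ▸ h3 (d - (t / 3) • w) d)
    have tri := dist_triangle4 (f (d - t • w)) (g (d - (2 * t / 3) • w)) (h (d - (t / 3) • w))
      ((f ∘ π) d)
    have e : dist (f (d - t • w)) ((f ∘ π) d) = (t + 1) * ‖w‖ := by
      rw [Function.comp, hf.dist_eq, d4]
    have sum : ‖w‖ ≤ C / (t * ‖w‖) := by
      have : C / (t * ‖w‖) = 3 * dist (f 0) (g 0) ^ 2 / (2 * (t * ‖w‖))
          + 3 * dist (g 0) (h 0) ^ 2 / (2 * (t * ‖w‖))
          + 3 * dist (h 0) ((f ∘ π) 0) ^ 2 / (2 * (t * ‖w‖)) := by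
        rw [hC]; field_simp
      rw [this]; linarith
    rw [le_div_iff₀ hL] at sum
    nlinarith
  have := key ((C + 1) / ‖w‖ ^ 2) (by positivity)
  rw [div_mul_cancel₀ _ (by positivity)] at this
  linarith

end Pool.Agent.FlatDich
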