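import Mathlib

set_option autoImplicit false

namespace Pool.Agent.FC

variable {Y : Type} [MetricSpace Y]

/-- `m` divides the distance from `x` to `y` in the ratio `t : 1 - t`. -/
def Btw (x y m : Y) (t : ℝ) : Prop := dist x m = t * dist x y ∧ dist m y = (1 - t) * dist x y

/-- The subset `S` is geodesic and satisfies the CAT(0) comparison inequality inside itself. -/
def CT (S : Set Y) : Prop := ∀ x ∈ S, ∀ y ∈ S, ∀ t ∈ Set.Icc (0 : ℝ) 1, ∃ m ∈ S, Btw x y m t ∧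
  ∀ z ∈ S, dist z m ^ 2 ≤ (1 - t) * dist z x ^ 2 + t * dist z y ^ 2 - t * (1 - t) * dist x y ^ 2

/-- The comparison inequality at the point `z`. -/
def DGlueCN (x y m : Y) (t : ℝ) (z : Y) : Prop :=
  dist z m ^ 2 ≤ (1 - t) * dist z x ^ 2 + t * dist z y ^ 2 - t * (1 - t) * dist x y ^ 2

theorem dglue_btw_symm {x y m : Y} {t : ℝ} (h : Btw x y m t) : Btw y x m (1 - t) := by
  obtain ⟨h1, h2⟩ := h
  refine ⟨?_, ?_⟩
  · rw [dist_comm y m, dist_comm y x, h2]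
  · rw [dist_comm m x, dist_comm y x, h1]; ring

theorem dglue_cn_symm {x y m z : Y} {t : ℝ} (h : DGlueCN x y m t z) : DGlueCN y x m (1 - t) z := by
  unfold DGlueCN at *
  rw [dist_comm y x]
  linarith

theorem dglue_uniq {S : Set Y} (hS : CT S) {x y m : Y} {t : ℝ} (hx : x ∈ S) (hy : y ∈ S)
    (hm : m ∈ S) (ht : t ∈ Set.Icc (0 : ℝ) 1) (h : Btw x y m t) : ∀ z ∈ S, DGlueCN x y m t z := by
  obtain ⟨m', -, -, h2⟩ := hS x hx y hy t ht
  have h3 := h2 m hm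
  rw [dist_comm m x, h.1, h.2] at h3
  have h4 : dist m m' ^ 2 ≤ 0 := by linarith
  have h5 : m = m' := dist_eq_zero.1 (pow_eq_zero_iff (two_ne_zero) |>.1
    (le_antisymm h4 (sq_nonneg _)))
  rw [h5]
  exact h2

theorem dglue_box {S : Set Y} (hS : CT S) {a a' b b' : Y} (ha : a ∈ S) (ha' : a' ∈ S) (hb : b ∈ S)
    (hb' : b' ∈ S) {i j k n : ℝ} (hi : 0 ≤ i) (hj : 0 ≤ j) (hk : 0 ≤ k) (hn : 0 ≤ n)
    (e : i + j = k + n) (h0 : 0 < i + j) :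
    i * j * dist a a' ^ 2 + k * n * dist b b' ^ 2 ≤ i * k * dist a b ^ 2 + i * n * dist a b' ^ 2 +
      j * k * dist a' b ^ 2 + j * n * dist a' b' ^ 2 := by
  obtain ⟨D, hD⟩ : ∃ D, D = i + j := ⟨_, rfl⟩
  rw [← hD] at h0
  have hα : j / D ∈ Set.Icc (0 : ℝ) 1 := ⟨by positivity, (div_le_one h0).2 (by linarith)⟩
  have hβ : n / D ∈ Set.Icc (0 : ℝ) 1 := ⟨by positivity, (div_le_one h0).2 (by linarith)⟩
  obtain ⟨p, hp, -, h1⟩ := hS a ha a' ha' _ hα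
  obtain ⟨q, hq, -, h2⟩ := hS b hb b' hb' _ hβ
  have e1 : j = j / D * D := by field_simp
  have e2 : n = n / D * D := by field_simp
  generalize j / D = α at *
  generalize n / D = β at *
  have e3 : i = (1 - α) * D := by linarith
  have e4 : k = (1 - β) * D := by linarith
  have h3 := h1 q hq
  have h4 := mul_le_mul_of_nonneg_left (h2 a ha) (sub_nonneg.2 hα.2)
  have h5 := mul_le_mul_of_nonneg_left (h2 a' ha') hα.1
  rw [dist_comm q a, dist_comm q a'] at h3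
  have h6 : α * (1 - α) * dist a a' ^ 2 + β * (1 - β) * dist b b' ^ 2 ≤
      (1 - α) * (1 - β) * dist a b ^ 2 + (1 - α) * β * dist a b' ^ 2 +
      α * (1 - β) * dist a' b ^ 2 + α * β * dist a' b' ^ 2 := by
    linarith [sq_nonneg (dist q p)]
  have h7 := mul_le_mul_of_nonneg_left h6 (sq_nonneg D)
  rw [e1, e2, e3, e4]
  linarith

theorem dglue_split {l A M X X' : ℝ} (l0 : 0 < l) (l1 : l < 1) (hA : A ^ 2 ≤ l * X)
    (hM : M ^ 2 ≤ (1 - l) * X') : (A + M) ^ 2 ≤ X + X' := by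
  have h1 := mul_le_mul_of_nonneg_left hA (sub_pos.2 l1).le
  have h2 := mul_le_mul_of_nonneg_left hM l0.le
  refine le_of_mul_le_mul_left ?_ (mul_pos l0 (sub_pos.2 l1))
  linarith [sq_nonneg ((1 - l) * A - l * M)]

theorem dglue_inf {r s ε : ℝ} (hr : 0 ≤ r) (hs : 0 ≤ s) (hε : 0 < ε) :
    ∃ l R S : ℝ, 0 < l ∧ l < 1 ∧ r ^ 2 = l * R ∧ s ^ 2 = (1 - l) * S ∧ R + S ≤ (r + s) ^ 2 + ε := by
  obtain ⟨δ, hδ, hd⟩ : ∃ δ : ℝ, 0 < δ ∧ 2 * δ * (r + s) ≤ ε := by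
    refine ⟨ε / (2 * (r + s) + 1), by positivity, ?_⟩
    rw [mul_div_assoc', div_mul_eq_mul_div, div_le_iff₀ (by positivity)]
    nlinarith
  have h1 : 0 < r + δ := by positivity
  have h2 : 0 < s + δ := by positivity
  have h3 : 0 < r + s + 2 * δ := by positivity
  refine ⟨(r + δ) / (r + s + 2 * δ), r ^ 2 * (r + s + 2 * δ) / (r + δ),
    s ^ 2 * (r + s + 2 * δ) / (s + δ), by positivity, (div_lt_one h3).2 (by linarith),
    by field_simp, by field_simp; ring, ?_⟩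
  have h4 : r ^ 2 * (r + s + 2 * δ) / (r + δ) ≤ r * (r + s + 2 * δ) := by
    rw [div_le_iff₀ h1]
    have : 0 ≤ r * (r + s + 2 * δ) * δ := by positivity
    linarith
  have h5 : s ^ 2 * (r + s + 2 * δ) / (s + δ) ≤ s * (r + s + 2 * δ) := by
    rw [div_le_iff₀ h2]
    have : 0 ≤ s * (r + s + 2 * δ) * δ := by positivity
    linarith
  linarith

theorem dglue_par {t l0 l1 : ℝ} (t0 : 0 ≤ t) (t1 : t ≤ 1) (a0 : 0 < l0) (a1 : l0 < 1)
    (b0 : 0 < l1) (b1 : l1 < 1) : ∃ l u k : ℝ, 0 < l ∧ l < 1 ∧ 0 ≤ u ∧ u ≤ 1 ∧ 0 ≤ k ∧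
      (1 - u) * l0 = (1 - t) * l ∧ u * l1 = t * l ∧ u * (1 - u) = l * k ∧ (1 - u) * t = l1 * k ∧
      u * (1 - t) = l0 * k ∧ l0 * l1 * k = l * (t * (1 - t)) ∧
      (1 - u) * (1 - t) * (1 - l0) + k * (l0 * (1 - l1)) = (1 - l) * (1 - t) ∧
      u * t * (1 - l1) + k * (l1 * (1 - l0)) = (1 - l) * t := by
  have s0 : 0 ≤ 1 - t := sub_nonneg.2 t1
  have h1 : l0 * l1 < (1 - t) * l1 + t * l0 := by
    have c1 : 0 < l1 * (1 - l0) := mul_pos b0 (sub_pos.2 a1)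
    have c2 : 0 < l0 * (1 - l1) := mul_pos a0 (sub_pos.2 b1)
    rcases le_total (l1 * (1 - l0)) (l0 * (1 - l1)) with h | h
    · linarith [mul_le_mul_of_nonneg_left h t0]
    · linarith [mul_le_mul_of_nonneg_left h s0]
  have h0 : 0 < (1 - t) * l1 + t * l0 := (mul_pos a0 b0).trans h1
  obtain ⟨w, hw⟩ : ∃ w, w = (1 - t) * l1 + t * l0 := ⟨_, rfl⟩
  rw [← hw] at h0 h1
  refine ⟨l0 * l1 / w, t * l0 / w, t * (1 - t) / w, by positivity, (div_lt_one h0).2 h1,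
    by positivity, (div_le_one h0).2 (by linarith [mul_nonneg s0 b0.le]), by positivity,
    ?_, ?_, ?_, ?_, ?_, ?_, ?_, ?_⟩
  all_goals
    field_simp
    try (rw [hw]; ring)

theorem dglue_caseA {S T B : Set Y} (hS : CT S) (hT : CT T) (hBS : B ⊆ S) (hBT : B ⊆ T)
    (hB : ∀ a ∈ B, ∀ b ∈ B, ∀ t ∈ Set.Icc (0 : ℝ) 1, ∃ m ∈ B, Btw a b m t)
    (hsep : ∀ x ∈ S, ∀ y ∈ T, ∃ a ∈ B, dist x y = dist x a + dist a y) {y0 y1 m p : Y} {t : ℝ}
    (h0 : y0 ∈ T) (h1 : y1 ∈ T) (hm : m ∈ T) (ht : t ∈ Set.Icc (0 : ℝ) 1) (h : Btw y0 y1 m t)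
    (hp : p ∈ S) : DGlueCN y0 y1 m t p := by
  obtain ⟨a0, ha0, e0⟩ := hsep p hp y0 h0
  obtain ⟨a1, ha1, e1⟩ := hsep p hp y1 h1
  unfold DGlueCN
  refine le_of_forall_pos_le_add fun ε hε => ?_
  obtain ⟨l0, R0, S0, c0, c1, c2, c3, c4⟩ :=
    dglue_inf (dist_nonneg (x := p) (y := a0)) (dist_nonneg (x := a0) (y := y0)) hε
  obtain ⟨l1, R1, S1, d0, d1, d2, d3, d4⟩ :=
    dglue_inf (dist_nonneg (x := p) (y := a1)) (dist_nonneg (x := a1) (y := y1)) hε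
  obtain ⟨l, u, k, p0, p1, u0, u1, k0, f1, f2, f3, f4, f5, f6, f7, f8⟩ :=
    dglue_par ht.1 ht.2 c0 c1 d0 d1
  obtain ⟨a, ha, hab⟩ := hB a0 ha0 a1 ha1 u ⟨u0, u1⟩
  have g1 := dglue_uniq hS (hBS ha0) (hBS ha1) (hBS ha) ⟨u0, u1⟩ hab p hp
  have g2 := dglue_uniq hT (hBT ha0) (hBT ha1) (hBT ha) ⟨u0, u1⟩ hab m hm
  have g3 := dglue_uniq hT h0 h1 hm ht h a0 (hBT ha0)
  have g4 := dglue_uniq hT h0 h1 hm ht h a1 (hBT ha1)
  have q0 : 0 < 1 - l0 := sub_pos.2 c1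
  have q1 : 0 < 1 - l1 := sub_pos.2 d1
  have g5 := dglue_box hT (hBT ha0) h1 (hBT ha1) h0 (i := 1 - l1) (j := l1 * (1 - l0))
    (k := 1 - l0) (n := l0 * (1 - l1)) q1.le (by positivity) q0.le (by positivity) (by ring)
    (by positivity)
  unfold DGlueCN at g1 g2 g3 g4
  rw [dist_comm y1 a1, dist_comm y1 y0, c3, d3] at g5
  rw [c2, d2] at g1
  rw [c3] at g3
  rw [d3] at g4
  rw [dist_comm m a, dist_comm m a0, dist_comm m a1] at g2
  have tri : dist p m ^ 2 ≤ (dist p a + dist a m) ^ 2 :=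
    pow_le_pow_left₀ dist_nonneg (dist_triangle p a m) 2
  rw [← e0] at c4
  rw [← e1] at d4
  generalize dist a0 a1 ^ 2 = c at *
  generalize dist y0 y1 ^ 2 = e at *
  generalize dist a0 y1 ^ 2 = d01 at *
  generalize dist a1 y0 ^ 2 = d10 at *
  generalize dist a0 m ^ 2 = m0 at *
  generalize dist a1 m ^ 2 = m1 at *
  have g6 : l1 * d01 + l0 * d10 ≤
      c + l0 * (1 - l1) * S0 + l1 * (1 - l0) * S1 + l0 * l1 * e := by
    refine le_of_mul_le_mul_left ?_ (mul_pos q0 q1)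
    linarith
  have hA : dist p a ^ 2 ≤ l * ((1 - t) * R0 + t * R1 - k * c) := by
    linear_combination g1 + R0 * f1 + R1 * f2 - c * f3
  have hM : dist a m ^ 2 ≤ (1 - l) * ((1 - t) * S0 + t * S1 - t * (1 - t) * e + k * c) := by
    have g7 := mul_le_mul_of_nonneg_left g3 (sub_nonneg.2 u1)
    have g8 := mul_le_mul_of_nonneg_left g4 u0
    have g9 := mul_le_mul_of_nonneg_left g6 k0
    linear_combination g2 + g7 + g8 + g9 + d01 * f4 + d10 * f5 + S0 * f7 + S1 * f8 + e * f6 - c * f3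
  have fin := dglue_split p0 p1 hA hM
  have j0 := mul_le_mul_of_nonneg_left c4 (sub_nonneg.2 ht.2)
  have j1 := mul_le_mul_of_nonneg_left d4 ht.1
  linarith

theorem dglue_step {S T B : Set Y} (hS : CT S) (hT : CT T) (hBS : B ⊆ S) (hBT : B ⊆ T)
    (hB : ∀ a ∈ B, ∀ b ∈ B, ∀ t ∈ Set.Icc (0 : ℝ) 1, ∃ m ∈ B, Btw a b m t) {x y a b : Y} {τ : ℝ}
    (hx : x ∈ S) (hy : y ∈ T) (ha : a ∈ B) (hb : b ∈ B) (t0 : 0 < τ) (t1 : τ < 1)
    (h : Btw x y a τ) : DGlueCN x y a τ b := by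
  have key : ∀ ε : ℝ, 0 < ε → ε ≤ 1 → (1 - ε) * dist a b ^ 2 ≤
      (1 - τ) * dist x b ^ 2 + τ * dist y b ^ 2 - τ * (1 - τ) * dist x y ^ 2 := by
    intro ε e0 e1
    obtain ⟨m, hm, hab⟩ := hB a ha b hb ε ⟨e0.le, e1⟩
    have g1 := dglue_uniq hS (hBS ha) (hBS hb) (hBS hm) ⟨e0.le, e1⟩ hab x hx
    have g2 := dglue_uniq hT (hBT ha) (hBT hb) (hBT hm) ⟨e0.le, e1⟩ hab y hy
    unfold DGlueCN at g1 g2
    rw [h.1] at g1
    rw [dist_comm y a, h.2] at g2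
    have tri : dist x y ^ 2 ≤ (dist x m + dist y m) ^ 2 :=
      pow_le_pow_left₀ dist_nonneg (dist_triangle_right x y m) 2
    have g3 := mul_le_mul_of_nonneg_left g1 (sub_pos.2 t1).le
    have g4 := mul_le_mul_of_nonneg_left g2 t0.le
    have g5 := mul_le_mul_of_nonneg_left tri (mul_pos t0 (sub_pos.2 t1)).le
    refine le_of_mul_le_mul_left ?_ e0
    linarith [sq_nonneg ((1 - τ) * dist x m - τ * dist y m)]
  unfold DGlueCN
  rw [dist_comm b a, dist_comm b x, dist_comm b y]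
  refine le_of_forall_pos_le_add fun ε hε => ?_
  have h0 : 0 ≤ dist a b ^ 2 := sq_nonneg _
  have h1 : 0 < dist a b ^ 2 + ε := by positivity
  have h2 := key (ε / (dist a b ^ 2 + ε)) (by positivity) ((div_le_one h1).2 (by linarith))
  have h3 : ε / (dist a b ^ 2 + ε) * dist a b ^ 2 ≤ ε := by
    rw [div_mul_eq_mul_div, div_le_iff₀ h1]
    nlinarith
  linarith

theorem dglue_caseB {S T B : Set Y} (hS : CT S) (hT : CT T) (hBS : B ⊆ S) (hBT : B ⊆ T)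
    (hB : ∀ a ∈ B, ∀ b ∈ B, ∀ t ∈ Set.Icc (0 : ℝ) 1, ∃ m ∈ B, Btw a b m t)
    (hsep : ∀ x ∈ S, ∀ y ∈ T, ∃ a ∈ B, dist x y = dist x a + dist a y) {x y a p : Y} {τ : ℝ}
    (hx : x ∈ S) (hy : y ∈ T) (ha : a ∈ B) (ht : τ ∈ Set.Icc (0 : ℝ) 1) (h : Btw x y a τ)
    (hp : p ∈ S) : DGlueCN x y a τ p := by
  rcases ht.1.eq_or_lt with t0 | t0
  · have : x = a := dist_eq_zero.1 (by rw [h.1, ← t0, zero_mul])
    unfold DGlueCN
    rw [← t0, this]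
    simp
  rcases ht.2.eq_or_lt with t1 | t1
  · have : a = y := dist_eq_zero.1 (by rw [h.2, t1, sub_self, zero_mul])
    unfold DGlueCN
    rw [t1, this]
    simp
  obtain ⟨b, hb, e⟩ := hsep p hp y hy
  have g1 := dglue_step hS hT hBS hBT hB hx hy ha hb t0 t1 h
  unfold DGlueCN at *
  refine le_of_forall_pos_le_add fun ε hε => ?_
  obtain ⟨l, R, S', c0, c1, c2, c3, c4⟩ :=
    dglue_inf (dist_nonneg (x := p) (y := b)) (dist_nonneg (x := b) (y := y)) hε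
  have q0 : 0 < 1 - l := sub_pos.2 c1
  have q1 : 0 < 1 - τ := sub_pos.2 t1
  have g2 := dglue_box hS (hBS ha) hp (hBS hb) hx (i := l) (j := (1 - l) * τ) (k := τ)
    (n := (1 - τ) * l) c0.le (by positivity) t0.le (by positivity) (by ring) (by positivity)
  rw [dist_comm a p, dist_comm a b, dist_comm a x, h.1, c2] at g2
  rw [c3] at g1
  rw [← e] at c4
  have g3 := mul_le_mul_of_nonneg_left g1 (mul_pos c0 t0).le
  have g4 : dist p a ^ 2 ≤ (1 - τ) * dist p x ^ 2 + τ * (R + S') - τ * (1 - τ) * dist x y ^ 2 := by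
    refine le_of_mul_le_mul_left ?_ (mul_pos (mul_pos c0 t0) q0)
    linarith
  have g5 := mul_le_mul_of_nonneg_left c4 t0.le
  have g6 := mul_le_mul_of_nonneg_right t1.le hε.le
  linarith

theorem dglue_half {S U : Set Y} (hS : CT S) {x y a : Y} {τ t : ℝ} (hx : x ∈ S) (ha : a ∈ S)
    (h : Btw x y a τ) (t0 : 0 ≤ t) (t1 : t ≤ τ)
    (hA : ∀ m ∈ S, ∀ σ ∈ Set.Icc (0 : ℝ) 1, Btw x a m σ → ∀ p ∈ U, DGlueCN x a m σ p)
    (hB : ∀ p ∈ U, DGlueCN x y a τ p) : ∃ m ∈ S, Btw x y m t ∧ ∀ p ∈ U, DGlueCN x y m t p := by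
  obtain ⟨σ, hσ, e⟩ : ∃ σ ∈ Set.Icc (0 : ℝ) 1, t = σ * τ := by
    rcases (t0.trans t1).eq_or_lt with h0 | h0
    · exact ⟨0, ⟨le_rfl, zero_le_one⟩, by linarith⟩
    · exact ⟨t / τ, ⟨by positivity, (div_le_one h0).2 t1⟩, by field_simp⟩
  obtain ⟨m, hm, hb, -⟩ := hS x hx a ha σ hσ
  have e1 : dist x m = t * dist x y := by rw [hb.1, h.1, e]; ring
  refine ⟨m, hm, ⟨e1, le_antisymm ?_ ?_⟩, fun p hp => ?_⟩
  · have := dist_triangle m a y
    rw [hb.2, h.1, h.2] at this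
    rw [e]
    linarith
  · linarith [dist_triangle x m y]
  · have g1 := hA m hm σ hσ hb p hp
    have g2 := mul_le_mul_of_nonneg_left (hB p hp) hσ.1
    unfold DGlueCN at *
    rw [h.1] at g1
    rw [e]
    linarith

theorem dglue_cross {S T B : Set Y} (hS : CT S) (hT : CT T) (hBS : B ⊆ S) (hBT : B ⊆ T)
    (hB : ∀ a ∈ B, ∀ b ∈ B, ∀ t ∈ Set.Icc (0 : ℝ) 1, ∃ m ∈ B, Btw a b m t)
    (hsep : ∀ x ∈ S, ∀ y ∈ T, ∃ a ∈ B, dist x y = dist x a + dist a y)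
    (hsep' : ∀ x ∈ T, ∀ y ∈ S, ∃ a ∈ B, dist x y = dist x a + dist a y) {x y : Y} {t : ℝ}
    (hx : x ∈ S) (hy : y ∈ T) (ht : t ∈ Set.Icc (0 : ℝ) 1) :
    ∃ m ∈ S ∪ T, Btw x y m t ∧ ∀ p ∈ S ∪ T, DGlueCN x y m t p := by
  obtain ⟨a, ha, e⟩ := hsep x hx y hy
  obtain ⟨τ, hτ, h⟩ : ∃ τ ∈ Set.Icc (0 : ℝ) 1, Btw x y a τ := by
    have d1 : 0 ≤ dist x a := dist_nonneg
    have d2 : 0 ≤ dist a y := dist_nonneg
    rcases (dist_nonneg (x := x) (y := y)).eq_or_lt with h0 | h0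
    · exact ⟨0, ⟨le_rfl, zero_le_one⟩, by linarith, by linarith⟩
    · refine ⟨dist x a / dist x y, ⟨by positivity, (div_le_one h0).2 (by linarith)⟩,
        by field_simp, ?_⟩
      rw [sub_mul, div_mul_cancel₀ _ h0.ne']
      linarith
  have hτ' : 1 - τ ∈ Set.Icc (0 : ℝ) 1 := ⟨by linarith [hτ.2], by linarith [hτ.1]⟩
  have hc : ∀ p ∈ S ∪ T, DGlueCN x y a τ p := by
    rintro p (hp | hp)
    · exact dglue_caseB hS hT hBS hBT hB hsep hx hy ha hτ h hp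
    · simpa using dglue_cn_symm
        (dglue_caseB hT hS hBT hBS hB hsep' hy hx ha hτ' (dglue_btw_symm h) hp)
  rcases le_total t τ with h1 | h1
  · obtain ⟨m, hm, h2, h3⟩ := dglue_half (U := S ∪ T) hS hx (hBS ha) h ht.1 h1
      (by
        rintro m hm σ hσ hb p (hp | hp)
        · exact dglue_uniq hS hx (hBS ha) hm hσ hb p hp
        · exact dglue_caseA hT hS hBT hBS hB hsep' hx (hBS ha) hm hσ hb hp) hc
    exact ⟨m, Or.inl hm, h2, h3⟩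
  · obtain ⟨m, hm, h2, h3⟩ := dglue_half (U := S ∪ T) (t := 1 - t) hT hy (hBT ha)
      (dglue_btw_symm h) (by linarith [ht.2]) (by linarith)
      (by
        rintro m hm σ hσ hb p (hp | hp)
        · exact dglue_caseA hS hT hBS hBT hB hsep hy (hBT ha) hm hσ hb hp
        · exact dglue_uniq hT hy (hBT ha) hm hσ hb p hp) fun p hp => dglue_cn_symm (hc p hp)
    exact ⟨m, Or.inr hm, by simpa using dglue_btw_symm h2,
      fun p hp => by simpa using dglue_cn_symm (h3 p hp)⟩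

/-- Gluing along a convex subset. -/
theorem CT.glue {S T B : Set Y} (hS : CT S) (hT : CT T) (hBS : B ⊆ S) (hBT : B ⊆ T)
    (hB : ∀ a ∈ B, ∀ b ∈ B, ∀ t ∈ Set.Icc (0 : ℝ) 1, ∃ m ∈ B, Btw a b m t)
    (hsep : ∀ x ∈ S, ∀ y ∈ T, ∃ a ∈ B, dist x y = dist x a + dist a y) : CT (S ∪ T) := by
  have hsep' : ∀ x ∈ T, ∀ y ∈ S, ∃ a ∈ B, dist x y = dist x a + dist a y := by
    intro x hx y hy
    obtain ⟨a, ha, e⟩ := hsep y hy x hx
    exact ⟨a, ha, by rw [dist_comm x y, e, dist_comm x a, dist_comm a y, add_comm]⟩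
  rintro x (hx | hx) y (hy | hy) t ht
  · obtain ⟨m, hm, h1, h2⟩ := hS x hx y hy t ht
    refine ⟨m, Or.inl hm, h1, ?_⟩
    rintro p (hp | hp)
    · exact h2 p hp
    · exact dglue_caseA hT hS hBT hBS hB hsep' hx hy hm ht h1 hp
  · exact dglue_cross hS hT hBS hBT hB hsep hsep' hx hy ht
  · rw [Set.union_comm]
    exact dglue_cross hT hS hBT hBS hB hsep' hsep hx hy ht
  · obtain ⟨m, hm, h1, h2⟩ := hT x hx y hy t ht
    refine ⟨m, Or.inr hm, h1, ?_⟩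
    rintro p (hp | hp)
    · exact dglue_caseA hS hT hBS hBT hB hsep hx hy hm ht h1 hp
    · exact h2 p hp

theorem cn_of_ct (h : ∀ x y z w : Y, ∃ S, CT S ∧ x ∈ S ∧ y ∈ S ∧ z ∈ S ∧ w ∈ S) (x y : Y) :
    ∃ m : Y, ∀ z : Y, dist z m ^ 2 ≤ (dist z x ^ 2 + dist z y ^ 2) / 2 - dist x y ^ 2 / 4 := by
  have ht : (1 / 2 : ℝ) ∈ Set.Icc (0 : ℝ) 1 := ⟨by norm_num, by norm_num⟩
  obtain ⟨S, hS, hx, hy, -⟩ := h x y x y
  obtain ⟨m, -, hm, -⟩ := hS x hx y hy _ ht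
  refine ⟨m, fun z => ?_⟩
  obtain ⟨S', hS', hx', hy', hz', hm'⟩ := h x y z m
  have := dglue_uniq hS' hx' hy' hm' ht hm z hz'
  unfold DGlueCN at this
  linarith

end Pool.Agent.FC
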