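import Pool.Agent.P.MP_5e292f_al.DRT

set_option autoImplicit false

namespace Pool.Agent.FC

variable {α : Type} {ρ : α → α → ℕ}

/-- Gromov product at `o` -/
noncomputable def drt2M (ρ : α → α → ℕ) (o a x : α) : ℝ := ((ρ o a : ℝ) + ρ o x - ρ a x) / 2

/-- the point at height `h` between `o` and `a` -/
noncomputable def drt2P (ρ : α → α → ℕ) (o a : α) (h : ℝ) : α → ℝ :=
  fun x => h + ρ o x - 2 * min h (drt2M ρ o a x)

theorem drt2_comm (T : TM ρ) (o a c : α) : drt2M ρ o a c = drt2M ρ o c a := by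
  unfold drt2M
  rw [T.symm a c]
  ring

theorem drt2_self (T : TM ρ) (o a : α) : drt2M ρ o a a = ρ o a := by
  unfold drt2M
  rw [T.refl a]
  push_cast
  ring

theorem drt2_nonneg (T : TM ρ) (o a c : α) : 0 ≤ drt2M ρ o a c := by
  have h := T.tri a o c
  rw [T.symm a o] at h
  have h' : (ρ a c : ℝ) ≤ ρ o a + ρ o c := by exact_mod_cast h
  unfold drt2M
  linarith

theorem drt2_ultra (T : TM ρ) (o a c x : α) :
    drt2M ρ o a x ≤ drt2M ρ o a c ∨ drt2M ρ o c x ≤ drt2M ρ o a c := by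
  have h := T.four a c o x
  rw [T.symm a o, T.symm c o] at h
  unfold drt2M
  rcases le_max_iff.1 h with h | h
  · have h' : (ρ a c : ℝ) + ρ o x ≤ ρ o a + ρ c x := by exact_mod_cast h
    right
    linarith
  · have h' : (ρ a c : ℝ) + ρ o x ≤ ρ a x + ρ o c := by exact_mod_cast h
    left
    linarith

theorem drt2_edge (T : TM ρ) {o a b : α} (hab : ρ a b ≤ 1) (ho : ρ o b ≤ ρ o a) {s : ℝ}
    (hs : s ∈ Set.Icc (0 : ℝ) 1) : pt ρ a b s = drt2P ρ o a (ρ o a - s * ρ a b) := by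
  funext x
  obtain ⟨s0, s1⟩ := hs
  have t1 := T.tri a b x
  have t2 := T.tri b a x
  have t3 := T.tri o a x
  have t4 := T.tri o b x
  have t5 := T.tri o b a
  have t6 := T.four o a b x
  rw [T.symm b a] at t2 t5
  unfold pt drt2P drt2M
  rcases Nat.le_one_iff_eq_zero_or_eq_one.1 hab with h | h
  · have e : ρ b x = ρ a x := by omega
    have h3 : (ρ o x : ℝ) ≤ ρ o a + ρ a x := by exact_mod_cast t3
    rw [h, e, min_eq_right (by push_cast; linarith)]
    push_cast
    ring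
  · have p1 := T.par a b x h
    have p2 := T.par a b o h
    rw [T.symm a o, T.symm b o] at p2
    rw [h]
    rcases lt_or_gt_of_ne p1 with h1 | h1
    · have e1 : ρ b x = ρ a x + 1 := by omega
      have e2 : ρ o x = ρ o a + ρ a x := by omega
      rw [e1, e2, min_eq_left (by push_cast; linarith)]
      push_cast
      ring
    · have e1 : ρ a x = ρ b x + 1 := by omega
      have e2 : ρ o x + 2 ≤ ρ o a + ρ a x := by omega
      have h3 : (ρ o x : ℝ) + 2 ≤ ρ o a + ρ a x := by exact_mod_cast e2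
      rw [min_eq_right (by push_cast; linarith), e1]
      push_cast
      ring

theorem drt2_rep0 (T : TM ρ) {o a b : α} (hab : ρ a b ≤ 1) (ho : ρ o b ≤ ρ o a) {s : ℝ}
    (hs : s ∈ Set.Icc (0 : ℝ) 1) : ∃ h : ℝ, 0 ≤ h ∧ h ≤ ρ o a ∧ pt ρ a b s = drt2P ρ o a h := by
  refine ⟨_, ?_, ?_, drt2_edge T hab ho hs⟩
  · have e : ρ a b ≤ ρ o a := by
      rcases Nat.le_one_iff_eq_zero_or_eq_one.1 hab with h | h
      · omega
      · have p2 := T.par a b o h
        rw [T.symm a o, T.symm b o] at p2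
        omega
    have e' : (ρ a b : ℝ) ≤ ρ o a := by exact_mod_cast e
    have := mul_le_mul_of_nonneg_right hs.2 (Nat.cast_nonneg (ρ a b) : (0 : ℝ) ≤ _)
    linarith
  · have := mul_nonneg hs.1 (Nat.cast_nonneg (ρ a b) : (0 : ℝ) ≤ _)
    linarith

theorem drt2_rep (T : TM ρ) (o : α) {W : Set α} {p : α → ℝ} (hp : p ∈ RT ρ W) :
    ∃ a ∈ W, ∃ h : ℝ, 0 ≤ h ∧ h ≤ ρ o a ∧ p = drt2P ρ o a h := by
  obtain ⟨a, ha, b, hb, s, hs, hab, rfl⟩ := hp
  rcases le_total (ρ o b) (ρ o a) with h | h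
  · exact ⟨a, ha, drt2_rep0 T hab h hs⟩
  · have e : pt ρ a b s = pt ρ b a (1 - s) := by
      funext x
      unfold pt
      ring
    rw [e]
    exact ⟨b, hb, drt2_rep0 T (by rwa [T.symm b a]) h ⟨by linarith [hs.2], by linarith [hs.1]⟩⟩

theorem drt2_side (T : TM ρ) (o a c x : α) (h k : ℝ) :
    drt2P ρ o a h x - drt2P ρ o c k x ≤ h + k - 2 * min (min h k) (drt2M ρ o a c) := by
  have m1 : min (min h k) (drt2M ρ o a c) ≤ h := (min_le_left _ _).trans (min_le_left _ _)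
  have m2 : min (min h k) (drt2M ρ o a c) ≤ k := (min_le_left _ _).trans (min_le_right _ _)
  have m3 : min (min h k) (drt2M ρ o a c) ≤ drt2M ρ o a c := min_le_right _ _
  have m4 := min_le_left k (drt2M ρ o c x)
  have m5 := min_le_right k (drt2M ρ o c x)
  have u := drt2_ultra T o a x c
  rw [drt2_comm T o x c] at u
  unfold drt2P
  rcases min_choice h (drt2M ρ o a x) with e | e <;> rw [e]
  · linarith
  · rcases u with u | u <;> linarith

theorem drt2_DD (T : TM ρ) (o a c : α) {h k : ℝ} (hh : h ≤ ρ o a) (hk : k ≤ ρ o c) :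
    DD (drt2P ρ o a h) (drt2P ρ o c k) = h + k - 2 * min (min h k) (drt2M ρ o a c) := by
  have up : ∀ x, |drt2P ρ o a h x - drt2P ρ o c k x| ≤
      h + k - 2 * min (min h k) (drt2M ρ o a c) := fun x => by
    have h1 := drt2_side T o a c x h k
    have h2 := drt2_side T o c a x k h
    rw [drt2_comm T o c a, min_comm k h] at h2
    rw [abs_le]
    constructor <;> linarith
  have : Nonempty α := ⟨o⟩
  have bd : BddAbove (Set.range fun x => |drt2P ρ o a h x - drt2P ρ o c k x|) :=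
    ⟨_, by rintro _ ⟨x, rfl⟩; exact up x⟩
  refine le_antisymm (ciSup_le up) ?_
  have l1 : h + k - 2 * min k (drt2M ρ o a c) ≤ DD (drt2P ρ o a h) (drt2P ρ o c k) := by
    refine le_trans ?_ ((neg_le_abs _).trans (le_ciSup bd a))
    unfold drt2P
    rw [drt2_self T, min_eq_left hh, drt2_comm T o c a]
    linarith
  have l2 : h + k - 2 * min h (drt2M ρ o a c) ≤ DD (drt2P ρ o a h) (drt2P ρ o c k) := by
    refine le_trans ?_ ((le_abs_self _).trans (le_ciSup bd c))
    unfold drt2P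
    rw [drt2_self T, min_eq_left hk]
    linarith
  rcases min_choice h k with e | e <;> rw [e] <;> assumption

theorem drt2_ultra' (T : TM ρ) (o a c x : α) (h k l : ℝ) :
    min (min h l) (drt2M ρ o a x) ≤ min (min h k) (drt2M ρ o a c) ∨
      min (min k l) (drt2M ρ o c x) ≤ min (min h k) (drt2M ρ o a c) := by
  rw [← min_le_iff]
  refine le_min (le_min ?_ ?_) ?_
  · exact (min_le_left _ _).trans ((min_le_left _ _).trans (min_le_left _ _))
  · exact (min_le_right _ _).trans ((min_le_left _ _).trans (min_le_left _ _))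
  · rcases drt2_ultra T o a c x with u | u
    · exact (min_le_left _ _).trans ((min_le_right _ _).trans u)
    · exact (min_le_right _ _).trans ((min_le_right _ _).trans u)

theorem DD_four (T : TM ρ) {p q r s : α → ℝ} (hp : p ∈ RT ρ Set.univ) (hq : q ∈ RT ρ Set.univ)
    (hr : r ∈ RT ρ Set.univ) (hs : s ∈ RT ρ Set.univ) :
    DD p q + DD r s ≤ max (DD p r + DD q s) (DD p s + DD q r) := by
  have ⟨o, _⟩ := hp
  obtain ⟨a, -, h1, -, k1, rfl⟩ := drt2_rep T o hp
  obtain ⟨b, -, h2, -, k2, rfl⟩ := drt2_rep T o hq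
  obtain ⟨c, -, h3, -, k3, rfl⟩ := drt2_rep T o hr
  obtain ⟨d, -, h4, -, k4, rfl⟩ := drt2_rep T o hs
  rw [drt2_DD T o a b k1 k2, drt2_DD T o c d k3 k4, drt2_DD T o a c k1 k3, drt2_DD T o b d k2 k4,
    drt2_DD T o a d k1 k4, drt2_DD T o b c k2 k3]
  have u1 := drt2_ultra' T o a b c h1 h2 h3
  have u2 := drt2_ultra' T o a b d h1 h2 h4
  have u3 := drt2_ultra' T o c d a h3 h4 h1
  have u4 := drt2_ultra' T o c d b h3 h4 h2
  rw [drt2_comm T o c a, drt2_comm T o d a, min_comm h3 h1, min_comm h4 h1] at u3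
  rw [drt2_comm T o c b, drt2_comm T o d b, min_comm h3 h2, min_comm h4 h2] at u4
  by_contra hn
  rw [not_le, max_lt_iff] at hn
  obtain ⟨n1, n2⟩ := hn
  rcases u1 with u1 | u1 <;> rcases u2 with u2 | u2 <;> rcases u3 with u3 | u3 <;>
    rcases u4 with u4 | u4 <;> linarith

theorem drt2_real {a b d L t : ℝ} (d0 : 0 ≤ d) (t0 : 0 ≤ t) (h : d ≤ a - t * L) (h1 : a ≤ b + L)
    (h2 : L ≤ a + b) : d ^ 2 ≤ (1 - t) * a ^ 2 + t * b ^ 2 - t * (1 - t) * L ^ 2 := by
  have e1 : d ^ 2 ≤ (a - t * L) ^ 2 := pow_le_pow_left₀ d0 h 2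
  have e2 : 0 ≤ t * ((b - (a - L)) * (b + (a - L))) :=
    mul_nonneg t0 (mul_nonneg (by linarith) (by linarith))
  linarith

theorem DD_cn (T : TM ρ) {p q z m : α → ℝ} (hp : p ∈ RT ρ Set.univ) (hq : q ∈ RT ρ Set.univ)
    (hz : z ∈ RT ρ Set.univ) (hm : m ∈ RT ρ Set.univ) {t : ℝ} (ht : t ∈ Set.Icc (0 : ℝ) 1)
    (h1 : DD p m = t * DD p q) (h2 : DD m q = (1 - t) * DD p q) :
    DD z m ^ 2 ≤ (1 - t) * DD z p ^ 2 + t * DD z q ^ 2 - t * (1 - t) * DD p q ^ 2 := by
  have f := DD_four T hz hm hp hq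
  have t1 := DD_tri T hz hq hp
  have t2 := DD_tri T hz hp hq
  have t3 := DD_tri T hp hz hq
  rw [DD_comm q p] at t1
  rw [DD_comm p z] at t3
  rw [DD_comm m p, h1, h2] at f
  rcases le_max_iff.1 f with f | f
  · exact drt2_real (DD_nonneg z m) ht.1 (by linarith) t1 t3
  · have := drt2_real (a := DD z q) (b := DD z p) (L := DD p q) (t := 1 - t) (DD_nonneg z m)
      (by linarith [ht.2]) (by linarith) t2 (by linarith)
    linarith

theorem drt2_mem (T : TM ρ) {W : Set α}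
    (hW : ∀ a ∈ W, ∀ b ∈ W, ∀ n, ρ a b = n + 1 → ∃ c ∈ W, ρ a c = 1 ∧ ρ c b = n) {o : α}
    (ho : o ∈ W) (n : ℕ) : ∀ a ∈ W, ρ a o = n → ∀ h : ℝ, 0 ≤ h → h ≤ ρ o a →
      drt2P ρ o a h ∈ RT ρ W := by
  induction n with
  | zero =>
    intro a ha e h h0 h1
    refine ⟨a, ha, a, ha, 0, ⟨le_rfl, zero_le_one⟩, by rw [T.refl]; omega, ?_⟩
    rw [drt2_edge T (o := o) (by rw [T.refl]; omega) le_rfl ⟨le_rfl, zero_le_one⟩]
    rw [T.symm o a, e] at h1 ⊢
    congr 1
    push_cast at h1 ⊢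
    linarith
  | succ n ih =>
    intro a ha e h h0 h1
    obtain ⟨c, hc, e1, e2⟩ := hW a ha o ho n e
    have e3 : ρ o a = n + 1 := by rw [T.symm, e]
    have e4 : ρ o c = n := by rw [T.symm, e2]
    rcases le_total h n with hn | hn
    · have m : drt2M ρ o a c = n := by
        unfold drt2M
        rw [e1, e3, e4]
        push_cast
        ring
      have e5 : drt2P ρ o a h = drt2P ρ o c h := by
        funext x
        have u1 := drt2_ultra T o a x c
        have u2 := drt2_ultra T o c x a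
        rw [drt2_comm T o x c, m] at u1
        rw [drt2_comm T o x a, drt2_comm T o c a, m] at u2
        unfold drt2P
        congr 2
        refine le_antisymm (le_min (min_le_left _ _) ?_) (le_min (min_le_left _ _) ?_)
        · rcases u2 with u | u
          exacts [(min_le_left _ _).trans (hn.trans u), (min_le_right _ _).trans u]
        · rcases u1 with u | u
          exacts [(min_le_left _ _).trans (hn.trans u), (min_le_right _ _).trans u]
      rw [e5]
      exact ih c hc e2 h h0 (by rwa [e4])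
    · have hs : (ρ o a : ℝ) - h ∈ Set.Icc (0 : ℝ) 1 := by
        refine ⟨by linarith, ?_⟩
        rw [e3]
        push_cast
        linarith
      refine ⟨a, ha, c, hc, ρ o a - h, hs, e1.le, ?_⟩
      rw [drt2_edge T (o := o) e1.le (by omega) hs, e1]
      congr 1
      push_cast
      ring

theorem drt2_geo (T : TM ρ) {W : Set α}
    (hW : ∀ a ∈ W, ∀ b ∈ W, ∀ n, ρ a b = n + 1 → ∃ c ∈ W, ρ a c = 1 ∧ ρ c b = n) {o a c : α}
    (ho : o ∈ W) (ha : a ∈ W) {h k τ : ℝ} (h0 : 0 ≤ h) (h1 : h ≤ ρ o a) (k0 : 0 ≤ k)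
    (k1 : k ≤ ρ o c) (t0 : 0 ≤ τ) (t1 : τ ≤ h - min (min h k) (drt2M ρ o a c)) :
    ∃ m ∈ RT ρ W, DD (drt2P ρ o a h) m = τ ∧
      DD m (drt2P ρ o c k) = h + k - 2 * min (min h k) (drt2M ρ o a c) - τ := by
  have m0 : 0 ≤ min (min h k) (drt2M ρ o a c) := le_min (le_min h0 k0) (drt2_nonneg T o a c)
  have h2 : h - τ ≤ ρ o a := by linarith
  refine ⟨drt2P ρ o a (h - τ), drt2_mem T hW ho _ a ha rfl _ (by linarith) h2, ?_, ?_⟩
  · rw [drt2_DD T o a a h1 h2, drt2_self T, min_eq_right (by linarith : h - τ ≤ h), min_eq_left h2]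
    ring
  · have e : min (min (h - τ) k) (drt2M ρ o a c) = min (min h k) (drt2M ρ o a c) :=
      le_antisymm (min_le_min_right _ (min_le_min_right _ (by linarith)))
        (le_min (le_min (by linarith) ((min_le_left _ _).trans (min_le_right _ _)))
          (min_le_right _ _))
    rw [drt2_DD T o a c h2 k1, e]
    ring

theorem RT_geo (T : TM ρ) {W : Set α}
    (hW : ∀ a ∈ W, ∀ b ∈ W, ∀ n, ρ a b = n + 1 → ∃ c ∈ W, ρ a c = 1 ∧ ρ c b = n)
    {p q : α → ℝ} (hp : p ∈ RT ρ W) (hq : q ∈ RT ρ W) {t : ℝ} (ht : t ∈ Set.Icc (0 : ℝ) 1) :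
    ∃ m ∈ RT ρ W, DD p m = t * DD p q ∧ DD m q = (1 - t) * DD p q := by
  have ⟨o, ho, _⟩ := hp
  obtain ⟨a, ha, h, h0, h1, rfl⟩ := drt2_rep T o hp
  obtain ⟨c, hc, k, k0, k1, rfl⟩ := drt2_rep T o hq
  have L0 := DD_nonneg (drt2P ρ o a h) (drt2P ρ o c k)
  have e := drt2_DD T o a c h1 k1
  generalize DD (drt2P ρ o a h) (drt2P ρ o c k) = L at L0 e ⊢
  rcases le_total (t * L) (h - min (min h k) (drt2M ρ o a c)) with u | u
  · obtain ⟨m, hm, m1, m2⟩ := drt2_geo T hW ho ha h0 h1 k0 k1 (mul_nonneg ht.1 L0) u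
    exact ⟨m, hm, m1, by linarith⟩
  · obtain ⟨m, hm, m1, m2⟩ := drt2_geo T hW (c := a) (τ := (1 - t) * L) ho hc k0 k1 h0 h1
      (mul_nonneg (by linarith [ht.2]) L0)
      (by rw [drt2_comm T o c a, min_comm k h]; linarith)
    rw [drt2_comm T o c a, min_comm k h] at m2
    exact ⟨m, hm, by rw [DD_comm]; linarith, by rw [DD_comm]; exact m1⟩

end Pool.Agent.FC
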