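import Pool.Agent.P.MP_5e292f_al.DMet
import Pool.Agent.P.MP_5e292f_al.DRT2
import Pool.Agent.P.MP_5e292f_al.DGlue

set_option autoImplicit false

namespace Pool.Agent.FC

namespace Sys

variable (S : Sys)

theorem dpiece_dist {g k : S.G} (hk : S.h g k ≤ 1) {p q : S.X} (hp : p ∈ S.Pc g k)
    (hq : q ∈ S.Pc g k) : dist p q = Real.sqrt (DD p.1.1 q.1.1 ^ 2 + DD p.1.2 q.1.2 ^ 2) :=
  S.dist_adj ⟨g, k, hk, hp, hq⟩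

theorem dpiece_sq {g k : S.G} (hk : S.h g k ≤ 1) {p q : S.X} (hp : p ∈ S.Pc g k)
    (hq : q ∈ S.Pc g k) : dist p q ^ 2 = DD p.1.1 q.1.1 ^ 2 + DD p.1.2 q.1.2 ^ 2 := by
  rw [S.dpiece_dist hk hp hq, Real.sq_sqrt (by positivity)]

theorem dpiece_sqrt {t A B : ℝ} (ht : 0 ≤ t) :
    Real.sqrt ((t * A) ^ 2 + (t * B) ^ 2) = t * Real.sqrt (A ^ 2 + B ^ 2) := by
  have e : (t * A) ^ 2 + (t * B) ^ 2 = t ^ 2 * (A ^ 2 + B ^ 2) := by ring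
  rw [e, Real.sqrt_mul (sq_nonneg t), Real.sqrt_sq ht]

theorem dpiece_geo {g k : S.G} (hk : S.h g k ≤ 1) {p q : S.X} {s1 s2 t : ℝ}
    (hs1 : s1 ∈ Set.Icc (0 : ℝ) 1) (hs2 : s2 ∈ Set.Icc (0 : ℝ) 1) (e1 : p.1.1 = pt S.h g k s1)
    (e2 : q.1.1 = pt S.h g k s2) (hp : p.1.2 ∈ RT S.v (S.WE g k))
    (hq : q.1.2 ∈ RT S.v (S.WE g k)) (ht : t ∈ Set.Icc (0 : ℝ) 1) :
    ∃ m ∈ S.Pc g k, m.1.1 = pt S.h g k ((1 - t) * s1 + t * s2) ∧ Btw p q m t ∧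
      DD p.1.1 m.1.1 = t * DD p.1.1 q.1.1 ∧ DD m.1.1 q.1.1 = (1 - t) * DD p.1.1 q.1.1 ∧
      DD p.1.2 m.1.2 = t * DD p.1.2 q.1.2 ∧ DD m.1.2 q.1.2 = (1 - t) * DD p.1.2 q.1.2 := by
  obtain ⟨f, hf, f1, f2⟩ := RT_geo S.tv (S.WE_conv hk) hp hq ht
  have ht1 : 0 ≤ 1 - t := sub_nonneg.2 ht.2
  have hs : (1 - t) * s1 + t * s2 ∈ Set.Icc (0 : ℝ) 1 := by
    constructor
    · exact add_nonneg (mul_nonneg ht1 hs1.1) (mul_nonneg ht.1 hs2.1)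
    · have a1 := mul_le_mul_of_nonneg_left hs1.2 ht1
      have a2 := mul_le_mul_of_nonneg_left hs2.2 ht.1
      linarith
  let m : S.X := ⟨(pt S.h g k ((1 - t) * s1 + t * s2), f), S.inX_pc hk hs hf⟩
  have hm : m ∈ S.Pc g k := ⟨⟨_, hs, rfl⟩, hf⟩
  have hp' : p ∈ S.Pc g k := ⟨⟨_, hs1, e1⟩, hp⟩
  have hq' : q ∈ S.Pc g k := ⟨⟨_, hs2, e2⟩, hq⟩
  have g1 : DD p.1.1 m.1.1 = t * DD p.1.1 q.1.1 := by
    change DD p.1.1 (pt S.h g k ((1 - t) * s1 + t * s2)) = _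
    have e : s1 - ((1 - t) * s1 + t * s2) = t * (s1 - s2) := by ring
    rw [e1, e2, DD_edge S.th hk, DD_edge S.th hk, e, abs_mul, abs_of_nonneg ht.1, mul_assoc]
  have g2 : DD m.1.1 q.1.1 = (1 - t) * DD p.1.1 q.1.1 := by
    change DD (pt S.h g k ((1 - t) * s1 + t * s2)) q.1.1 = _
    have e : (1 - t) * s1 + t * s2 - s2 = (1 - t) * (s1 - s2) := by ring
    rw [e1, e2, DD_edge S.th hk, DD_edge S.th hk, e, abs_mul, abs_of_nonneg ht1, mul_assoc]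
  have f1' : DD p.1.2 m.1.2 = t * DD p.1.2 q.1.2 := f1
  have f2' : DD m.1.2 q.1.2 = (1 - t) * DD p.1.2 q.1.2 := f2
  refine ⟨m, hm, rfl, ⟨?_, ?_⟩, g1, g2, f1', f2'⟩
  · rw [S.dpiece_dist hk hp' hm, S.dpiece_dist hk hp' hq', g1, f1', dpiece_sqrt ht.1]
  · rw [S.dpiece_dist hk hm hq', S.dpiece_dist hk hp' hq', g2, f2', dpiece_sqrt ht1]

theorem ct_pc {g k : S.G} (hk : S.h g k ≤ 1) : CT (S.Pc g k) := by
  intro x hx y hy t ht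
  obtain ⟨⟨s1, hs1, e1⟩, hx2⟩ := id hx
  obtain ⟨⟨s2, hs2, e2⟩, hy2⟩ := id hy
  obtain ⟨m, hm, -, hb, g1, g2, f1, f2⟩ := S.dpiece_geo hk hs1 hs2 e1 e2 hx2 hy2 ht
  refine ⟨m, hm, hb, fun z hz => ?_⟩
  have a1 := DD_cn S.th (S.mem_h x) (S.mem_h y) (S.mem_h z) (S.mem_h m) ht g1 g2
  have a2 := DD_cn S.tv (S.mem_v x) (S.mem_v y) (S.mem_v z) (S.mem_v m) ht f1 f2
  rw [S.dpiece_sq hk hz hm, S.dpiece_sq hk hz hx, S.dpiece_sq hk hz hy, S.dpiece_sq hk hx hy]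
  linarith

theorem bd_sub (g k : S.G) : S.Bd g k ⊆ S.Pc g k ∧ S.Bd g k ⊆ S.Pc g g ∧ S.Bd g k ⊆ S.Pc k g := by
  refine ⟨fun p hp => ⟨⟨0, ⟨le_rfl, zero_le_one⟩, hp.1.trans ?_⟩, hp.2⟩,
    fun p hp => ⟨⟨0, ⟨le_rfl, zero_le_one⟩, hp.1⟩, RT_mono ?_ hp.2⟩,
    fun p hp => ⟨⟨1, ⟨zero_le_one, le_rfl⟩, hp.1.trans ?_⟩, ?_⟩⟩
  · funext x
    simp [pt]
  · exact fun a ha => ⟨ha.1, a, ha.1, S.tv.refl a⟩
  · funext x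
    simp [pt]
  · rw [S.RT_WE_symm k g]
    exact hp.2

theorem bd_conv {g k : S.G} (hk : S.h g k ≤ 1) : ∀ a ∈ S.Bd g k, ∀ b ∈ S.Bd g k,
    ∀ t ∈ Set.Icc (0 : ℝ) 1, ∃ m ∈ S.Bd g k, Btw a b m t := by
  intro a ha b hb t ht
  have e : pt S.h g g 0 = pt S.h g k 0 := by
    funext x
    simp [pt]
  obtain ⟨m, hm, e1, hb, -⟩ := S.dpiece_geo hk ⟨le_rfl, zero_le_one⟩ ⟨le_rfl, zero_le_one⟩
    (ha.1.trans e) (hb.1.trans e) ha.2 hb.2 ht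
  refine ⟨m, ⟨e1.trans ?_, hm.2⟩, hb⟩
  funext x
  simp [pt]

theorem dpiece_symm (g k : S.G) : S.Pc g k ⊆ S.Pc k g := by
  rintro p ⟨⟨s, hs, e⟩, hp⟩
  refine ⟨⟨1 - s, ⟨sub_nonneg.2 hs.2, by linarith [hs.1]⟩, e.trans ?_⟩, ?_⟩
  · funext x
    simp only [pt]
    ring
  · rw [S.RT_WE_symm k g]
    exact hp

theorem pc_symm (g k : S.G) : S.Pc g k = S.Pc k g :=
  Set.Subset.antisymm (S.dpiece_symm g k) (S.dpiece_symm k g)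

theorem dpiece_congr {g k g' k' : S.G} (h1 : S.h g g' = 0) (h2 : S.h k k' = 0) :
    S.Pc g k ⊆ S.Pc g' k' := by
  rintro p ⟨⟨s, hs, e⟩, hp⟩
  refine ⟨⟨s, hs, e.trans (pt_congr S.th h1 h2 s)⟩, RT_mono ?_ hp⟩
  rintro a ⟨ha, b, hb, hab⟩
  refine ⟨?_, b, ?_, hab⟩
  · have a1 := S.th.tri g' g a
    have a2 := S.th.symm g' g
    omega
  · have a1 := S.th.tri k' k b
    have a2 := S.th.symm k' k
    omega

theorem pc_congr {g k g' k' : S.G} (h1 : S.h g g' = 0) (h2 : S.h k k' = 0) :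
    S.Pc g k = S.Pc g' k' :=
  Set.Subset.antisymm (S.dpiece_congr h1 h2)
    (S.dpiece_congr ((S.th.symm _ _).trans h1) ((S.th.symm _ _).trans h2))

end Sys

end Pool.Agent.FC
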