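import Pool.Agent.P.MP_5e292f_al.DSep
import Pool.Agent.P.MP_5e292f_al.DPiece

set_option autoImplicit false

namespace Pool.Agent.FC

namespace Sys

variable (S : Sys)

/-- The union of the pieces over a set of vertices. -/
def dcatY (W : Set S.G) : Set S.X := {p | ∃ a ∈ W, ∃ b ∈ W, S.h a b ≤ 1 ∧ p ∈ S.Pc a b}

def dcatConv (W : Set S.G) : Prop :=
  ∀ a ∈ W, ∀ b ∈ W, ∀ c, S.h a c + S.h c b = S.h a b → c ∈ W

theorem dcat_side {g k : S.G} (hk : S.h g k = 1) {y : S.X} (hy : y ∈ S.Pc g k) :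
    y ∉ S.Hs g k ∨ y ∈ S.Bd g k := by
  obtain ⟨⟨s, -, e⟩, h2⟩ := hy
  by_cases h : y ∈ S.Hs g k
  · refine Or.inr ⟨?_, h2⟩
    have h1 : y.1.1 k - y.1.1 g = 1 := h
    have hk' : S.h k g = 1 := (S.th.symm k g).trans hk
    rw [e] at h1
    simp only [pt, hk, hk', S.th.refl, Nat.cast_one, Nat.cast_zero] at h1
    have h3 : s = 0 := by linarith
    rw [e, h3]
    funext x
    simp [pt]
  · exact Or.inl h

theorem dcat_hs {g k a b : S.G} (ha : S.h a k = S.h a g + 1) (hb : S.h b k = S.h b g + 1)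
    {y : S.X} (hy : y ∈ S.Pc a b) : y ∈ S.Hs g k := by
  obtain ⟨⟨s, -, e⟩, -⟩ := hy
  change y.1.1 k - y.1.1 g = 1
  rw [e]
  simp only [pt, ha, hb]
  push_cast
  ring

theorem dcat_far {W : Set S.G} (hW : S.dcatConv W) {g k : S.G} (hg : g ∈ W) (hk : k ∉ W)
    (h1 : S.h g k = 1) {a : S.G} (ha : a ∈ W) : S.h a k = S.h a g + 1 := by
  have a1 := S.th.par g k a h1
  have a2 := S.th.tri a g k
  have a3 := S.th.tri a k g
  have a4 := S.th.symm k g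
  have a5 := S.th.symm a g
  have a6 := S.th.symm a k
  by_contra h
  exact hk (hW a ha g hg k (by omega))

theorem dcat_conv {W : Set S.G} (hW : S.dcatConv W) {g k : S.G} (hg : g ∈ W) (hk : k ∉ W)
    (h1 : S.h g k = 1) : S.dcatConv (W ∪ {x | S.h k x = 0}) := by
  have key : ∀ a ∈ W, ∀ b, S.h k b = 0 → ∀ c, S.h a c + S.h c b = S.h a b →
      c ∈ W ∪ {x | S.h k x = 0} := fun a ha b hb c e => by
    by_cases hc : S.h k c = 0
    · exact Or.inr hc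
    refine Or.inl (hW a ha g hg c ?_)
    have a0 := S.dcat_far hW hg hk h1 ha
    have a1 := S.th.par g k c h1
    have a2 := S.th.four a k c g
    have a3 := S.th.symm k b
    have a4 := S.th.symm k c
    have a5 := S.th.symm g c
    have a6 := S.th.symm g k
    have b1 := S.th.tri a k b
    have b2 := S.th.tri a b k
    have b3 := S.th.tri c k b
    have b4 := S.th.tri c b k
    have b5 := S.th.tri c g k
    have b6 := S.th.tri c k g
    omega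
  rintro a (ha | ha) b (hb | hb) c e
  · exact Or.inl (hW a ha b hb c e)
  · exact key a ha b hb c e
  · refine key b hb a ha c ?_
    rw [S.th.symm b c, S.th.symm c a, S.th.symm b a]
    omega
  · have a1 : S.h k a = 0 := ha
    have a2 : S.h k b = 0 := hb
    have a3 := S.th.symm k a
    have b1 := S.th.tri a k b
    have b2 := S.th.tri k a c
    exact Or.inr (show S.h k c = 0 by omega)

theorem dcat_union {W : Set S.G} (hW : S.dcatConv W) {g k : S.G} (hg : g ∈ W) (hk : k ∉ W)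
    (h1 : S.h g k = 1) :
    S.dcatY (W ∪ {x | S.h k x = 0}) = (S.dcatY W ∪ S.Pc g k) ∪ S.Pc k k := by
  have hkk : k ∈ W ∪ {x | S.h k x = 0} := Or.inr (S.th.refl k)
  have key : ∀ a ∈ W, ∀ b, S.h k b = 0 → S.h a b ≤ 1 → S.Pc a b = S.Pc g k := fun a ha b hb e => by
    have a0 := S.dcat_far hW hg hk h1 ha
    have a1 := S.th.symm k b
    have a2 := S.th.tri a b k
    exact S.pc_congr (by omega) (by omega)
  ext p
  constructor
  · rintro ⟨a, ha | ha, b, hb | hb, e, hp⟩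
    · exact Or.inl (Or.inl ⟨a, ha, b, hb, e, hp⟩)
    · exact Or.inl (Or.inr (key a ha b hb e ▸ hp))
    · rw [S.pc_symm] at hp
      exact Or.inl (Or.inr (key b hb a ha (S.th.symm a b ▸ e) ▸ hp))
    · exact Or.inr (S.pc_congr (g := k) (k := k) ha hb ▸ hp)
  · rintro ((⟨a, ha, b, hb, e, hp⟩ | hp) | hp)
    · exact ⟨a, Or.inl ha, b, Or.inl hb, e, hp⟩
    · exact ⟨g, Or.inl hg, k, hkk, h1.le, hp⟩
    · exact ⟨k, hkk, k, hkk, by rw [S.th.refl]; omega, hp⟩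

theorem dcat_ct {W : Set S.G} (hW : S.dcatConv W) (hC : CT (S.dcatY W)) {g k : S.G} (hg : g ∈ W)
    (hk : k ∉ W) (h1 : S.h g k = 1) : CT (S.dcatY (W ∪ {x | S.h k x = 0})) := by
  have h1' : S.h k g = 1 := (S.th.symm k g).trans h1
  have hY : ∀ x ∈ S.dcatY W, x ∈ S.Hs g k := fun x ⟨a, ha, b, hb, _, hp⟩ =>
    S.dcat_hs (S.dcat_far hW hg hk h1 ha) (S.dcat_far hW hg hk h1 hb) hp
  rw [S.dcat_union hW hg hk h1]
  refine CT.glue (B := S.Bd k g) (CT.glue (B := S.Bd g k) hC (S.ct_pc h1.le)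
    (fun p hp => ⟨g, hg, g, hg, by rw [S.th.refl]; omega, (S.bd_sub g k).2.1 hp⟩)
    (S.bd_sub g k).1 (S.bd_conv h1.le) fun x hx y hy => S.sep h1 (hY x hx) (S.dcat_side h1 hy))
    (S.ct_pc (by rw [S.th.refl]; omega)) (fun p hp => Or.inr ((S.bd_sub k g).2.2 hp))
    (S.bd_sub k g).2.1 (S.bd_conv h1'.le) fun x hx y hy => ?_
  have a1 : y ∈ S.Hs k g := S.dcat_hs (by rw [h1', S.th.refl]) (by rw [h1', S.th.refl]) hy
  have a2 : x ∉ S.Hs k g ∨ x ∈ S.Bd k g := by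
    rcases hx with hx | hx
    · refine Or.inl fun h => ?_
      have b1 : x.1.1 k - x.1.1 g = 1 := hY x hx
      have b2 : x.1.1 g - x.1.1 k = 1 := h
      linarith
    · exact S.dcat_side h1' (S.pc_symm g k ▸ hx)
  obtain ⟨a, ha, e⟩ := S.sep h1' a1 a2
  exact ⟨a, ha, by rw [dist_comm x y, e, dist_comm y a, dist_comm a x, add_comm]⟩

theorem dcat_ext (x : S.G) (n : ℕ) : ∀ (W : Set S.G) (g : S.G), S.dcatConv W → CT (S.dcatY W) →
    g ∈ W → S.h g x = n → ∃ W', W ⊆ W' ∧ S.dcatConv W' ∧ CT (S.dcatY W') ∧ x ∈ W' := by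
  induction n with
  | zero =>
    intro W g hW hC hg e
    exact ⟨W, subset_rfl, hW, hC, hW g hg g hg x (by rw [S.th.symm x g, e, S.th.refl])⟩
  | succ n ih =>
    intro W g hW hC hg e
    obtain ⟨c, c1, c2⟩ := S.th.step g x n e
    by_cases hc : c ∈ W
    · exact ih W c hW hC hc c2
    · obtain ⟨W', a1, a2⟩ := ih _ c (S.dcat_conv hW hg hc c1) (S.dcat_ct hW hC hg hc c1)
        (Or.inr (S.th.refl c)) c2
      exact ⟨W', Set.subset_union_left.trans a1, a2⟩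

theorem dcat_pt (p : S.X) {W : Set S.G} (hW : S.dcatConv W) (hC : CT (S.dcatY W)) (h1 : 1 ∈ W) :
    ∃ W', S.dcatY W ⊆ S.dcatY W' ∧ S.dcatConv W' ∧ CT (S.dcatY W') ∧ 1 ∈ W' ∧ p ∈ S.dcatY W' := by
  obtain ⟨g, a, b, b', a', s, t, q, hs, ht, e⟩ := p.2
  obtain ⟨a1, a2⟩ := S.sq_mem_pc q hs ht p e
  obtain ⟨W₁, b1, b2, b3, b4⟩ := S.dcat_ext g _ W 1 hW hC h1 rfl
  obtain ⟨W₂, c1, c2, c3, c4⟩ := S.dcat_ext (g * S.ι a) _ W₁ g b2 b3 b4 rfl
  exact ⟨W₂, fun y ⟨u, hu, w, hw, r⟩ => ⟨u, c1 (b1 hu), w, c1 (b1 hw), r⟩, c2, c3, c1 (b1 h1),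
    g, c1 b4, _, c4, a1.le, a2⟩

theorem cn (x y : S.X) : ∃ m : S.X, ∀ z : S.X,
    dist z m ^ 2 ≤ (dist z x ^ 2 + dist z y ^ 2) / 2 - dist x y ^ 2 / 4 := by
  refine cn_of_ct (fun p q r s => ?_) x y
  have h0 : S.dcatConv {x | S.h 1 x = 0} := fun a ha b hb c e => by
    have a1 : S.h 1 a = 0 := ha
    have a2 : S.h 1 b = 0 := hb
    have a3 := S.th.symm 1 a
    have b1 := S.th.tri a 1 b
    have b2 := S.th.tri 1 a c
    exact (show S.h 1 c = 0 by omega)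
  have h1 : S.dcatY {x | S.h 1 x = 0} = S.Pc 1 1 := by
    ext p
    exact ⟨fun ⟨a, ha, b, hb, _, hp⟩ => S.pc_congr (g := 1) (k := 1) ha hb ▸ hp,
      fun hp => ⟨1, S.th.refl 1, 1, S.th.refl 1, by rw [S.th.refl]; omega, hp⟩⟩
  obtain ⟨W₁, -, a2, a3, a4, a5⟩ := S.dcat_pt p h0
    (h1 ▸ S.ct_pc (by rw [S.th.refl]; omega)) (S.th.refl 1)
  obtain ⟨W₂, b1, b2, b3, b4, b5⟩ := S.dcat_pt q a2 a3 a4
  obtain ⟨W₃, c1, c2, c3, c4, c5⟩ := S.dcat_pt r b2 b3 b4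
  obtain ⟨W₄, d1, -, d3, -, d5⟩ := S.dcat_pt s c2 c3 c4
  exact ⟨_, d3, d1 (c1 (b1 a5)), d1 (c1 b5), d1 c5, d5⟩

end Sys

end Pool.Agent.FC
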