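import Pool.Agent.P.MP_5e292f_al.DMet

set_option autoImplicit false

open Pointwise

namespace Pool.Agent.FC

theorem pt_swap {α : Type} (ρ : α → α → ℕ) (a b : α) (s : ℝ) : pt ρ a b s = pt ρ b a (1 - s) := by
  funext x
  simp only [pt]
  ring

/-- Two edges of a tree meet in a face of the first. -/
theorem edge_face {α : Type} {ρ : α → α → ℕ} (T : TM ρ) {a b c d : α} (hab : ρ a b = 1)
    (hcd : ρ c d = 1) : ∃ F : Set ℝ, (F = ∅ ∨ F = {0} ∨ F = {1} ∨ F = Set.univ) ∧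
      ∀ s ∈ Set.Icc (0 : ℝ) 1, (∃ t ∈ Set.Icc (0 : ℝ) 1, pt ρ a b s = pt ρ c d t) ↔ s ∈ F := by
  have t1 := T.tri c a d
  have t2 := T.tri c b d
  have t3 := T.tri a c b
  have t4 := T.tri a d b
  have s1 := T.symm c a
  have s2 := T.symm c b
  have s3 := T.symm d a
  have s4 := T.symm d b
  have e0 : ∀ {x y : α}, ρ x y = 1 → ρ x c = 0 ∨ ρ x d = 0 →
      ∃ t ∈ Set.Icc (0 : ℝ) 1, pt ρ x y 0 = pt ρ c d t := by
    intro x y _ h
    have e : pt ρ x y 0 = pt ρ x x 0 := by funext z; simp [pt]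
    rcases h with h | h
    · refine ⟨0, ⟨le_rfl, zero_le_one⟩, ?_⟩
      rw [e, pt_congr T h h]
      funext z; simp [pt]
    · refine ⟨1, ⟨zero_le_one, le_rfl⟩, ?_⟩
      rw [e, pt_congr T h h]
      funext z; simp [pt]
  have key : ∀ s ∈ Set.Icc (0 : ℝ) 1, (∃ t ∈ Set.Icc (0 : ℝ) 1, pt ρ a b s = pt ρ c d t) →
      (s < 1 → ρ a c = 0 ∨ ρ a d = 0) ∧ (0 < s → ρ b c = 0 ∨ ρ b d = 0) := by
    rintro s ⟨h0, h1⟩ ⟨t, -, e⟩
    have ec := congrFun e c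
    have ed := congrFun e d
    simp only [pt, T.refl, hcd, T.symm d c, Nat.cast_zero, Nat.cast_one] at ec ed
    have A1 : (1 : ℝ) ≤ (ρ a c : ℝ) + ρ a d := by exact_mod_cast (by omega : 1 ≤ ρ a c + ρ a d)
    have B1 : (1 : ℝ) ≤ (ρ b c : ℝ) + ρ b d := by exact_mod_cast (by omega : 1 ≤ ρ b c + ρ b d)
    constructor
    · intro hs
      by_contra hc
      have : (2 : ℝ) ≤ (ρ a c : ℝ) + ρ a d := by exact_mod_cast (by omega : 2 ≤ ρ a c + ρ a d)
      nlinarith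
    · intro hs
      by_contra hc
      have : (2 : ℝ) ≤ (ρ b c : ℝ) + ρ b d := by exact_mod_cast (by omega : 2 ≤ ρ b c + ρ b d)
      nlinarith
  by_cases P0 : ρ a c = 0 ∨ ρ a d = 0 <;> by_cases P1 : ρ b c = 0 ∨ ρ b d = 0
  · refine ⟨Set.univ, by simp, fun s hs => ⟨fun _ => trivial, fun _ => ?_⟩⟩
    by_cases h : ρ a c = 0
    · exact ⟨s, hs, pt_congr T h (by omega) s⟩
    · refine ⟨1 - s, ⟨by linarith [hs.2], by linarith [hs.1]⟩, ?_⟩
      rw [← pt_swap]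
      exact pt_congr T (by omega) (by omega) s
  · refine ⟨{0}, by simp, fun s hs => ⟨fun h => ?_, fun h => ?_⟩⟩
    · by_contra hc
      exact P1 ((key s hs h).2 (lt_of_le_of_ne hs.1 (Ne.symm hc)))
    · obtain rfl : s = 0 := h
      exact e0 hab P0
  · refine ⟨{1}, by simp, fun s hs => ⟨fun h => ?_, fun h => ?_⟩⟩
    · by_contra hc
      exact P0 ((key s hs h).1 (lt_of_le_of_ne hs.2 hc))
    · obtain rfl : s = 1 := h
      rw [pt_swap, sub_self]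
      exact e0 (by rw [T.symm]; exact hab) P1
  · refine ⟨∅, by simp, fun s hs => ⟨fun h => ?_, fun h => h.elim⟩⟩
    rcases lt_or_ge s 1 with h1 | h1
    · exact P0 ((key s hs h).1 h1)
    · exact P1 ((key s hs h).2 (by linarith))

namespace Sys

variable (S : Sys)

/-- The squares at the vertex `1`. -/
def SqI : Type := {q : S.A × S.A × S.A × S.A // S.D.Sq q.1 q.2.1 q.2.2.1 q.2.2.2}

instance : Finite S.SqI := by unfold SqI; infer_instance

noncomputable def sqm (q : S.SqI)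
    (p : {p : EuclideanSpace ℝ (Fin 2) // ∀ i, p i ∈ Set.Icc (0 : ℝ) 1}) : S.X :=
  ⟨S.sqp 1 q.1.1 q.1.2.2.1 (p.1 0) (p.1 1), 1, _, _, _, _, _, _, q.2, p.2 0, p.2 1, rfl⟩

theorem sq_len (q : S.SqI) (g : S.G) :
    S.h g (g * S.ι q.1.1) = 1 ∧ S.v g (g * S.ι q.1.2.2.1) = 1 := by
  obtain ⟨c1, -, c2, -⟩ := S.D.sq_c _ _ _ _ q.2
  constructor
  · rw [h, rho_letter S.pres, if_pos c1]
  · rw [v, rho_letter S.pres.tr, if_pos]
    show (!S.D.c _) = true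
    rw [c2]; rfl

theorem sqm_isometry (q : S.SqI) : Isometry (S.sqm q) := by
  refine Isometry.of_dist_eq fun p p' => ?_
  have m := fun p : {p : EuclideanSpace ℝ (Fin 2) // ∀ i, p i ∈ Set.Icc (0 : ℝ) 1} =>
    S.sq_mem_pc q.2 (p.2 0) (p.2 1) (S.sqm q p) rfl
  obtain ⟨l1, l2⟩ := S.sq_len q 1
  rw [S.dist_adj ⟨_, _, l1.le, (m p).2, (m p').2⟩, Subtype.dist_eq, EuclideanSpace.dist_eq,
    Fin.sum_univ_two, DX]
  simp only [sqm, sqp]
  rw [DD_edge S.th l1.le, DD_edge S.tv l2.le, l1, l2]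
  simp [Real.dist_eq]

theorem smul_sqm (g : S.G) (q : S.SqI) (p : _) :
    (g • S.sqm q p).1 = S.sqp g q.1.1 q.1.2.2.1 (p.1 0) (p.1 1) := by
  rw [smul_val]
  simp only [sqm, sqp]
  rw [(S.pt_mul g _ _ _).1, (S.pt_mul g _ _ _).2]
  simp

/-- The translates of finitely many isometric unit squares cover the space, and any two of them
meet in a face. -/
theorem complex : ∃ (I : Type) (_ : Finite I)
    (σ : I → {p : EuclideanSpace ℝ (Fin 2) // ∀ i, p i ∈ Set.Icc (0 : ℝ) 1} → S.X),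
    (∀ i, Isometry (σ i)) ∧ (∀ x : S.X, ∃ (g : S.G) (i : I) (p : _), x = g • σ i p) ∧
    ∀ (g : S.G) (i j : I), ∃ F : Fin 2 → Set ℝ,
      (∀ k, F k = ∅ ∨ F k = {0} ∨ F k = {1} ∨ F k = Set.univ) ∧
      ∀ p, σ i p ∈ g • Set.range (σ j) ↔ ∀ k, p.1 k ∈ F k := by
  refine ⟨S.SqI, inferInstance, S.sqm, S.sqm_isometry, fun x => ?_, fun g i j => ?_⟩
  · obtain ⟨g, a, b, b', a', s, t, q, hs, ht, e⟩ := x.2
    have hp : ∀ i, (!₂[s, t] : EuclideanSpace ℝ (Fin 2)) i ∈ Set.Icc (0 : ℝ) 1 := fun i => by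
      fin_cases i
      · exact hs
      · exact ht
    exact ⟨g, ⟨(a, b, b', a'), q⟩, ⟨!₂[s, t], hp⟩, Subtype.ext
      (e.trans (S.smul_sqm g ⟨(a, b, b', a'), q⟩ ⟨!₂[s, t], hp⟩).symm)⟩
  · obtain ⟨F0, f0, h0⟩ := edge_face S.th (S.sq_len i 1).1 (S.sq_len j g).1
    obtain ⟨F1, f1, h1⟩ := edge_face S.tv (S.sq_len i 1).2 (S.sq_len j g).2
    refine ⟨![F0, F1], fun k => ?_, fun p => ?_⟩
    · fin_cases k
      · exact f0
      · exact f1
    rw [Fin.forall_fin_two]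
    show _ ↔ p.1 0 ∈ F0 ∧ p.1 1 ∈ F1
    rw [← h0 _ (p.2 0), ← h1 _ (p.2 1)]
    constructor
    · rintro ⟨_, ⟨r, rfl⟩, e⟩
      have e' := congrArg Subtype.val e
      simp only at e'
      rw [smul_sqm] at e'
      exact ⟨⟨_, r.2 0, (congrArg Prod.fst e').symm⟩, _, r.2 1, (congrArg Prod.snd e').symm⟩
    · rintro ⟨⟨s, hs, e1⟩, t, ht, e2⟩
      refine ⟨_, ⟨⟨!₂[s, t], fun i => ?_⟩, rfl⟩, Subtype.ext ?_⟩
      · fin_cases i
        · exact hs
        · exact ht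
      · simp only
        rw [smul_sqm]
        exact Prod.ext e1.symm e2.symm

end Sys

end Pool.Agent.FC
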