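import Pool.Agent.P.MP_5e292f_al.DMet

set_option autoImplicit false

namespace Pool.Agent.FC

theorem DFlat_path {G : Type} [Group G] (a : ℤ → G) (g0 : G) :
    ∃ p : ℤ → G, p 0 = g0 ∧ ∀ i, p (i + 1) = p i * a i := by
  let u : ℕ → G := fun n => Nat.rec g0 (fun k x => x * a k) n
  let d : ℕ → G := fun n => Nat.rec (g0 * (a (-1))⁻¹) (fun k x => x * (a (Int.negSucc (k + 1)))⁻¹) n
  refine ⟨fun i => Int.rec u d i, rfl, fun i => ?_⟩
  rcases i with n | n
  · rfl
  · rcases n with _ | n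
    · exact (inv_mul_cancel_right g0 (a (-1))).symm
    · exact (inv_mul_cancel_right (d n) (a (Int.negSucc (n + 1)))).symm

section

variable {A : Type} {G : Type} [Group G] {D : VH A} {ι : A → G} {p : ℤ → G} {a : ℤ → A}

theorem DFlat_zero (h : Pres D ι) (hp : ∀ i, p (i + 1) = p i * ι (a i))
    (hc : ∀ i, D.c (a i) = false) (i j : ℤ) : rho D ι (p i) (p j) = 0 := by
  have T := tm_rho h
  have e : ∀ k, rho D ι (p k) (p (k + 1)) = 0 := fun k => by
    rw [hp, rho_letter h, hc]; rfl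
  have e0 : ∀ k, rho D ι (p 0) (p k) = 0 := fun k => by
    induction k using Int.induction_on with
    | zero => exact T.refl _
    | succ k ih =>
      have := T.tri (p 0) (p k) (p (k + 1))
      have := e k
      omega
    | pred k ih =>
      have h1 := T.tri (p 0) (p (-k)) (p (-k - 1))
      have h2 := e (-k - 1)
      rw [sub_add_cancel, T.symm] at h2
      omega
  have h1 := T.tri (p i) (p 0) (p j)
  rw [T.symm (p i) (p 0), e0, e0] at h1
  omega

theorem DFlat_line (h : Pres D ι) (hp : ∀ i, p (i + 1) = p i * ι (a i))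
    (hc : ∀ i, D.c (a i) = true) (hr : ∀ i, a (i + 1) ≠ D.inv (a i)) (i j : ℤ) :
    rho D ι (p i) (p j) = (i - j).natAbs := by
  have key : ∀ (n : ℕ) (i : ℤ), ∃ w : List A, Red D (a i :: w) ∧ (∀ x ∈ w, D.c x = true) ∧
      w.length = n ∧ p (i + 1 + n) = p i * ev ι (a i :: w) := fun n => by
    induction n with
    | zero => exact fun i => ⟨[], by simp [Red], by simp, rfl, by simp [ev, hp]⟩
    | succ n ih =>
      intro i
      obtain ⟨w, w1, w2, w3, w4⟩ := ih (i + 1)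
      refine ⟨a (i + 1) :: w, List.IsChain.cons_cons (hr i) w1, ?_, by simp [w3], ?_⟩
      · intro x hx
        rcases List.mem_cons.1 hx with rfl | hx
        · exact hc _
        · exact w2 x hx
      · rw [ev_cons, ← mul_assoc, ← hp, ← w4]
        congr 1
        push_cast
        ring
  have lt : ∀ i j : ℤ, i < j → rho D ι (p i) (p j) = (i - j).natAbs := fun i j hij => by
    obtain ⟨n, rfl⟩ : ∃ n : ℕ, j = i + 1 + n := ⟨(j - i - 1).toNat, by omega⟩
    obtain ⟨w, w1, w2, w3, w4⟩ := key n i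
    have hall : ∀ x ∈ a i :: w, D.c x = true := fun x hx => by
      rcases List.mem_cons.1 hx with rfl | hx
      · exact hc _
      · exact w2 x hx
    rw [rho, w4, inv_mul_cancel_left, (len_irr h (irr_of_red w1 hall)).1,
      List.countP_eq_length.2 hall, List.length_cons, w3]
    omega
  rcases lt_trichotomy i j with e | e | e
  · exact lt i j e
  · rw [e, (tm_rho h).refl]; omega
  · rw [(tm_rho h).symm, lt j i e]; omega

end

namespace Sys

variable (S : Sys)

theorem DFlat_grid {hl vl : ℤ → ℤ → S.A}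
    (q : ∀ i j, S.D.Sq (hl i j) (vl (i + 1) j) (vl i j) (hl i (j + 1))) :
    ∃ g : ℤ → ℤ → S.G, (∀ i j, g (i + 1) j = g i j * S.ι (hl i j)) ∧
      ∀ i j, g i (j + 1) = g i j * S.ι (vl i j) := by
  obtain ⟨r, -, hr⟩ := DFlat_path (fun j => S.ι (vl 0 j)) 1
  choose g g0 g1 using fun j => DFlat_path (fun i => S.ι (hl i j)) (r j)
  refine ⟨fun i j => g j i, fun i j => g1 j i, fun i j => ?_⟩
  induction i using Int.induction_on with
  | zero => simp only [g0, hr]
  | succ i ih =>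
    simp only [g1] at ih ⊢
    rw [ih, mul_assoc, mul_assoc, S.pres.sq _ _ _ _ (q i j)]
  | pred i ih =>
    have e := S.pres.sq _ _ _ _ (q (-i - 1) j)
    have e1 := g1 j (-i - 1)
    have e2 := g1 (j + 1) (-i - 1)
    rw [sub_add_cancel] at e e1 e2
    simp only [e1, e2] at ih
    rw [mul_assoc, e, ← mul_assoc] at ih
    exact mul_right_cancel ih

theorem flat (hP : Plane S.D) : ∃ f : EuclideanSpace ℝ (Fin 2) → S.X, Isometry f := by
  obtain ⟨hl, vl, q, rh, rv⟩ := hP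
  obtain ⟨g, gh, gv⟩ := S.DFlat_grid q
  have ch : ∀ i j, S.D.c (hl i j) = true := fun i j => (S.D.sq_c _ _ _ _ (q i j)).1
  have cv : ∀ i j, S.D.c (vl i j) = false := fun i j => (S.D.sq_c _ _ _ _ (q i j)).2.2.1
  have h0 : ∀ i j j', S.h (g i j) (g i j') = 0 := fun i j j' =>
    DFlat_zero (p := g i) S.pres (gv i) (cv i) j j'
  have v0 : ∀ i i' j, S.v (g i j) (g i' j) = 0 := fun i i' j =>
    DFlat_zero (p := fun i => g i j) S.pres.tr (fun i => gh i j)
      (fun i => by simp [VH.tr, ch]) i i'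
  have h1 : ∀ i i', S.h (g i 0) (g i' 0) = (i - i').natAbs := fun i i' =>
    DFlat_line (p := fun i => g i 0) S.pres (fun i => gh i 0) (fun i => ch i 0)
      (fun i => rh i 0) i i'
  have v1 : ∀ i j j', S.v (g i j) (g i j') = (j - j').natAbs := fun i j j' =>
    DFlat_line (p := g i) S.pres.tr (gv i) (fun j => by simp [VH.tr, cv]) (rv i) j j'
  have fr : ∀ x : ℝ, Int.fract x ∈ Set.Icc (0 : ℝ) 1 := fun x =>
    ⟨Int.fract_nonneg x, (Int.fract_lt_one x).le⟩
  obtain ⟨f, f1, f2⟩ : ∃ f : EuclideanSpace ℝ (Fin 2) → S.X,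
      (∀ p, (f p).1.1 = pt S.h (g ⌊p 0⌋ 0) (g (⌊p 0⌋ + 1) 0) (Int.fract (p 0))) ∧
      ∀ p i, (f p).1.2 = pt S.v (g i ⌊p 1⌋) (g i (⌊p 1⌋ + 1)) (Int.fract (p 1)) := by
    refine ⟨fun p => ⟨S.sqp (g ⌊p 0⌋ ⌊p 1⌋) (hl ⌊p 0⌋ ⌊p 1⌋) (vl ⌊p 0⌋ ⌊p 1⌋) (Int.fract (p 0))
      (Int.fract (p 1)), _, _, _, _, _, _, _, q _ _, fr _, fr _, rfl⟩, fun p => ?_, fun p i => ?_⟩
    · simp only [sqp, ← gh]
      exact pt_congr S.th (h0 _ _ _) (h0 _ _ _) _
    · simp only [sqp, ← gv]
      exact pt_congr S.tv (v0 _ _ _) (v0 _ _ _) _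
  have dx : ∀ p p', S.DX (f p) (f p') = dist p p' := fun p p' => by
    rw [DX, f1, f1, f2 p 0, f2 p' 0, DD_line S.th (a := fun i => g i 0) h1,
      DD_line S.tv (a := g 0) (v1 0), EuclideanSpace.dist_eq, Fin.sum_univ_two, Real.dist_eq,
      Real.dist_eq]
  have pc : ∀ (i : ℤ) (p : EuclideanSpace ℝ (Fin 2)), (i : ℝ) ≤ p 0 → p 0 ≤ i + 1 →
      f p ∈ S.Pc (g i 0) (g (i + 1) 0) := fun i p a b => by
    have we : ∀ j, g i j ∈ S.WE (g i 0) (g (i + 1) 0) := fun j =>
      ⟨h0 _ _ _, g (i + 1) j, h0 _ _ _, v0 _ _ _⟩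
    refine ⟨?_, _, we _, _, we _, _, fr _, ?_, f2 p i⟩
    · rcases b.eq_or_lt with e | e
      · refine ⟨1, ⟨zero_le_one, le_rfl⟩, ?_⟩
        have e' : p 0 = ((i + 1 : ℤ) : ℝ) := by rw [e]; push_cast; ring
        rw [f1, e', Int.floor_intCast, Int.fract_intCast]
        funext x
        simp [pt]
      · have e' : ⌊p 0⌋ = i := Int.floor_eq_iff.2 ⟨a, e⟩
        exact ⟨_, fr _, by rw [f1, e']⟩
    · rw [v1]; omega
  have adj : ∀ (i : ℤ) (p p' : EuclideanSpace ℝ (Fin 2)), (i : ℝ) ≤ p 0 → p 0 ≤ i + 1 →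
      (i : ℝ) ≤ p' 0 → p' 0 ≤ i + 1 → dist (f p) (f p') = dist p p' := fun i p p' a b a' b' => by
    rw [S.dist_adj ⟨_, _, by rw [h1]; omega, pc i p a b, pc i p' a' b'⟩, dx]
  have key : ∀ (n : ℕ) (i : ℤ) (p p' : EuclideanSpace ℝ (Fin 2)), (i : ℝ) ≤ p 0 → p 0 ≤ i + 1 →
      p 0 ≤ p' 0 → p' 0 ≤ i + 1 + n → dist (f p) (f p') ≤ dist p p' := fun n => by
    induction n with
    | zero => exact fun i p p' a b c d => (adj i p p' a b (a.trans c) (by simpa using d)).le
    | succ n ih =>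
      intro i p p' a b c d
      by_cases e : p' 0 ≤ i + 1
      · exact (adj i p p' a b (a.trans c) e).le
      · push Not at e
        have hd : 0 < p' 0 - p 0 := by linarith
        obtain ⟨t, ht⟩ : ∃ t : ℝ, t = (i + 1 - p 0) / (p' 0 - p 0) := ⟨_, rfl⟩
        have t0 : 0 ≤ t := ht ▸ div_nonneg (by linarith) hd.le
        have t1 : t ≤ 1 := ht ▸ (div_le_one hd).2 (by linarith)
        obtain ⟨m, hm⟩ : ∃ m, m = AffineMap.lineMap p p' t := ⟨_, rfl⟩
        have m0 : m 0 = i + 1 := by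
          rw [hm, AffineMap.lineMap_apply_module']
          simp only [PiLp.add_apply, PiLp.smul_apply, PiLp.sub_apply, smul_eq_mul]
          rw [ht, div_mul_cancel₀ _ hd.ne']
          ring
        have w : Wbtw ℝ p m p' := ⟨t, ⟨t0, t1⟩, hm.symm⟩
        have e1 := adj i p m a b (by linarith) m0.le
        have e2 := ih (i + 1) m p' (by push_cast; linarith) (by push_cast; linarith) (by linarith)
          (by push_cast at d ⊢; linarith)
        have e3 := dist_triangle (f p) (f m) (f p')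
        linarith [w.dist_add_dist]
  have le : ∀ p p' : EuclideanSpace ℝ (Fin 2), p 0 ≤ p' 0 → dist (f p) (f p') ≤ dist p p' :=
    fun p p' c => key ⌈p' 0 - p 0⌉₊ ⌊p 0⌋ p p' (Int.floor_le _) (Int.lt_floor_add_one _).le c
      (by linarith [Nat.le_ceil (p' 0 - p 0), Int.lt_floor_add_one (p 0)])
  refine ⟨f, Isometry.of_dist_eq fun p p' => le_antisymm ?_ (dx p p' ▸ S.DX_le _ _)⟩
  rcases le_total (p 0) (p' 0) with c | c
  · exact le p p' c
  · rw [dist_comm, dist_comm p]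
    exact le p' p c

end Sys

end Pool.Agent.FC
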