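import Pool.Agent.P.MP_5e292f_al.DSpace

set_option autoImplicit false

namespace Pool.Agent.FC

theorem sqrt_tri_met {a b a1 a2 b1 b2 : ℝ} (ha : 0 ≤ a) (hb : 0 ≤ b) (h1 : a ≤ a1 + a2)
    (h2 : b ≤ b1 + b2) :
    Real.sqrt (a ^ 2 + b ^ 2) ≤ Real.sqrt (a1 ^ 2 + b1 ^ 2) + Real.sqrt (a2 ^ 2 + b2 ^ 2) := by
  have e1 := Real.sq_sqrt (show 0 ≤ a1 ^ 2 + b1 ^ 2 by positivity)
  have e2 := Real.sq_sqrt (show 0 ≤ a2 ^ 2 + b2 ^ 2 by positivity)
  have e3 : a1 * a2 + b1 * b2 ≤ Real.sqrt (a1 ^ 2 + b1 ^ 2) * Real.sqrt (a2 ^ 2 + b2 ^ 2) := by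
    rw [← Real.sqrt_mul (by positivity)]
    exact Real.le_sqrt_of_sq_le (by nlinarith [sq_nonneg (a1 * b2 - a2 * b1)])
  refine Real.sqrt_le_iff.2 ⟨by positivity, ?_⟩
  have e4 : a ^ 2 ≤ (a1 + a2) ^ 2 := pow_le_pow_left₀ ha h1 2
  have e5 : b ^ 2 ≤ (b1 + b2) ^ 2 := pow_le_pow_left₀ hb h2 2
  nlinarith

namespace Sys

variable (S : Sys)

theorem DX_tri (p q r : S.X) : S.DX p r ≤ S.DX p q + S.DX q r :=
  sqrt_tri_met (DD_nonneg _ _) (DD_nonneg _ _)
    (DD_tri S.th (S.mem_h p) (S.mem_h q) (S.mem_h r))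
    (DD_tri S.tv (S.mem_v p) (S.mem_v q) (S.mem_v r))

theorem DX_self_met (p : S.X) : S.DX p p = 0 := by simp [DX, DD_self]

theorem DX_comm_met (p q : S.X) : S.DX p q = S.DX q p := by
  rw [DX, DX, DD_comm p.1.1, DD_comm p.1.2]

theorem DX_nonneg_met (p q : S.X) : 0 ≤ S.DX p q := Real.sqrt_nonneg _

theorem Chain.le {S : Sys} {p q : S.X} {c : ℝ} (h : S.Chain p q c) : S.DX p q ≤ c := by
  induction h with
  | refl => exact (S.DX_self_met p).le
  | @step q r c _ _ ih => exact (S.DX_tri p q r).trans (by linarith)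

theorem Adj.symm_met {S : Sys} {p q : S.X} (h : S.Adj p q) : S.Adj q p :=
  let ⟨g, k, a, b, c⟩ := h
  ⟨g, k, a, c, b⟩

theorem Chain.trans_met {S : Sys} {p q r : S.X} {c e : ℝ} (h : S.Chain p q c)
    (h' : S.Chain q r e) : S.Chain p r (c + e) := by
  induction h' with
  | refl => rwa [add_zero]
  | step _ a ih => rw [← add_assoc]; exact ih.step a

theorem Adj.chain_met {S : Sys} {p q : S.X} (h : S.Adj p q) : S.Chain p q (S.DX p q) := by
  have := Chain.step (Chain.refl (p := p)) h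
  rwa [zero_add] at this

theorem Chain.symm {S : Sys} {p q : S.X} {c : ℝ} (h : S.Chain p q c) : S.Chain q p c := by
  induction h with
  | refl => exact Chain.refl
  | @step q r c _ a ih =>
    rw [add_comm, S.DX_comm_met q r]
    exact a.symm_met.chain_met.trans_met ih

theorem Chain.trans {S : Sys} {p q r : S.X} {c e : ℝ} (h : S.Chain p q c) (h' : S.Chain q r e) :
    S.Chain p r (c + e) := h.trans_met h'

theorem h_letter_met (g : S.G) (l : S.A) : S.h g (g * S.ι l) = if S.D.c l then 1 else 0 :=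
  rho_letter S.pres g l

theorem v_letter_met (g : S.G) (l : S.A) : S.v g (g * S.ι l) = if !S.D.c l then 1 else 0 :=
  rho_letter S.pres.tr g l

theorem rt_vtx_met {W : Set S.G} {a g : S.G} (ha : a ∈ W) (h : S.v g a = 0) :
    pt S.v g g 0 ∈ RT S.v W :=
  ⟨a, ha, a, ha, 0, ⟨le_rfl, zero_le_one⟩, by rw [S.tv.refl]; omega, pt_congr S.tv h h 0⟩

theorem vtx_mem_left_met {g k : S.G} (h : S.v g k = 0) : S.vtx g ∈ S.Pc g k :=
  ⟨⟨0, ⟨le_rfl, zero_le_one⟩, funext fun x => by simp [vtx, pt]⟩,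
    S.rt_vtx_met ⟨S.th.refl g, k, S.th.refl k, h⟩ (S.tv.refl g)⟩

theorem vtx_mem_right_met {g k : S.G} (h : S.v g k = 0) : S.vtx k ∈ S.Pc g k :=
  ⟨⟨1, ⟨zero_le_one, le_rfl⟩, funext fun x => by simp [vtx, pt]⟩,
    S.rt_vtx_met ⟨S.th.refl g, k, S.th.refl k, h⟩ (by rw [S.tv.symm]; exact h)⟩

theorem adj_letter_met (g : S.G) (l : S.A) : S.Adj (S.vtx g) (S.vtx (g * S.ι l)) := by
  have h1 := S.h_letter_met g l
  have h2 := S.v_letter_met g l
  cases hc : S.D.c l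
  · rw [hc] at h1
    have h1' : S.h g (g * S.ι l) = 0 := by simpa using h1
    have h3 : S.h (g * S.ι l) g = 0 := by rw [S.th.symm]; exact h1'
    refine ⟨g, g, by rw [S.th.refl]; omega, S.vtx_mem_left_met (S.tv.refl g),
      ⟨0, ⟨le_rfl, zero_le_one⟩, pt_congr S.th h3 h3 0⟩, ?_⟩
    exact S.rt_vtx_met ⟨h1', _, h1', S.tv.refl _⟩ (S.tv.refl _)
  · rw [hc] at h1 h2
    have h2' : S.v g (g * S.ι l) = 0 := by simpa using h2
    exact ⟨g, g * S.ι l, by rw [h1]; simp, S.vtx_mem_left_met h2', S.vtx_mem_right_met h2'⟩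

theorem chain_vtx_met (w : List S.A) : ∀ g : S.G,
    ∃ c, S.Chain (S.vtx g) (S.vtx (g * ev S.ι w)) c := by
  induction w with
  | nil => intro g; exact ⟨0, by simpa [ev] using Chain.refl⟩
  | cons l w ih =>
    intro g
    obtain ⟨c, hc⟩ := ih (g * S.ι l)
    refine ⟨_, (S.adj_letter_met g l).chain_met.trans (c := _) (e := c) ?_⟩
    simpa [ev, mul_assoc] using hc

theorem adj_vtx_met (p : S.X) : ∃ g, S.Adj p (S.vtx g) := by
  obtain ⟨g, a, b, b', a', s, t, q, hs, ht, e⟩ := p.2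
  obtain ⟨h1, h2⟩ := S.sq_mem_pc q hs ht p e
  refine ⟨g, g, g * S.ι a, h1.le, h2, S.vtx_mem_left_met ?_⟩
  rw [S.v_letter_met, (S.D.sq_c _ _ _ _ q).1]
  simp

theorem chain_ne (p q : S.X) : ∃ c, S.Chain p q c := by
  obtain ⟨g, hg⟩ := S.adj_vtx_met p
  obtain ⟨k, hk⟩ := S.adj_vtx_met q
  obtain ⟨w, hw⟩ := S.pres.surj (g⁻¹ * k)
  obtain ⟨c, hc⟩ := S.chain_vtx_met w g
  rw [hw, mul_inv_cancel_left] at hc
  exact ⟨_, (hg.chain_met.trans hc).trans hk.symm_met.chain_met⟩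

theorem bdd_met (p q : S.X) : BddBelow {c | S.Chain p q c} := ⟨_, fun _ h => Chain.le h⟩

theorem DX_le_met (p q : S.X) : S.DX p q ≤ sInf {c | S.Chain p q c} :=
  le_csInf (S.chain_ne p q) fun _ h => Chain.le h

noncomputable instance : MetricSpace S.X where
  dist p q := sInf {c | S.Chain p q c}
  dist_self := fun p => le_antisymm (csInf_le (S.bdd_met p p) Chain.refl)
    ((S.DX_nonneg_met p p).trans (S.DX_le_met p p))
  dist_comm := fun p q => congrArg sInf (Set.ext fun _ => ⟨Chain.symm, Chain.symm⟩)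
  dist_triangle := fun p q r => by
    have h : ∀ c ∈ {c | S.Chain p q c}, sInf {c | S.Chain p r c} - c ≤ sInf {c | S.Chain q r c} :=
      fun c hc => le_csInf (S.chain_ne q r) fun e he => by
        have := csInf_le (S.bdd_met p r) (Chain.trans hc he)
        linarith
    have h2 : sInf {c | S.Chain p r c} - sInf {c | S.Chain q r c} ≤ sInf {c | S.Chain p q c} :=
      le_csInf (S.chain_ne p q) fun c hc => by
        have := h c hc
        linarith
    show sInf {c | S.Chain p r c} ≤ sInf {c | S.Chain p q c} + sInf {c | S.Chain q r c}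
    linarith
  eq_of_dist_eq_zero := fun {p q} h => by
    have h1 : S.DX p q ≤ 0 := (S.DX_le_met p q).trans (le_of_eq h)
    have h2 : DD p.1.1 q.1.1 ^ 2 + DD p.1.2 q.1.2 ^ 2 ≤ 0 := Real.sqrt_eq_zero'.1
      (le_antisymm h1 (S.DX_nonneg_met p q))
    have h3 : DD p.1.1 q.1.1 = 0 := by nlinarith [sq_nonneg (DD p.1.1 q.1.1), sq_nonneg (DD p.1.2 q.1.2)]
    have h4 : DD p.1.2 q.1.2 = 0 := by nlinarith [sq_nonneg (DD p.1.1 q.1.1), sq_nonneg (DD p.1.2 q.1.2)]
    exact Subtype.ext (Prod.ext (DD_eq_zero S.th (S.mem_h p) (S.mem_h q) h3)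
      (DD_eq_zero S.tv (S.mem_v p) (S.mem_v q) h4))

theorem dist_def (p q : S.X) : dist p q = sInf {c | S.Chain p q c} := rfl

theorem DX_le (p q : S.X) : S.DX p q ≤ dist p q := S.DX_le_met p q

theorem dist_le_chain {p q : S.X} {c : ℝ} (h : S.Chain p q c) : dist p q ≤ c :=
  csInf_le (S.bdd_met p q) h

theorem dist_adj {p q : S.X} (h : S.Adj p q) : dist p q = S.DX p q :=
  le_antisymm (S.dist_le_chain h.chain_met) (S.DX_le p q)

theorem h_mul_met (g a b : S.G) : S.h (g * a) (g * b) = S.h a b := rho_mul g a b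

theorem v_mul_met (g a b : S.G) : S.v (g * a) (g * b) = S.v a b := rho_mul g a b

theorem pt_mul (g a b : S.G) (s : ℝ) :
    (fun x => pt S.h a b s (g⁻¹ * x)) = pt S.h (g * a) (g * b) s ∧
    (fun x => pt S.v a b s (g⁻¹ * x)) = pt S.v (g * a) (g * b) s := by
  constructor <;> funext x
  · rw [pt, pt, ← S.h_mul_met g a, ← S.h_mul_met g b, mul_inv_cancel_left]
  · rw [pt, pt, ← S.v_mul_met g a, ← S.v_mul_met g b, mul_inv_cancel_left]

theorem inX_smul (g : S.G) (p : S.X) :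
    S.InX (fun x => p.1.1 (g⁻¹ * x), fun x => p.1.2 (g⁻¹ * x)) := by
  obtain ⟨k, a, b, b', a', s, t, q, hs, ht, e⟩ := p.2
  refine ⟨g * k, a, b, b', a', s, t, q, hs, ht, ?_⟩
  rw [e, sqp, sqp, mul_assoc, mul_assoc]
  exact Prod.ext (S.pt_mul g _ _ s).1 (S.pt_mul g _ _ t).2

instance : MulAction S.G S.X where
  smul g p := ⟨(fun x => p.1.1 (g⁻¹ * x), fun x => p.1.2 (g⁻¹ * x)), S.inX_smul g p⟩
  one_smul := fun p => Subtype.ext (Prod.ext
    (funext fun x => congrArg p.1.1 (by rw [inv_one, one_mul]))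
    (funext fun x => congrArg p.1.2 (by rw [inv_one, one_mul])))
  mul_smul := fun g k p => Subtype.ext (Prod.ext
    (funext fun x => congrArg p.1.1 (by rw [mul_inv_rev, mul_assoc]))
    (funext fun x => congrArg p.1.2 (by rw [mul_inv_rev, mul_assoc])))

theorem smul_val (g : S.G) (p : S.X) :
    (g • p).1 = (fun x => p.1.1 (g⁻¹ * x), fun x => p.1.2 (g⁻¹ * x)) := rfl

theorem DD_mul_met (g : S.G) (f k : S.G → ℝ) :
    DD (fun x => f (g⁻¹ * x)) (fun x => k (g⁻¹ * x)) = DD f k :=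
  (Equiv.mulLeft g⁻¹).iSup_comp (g := fun x => |f x - k x|)

theorem DX_smul_met (g : S.G) (p q : S.X) : S.DX (g • p) (g • q) = S.DX p q := by
  rw [DX, DX, smul_val, smul_val, S.DD_mul_met, S.DD_mul_met]

theorem WE_mul_met (g : S.G) {a b x : S.G} (h : x ∈ S.WE a b) : g * x ∈ S.WE (g * a) (g * b) :=
  let ⟨h1, y, h2, h3⟩ := h
  ⟨(S.h_mul_met g a x).trans h1, g * y, (S.h_mul_met g b y).trans h2, (S.v_mul_met g x y).trans h3⟩

theorem Pc_smul_met (g : S.G) {a b : S.G} {p : S.X} (h : p ∈ S.Pc a b) :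
    g • p ∈ S.Pc (g * a) (g * b) := by
  obtain ⟨⟨s, hs, e⟩, x, hx, y, hy, t, ht, hxy, e'⟩ := h
  refine ⟨⟨s, hs, ?_⟩, g * x, S.WE_mul_met g hx, g * y, S.WE_mul_met g hy, t, ht,
    by rwa [S.v_mul_met], ?_⟩
  · rw [smul_val, e]
    exact (S.pt_mul g a b s).1
  · rw [smul_val, e']
    exact (S.pt_mul g x y t).2

theorem chain_smul_met (g : S.G) {p q : S.X} {c : ℝ} (h : S.Chain p q c) :
    S.Chain (g • p) (g • q) c := by
  induction h with
  | refl => exact Chain.refl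
  | @step q r c _ a ih =>
    obtain ⟨x, y, h1, h2, h3⟩ := a
    rw [← S.DX_smul_met g q r]
    exact ih.step ⟨g * x, g * y, by rwa [S.h_mul_met], S.Pc_smul_met g h2, S.Pc_smul_met g h3⟩

instance : IsIsometricSMul S.G S.X where
  isometry_smul := fun g => Isometry.of_dist_eq fun p q =>
    congrArg sInf (Set.ext fun c => ⟨fun h => by
      have := S.chain_smul_met g⁻¹ h
      rwa [inv_smul_smul, inv_smul_smul] at this, fun h => S.chain_smul_met g h⟩)

theorem smul_vtx (g k : S.G) : g • S.vtx k = S.vtx (g * k) :=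
  Subtype.ext (Prod.ext (S.pt_mul g k k 0).1 (S.pt_mul g k k 0).2)

end Sys

end Pool.Agent.FC
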