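import Pool.Agent.P.MP_5e292f_al.Bieber

set_option autoImplicit false

open Pointwise

namespace Pool.Agent.FC

open Pool.Agent.FlatDich in
theorem dper_cryst {V : Type} [NormedAddCommGroup V] [InnerProductSpace ℝ V]
    [FiniteDimensional ℝ V] (hV : Module.finrank ℝ V = 2) {H : Type} [Group H]
    {A : H → V ≃ₗᵢ[ℝ] V} {t : H → V} (C : Cryst A t)
    (htf : ∀ (c : H) (n : ℕ), 0 < n → c ^ n = 1 → c = 1) :
    ∃ φ : Multiplicative (ℤ × ℤ) →* H, Function.Injective φ := by
  have zero : ∀ h, t h = 0 → h = 1 := by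
    intro h h0
    have h1 : ∀ n : ℕ, t (h ^ n) = 0 := by
      intro n
      induction n with
      | zero => rw [pow_zero, C.t_one]
      | succ n ih => rw [pow_succ', C.ht, ih, h0, map_zero, add_zero]
    have h2 : IsOfFinOrder h := by
      by_contra hn
      refine Set.infinite_range_of_injective (injective_pow_iff_not_isOfFinOrder.2 hn)
        ((C.fin 0).subset ?_)
      rintro _ ⟨n, rfl⟩
      change ‖t (h ^ n)‖ ≤ 0
      rw [h1, norm_zero]
    obtain ⟨n, hn, e⟩ := isOfFinOrder_iff_pow_eq_one.1 h2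
    exact htf h n hn e
  let T : Subgroup H :=
    { carrier := {h | ∀ y, A h y = y}
      one_mem' := C.A_one
      mul_mem' := fun {h k} h1 k1 y => by rw [C.hA, k1, h1]
      inv_mem' := fun {h} h1 y => by rw [← h1 (A h⁻¹ y), C.A_inv] }
  let τ : T →* Multiplicative V := MonoidHom.mk' (fun h => Multiplicative.ofAdd (t h))
    fun h k => by
      rw [← ofAdd_add, Subgroup.coe_mul, C.ht, h.2, add_comm]
  have hτ : ∀ h : T, τ h = Multiplicative.ofAdd (t h) := fun _ => rfl
  have τinj : Function.Injective τ := (injective_iff_map_eq_one τ).2 fun h e =>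
    Subtype.ext (zero h (by simpa [hτ] using e))
  obtain ⟨s, hs, hspan, hli⟩ := exists_linearIndependent ℝ {x | ∃ h, (∀ y, A h y = y) ∧ t h = x}
  rw [C.span_top] at hspan
  have hfin : s.Finite := hli.set_finite_of_isNoetherian
  have : Fintype s := hfin.fintype
  have hcard : Fintype.card s = 2 := by
    have := finrank_span_eq_card hli
    rw [Subtype.range_coe, hspan, finrank_top, hV] at this
    exact this.symm
  obtain ⟨e⟩ : Nonempty (Fin 2 ↪ s) :=
    Function.Embedding.nonempty_of_card_le (by rw [Fintype.card_fin, hcard])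
  have hv : LinearIndependent ℝ fun i => (e i : V) := hli.comp e e.injective
  obtain ⟨a, a1, a2⟩ := hs (e 0).2
  obtain ⟨b, b1, b2⟩ := hs (e 1).2
  obtain ⟨a', ha'⟩ : ∃ a' : T, t a' = e 0 := ⟨⟨a, a1⟩, a2⟩
  obtain ⟨b', hb'⟩ : ∃ b' : T, t b' = e 1 := ⟨⟨b, b1⟩, b2⟩
  have key : ∀ p : Multiplicative (ℤ × ℤ), τ (a' ^ p.toAdd.1 * b' ^ p.toAdd.2) =
      Multiplicative.ofAdd (p.toAdd.1 • (e 0 : V) + p.toAdd.2 • (e 1 : V)) := by
    intro p
    rw [map_mul, map_zpow, map_zpow, hτ, hτ, ha', hb', ← ofAdd_zsmul, ← ofAdd_zsmul, ← ofAdd_add]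
  let ψ : Multiplicative (ℤ × ℤ) →* T := MonoidHom.mk'
    (fun p => a' ^ p.toAdd.1 * b' ^ p.toAdd.2) fun p q => τinj (by
      rw [map_mul τ (_ * _), key, key, key, ← ofAdd_add, toAdd_mul, Prod.fst_add, Prod.snd_add,
        add_smul, add_smul]
      congr 1
      abel)
  refine ⟨T.subtype.comp ψ, T.subtype_injective.comp ((injective_iff_map_eq_one ψ).2 fun p hp => ?_)⟩
  have h1 := key p
  have h2 : a' ^ p.toAdd.1 * b' ^ p.toAdd.2 = 1 := hp
  rw [h2, map_one, eq_comm, ofAdd_eq_one] at h1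
  have h3 := Fintype.linearIndependent_iff.1 hv ![(p.toAdd.1 : ℝ), (p.toAdd.2 : ℝ)] (by
    rw [Fin.sum_univ_two]
    simpa [Int.cast_smul_eq_zsmul] using h1)
  have h4 : p.toAdd.1 = 0 := by simpa using h3 0
  have h5 : p.toAdd.2 = 0 := by simpa using h3 1
  exact toAdd_eq_zero.1 (Prod.ext h4 h5)

open Pool.Agent.FlatDich in
/-- A periodic flat plane for a proper action of a torsion-free group gives a copy of `ℤ × ℤ`. -/
theorem ZZ_of_periodic {X : Type} [MetricSpace X] [ProperSpace X] {Γ : Type} [Group Γ]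
    [MulAction Γ X] [IsIsometricSMul Γ X]
    (hprop : ∀ K : Set X, IsCompact K → {g : Γ | ((g • K) ∩ K).Nonempty}.Finite)
    (htf : ∀ (c : Γ) (n : ℕ), 0 < n → c ^ n = 1 → c = 1)
    {f : EuclideanSpace ℝ (Fin 2) → X} (hf : Isometry f) (H : Subgroup Γ)
    (hH : ∀ h : Γ, h ∈ H → h • Set.range f = Set.range f) {K : Set X} (hK : IsCompact K)
    (hcov : Set.range f ⊆ ⋃ h ∈ H, (h : Γ) • K) :
    ∃ φ : Multiplicative (ℤ × ℤ) →* Γ, Function.Injective φ := by
  have ex : ∀ (h : H) (a : EuclideanSpace ℝ (Fin 2)), ∃ b, f b = (h : Γ) • f a := fun h a => by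
    have : (h : Γ) • f a ∈ Set.range f :=
      hH h h.2 ▸ Set.smul_mem_smul_set (Set.mem_range_self a)
    exact this
  choose σ hσ using ex
  have σmul : ∀ h k a, σ (h * k) a = σ h (σ k a) := fun h k a =>
    hf.injective (by rw [hσ, hσ, hσ, Subgroup.coe_mul, mul_smul])
  have σone : ∀ a, σ 1 a = a := fun a => hf.injective (by rw [hσ]; simp)
  let I : H → EuclideanSpace ℝ (Fin 2) ≃ᵢ EuclideanSpace ℝ (Fin 2) := fun h =>
    { toFun := σ h
      invFun := σ h⁻¹
      left_inv := fun a => by rw [← σmul, inv_mul_cancel, σone]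
      right_inv := fun a => by rw [← σmul, mul_inv_cancel, σone]
      isometry_toFun := Isometry.of_dist_eq fun a b => by
        rw [← hf.dist_eq, hσ, hσ, dist_smul, hf.dist_eq] }
  let A : H → EuclideanSpace ℝ (Fin 2) ≃ₗᵢ[ℝ] EuclideanSpace ℝ (Fin 2) := fun h =>
    (I h).toRealLinearIsometryEquiv
  let t : H → EuclideanSpace ℝ (Fin 2) := fun h => σ h 0
  have hA : ∀ h x, A h x = σ h x - t h := fun h x => (I h).toRealLinearIsometryEquiv_apply x
  have ht : ∀ h k, t (h * k) = A h (t k) + t h := fun h k => by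
    rw [hA, sub_add_cancel]; exact σmul h k 0
  have C : Cryst A t := by
    refine ⟨fun h k x => ?_, ht, fun R => ?_, ?_⟩
    · rw [hA (h * k), ht, σmul, hA k, map_sub, hA h (σ k x)]; abel
    · refine ((hprop _ (isCompact_closedBall (f 0) R)).preimage
        (Subtype.val_injective (p := fun x => x ∈ H)).injOn).subset fun h hh => ?_
      have hR : ‖t h‖ ≤ R := hh
      refine ⟨(h : Γ) • f 0, Set.smul_mem_smul_set
        (Metric.mem_closedBall_self ((norm_nonneg _).trans hR)), ?_⟩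
      rw [Metric.mem_closedBall, ← hσ, hf.dist_eq, dist_zero_right]
      exact hR
    · obtain ⟨d, hd⟩ := hK.isBounded.subset_closedBall (f 0)
      refine ⟨d, fun x => ?_⟩
      have := hcov (Set.mem_range_self x)
      simp only [Set.mem_iUnion] at this
      obtain ⟨h, hh, k, hk, e⟩ := this
      refine ⟨⟨h, hh⟩, ?_⟩
      rw [← dist_eq_norm, ← hf.dist_eq, hσ, ← e, dist_smul]
      exact hd hk
  obtain ⟨φ, hφ⟩ := dper_cryst (by simp) C fun c n hn e =>
    Subtype.ext (htf c n hn (by simpa using congrArg Subtype.val e))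
  exact ⟨H.subtype.comp φ, H.subtype_injective.comp hφ⟩

end Pool.Agent.FC
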