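import Pool.Agent.P.MP_5e292f_al.DMet

set_option autoImplicit false

open Pointwise

namespace Pool.Agent.FC

namespace Sys

variable (S : Sys)

/-- The finite index set of squares. -/
def DProp_I : Type := {q : S.A × S.A × S.A × S.A // S.D.Sq q.1 q.2.1 q.2.2.1 q.2.2.2}

instance DProp_fin : Finite S.DProp_I := by
  unfold DProp_I; infer_instance

/-- The square at the base vertex. -/
noncomputable def DProp_sq (i : S.DProp_I)
    (p : {p : EuclideanSpace ℝ (Fin 2) // ∀ i, p i ∈ Set.Icc (0 : ℝ) 1}) : S.X :=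
  ⟨S.sqp 1 i.1.1 i.1.2.2.1 (p.1 0) (p.1 1),
    1, i.1.1, i.1.2.1, i.1.2.2.1, i.1.2.2.2, p.1 0, p.1 1, i.2, p.2 0, p.2 1, rfl⟩

theorem DProp_iso (i : S.DProp_I) : Isometry (S.DProp_sq i) := by
  refine Isometry.of_dist_eq fun p q => ?_
  obtain ⟨h1, h2⟩ := S.sq_mem_pc i.2 (p.2 0) (p.2 1) (S.DProp_sq i p) rfl
  obtain ⟨-, h3⟩ := S.sq_mem_pc i.2 (q.2 0) (q.2 1) (S.DProp_sq i q) rfl
  have h4 : S.v 1 (1 * S.ι i.1.2.2.1) = 1 := by
    have a := rho_letter S.pres.tr 1 i.1.2.2.1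
    have b : S.D.tr.c i.1.2.2.1 = true := by
      show (!S.D.c i.1.2.2.1) = true
      rw [(S.D.sq_c _ _ _ _ i.2).2.2.1]; rfl
    rw [if_pos b] at a
    exact a
  rw [S.dist_adj ⟨1, _, h1.le, h2, h3⟩, Subtype.dist_eq, EuclideanSpace.dist_eq, Fin.sum_univ_two]
  show Real.sqrt (DD (pt S.h 1 (1 * S.ι i.1.1) (p.1 0)) (pt S.h 1 (1 * S.ι i.1.1) (q.1 0)) ^ 2 +
    DD (pt S.v 1 (1 * S.ι i.1.2.2.1) (p.1 1)) (pt S.v 1 (1 * S.ι i.1.2.2.1) (q.1 1)) ^ 2) = _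
  rw [DD_edge S.th h1.le, DD_edge S.tv h4.le, h1, h4, Real.dist_eq, Real.dist_eq]
  simp

/-- Finitely many isometric unit squares whose translates cover the space. -/
theorem squares : ∃ (I : Type) (_ : Finite I)
    (σ : I → {p : EuclideanSpace ℝ (Fin 2) // ∀ i, p i ∈ Set.Icc (0 : ℝ) 1} → S.X),
    (∀ i, Isometry (σ i)) ∧ ∀ x : S.X, ∃ (g : S.G) (i : I) (p : _), x = g • σ i p := by
  refine ⟨S.DProp_I, inferInstance, S.DProp_sq, S.DProp_iso, ?_⟩
  rintro ⟨x, g, a, b, b', a', s, t, q, hs, ht, rfl⟩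
  refine ⟨g, ⟨(a, b, b', a'), q⟩, ⟨!₂[s, t], ?_⟩, Subtype.ext ?_⟩
  · intro i
    fin_cases i
    · exact hs
    · exact ht
  · rw [smul_val]
    show (pt S.h g (g * S.ι a) s, pt S.v g (g * S.ι b') t) =
      (fun x => pt S.h 1 (1 * S.ι a) s (g⁻¹ * x), fun x => pt S.v 1 (1 * S.ι b') t (g⁻¹ * x))
    rw [(S.pt_mul g 1 (1 * S.ι a) s).1, (S.pt_mul g 1 (1 * S.ι b') t).2, mul_one, one_mul, one_mul]

theorem DProp_len (g : S.G) : (len S.D S.ι g : ℝ) ≤ dist (S.vtx g) (S.vtx 1) ∧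
    (len S.D.tr S.ι g : ℝ) ≤ dist (S.vtx g) (S.vtx 1) := by
  have e1 : DD (S.vtx g).1.1 (S.vtx 1).1.1 = len S.D S.ι g := by
    have := DD_vertex S.th g (S.mem_h (S.vtx 1))
    refine this.trans ?_
    show pt S.h 1 1 0 g = _
    simp [pt, Sys.h, rho]
  have e2 : DD (S.vtx g).1.2 (S.vtx 1).1.2 = len S.D.tr S.ι g := by
    have := DD_vertex S.tv g (S.mem_v (S.vtx 1))
    refine this.trans ?_
    show pt S.v 1 1 0 g = _
    simp [pt, Sys.v, rho]
  have e3 := S.DX_le (S.vtx g) (S.vtx 1)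
  unfold DX at e3
  rw [e1, e2] at e3
  refine ⟨le_trans ?_ e3, le_trans ?_ e3⟩
  · exact Real.le_sqrt_of_sq_le (le_add_of_nonneg_right (sq_nonneg _))
  · exact Real.le_sqrt_of_sq_le (le_add_of_nonneg_left (sq_nonneg _))

theorem finite_vtx (p : S.X) (R : ℝ) : {g : S.G | dist p (S.vtx g) ≤ R}.Finite := by
  refine (finite_ball S.pres ⌈R + dist p (S.vtx 1)⌉₊).subset fun g hg => ?_
  have h1 : dist (S.vtx g) (S.vtx 1) ≤ (⌈R + dist p (S.vtx 1)⌉₊ : ℝ) := by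
    have a := dist_triangle_left (S.vtx g) (S.vtx 1) p
    have b : dist p (S.vtx g) ≤ R := hg
    exact le_trans (by linarith) (Nat.le_ceil _)
  obtain ⟨h2, h3⟩ := S.DProp_len g
  exact ⟨by exact_mod_cast h2.trans h1, by exact_mod_cast h3.trans h1⟩

theorem DProp_cpt : IsCompact {p : EuclideanSpace ℝ (Fin 2) | ∀ i, p i ∈ Set.Icc (0 : ℝ) 1} := by
  refine Metric.isCompact_of_isClosed_isBounded ?_ ?_
  · rw [Set.ofPred_forall]
    exact isClosed_iInter fun i => isClosed_Icc.preimage (by fun_prop)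
  · refine (Metric.isBounded_closedBall (x := 0) (r := 2)).subset fun p hp => ?_
    rw [mem_closedBall_zero_iff, EuclideanSpace.norm_eq, Fin.sum_univ_two, Real.norm_eq_abs,
      Real.norm_eq_abs, sq_abs, sq_abs]
    refine Real.sqrt_le_iff.2 ⟨by norm_num, ?_⟩
    obtain ⟨a, b⟩ := hp 0
    obtain ⟨c, d⟩ := hp 1
    nlinarith

theorem cocompact : ∃ K : Set S.X, IsCompact K ∧ ∀ x : S.X, ∃ g : S.G, x ∈ g • K := by
  obtain ⟨I, _, σ, h1, h2⟩ := S.squares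
  have : CompactSpace {p : EuclideanSpace ℝ (Fin 2) // ∀ i, p i ∈ Set.Icc (0 : ℝ) 1} :=
    isCompact_iff_compactSpace.1 DProp_cpt
  refine ⟨⋃ i, Set.range (σ i), isCompact_iUnion fun i => isCompact_range (h1 i).continuous,
    fun x => ?_⟩
  obtain ⟨g, i, p, rfl⟩ := h2 x
  exact ⟨g, Set.smul_mem_smul_set (Set.mem_iUnion.2 ⟨i, p, rfl⟩)⟩

theorem DProp_dist (g : S.G) (k : S.X) : dist (g • k) (S.vtx g) = dist k (S.vtx 1) := by
  rw [← dist_smul g k (S.vtx 1), smul_vtx, mul_one]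

theorem proper_action (K : Set S.X) (hK : IsCompact K) :
    {g : S.G | ((g • K) ∩ K).Nonempty}.Finite := by
  obtain ⟨R, hR⟩ := hK.isBounded.subset_closedBall (S.vtx 1)
  refine (S.finite_vtx (S.vtx 1) (R + R)).subset ?_
  rintro g ⟨_, ⟨k, hk, rfl⟩, hk'⟩
  have a : dist k (S.vtx 1) ≤ R := hR hk
  have b : dist (g • k) (S.vtx 1) ≤ R := hR hk'
  have c := S.DProp_dist g k
  have d := dist_triangle_left (S.vtx 1) (S.vtx g) (g • k)
  show dist (S.vtx 1) (S.vtx g) ≤ R + R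
  linarith

instance : ProperSpace S.X := by
  obtain ⟨K, hK, h⟩ := S.cocompact
  obtain ⟨R, hR⟩ := hK.isBounded.subset_closedBall (S.vtx 1)
  refine ⟨fun x r => ?_⟩
  refine ((S.finite_vtx x (r + R)).isCompact_biUnion fun g _ => hK.smul g).of_isClosed_subset
    Metric.isClosed_closedBall fun y hy => ?_
  obtain ⟨g, k, hk, rfl⟩ := h y
  refine Set.mem_biUnion (x := g) ?_ (Set.smul_mem_smul_set hk)
  have a : dist k (S.vtx 1) ≤ R := hR hk
  have b : dist (g • k) x ≤ r := hy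
  have c := S.DProp_dist g k
  have d := dist_triangle_left x (S.vtx g) (g • k)
  show dist x (S.vtx g) ≤ r + R
  linarith

end Sys

end Pool.Agent.FC
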