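import Pool.Agent.P.MP_5e292f_al.GVH

set_option autoImplicit false

namespace Pool.Agent.FC

variable {α : Type} {ρ : α → α → ℕ}

/-- A point of the real tree, as its distance function on vertices. -/
noncomputable def pt (ρ : α → α → ℕ) (a b : α) (s : ℝ) : α → ℝ :=
  fun x => (1 - s) * ρ a x + s * ρ b x

def RT (ρ : α → α → ℕ) (W : Set α) : Set (α → ℝ) :=
  {f | ∃ a ∈ W, ∃ b ∈ W, ∃ s ∈ Set.Icc (0 : ℝ) 1, ρ a b ≤ 1 ∧ f = pt ρ a b s}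

noncomputable def DD (f g : α → ℝ) : ℝ := ⨆ x, |f x - g x|

theorem RT_mono {W W' : Set α} (h : W ⊆ W') : RT ρ W ⊆ RT ρ W' :=
  fun _ ⟨a, ha, b, hb, s, hs, e⟩ => ⟨a, h ha, b, h hb, s, hs, e⟩

theorem pt_mem {a b : α} {s : ℝ} (h : ρ a b ≤ 1) (hs : s ∈ Set.Icc (0 : ℝ) 1) :
    pt ρ a b s ∈ RT ρ Set.univ := ⟨a, trivial, b, trivial, s, hs, h, rfl⟩

theorem DD_nonneg (f g : α → ℝ) : 0 ≤ DD f g := Real.iSup_nonneg fun _ => abs_nonneg _

theorem DD_comm (f g : α → ℝ) : DD f g = DD g f := by simp only [DD, abs_sub_comm]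

theorem DD_self (f : α → ℝ) : DD f f = 0 := by simp [DD]

theorem DRT_lip (T : TM ρ) (a b x : α) : |(ρ a x : ℝ) - ρ b x| ≤ ρ a b := by
  have h1 : (ρ a x : ℝ) ≤ ρ a b + ρ b x := by exact_mod_cast T.tri a b x
  have h2 : (ρ b x : ℝ) ≤ ρ a b + ρ a x := by
    rw [T.symm a b]; exact_mod_cast T.tri b a x
  exact abs_le.2 ⟨by linarith, by linarith⟩

theorem DRT_le {f g : α → ℝ} {c : ℝ} (h : ∀ x, |f x - g x| ≤ c) (hc : 0 ≤ c) : DD f g ≤ c :=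
  Real.iSup_le h hc

theorem DRT_eq {f g : α → ℝ} {c : ℝ} (h : ∀ x, |f x - g x| ≤ c) (a : α) (ha : |f a - g a| = c) :
    DD f g = c :=
  le_antisymm (DRT_le h (ha ▸ abs_nonneg _))
    (ha ▸ le_ciSup (f := fun x => |f x - g x|) ⟨c, fun _ ⟨x, e⟩ => e ▸ h x⟩ a)

theorem DRT_near (T : TM ρ) {f : α → ℝ} (hf : f ∈ RT ρ Set.univ) :
    ∃ a, ∀ x, |f x - ρ a x| ≤ 1 := by
  obtain ⟨a, -, b, -, s, hs, h, rfl⟩ := hf
  refine ⟨a, fun x => ?_⟩
  have e : pt ρ a b s x - ρ a x = s * ((ρ b x : ℝ) - ρ a x) := by unfold pt; ring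
  have h1 : (ρ a b : ℝ) ≤ 1 := by exact_mod_cast h
  have h2 := DRT_lip T a b x
  rw [e, abs_mul, abs_of_nonneg hs.1, abs_sub_comm]
  exact mul_le_one₀ hs.2 (abs_nonneg _) (h2.trans h1)

theorem pt_congr (T : TM ρ) {a b a' b' : α} (ha : ρ a a' = 0) (hb : ρ b b' = 0) (s : ℝ) :
    pt ρ a b s = pt ρ a' b' s := by
  funext x
  have h1 := DRT_lip T a a' x
  have h2 := DRT_lip T b b' x
  rw [ha, Nat.cast_zero, abs_nonpos_iff, sub_eq_zero] at h1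
  rw [hb, Nat.cast_zero, abs_nonpos_iff, sub_eq_zero] at h2
  unfold pt
  rw [h1, h2]

theorem le_DD (T : TM ρ) {f g : α → ℝ} (hf : f ∈ RT ρ Set.univ) (hg : g ∈ RT ρ Set.univ) (x : α) :
    |f x - g x| ≤ DD f g := by
  obtain ⟨a, ha⟩ := DRT_near T hf
  obtain ⟨b, hb⟩ := DRT_near T hg
  refine le_ciSup (f := fun x => |f x - g x|) ⟨2 + ρ a b, ?_⟩ x
  rintro _ ⟨y, rfl⟩
  obtain ⟨h1, h2⟩ := abs_le.1 (ha y)
  obtain ⟨h3, h4⟩ := abs_le.1 (hb y)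
  obtain ⟨h5, h6⟩ := abs_le.1 (DRT_lip T a b y)
  exact abs_le.2 ⟨by linarith, by linarith⟩

theorem DD_tri (T : TM ρ) {f g k : α → ℝ} (hf : f ∈ RT ρ Set.univ) (hg : g ∈ RT ρ Set.univ)
    (hk : k ∈ RT ρ Set.univ) : DD f k ≤ DD f g + DD g k :=
  DRT_le (fun x => (abs_sub_le (f x) (g x) (k x)).trans
    (add_le_add (le_DD T hf hg x) (le_DD T hg hk x))) (add_nonneg (DD_nonneg _ _) (DD_nonneg _ _))

theorem DD_eq_zero (T : TM ρ) {f g : α → ℝ} (hf : f ∈ RT ρ Set.univ) (hg : g ∈ RT ρ Set.univ)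
    (h : DD f g = 0) : f = g := by
  funext x
  have h1 := le_DD T hf hg x
  rwa [h, abs_nonpos_iff, sub_eq_zero] at h1

theorem DD_edge (T : TM ρ) {a b : α} (h : ρ a b ≤ 1) (s t : ℝ) :
    DD (pt ρ a b s) (pt ρ a b t) = |s - t| * ρ a b := by
  have _ := h
  have e : ∀ x, |pt ρ a b s x - pt ρ a b t x| = |s - t| * |(ρ a x : ℝ) - ρ b x| := fun x => by
    rw [abs_sub_comm (ρ a x : ℝ), ← abs_mul]
    congr 1
    unfold pt; ring
  refine DRT_eq (fun x => ?_) a ?_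
  · rw [e]; exact mul_le_mul_of_nonneg_left (DRT_lip T a b x) (abs_nonneg _)
  · rw [e, T.refl, T.symm b a]; simp

theorem DD_vertex (T : TM ρ) (a : α) {f : α → ℝ} (hf : f ∈ RT ρ Set.univ) :
    DD (pt ρ a a 0) f = f a := by
  obtain ⟨c, -, d, -, s, hs, -, rfl⟩ := hf
  have s1 : 0 ≤ 1 - s := sub_nonneg.2 hs.2
  refine DRT_eq (fun x => ?_) a ?_
  · obtain ⟨h1, h2⟩ := abs_le.1 (DRT_lip T c a x)
    obtain ⟨h3, h4⟩ := abs_le.1 (DRT_lip T d a x)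
    have k1 := mul_le_mul_of_nonneg_left h1 s1
    have k2 := mul_le_mul_of_nonneg_left h2 s1
    have k3 := mul_le_mul_of_nonneg_left h3 hs.1
    have k4 := mul_le_mul_of_nonneg_left h4 hs.1
    unfold pt
    exact abs_le.2 ⟨by linarith, by linarith⟩
  · have h0 : 0 ≤ pt ρ c d s a :=
      add_nonneg (mul_nonneg s1 (Nat.cast_nonneg _)) (mul_nonneg hs.1 (Nat.cast_nonneg _))
    have e : pt ρ a a 0 a = 0 := by unfold pt; rw [T.refl]; simp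
    rw [e, zero_sub, abs_neg, abs_of_nonneg h0]

/-- the linear interpolation of a `1`-Lipschitz sequence is `1`-Lipschitz -/
theorem DRT_interp {u : ℤ → ℝ} (hu : ∀ i j, |u i - u j| ≤ |(i : ℝ) - j|) {x y : ℝ} (h : x ≤ y) :
    |((1 - Int.fract x) * u ⌊x⌋ + Int.fract x * u (⌊x⌋ + 1)) -
      ((1 - Int.fract y) * u ⌊y⌋ + Int.fract y * u (⌊y⌋ + 1))| ≤ y - x := by
  have one : ∀ i, |u (i + 1) - u i| ≤ 1 := fun i => by simpa using hu (i + 1) i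
  have ex := Int.floor_add_fract x
  have ey := Int.floor_add_fract y
  rcases (Int.floor_mono h).eq_or_lt with e | l
  · rw [← e] at ey ⊢
    have e1 : (1 - Int.fract x) * u ⌊x⌋ + Int.fract x * u (⌊x⌋ + 1) -
        ((1 - Int.fract y) * u ⌊x⌋ + Int.fract y * u (⌊x⌋ + 1)) =
        -((y - x) * (u (⌊x⌋ + 1) - u ⌊x⌋)) := by
      have : y - x = Int.fract y - Int.fract x := by linarith
      rw [this]; ring
    rw [e1, abs_neg, abs_mul, abs_of_nonneg (sub_nonneg.2 h)]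
    exact mul_le_of_le_one_right (sub_nonneg.2 h) (one _)
  · have l1 : ((⌊x⌋ + 1 : ℤ) : ℝ) ≤ ⌊y⌋ := by exact_mod_cast l
    have m := hu (⌊x⌋ + 1) ⌊y⌋
    rw [abs_of_nonpos (sub_nonpos.2 l1)] at m
    push_cast at m
    obtain ⟨m1, m2⟩ := abs_le.1 m
    obtain ⟨h1, h2⟩ := abs_le.1 (one ⌊x⌋)
    obtain ⟨h3, h4⟩ := abs_le.1 (one ⌊y⌋)
    have s1 : 0 ≤ 1 - Int.fract x := sub_nonneg.2 (Int.fract_lt_one x).le
    have k1 := mul_le_mul_of_nonneg_left h1 s1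
    have k2 := mul_le_mul_of_nonneg_left h2 s1
    have k3 := mul_le_mul_of_nonneg_left h3 (Int.fract_nonneg y)
    have k4 := mul_le_mul_of_nonneg_left h4 (Int.fract_nonneg y)
    exact abs_le.2 ⟨by linarith, by linarith⟩

theorem DD_line (T : TM ρ) {a : ℤ → α} (ha : ∀ i j, ρ (a i) (a j) = (i - j).natAbs) (x y : ℝ) :
    DD (pt ρ (a ⌊x⌋) (a (⌊x⌋ + 1)) (Int.fract x)) (pt ρ (a ⌊y⌋) (a (⌊y⌋ + 1)) (Int.fract y)) =
      |x - y| := by
  have hr : ∀ i j, (ρ (a i) (a j) : ℝ) = |(i : ℝ) - j| := fun i j => by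
    rw [ha, Nat.cast_natAbs]; push_cast; rfl
  have hu : ∀ v i j, |(ρ (a i) v : ℝ) - ρ (a j) v| ≤ |(i : ℝ) - j| := fun v i j =>
    hr i j ▸ DRT_lip T (a i) (a j) v
  have val : ∀ (n : ℤ) (z : ℝ), n ≤ ⌊z⌋ →
      pt ρ (a ⌊z⌋) (a (⌊z⌋ + 1)) (Int.fract z) (a n) = z - n := fun n z hn => by
    have h1 : (n : ℝ) ≤ ⌊z⌋ := by exact_mod_cast hn
    have ez := Int.floor_add_fract z
    unfold pt
    rw [hr, hr, abs_of_nonneg (sub_nonneg.2 h1), abs_of_nonneg (by push_cast; linarith)]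
    push_cast
    linarith
  refine DRT_eq (fun v => ?_) (a (min ⌊x⌋ ⌊y⌋)) ?_
  · rcases le_total x y with h | h
    · rw [abs_sub_comm x y, abs_of_nonneg (sub_nonneg.2 h)]
      exact DRT_interp (u := fun i => (ρ (a i) v : ℝ)) (hu v) h
    · rw [abs_of_nonneg (sub_nonneg.2 h), abs_sub_comm]
      exact DRT_interp (u := fun i => (ρ (a i) v : ℝ)) (hu v) h
  · rw [val _ x (min_le_left _ _), val _ y (min_le_right _ _)]
    congr 1; ring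

end Pool.Agent.FC
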