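import Pool.Agent.P.MP_5e292f_al.DProp

set_option autoImplicit false

namespace Pool.Agent.FC

theorem dsep_pt0 {α : Type} (ρ : α → α → ℕ) (a b : α) : pt ρ a b 0 = pt ρ a a 0 := by
  funext x; simp [pt]

theorem dsep_pt1 {α : Type} (ρ : α → α → ℕ) (a b : α) : pt ρ a b 1 = pt ρ b b 0 := by
  funext x; simp [pt]

namespace Sys

variable (S : Sys)

theorem dsep_zero {g g' : S.G} (h : S.h g g' = 0) (a : S.G) : S.h g a = S.h g' a := by
  have h1 := S.th.tri g g' a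
  have h2 := S.th.tri g' g a
  have h3 := S.th.symm g g'
  omega

theorem dsep_WE {g k g' k' : S.G} (h1 : S.h g g' = 0) (h2 : S.h k k' = 0) :
    S.WE g k = S.WE g' k' := by
  ext a
  simp only [WE, Set.mem_ofPred_eq, S.dsep_zero h1, S.dsep_zero h2]

theorem dsep_dist {g k : S.G} (hk : S.h g k ≤ 1) {a b : S.X} (ha : a ∈ S.Bd g k)
    (hb : b ∈ S.Bd g k) : dist a b = DD a.1.2 b.1.2 := by
  have h : ∀ c ∈ S.Bd g k, c ∈ S.Pc g k := fun c hc =>
    ⟨⟨0, ⟨le_rfl, zero_le_one⟩, hc.1.trans (dsep_pt0 _ _ _).symm⟩, hc.2⟩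
  rw [S.dist_adj ⟨g, k, hk, h a ha, h b hb⟩, DX, ha.1, hb.1, DD_self, zero_pow two_ne_zero,
    zero_add, Real.sqrt_sq (DD_nonneg _ _)]

theorem dsep_vtx {g k x : S.G} (hx : x ∈ S.WE g k) : S.vtx x ∈ S.Bd g k :=
  ⟨(pt_congr S.th hx.1 hx.1 0).symm, x, hx, x, hx, 0, ⟨le_rfl, zero_le_one⟩,
    by rw [S.tv.refl]; omega, rfl⟩

theorem dsep_seg {g k : S.G} (hk : S.h g k ≤ 1) (x y : S.G) : IsCompact {a | a ∈ S.Bd g k ∧
    x ∈ S.WE g k ∧ y ∈ S.WE g k ∧ S.v x y ≤ 1 ∧ ∃ t ∈ Set.Icc (0 : ℝ) 1, a.1.2 = pt S.v x y t} := by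
  by_cases h : x ∈ S.WE g k ∧ y ∈ S.WE g k ∧ S.v x y ≤ 1
  · obtain ⟨hx, hy, hv⟩ := h
    have hm : ∀ t : Set.Icc (0 : ℝ) 1, pt S.v x y t ∈ RT S.v (S.WE g k) := fun t =>
      ⟨x, hx, y, hy, t, t.2, hv, rfl⟩
    let γ : Set.Icc (0 : ℝ) 1 → S.X := fun t =>
      ⟨(pt S.h g k 0, pt S.v x y t), S.inX_pc hk ⟨le_rfl, zero_le_one⟩ (hm t)⟩
    have hγ : ∀ t, γ t ∈ S.Bd g k := fun t => ⟨dsep_pt0 _ _ _, hm t⟩
    have hl : LipschitzWith 1 γ := by
      refine LipschitzWith.of_dist_le_mul fun s t => ?_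
      rw [S.dsep_dist hk (hγ s) (hγ t), NNReal.coe_one, one_mul, Subtype.dist_eq, Real.dist_eq]
      refine (DD_edge S.tv hv s t).trans_le (mul_le_of_le_one_right (abs_nonneg _) ?_)
      exact_mod_cast hv
    have e : {a | a ∈ S.Bd g k ∧ x ∈ S.WE g k ∧ y ∈ S.WE g k ∧ S.v x y ≤ 1 ∧
        ∃ t ∈ Set.Icc (0 : ℝ) 1, a.1.2 = pt S.v x y t} = Set.range γ := by
      ext a
      constructor
      · rintro ⟨ha, -, -, -, t, ht, e⟩
        exact ⟨⟨t, ht⟩, Subtype.ext (Prod.ext ((dsep_pt0 _ _ _).trans ha.1.symm) e.symm)⟩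
      · rintro ⟨t, rfl⟩
        exact ⟨hγ t, hx, hy, hv, t, t.2, rfl⟩
    rw [e]
    exact isCompact_range hl.continuous
  · exact (Set.Finite.subset Set.finite_empty fun a ha =>
      absurd ⟨ha.2.1, ha.2.2.1, ha.2.2.2.1⟩ h).isCompact

theorem bd_min {g k : S.G} (hk : S.h g k ≤ 1) (p q : S.X) :
    ∃ a ∈ S.Bd g k, ∀ b ∈ S.Bd g k, dist p a + dist a q ≤ dist p b + dist b q := by
  obtain ⟨x0, hx0⟩ := S.WE_ne hk
  have h0 := S.dsep_vtx hx0
  set R := dist p (S.vtx x0) + dist (S.vtx x0) q with hR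
  have hf := S.finite_vtx p (R + 1)
  have hK := hf.isCompact_biUnion fun x _ => hf.isCompact_biUnion fun y _ => S.dsep_seg hk x y
  have hmem : ∀ b ∈ S.Bd g k, dist p b ≤ R → b ∈ ⋃ x ∈ {g : S.G | dist p (S.vtx g) ≤ R + 1},
      ⋃ y ∈ {g : S.G | dist p (S.vtx g) ≤ R + 1}, {a | a ∈ S.Bd g k ∧ x ∈ S.WE g k ∧
        y ∈ S.WE g k ∧ S.v x y ≤ 1 ∧ ∃ t ∈ Set.Icc (0 : ℝ) 1, a.1.2 = pt S.v x y t} := by
    intro b hb hd
    obtain ⟨x, hx, y, hy, t, ht, hv, e⟩ := hb.2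
    have hv' : (S.v x y : ℝ) ≤ 1 := by exact_mod_cast hv
    have hv0 : (0 : ℝ) ≤ S.v x y := Nat.cast_nonneg _
    have key : ∀ z ∈ S.WE g k, b.1.2 z ≤ 1 → dist p (S.vtx z) ≤ R + 1 := by
      intro z hz h1
      have h2 := S.dsep_dist hk (S.dsep_vtx hz) hb
      have h3 : DD (S.vtx z).1.2 b.1.2 = b.1.2 z := DD_vertex S.tv z (S.mem_v b)
      have h4 := dist_triangle_right p (S.vtx z) b
      linarith
    simp only [Set.mem_iUnion]
    refine ⟨x, key x hx ?_, y, key y hy ?_, hb, hx, hy, hv, t, ht, e⟩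
    · rw [e, pt, S.tv.refl, S.tv.symm y x]
      push_cast
      nlinarith [ht.1, ht.2]
    · rw [e, pt, S.tv.refl]
      push_cast
      nlinarith [ht.1, ht.2]
  have h1 := hmem _ h0 (le_add_of_nonneg_right dist_nonneg)
  obtain ⟨a, ha, hmin⟩ := hK.exists_isMinOn ⟨_, h1⟩
    (f := fun a => dist p a + dist a q) (by fun_prop)
  refine ⟨a, ?_, fun b hb => ?_⟩
  · simp only [Set.mem_iUnion] at ha
    obtain ⟨x, -, y, -, h, -⟩ := ha
    exact h
  · rcases le_total (dist p b) R with h | h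
    · exact hmin (hmem b hb h)
    · have : dist p a + dist a q ≤ R := hmin h1
      linarith [dist_nonneg (x := b) (y := q)]

/-- Two edges crossed in opposite senses coincide. -/
theorem edge_eq {g k g' k' : S.G} (hk : S.h g k = 1) (hk' : S.h g' k' ≤ 1)
    (h1 : S.h g' g < S.h g' k) (h2 : S.h k' k < S.h k' g) : S.h g' g = 0 ∧ S.h k' k = 0 := by
  have h3 := S.th.four g' k k' g
  rw [S.th.symm k g, S.th.symm k k'] at h3
  omega

theorem dsep_pm {g k : S.G} (hk : S.h g k = 1) (x : S.G) :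
    S.h x k = S.h x g + 1 ∨ S.h x g = S.h x k + 1 := by
  have h1 := S.th.par g k x hk
  have h2 := S.th.tri x g k
  have h3 := S.th.tri x k g
  rw [S.th.symm g x, S.th.symm k x] at h1
  rw [S.th.symm k g] at h3
  omega

theorem pc_side {g k g' k' : S.G} (hk : S.h g k = 1) (hk' : S.h g' k' ≤ 1) :
    S.Pc g' k' ⊆ S.Hs g k ∨ S.Pc g' k' ∩ S.Hs g k ⊆ S.Bd g k := by
  rcases S.dsep_pm hk g' with h1 | h1 <;> rcases S.dsep_pm hk k' with h2 | h2
  · left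
    rintro p ⟨⟨s, -, e⟩, -⟩
    change p.1.1 k - p.1.1 g = 1
    rw [e, pt, pt, h1, h2]
    push_cast
    ring
  · right
    rintro p ⟨⟨⟨s, -, e⟩, hp⟩, h3⟩
    change p.1.1 k - p.1.1 g = 1 at h3
    rw [e, pt, pt, h1, h2] at h3
    push_cast at h3
    obtain rfl : s = 0 := by linarith
    obtain ⟨a1, a2⟩ := S.edge_eq hk hk' (by omega) (by omega)
    exact ⟨e.trans ((dsep_pt0 _ _ _).trans (pt_congr S.th a1 a1 0)), S.dsep_WE a1 a2 ▸ hp⟩
  · right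
    rintro p ⟨⟨⟨s, -, e⟩, hp⟩, h3⟩
    change p.1.1 k - p.1.1 g = 1 at h3
    rw [e, pt, pt, h1, h2] at h3
    push_cast at h3
    obtain rfl : s = 1 := by linarith
    obtain ⟨a1, a2⟩ := S.edge_eq ((S.th.symm k g).trans hk) hk' (by omega) (by omega)
    rw [S.RT_WE_symm] at hp
    exact ⟨e.trans ((dsep_pt1 _ _ _).trans (pt_congr S.th a2 a2 0)), S.dsep_WE a2 a1 ▸ hp⟩
  · right
    rintro p ⟨⟨⟨s, -, e⟩, -⟩, h3⟩
    change p.1.1 k - p.1.1 g = 1 at h3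
    rw [e, pt, pt, h1, h2] at h3
    push_cast at h3
    exact absurd h3 (by linarith)

theorem dsep_chain {g k : S.G} (hk : S.h g k = 1) {p q : S.X} (hp : p ∈ S.Hs g k) {c : ℝ}
    (hc : S.Chain p q c) : q ∉ S.Hs g k ∨ q ∈ S.Bd g k →
      ∃ a ∈ S.Bd g k, dist p a + dist a q ≤ c := by
  induction hc with
  | refl => exact fun h => ⟨p, h.resolve_left (not_not.2 hp), by simp⟩
  | @step q r c hc hadj ih =>
    rintro (hr | hr)
    · obtain ⟨g', k', hk', hq', hr'⟩ := id hadj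
      rcases S.pc_side hk hk' with h | h
      · exact absurd (h hr') hr
      · obtain ⟨a, ha, h1⟩ := ih ((em _).symm.imp_right fun h2 => h ⟨hq', h2⟩)
        refine ⟨a, ha, ?_⟩
        rw [← S.dist_adj hadj]
        linarith [dist_triangle a q r]
    · exact ⟨r, hr, by simpa using S.dist_le_chain (hc.step hadj)⟩

theorem sep {g k : S.G} (hk : S.h g k = 1) {p q : S.X} (hp : p ∈ S.Hs g k)
    (hq : q ∉ S.Hs g k ∨ q ∈ S.Bd g k) : ∃ a ∈ S.Bd g k, dist p q = dist p a + dist a q := by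
  obtain ⟨a, ha, hmin⟩ := S.bd_min hk.le p q
  refine ⟨a, ha, le_antisymm (dist_triangle _ _ _) ?_⟩
  refine (le_csInf (S.chain_ne p q) fun c hc => ?_).trans_eq (S.dist_def p q).symm
  obtain ⟨b, hb, h⟩ := S.dsep_chain hk hp hc hq
  exact (hmin b hb).trans h

end Sys

end Pool.Agent.FC
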