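import Pool.Agent.P.MP_5e292f_al.GNf

set_option autoImplicit false

namespace Pool.Agent.FC

variable {A : Type} {G : Type} [Group G] {D : VH A} {ι : A → G}

/-- Words of least length. -/
def GRMin (ι : A → G) (w : List A) : Prop := ∀ u, ev ι u = ev ι w → w.length ≤ u.length

/-- Products of a vertical and a horizontal word. -/
def GRVH (D : VH A) (ι : A → G) (g : G) : Prop :=
  ∃ V H : List A, (∀ a ∈ V, D.c a = false) ∧ (∀ a ∈ H, D.c a = true) ∧ ev ι V * ev ι H = g

theorem gr_length (w : List A) : w.length = w.countP D.c + w.countP D.tr.c := by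
  induction w with
  | nil => rfl
  | cons a w ih =>
    have : D.tr.c a = !D.c a := rfl
    simp only [List.length_cons, List.countP_cons, this, ih]
    cases D.c a <;> simp <;> omega

theorem gr_min_red (h : Pres D ι) {w : List A} (m : GRMin ι w) : Red D w := by
  rw [Red, List.isChain_iff_forall_rel_of_append_cons_cons]
  intro a b x y e hb
  have := m (x ++ y) (by rw [e, hb]; simp [ev_append, ev_cons, h.inv])
  rw [e] at this
  simp only [List.length_append, List.length_cons] at this
  omega

theorem gr_min_congr {u w : List A} (m : GRMin ι w) (e : ev ι u = ev ι w)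
    (l : u.length ≤ w.length) : GRMin ι u := fun x hx => l.trans (m x (hx.trans e))

theorem gr_irr_min (h : Pres D ι) {w : List A} (hw : Irr D w) : GRMin ι w := by
  intro u e
  obtain ⟨h1, h2⟩ := len_irr h hw
  have a1 := len_le (D := D) (ι := ι) u
  have a2 := len_le (D := D.tr) (ι := ι) u
  rw [e] at a1 a2
  rw [gr_length (D := D) w, gr_length (D := D) u]
  omega

theorem gr_irr_red {w : List A} (hw : Irr D w) : Red D w := List.IsChain.imp (fun _ _ q => q.1) hw

theorem gr_mono (h : Pres D ι) {w : List A} {b : Bool} (hc : ∀ a ∈ w, D.c a = b) :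
    ∃ u, Red D u ∧ (∀ a ∈ u, D.c a = b) ∧ ev ι u = ev ι w := by
  obtain ⟨u, i, e, c1, c2⟩ := nf_exists h w
  refine ⟨u, gr_irr_red i, fun a ha => ?_, e⟩
  cases b with
  | false =>
    have z : w.countP D.c = 0 := List.countP_eq_zero.2 fun x hx => by simp [hc x hx]
    have := List.countP_eq_zero.1 (Nat.le_zero.1 (z ▸ c1)) a ha
    simpa using this
  | true =>
    have z : w.countP D.tr.c = 0 := List.countP_eq_zero.2 fun x hx => by
      show ¬((!D.c x) = true)
      simp [hc x hx]
    have : ¬((!D.c a) = true) := List.countP_eq_zero.1 (Nat.le_zero.1 (z ▸ c2)) a ha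
    simpa using this

theorem gr_vh_irr (h : Pres D ι) {g : G} (hg : GRVH D ι g) : ∃ N, Irr D N ∧ ev ι N = g ∧
    N.Pairwise fun a b => D.c a = true → D.c b = true := by
  obtain ⟨V, H, cV, cH, e⟩ := hg
  obtain ⟨V', r1, c1, e1⟩ := gr_mono h cV
  obtain ⟨H', r2, c2, e2⟩ := gr_mono h cH
  refine ⟨V' ++ H', irr_vh r1 r2 c1 c2, by rw [ev_append, e1, e2, e], ?_⟩
  rw [List.pairwise_append]
  refine ⟨List.pairwise_of_forall_mem_list fun a ha b _ q => ?_,
    List.pairwise_of_forall_mem_list fun a _ b hb _ => c2 b hb, fun a _ b hb _ => c2 b hb⟩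
  rw [c1 a ha] at q
  exact absurd q (by simp)

theorem gr_corner (h : Pres D ι) {X U : List A} {k u : A} (ck : D.c k = true)
    (cU : ∀ a ∈ u :: U, D.c a = false) (m : GRMin ι (X ++ k :: u :: U))
    (hg : GRVH D ι (ev ι (X ++ k :: u :: U))) : ∃ v' k', D.Sq k u v' k' := by
  by_contra ns
  obtain ⟨N, iN, eN, c1, c2⟩ := nf_exists h X
  have e : ev ι (N ++ k :: u :: U) = ev ι (X ++ k :: u :: U) := by rw [ev_append, ev_append, eN]
  have l : N.length ≤ X.length := by
    rw [gr_length (D := D) N, gr_length (D := D) X]; omega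
  have r : Red D (N ++ k :: u :: U) := gr_min_red h (gr_min_congr m e (by simpa using l))
  rw [Red, List.isChain_append, List.isChain_cons_cons] at r
  obtain ⟨-, ⟨r1, r2⟩, r3⟩ := r
  have i : Irr D (N ++ k :: u :: U) := by
    rw [Irr, List.isChain_append, List.isChain_cons_cons]
    refine ⟨iN, ⟨⟨r1, ns⟩, irr_of_red r2 cU⟩, fun x hx y hy => ⟨r3 x hx y hy, ?_⟩⟩
    rintro ⟨v', k', q⟩
    have : k = y := by simpa using hy
    have z := (D.sq_c _ _ _ _ q).2.1
    rw [← this, ck] at z
    exact absurd z (by simp)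
  obtain ⟨M, iM, eM, p⟩ := gr_vh_irr h hg
  rw [← nf_unique h i iM (e.trans eM.symm), List.pairwise_append, List.pairwise_cons] at p
  have z := p.2.1.1 u (by simp) ck
  rw [cU u (by simp)] at z
  exact absurd z (by simp)

theorem gr_pass (h : Pres D ι) : ∀ (U X : List A) (k : A), D.c k = true →
    (∀ a ∈ U, D.c a = false) → GRMin ι (X ++ k :: U) → GRVH D ι (ev ι (X ++ k :: U)) →
    ∃ (U₁ : List A) (hs us vs : ℕ → A), U₁.length = U.length ∧ (∀ a ∈ U₁, D.c a = false) ∧
      hs 0 = k ∧ D.c (hs U.length) = true ∧ ι k * ev ι U = ev ι U₁ * ι (hs U.length) ∧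
      ∀ j < U.length, U[j]? = some (us j) ∧ U₁[j]? = some (vs j) ∧
        D.Sq (hs j) (us j) (vs j) (hs (j + 1))
  | [], _, k, ck, _, _, _ =>
    ⟨[], fun _ => k, fun _ => k, fun _ => k, rfl, by simp, rfl, ck, by simp [ev], by simp⟩
  | u :: U, X, k, ck, cU, m, hg => by
    obtain ⟨v', k', q⟩ := gr_corner h ck cU m hg
    have cq := D.sq_c _ _ _ _ q
    have e : ev ι ((X ++ [v']) ++ k' :: U) = ev ι (X ++ k :: u :: U) := by
      simp only [ev_append, ev_cons, mul_assoc]
      rw [← mul_assoc (ι k), h.sq _ _ _ _ q]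
      simp [ev, mul_assoc]
    obtain ⟨U₁, hs, us, vs, l, c1, h0, c2, e2, g⟩ := gr_pass h U (X ++ [v']) k' cq.2.2.2
      (fun a ha => cU a (List.mem_cons_of_mem _ ha)) (gr_min_congr m e (by simp)) (e ▸ hg)
    refine ⟨v' :: U₁, fun j => Nat.casesOn j k hs, fun j => Nat.casesOn j u us,
      fun j => Nat.casesOn j v' vs, by simp [l], ?_, rfl, c2, ?_, ?_⟩
    · intro a ha
      rcases List.mem_cons.1 ha with rfl | ha
      exacts [cq.2.2.1, c1 a ha]
    · show ι k * ev ι (u :: U) = ev ι (v' :: U₁) * ι (hs U.length)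
      rw [ev_cons, ev_cons, ← mul_assoc, h.sq _ _ _ _ q, mul_assoc, e2, mul_assoc]
    · intro j hj
      cases j with
      | zero => exact ⟨rfl, rfl, by show D.Sq k u v' (hs 0); rw [h0]; exact q⟩
      | succ j => exact g j (by simpa using hj)

theorem gr_grid [Nonempty A] (h : Pres D ι) (W : List A) : ∀ U : List A, (∀ a ∈ W, D.c a = true) →
    (∀ a ∈ U, D.c a = false) → GRMin ι (W ++ U) → GRVH D ι (ev ι (W ++ U)) →
    ∃ (U' W' : List A) (hl vl : ℕ → ℕ → A), U'.length = U.length ∧ W'.length = W.length ∧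
      (∀ a ∈ U', D.c a = false) ∧ (∀ a ∈ W', D.c a = true) ∧ ev ι (U' ++ W') = ev ι (W ++ U) ∧
      (∀ i < W.length, ∀ j < U.length, D.Sq (hl i j) (vl (i + 1) j) (vl i j) (hl i (j + 1))) ∧
      (∀ i < W.length, W[i]? = some (hl i 0) ∧ W'[i]? = some (hl i U.length)) ∧
      ∀ j < U.length, U[j]? = some (vl W.length j) ∧ U'[j]? = some (vl 0 j) := by
  induction W using List.reverseRecOn with
  | nil =>
    intro U _ cU _ _
    obtain ⟨z⟩ := ‹Nonempty A›
    refine ⟨U, [], fun _ _ => z, fun _ j => U[j]?.getD z, rfl, rfl, cU, by simp, by simp, by simp,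
      by simp, fun j hj => ?_⟩
    simp [List.getElem?_eq_getElem hj]
  | append_singleton W k ih =>
    intro U cW cU m hg
    have ea : W ++ [k] ++ U = W ++ k :: U := by simp
    rw [ea] at m hg ⊢
    obtain ⟨U₁, hs, us, vs, l, c1, h0, c2, e2, g⟩ := gr_pass h U W k (cW k (by simp)) cU m hg
    have e3 : ev ι (W ++ k :: U) = ev ι (W ++ U₁) * ι (hs U.length) := by
      rw [ev_append, ev_cons, e2, ev_append, mul_assoc]
    have m1 : GRMin ι (W ++ U₁) := by
      intro x hx
      have := m (x ++ [hs U.length]) (by rw [e3, ev_append, hx]; simp [ev])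
      simp only [List.length_append, List.length_cons, List.length_nil] at this ⊢
      omega
    have g1 : GRVH D ι (ev ι (W ++ U₁)) := by
      obtain ⟨V, H, cV, cH, e⟩ := hg
      refine ⟨V, H ++ [D.inv (hs U.length)], cV, fun a ha => ?_, ?_⟩
      · rcases List.mem_append.1 ha with ha | ha
        · exact cH a ha
        · rw [List.mem_singleton.1 ha, D.c_inv, c2]
      · rw [ev_append, ← mul_assoc, e, e3]
        simp [ev, h.inv]
    obtain ⟨U', W', hl, vl, l1, l2, c3, c4, e4, q1, q2, q3⟩ :=
      ih U₁ (fun a ha => cW a (by simp [ha])) c1 m1 g1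
    rw [l] at l1 q1 q2 q3
    refine ⟨U', W' ++ [hs U.length], fun i j => if i = W.length then hs j else hl i j,
      fun i j => if i = W.length + 1 then us j else vl i j, l1, by simp [l2], c3, ?_, ?_, ?_, ?_, ?_⟩
    · intro a ha
      rcases List.mem_append.1 ha with ha | ha
      · exact c4 a ha
      · rw [List.mem_singleton.1 ha, c2]
    · rw [← List.append_assoc, ev_append, e4, e3]
      simp [ev]
    · intro i hi j hj
      simp only [List.length_append, List.length_singleton] at hi
      by_cases hc : i = W.length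
      · subst hc
        have : vl W.length j = vs j := by
          have a := (q3 j hj).1
          rw [(g j hj).2.1] at a
          exact (Option.some.inj a).symm
        simp only [if_true, if_neg (Nat.succ_ne_self _).symm, this]
        exact (g j hj).2.2
      · simp only [if_neg hc, if_neg (show i + 1 ≠ W.length + 1 by omega),
          if_neg (show i ≠ W.length + 1 by omega)]
        exact q1 i (by omega) j hj
    · intro i hi
      simp only [List.length_append, List.length_singleton] at hi
      by_cases hc : i = W.length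
      · subst hc
        refine ⟨by simp [h0], ?_⟩
        rw [List.getElem?_append_right (by omega)]
        simp [l2]
      · simp only [if_neg hc]
        rw [List.getElem?_append_left (by omega), List.getElem?_append_left (by omega)]
        exact q2 i (by omega)
    · intro j hj
      simp only [List.length_append, List.length_singleton, if_true,
        if_neg (show 0 ≠ W.length + 1 by omega)]
      exact ⟨(g j hj).1, (q3 j hj).2⟩

/-- If `W U = U' W'` with reduced horizontal `W, W'` and reduced vertical `U, U'`, the rectangle is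
filled with squares. -/
theorem rect [Nonempty A] (h : Pres D ι) {W W' U U' : List A} (rW : Red D W) (rW' : Red D W')
    (rU : Red D U)
    (rU' : Red D U') (cW : ∀ a ∈ W, D.c a = true) (cW' : ∀ a ∈ W', D.c a = true)
    (cU : ∀ a ∈ U, D.c a = false) (cU' : ∀ a ∈ U', D.c a = false)
    (e : ev ι (W ++ U) = ev ι (U' ++ W')) :
    W'.length = W.length ∧ U'.length = U.length ∧ ∃ hl vl : ℕ → ℕ → A,
      (∀ i < W.length, ∀ j < U.length, D.Sq (hl i j) (vl (i + 1) j) (vl i j) (hl i (j + 1))) ∧
      (∀ i < W.length, W[i]? = some (hl i 0) ∧ W'[i]? = some (hl i U.length)) ∧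
      ∀ j < U.length, U[j]? = some (vl W.length j) ∧ U'[j]? = some (vl 0 j) := by
  have m : GRMin ι (W ++ U) := gr_irr_min h.tr (irr_vh (D := D.tr) rW rU
    (fun a ha => by show (!D.c a) = false; simp [cW a ha])
    (fun a ha => by show (!D.c a) = true; simp [cU a ha]))
  obtain ⟨U₁, W₁, hl, vl, l1, l2, c1, c2, e1, q⟩ :=
    gr_grid h W U cW cU m ⟨U', W', cU', cW', by rw [e, ev_append]⟩
  have r : Red D (U₁ ++ W₁) := gr_min_red h (gr_min_congr m e1 (by simp [l1, l2, Nat.add_comm]))
  have z : U₁ ++ W₁ = U' ++ W' := nf_unique h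
    (irr_vh (List.IsChain.left_of_append r) (List.IsChain.right_of_append r) c1 c2)
    (irr_vh rU' rW' cU' cW') (e1.trans e)
  have f : ∀ V H : List A, (∀ a ∈ V, D.c a = false) → (∀ a ∈ H, D.c a = true) →
      (V ++ H).filter D.c = H := fun V H cV cH => by
    rw [List.filter_append, List.filter_eq_nil_iff.2 (fun a ha => by simp [cV a ha]),
      List.filter_eq_self.2 cH, List.nil_append]
  have z2 : W₁ = W' := by rw [← f U₁ W₁ c1 c2, z, f U' W' cU' cW']
  subst z2
  have z1 : U₁ = U' := List.append_cancel_right z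
  subst z1
  exact ⟨l2, l1, hl, vl, q⟩

theorem gr_mod {m : ℕ} (hm : 0 < m) (i : ℤ) : (i % m).toNat < m ∧
    (((i + 1) % m).toNat = (i % m).toNat + 1 ∧ (i % m).toNat + 1 < m ∨
      (i % m).toNat + 1 = m ∧ ((i + 1) % m).toNat = 0) := by
  have h0 := Int.emod_nonneg i (show (m : ℤ) ≠ 0 by omega)
  have h1 := Int.emod_lt_of_pos i (show (0 : ℤ) < m by omega)
  refine ⟨by omega, ?_⟩
  rw [← Int.emod_add_emod]
  by_cases c : i % m + 1 < m
  · rw [Int.emod_eq_of_lt (by omega) c]
    omega
  · rw [show i % m + 1 = m by omega, Int.emod_self]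
    omega

theorem gr_cyc {W : List A} (hm : 0 < W.length) (r : Red D (W ++ W)) {f : ℕ → A}
    (hf : ∀ i < W.length, W[i]? = some (f i)) (i : ℤ) :
    f ((i + 1) % W.length).toNat ≠ D.inv (f (i % W.length).toNat) := by
  obtain ⟨h1, h2⟩ := gr_mod hm i
  generalize (i % W.length).toNat = a at h1 h2
  generalize ((i + 1) % W.length).toNat = b at h2
  have p : a + 1 < (W ++ W).length := by simp; omega
  have z := List.isChain_iff_getElem.1 r a p
  have e1 : (W ++ W)[a] = f a := by
    apply Option.some.inj
    rw [← List.getElem?_eq_getElem, List.getElem?_append_left h1, hf a h1]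
  have e2 : (W ++ W)[a + 1] = f b := by
    apply Option.some.inj
    rw [← List.getElem?_eq_getElem]
    rcases h2 with ⟨rfl, h3⟩ | ⟨h3, rfl⟩
    · rw [List.getElem?_append_left h3, hf _ h3]
    · rw [List.getElem?_append_right (by omega), h3, Nat.sub_self, hf 0 hm]
  rwa [e1, e2] at z

theorem gr_prop {P : ℤ → Prop} {n : ℕ} (hn : 0 < n) (s : ∀ j, P j → P (j + 1)) {j : ℤ} (p : P j) :
    ∃ k, P k ∧ k % n = 0 := by
  have a : ∀ t : ℕ, P (j + t) := fun t => by
    induction t with
    | zero => simpa using p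
    | succ t ih => rw [Nat.cast_succ, ← add_assoc]; exact s _ ih
  refine ⟨_, a (-j % n).toNat, ?_⟩
  rw [Int.toNat_of_nonneg (Int.emod_nonneg _ (by omega)), Int.add_emod_emod]
  simp

/-- Commuting cyclically reduced horizontal and vertical words give a torus. -/
theorem torus_of_comm (h : Pres D ι) {W U : List A} (nW : W ≠ []) (nU : U ≠ [])
    (rW : Red D (W ++ W)) (rU : Red D (U ++ U)) (cW : ∀ a ∈ W, D.c a = true)
    (cU : ∀ a ∈ U, D.c a = false) (e : ev ι W * ev ι U = ev ι U * ev ι W) : Torus D := by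
  have : Nonempty A := ⟨W.head nW⟩
  have hm : 0 < W.length := List.length_pos_iff.2 nW
  have hn : 0 < U.length := List.length_pos_iff.2 nU
  obtain ⟨-, -, hl, vl, q1, q2, q3⟩ := rect h (List.IsChain.left_of_append rW)
    (List.IsChain.left_of_append rW) (List.IsChain.left_of_append rU)
    (List.IsChain.left_of_append rU) cW cW cU cU (by rw [ev_append, ev_append, e])
  have S : ∀ i j : ℤ, D.Sq (hl (i % W.length).toNat (j % U.length).toNat)
      (vl ((i + 1) % W.length).toNat (j % U.length).toNat)
      (vl (i % W.length).toNat (j % U.length).toNat)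
      (hl (i % W.length).toNat ((j + 1) % U.length).toNat) := by
    intro i j
    obtain ⟨a1, a2⟩ := gr_mod hm i
    obtain ⟨b1, b2⟩ := gr_mod hn j
    have e1 : vl ((i + 1) % W.length).toNat (j % U.length).toNat =
        vl ((i % W.length).toNat + 1) (j % U.length).toNat := by
      rcases a2 with ⟨a, -⟩ | ⟨a, a'⟩
      · rw [a]
      · rw [a, a']
        exact Option.some.inj ((q3 _ b1).2.symm.trans (q3 _ b1).1)
    have e2 : hl (i % W.length).toNat ((j + 1) % U.length).toNat =
        hl (i % W.length).toNat ((j % U.length).toNat + 1) := by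
      rcases b2 with ⟨a, -⟩ | ⟨a, a'⟩
      · rw [a]
      · rw [a, a']
        exact Option.some.inj ((q2 _ a1).1.symm.trans (q2 _ a1).2)
    rw [e1, e2]
    exact q1 _ a1 _ b1
  refine ⟨W.length, U.length, fun i j => hl (i % W.length).toNat (j % U.length).toNat,
    fun i j => vl (i % W.length).toNat (j % U.length).toNat, hm, hn, S, fun i j b => ?_,
    fun i j b => ?_, fun i j => by simp, fun i j => by simp, fun i j => by simp,
    fun i j => by simp⟩
  · obtain ⟨k, p, hk⟩ := gr_prop (P := fun j => hl ((i + 1) % W.length).toNat (j % U.length).toNat =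
      D.inv (hl (i % W.length).toNat (j % U.length).toNat)) hn (fun j p => by
        have s := S (i + 1) j
        rw [p] at s
        exact (D.sq_left s (D.sq_l _ _ _ _ (S i j))).2) b
    simp only [hk] at p
    exact gr_cyc hm rW (f := fun i => hl i 0) (fun i hi => (q2 i hi).1) i p
  · obtain ⟨k, p, hk⟩ := gr_prop (P := fun i => vl (i % W.length).toNat ((j + 1) % U.length).toNat =
      D.inv (vl (i % W.length).toNat (j % U.length).toNat)) hm (fun i p => by
        have s := S i (j + 1)
        rw [p] at s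
        exact (D.sq_left s (D.sq_r _ _ _ _ (S i j))).1) b
    simp only [hk] at p
    exact gr_cyc hn rU (f := fun j => vl 0 j) (fun j hj => (q3 j hj).2) j p

end Pool.Agent.FC
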