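import Pool.Agent.P.MP_5e292f_al.GNf

set_option autoImplicit false

namespace Pool.Agent.FC

/-- A bipartite geodesic pseudometric with unique parents satisfies the four point condition. -/
theorem GTree_four {α : Type} {ρ : α → α → ℕ} (symm : ∀ a b, ρ a b = ρ b a)
    (tri : ∀ a b c, ρ a c ≤ ρ a b + ρ b c) (par : ∀ a b x, ρ a b = 1 → ρ a x ≠ ρ b x)
    (step : ∀ a b n, ρ a b = n + 1 → ∃ c, ρ a c = 1 ∧ ρ c b = n)
    (uniq : ∀ p x y y', ρ y x = 1 → ρ y' x = 1 → ρ p y + 1 = ρ p x → ρ p y' + 1 = ρ p x →
      ρ y y' = 0) (p q r s : α) : ρ p q + ρ r s ≤ max (ρ p r + ρ q s) (ρ p s + ρ q r) := by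
  have side : ∀ x y u, ρ x y = 1 → ρ y u = ρ x u + 1 ∨ ρ x u = ρ y u + 1 := by
    intro x y u e
    have := par x y u e
    have := tri x y u
    have := tri y x u
    have := symm x y
    omega
  have hE : ∀ x y u v, ρ x y = 1 → ρ u v = 1 → ρ y u = ρ x u + 1 → ρ x v = ρ y v + 1 →
      ρ x u = 0 ∧ ρ y v = 0 := by
    intro x y u v e1 e2 e3 e4
    have a1 := side u v x e2
    have a2 := side u v y e2
    rw [symm v x, symm u x] at a1
    rw [symm v y, symm u y] at a2
    have a3 : ρ y v = ρ x u := by omega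
    rcases Nat.eq_zero_or_eq_succ_pred (ρ y v) with a4 | a4
    · omega
    obtain ⟨y', b1, b2⟩ := step y v _ a4
    have b3 := tri u v y'
    have b4 := tri u y' y
    have b5 := symm y y'
    have b6 := symm v y'
    have b7 := symm u y
    have b8 := symm u x
    have b9 := uniq u y x y' e1 (by omega) (by omega) (by omega)
    have := tri x y' v
    omega
  have hK : ∀ x y, ρ x y = 1 → ∀ n u v, ρ u v = n → ρ y u = ρ x u + 1 → ρ x v = ρ y v + 1 →
      ρ u v = ρ x u + 1 + ρ y v := by
    intro x y e n
    induction n with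
    | zero =>
      intro u v e1 e2 e3
      have := tri y v u
      have := tri x u v
      have := symm u v
      omega
    | succ n ih =>
      intro u v e1 e2 e3
      obtain ⟨c, b1, b2⟩ := step u v n e1
      have t1 := tri u x v
      have t2 := symm u x
      rcases side x y c e with a | a
      · have := ih c v b2 a e3
        have := tri x c u
        have := symm u c
        omega
      · obtain ⟨a1, a2⟩ := hE x y u c e b1 e2 a
        have := tri y c v
        omega
  generalize hn : ρ p q = n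
  induction n generalizing p with
  | zero =>
    have := tri r p s
    have := tri p q s
    have := symm r p
    omega
  | succ n ih =>
    obtain ⟨c, b1, b2⟩ := step p q n hn
    have a0 := ih c b2
    have s1 := symm q r
    have s2 := symm q s
    have s3 := symm r s
    rcases side p c r b1 with a1 | a1 <;> rcases side p c s b1 with a2 | a2
    · have := hK p c b1 _ r q rfl a1 (by omega)
      have := tri r p s
      have := symm r p
      have := hK p c b1 _ s q rfl a2 (by omega)
      omega
    · have := hK p c b1 _ r q rfl a1 (by omega)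
      have := hK p c b1 _ r s rfl a1 a2
      omega
    · have := hK p c b1 _ s q rfl a2 (by omega)
      have := hK p c b1 _ s r rfl a2 a1
      omega
    · omega

variable {A : Type} {G : Type} [Group G] {D : VH A} {ι : A → G}

theorem rho_mul (g a b : G) : rho D ι (g * a) (g * b) = rho D ι a b := by
  simp [rho, mul_assoc]

theorem GTree_nf (h : Pres D ι) (g : G) :
    ∃ w, Irr D w ∧ ev ι w = g ∧ w.countP D.c = len D ι g := by
  obtain ⟨u, rfl⟩ := h.surj g
  obtain ⟨w, h1, h2, -⟩ := nf_exists h u
  exact ⟨w, h1, h2, by rw [← h2, (len_irr h h1).1]⟩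

theorem GTree_single (a : A) : ev ι [a] = ι a := by simp [ev]

theorem GTree_mul (h : Pres D ι) (g k : G) : len D ι (g * k) ≤ len D ι g + len D ι k := by
  obtain ⟨u, -, rfl, e1⟩ := GTree_nf h g
  obtain ⟨w, -, rfl, e2⟩ := GTree_nf h k
  rw [← ev_append, ← e1, ← e2, ← List.countP_append]
  exact len_le _

theorem GTree_one : len D ι 1 = 0 := Nat.le_zero.1 (len_le (D := D) (ι := ι) [])

theorem GTree_letter (h : Pres D ι) (l : A) : len D ι (ι l) = if D.c l then 1 else 0 := by
  rw [← GTree_single (ι := ι) l, (len_irr h (List.isChain_singleton l)).1]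
  simp [List.countP_cons]

theorem GTree_inv_le (h : Pres D ι) (w : List A) : len D ι (ev ι w)⁻¹ ≤ w.countP D.c := by
  induction w with
  | nil => simp [ev, GTree_one]
  | cons a w ih =>
    rw [ev_cons, mul_inv_rev, ← h.inv, List.countP_cons]
    refine (GTree_mul h _ _).trans (add_le_add ih ?_)
    rw [GTree_letter h, D.c_inv]

theorem GTree_inv (h : Pres D ι) (g : G) : len D ι g⁻¹ = len D ι g := by
  have key : ∀ g : G, len D ι g⁻¹ ≤ len D ι g := fun g => by
    obtain ⟨w, -, rfl, e⟩ := GTree_nf h g
    exact e ▸ GTree_inv_le h w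
  exact le_antisymm (key g) (by simpa using key g⁻¹)

theorem GTree_symm (h : Pres D ι) (a b : G) : rho D ι a b = rho D ι b a := by
  rw [rho, rho, ← GTree_inv h, mul_inv_rev, inv_inv]

theorem GTree_tri (h : Pres D ι) (a b c : G) : rho D ι a c ≤ rho D ι a b + rho D ι b c := by
  have := GTree_mul h (a⁻¹ * b) (b⁻¹ * c)
  rwa [mul_assoc, mul_inv_cancel_left] at this

theorem GTree_right (a k : G) : rho D ι a (a * k) = len D ι k := by
  rw [rho, inv_mul_cancel_left]

theorem GTree_left (k : G) : rho D ι 1 k = len D ι k := by rw [rho, inv_one, one_mul]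

theorem rho_letter (h : Pres D ι) (g : G) (l : A) :
    rho D ι g (g * ι l) = if D.c l then 1 else 0 := by
  rw [GTree_right, GTree_letter h]

theorem GTree_split {p : A → Bool} {w : List A} {n : ℕ} (e : w.countP p = n + 1) :
    ∃ u l v, w = u ++ l :: v ∧ u.countP p = 0 ∧ p l = true ∧ v.countP p = n := by
  induction w with
  | nil => simp at e
  | cons a w ih =>
    rw [List.countP_cons] at e
    by_cases ha : p a = true
    · rw [if_pos ha] at e
      exact ⟨[], a, w, rfl, rfl, ha, by omega⟩
    · rw [if_neg ha] at e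
      obtain ⟨u, l, v, rfl, h1, h2, h3⟩ := ih e
      exact ⟨a :: u, l, v, rfl, by rw [List.countP_cons, if_neg ha, h1], h2, h3⟩

theorem GTree_first (h : Pres D ι) {a b : G} {n : ℕ} (e : rho D ι a b = n + 1) :
    ∃ (k : G) (l : A), D.c l = true ∧ rho D ι a k = 0 ∧ rho D ι (k * ι l) b ≤ n := by
  obtain ⟨w, -, e1, e2⟩ := GTree_nf h (a⁻¹ * b)
  obtain ⟨u, l, v, rfl, h1, h2, h3⟩ := GTree_split (e2.trans e)
  refine ⟨a * ev ι u, l, h2, ?_, ?_⟩
  · rw [GTree_right]
    exact Nat.le_zero.1 (h1 ▸ len_le u)
  · have e3 : b = a * ev ι u * ι l * ev ι v := by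
      rw [mul_assoc, mul_assoc, ← ev_cons, ← ev_append, e1, mul_inv_cancel_left]
    rw [e3, GTree_right]
    exact h3 ▸ len_le v

/-- Elements at distance one: a vertical word, then one horizontal letter, then a vertical word. -/
theorem rho_one (h : Pres D ι) {a b : G} (e : rho D ι a b = 1) :
    ∃ (k : G) (l : A), D.c l = true ∧ rho D ι a k = 0 ∧ rho D ι (k * ι l) b = 0 := by
  obtain ⟨k, l, h1, h2, h3⟩ := GTree_first (n := 0) h e
  exact ⟨k, l, h1, h2, Nat.le_zero.1 h3⟩

/-- `y` is next to the part of the normal form of `x` before the last horizontal letter -/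
def GTreeP (D : VH A) (ι : A → G) (x y : G) : Prop :=
  ∃ z l u, Irr D (z ++ l :: u) ∧ D.c l = true ∧ (∀ a ∈ u, D.c a = false) ∧
    ev ι (z ++ l :: u) = x ∧ rho D ι y (ev ι z) = 0

theorem GTreeP.uniq (h : Pres D ι) {x y y' : G} (a : GTreeP D ι x y) (b : GTreeP D ι x y') :
    rho D ι y y' = 0 := by
  obtain ⟨z, l, u, a1, a2, a3, a4, a5⟩ := a
  obtain ⟨z', l', u', b1, b2, b3, b4, b5⟩ := b
  have key : ∀ {z z' u u' : List A} {l l' : A} {t : List A}, z' = z ++ t → l :: u = t ++ l' :: u' →
      D.c l' = true → (∀ a ∈ u, D.c a = false) → z' = z := by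
    intro z z' u u' l l' t e1 e2 c1 c2
    rcases t with _ | ⟨b, t⟩
    · rw [e1, List.append_nil]
    · rw [List.cons_append, List.cons.injEq] at e2
      have := c2 l' (by rw [e2.2]; simp)
      rw [c1] at this
      exact absurd this (by decide)
  have e : z' = z := by
    rcases List.append_eq_append_iff.1 (nf_unique h a1 b1 (a4.trans b4.symm)) with
      ⟨t, e1, e2⟩ | ⟨t, e1, e2⟩
    · exact key e1 e2 b2 a3
    · exact (key e1 e2 a2 b3).symm
  subst e
  have := GTree_tri h y (ev ι z') y'
  rw [GTree_symm h (ev ι z')] at this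
  omega

theorem GTree_up (h : Pres D ι) {g y : G} {l : A} (hl : D.c l = true)
    (e : len D ι g < len D ι (g * ι l)) (hy : rho D ι y g = 0) : GTreeP D ι (g * ι l) y := by
  obtain ⟨z, h1, rfl, h2⟩ := GTree_nf h g
  refine ⟨z, l, [], ?_, hl, by simp, by rw [ev_append, GTree_single], hy⟩
  refine List.IsChain.append h1 (List.isChain_singleton l) fun a ha b hb => ?_
  obtain rfl : l = b := by simpa using hb
  obtain ⟨z', rfl⟩ := List.getLast?_eq_some_iff.1 (Option.mem_def.1 ha)
  refine ⟨fun e1 => ?_, fun ⟨v', h', q⟩ => ?_⟩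
  · have e2 : ev ι (z' ++ [a]) * ι l = ev ι z' := by
      rw [ev_append, GTree_single, e1, h.inv, mul_inv_cancel_right]
    have := len_le (D := D) (ι := ι) z'
    rw [e2, ← h2, List.countP_append] at e
    omega
  · have := (D.sq_c _ _ _ _ q).2.1
    rw [hl] at this
    exact absurd this (by decide)

theorem GTreeP.vert (h : Pres D ι) {x y : G} (a : GTreeP D ι x y) {v : A} (hv : D.c v = false) :
    GTreeP D ι (x * ι v) y := by
  obtain ⟨z, l, u, a1, a2, a3, rfl, a5⟩ := a
  have app : (∀ a ∈ (z ++ l :: u).getLast?, v ≠ D.inv a ∧ ¬∃ v' h', D.Sq a v v' h') →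
      GTreeP D ι (ev ι (z ++ l :: u) * ι v) y := by
    intro H
    refine ⟨z, l, u ++ [v], ?_, a2, ?_, ?_, a5⟩
    · rw [← List.cons_append, ← List.append_assoc]
      refine List.IsChain.append a1 (List.isChain_singleton v) fun a ha b hb => ?_
      obtain rfl : v = b := by simpa using hb
      exact H a ha
    · intro a ha
      rcases List.mem_append.1 ha with ha | ha
      · exact a3 a ha
      · rwa [List.mem_singleton.1 ha]
    · rw [← List.cons_append, ← List.append_assoc, ev_append _ [v], GTree_single]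
  rcases List.eq_nil_or_concat u with rfl | ⟨u, a, rfl⟩
  · by_cases hq : ∃ v' h', D.Sq l v v' h'
    · obtain ⟨v', l', q⟩ := hq
      obtain ⟨-, -, c1, c2⟩ := D.sq_c _ _ _ _ q
      have e1 : ev ι (z ++ [l]) * ι v = ev ι z * ι v' * ι l' := by
        rw [ev_append, GTree_single, mul_assoc, h.sq _ _ _ _ q, mul_assoc]
      have b1 := GTree_mul h (ev ι z) (ι v')
      have b2 := GTree_mul h (ev ι (z ++ [l]) * ι v) (ι v)⁻¹
      have b3 := len_le (D := D) (ι := ι) z
      have b4 := GTree_tri h y (ev ι z) (ev ι z * ι v')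
      rw [mul_inv_cancel_right, GTree_inv h, GTree_letter h, hv, (len_irr h a1).1,
        List.countP_append, e1] at b2
      rw [GTree_letter h, c1] at b1
      rw [rho_letter h, c1] at b4
      simp only [List.countP_singleton, a2, Bool.false_eq_true, if_true, if_false] at b1 b2 b4
      rw [e1]
      exact GTree_up h c2 (by omega) (by omega)
    · refine app fun a ha => ?_
      obtain rfl : l = a := by simpa using ha
      refine ⟨fun e => ?_, hq⟩
      rw [e, D.c_inv, a2] at hv
      exact absurd hv (by decide)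
  · rw [List.concat_eq_append] at *
    by_cases e : v = D.inv a
    · rw [← List.cons_append, ← List.append_assoc] at a1 ⊢
      refine ⟨z, l, u, a1.left_of_append, a2, fun b hb => a3 b (List.mem_append_left _ hb), ?_, a5⟩
      rw [ev_append _ [a], GTree_single, e, h.inv, mul_inv_cancel_right]
    · refine app fun b hb => ?_
      rw [← List.cons_append, ← List.append_assoc, List.getLast?_concat] at hb
      obtain rfl : a = b := by simpa using hb
      refine ⟨e, fun ⟨v', h', q⟩ => ?_⟩
      have := (D.sq_c _ _ _ _ q).1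
      rw [a3 a (by simp)] at this
      exact absurd this (by decide)

theorem GTreeP.word (h : Pres D ι) {y : G} (w : List A) (hw : ∀ a ∈ w, D.c a = false) {x : G}
    (a : GTreeP D ι x y) : GTreeP D ι (x * ev ι w) y := by
  induction w generalizing x with
  | nil => simpa [ev] using a
  | cons v w ih =>
    rw [ev_cons, ← mul_assoc]
    exact ih (fun b hb => hw b (List.mem_cons_of_mem _ hb)) (a.vert h (hw v List.mem_cons_self))

theorem GTree_par (h : Pres D ι) {x y : G} (e : rho D ι y x = 1)
    (e' : rho D ι 1 y + 1 = rho D ι 1 x) : GTreeP D ι x y := by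
  obtain ⟨k, l, h1, h2, h3⟩ := rho_one h e
  have a1 := GTree_tri h 1 y k
  have a2 := GTree_tri h 1 (k * ι l) x
  obtain ⟨w, -, c, e1, -⟩ := len_zero h h3
  have a3 := (GTree_up h h1 (by rw [← GTree_left, ← GTree_left]; omega) h2).word h w c
  rwa [e1, mul_inv_cancel_left] at a3

theorem tm_rho (h : Pres D ι) : TM (rho D ι) := by
  have par : ∀ a b x, rho D ι a b = 1 → rho D ι a x ≠ rho D ι b x := by
    intro a b x e
    obtain ⟨ε, h1, h2⟩ := exists_eps h
    have a1 := h1 (a⁻¹ * b) (b⁻¹ * x)
    rw [mul_assoc, mul_inv_cancel_left] at a1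
    have a2 := (h2 (a⁻¹ * b)).1
    have a3 := (h2 (b⁻¹ * x)).1
    have a4 := (h2 (a⁻¹ * x)).1
    unfold rho at *
    omega
  have step : ∀ a b n, rho D ι a b = n + 1 → ∃ c, rho D ι a c = 1 ∧ rho D ι c b = n := by
    intro a b n e
    obtain ⟨k, l, h1, h2, h3⟩ := GTree_first h e
    have a1 := GTree_tri h a k (k * ι l)
    have a2 := GTree_tri h a (k * ι l) b
    rw [rho_letter h, if_pos h1] at a1
    exact ⟨k * ι l, by omega, by omega⟩
  refine ⟨fun a => by rw [rho, inv_mul_cancel, GTree_one], GTree_symm h, GTree_tri h,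
    GTree_four (GTree_symm h) (GTree_tri h) par step fun p x y y' e1 e2 e3 e4 => ?_, par, step⟩
  have t : ∀ a, rho D ι p a = rho D ι 1 (p⁻¹ * a) := fun a => by rw [GTree_left, rho]
  rw [t, t] at e3 e4
  rw [← rho_mul p⁻¹] at e1 e2 ⊢
  exact (GTree_par h e1 e3).uniq h (GTree_par h e2 e4)

end Pool.Agent.FC
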