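import Pool.Agent.P.MP_5e292f_al.Strip

set_option autoImplicit false
set_option linter.unusedSectionVars false

/-! Minimal invariant families of flats, a Cantor scheme and a circumcentre argument. -/

namespace Pool.Agent.FlatDich

open Metric Set Filter Topology Pointwise

lemma cantor_scheme {Y : Type*} [TopologicalSpace Y] [RegularSpace Y] {M U0 C : Set Y}
    (hM : IsClosed M) (hU0 : IsOpen U0) (hne : (U0 ∩ M).Nonempty) (hC : IsCompact C)
    (hsub : U0 ∩ M ⊆ C) (P : Y → Y → Prop) (hsymm : ∀ x y, P x y → P y x)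
    (hP : IsClosed {p : Y × Y | p.1 ∈ M ∧ p.2 ∈ M ∧ P p.1 p.2})
    (H : ∀ U, IsOpen U → (U ∩ M).Nonempty → ∃ x ∈ U ∩ M, ∃ y ∈ U ∩ M, ¬ P x y) :
    ∃ φ : (ℕ → Bool) → Y, (∀ s, φ s ∈ M) ∧ ∀ s t, s ≠ t → ¬ P (φ s) (φ t) := by
  let S := {U : Set Y // IsOpen U ∧ (U ∩ M).Nonempty}
  have shrink : ∀ (x : Y) (W : Set Y), W ∈ 𝓝 x → ∃ V, IsOpen V ∧ x ∈ V ∧ closure V ⊆ W := by
    intro x W hW
    obtain ⟨T, hT, hTc, hTW⟩ := exists_mem_nhds_isClosed_subset hW
    exact ⟨interior T, isOpen_interior, mem_interior_iff_mem_nhds.2 hT,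
      (closure_minimal interior_subset hTc).trans hTW⟩
  have step : ∀ U : S, ∃ V : Bool → S, (∀ b, closure (V b).1 ⊆ U.1) ∧
      ∀ x ∈ (V true).1 ∩ M, ∀ y ∈ (V false).1 ∩ M, ¬ P x y := by
    intro U
    obtain ⟨x, hx, y, hy, hxy⟩ := H U.1 U.2.1 U.2.2
    have : {p : Y × Y | p.1 ∈ M ∧ p.2 ∈ M ∧ P p.1 p.2}ᶜ ∈ 𝓝 (x, y) :=
      hP.isOpen_compl.mem_nhds (fun h => hxy h.2.2)
    obtain ⟨A, hA, B, hB, hAB⟩ := mem_nhds_prod_iff.1 this
    obtain ⟨V, hV, hxV, hVc⟩ := shrink x (A ∩ U.1) (inter_mem hA (U.2.1.mem_nhds hx.1))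
    obtain ⟨W, hW, hyW, hWc⟩ := shrink y (B ∩ U.1) (inter_mem hB (U.2.1.mem_nhds hy.1))
    refine ⟨fun b => match b with
      | true => ⟨V, hV, x, hxV, hx.2⟩
      | false => ⟨W, hW, y, hyW, hy.2⟩, fun b => ?_, fun x' hx' y' hy' hp => ?_⟩
    · cases b
      · exact hWc.trans inter_subset_right
      · exact hVc.trans inter_subset_right
    · exact hAB (mk_mem_prod (hVc (subset_closure hx'.1)).1 (hWc (subset_closure hy'.1)).1)
        ⟨hx'.2, hy'.2, hp⟩
  choose nxt h1 h2 using step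
  let sq : (ℕ → Bool) → ℕ → S := fun s k => Nat.rec ⟨U0, hU0, hne⟩ (fun k U => nxt U (s k)) k
  have sq_succ : ∀ s k, sq s (k + 1) = nxt (sq s k) (s k) := fun s k => rfl
  have ex : ∀ s, ∃ x ∈ M, ∀ k, x ∈ (sq s k).1 := by
    intro s
    have hcl : ∀ k, IsClosed (closure (sq s (k + 1)).1 ∩ M) := fun k => isClosed_closure.inter hM
    obtain ⟨x, hx⟩ := IsCompact.nonempty_iInter_of_sequence_nonempty_isCompact_isClosed
      (fun k => closure (sq s (k + 1)).1 ∩ M)
      (fun k => inter_subset_inter_left _ ((h1 _ _).trans subset_closure))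
      (fun k => (sq s (k + 1)).2.2.mono (inter_subset_inter_left _ subset_closure))
      (hC.of_isClosed_subset (hcl 0) ((inter_subset_inter_left _ (h1 _ _)).trans hsub)) hcl
    rw [mem_iInter] at hx
    exact ⟨x, (hx 0).2, fun k => h1 _ _ (hx k).1⟩
  choose φ hφM hφ using ex
  refine ⟨φ, hφM, fun s t hst => ?_⟩
  have hex : ∃ k, s k ≠ t k := Function.ne_iff.1 hst
  classical
  have agree : ∀ j, j ≤ Nat.find hex → sq s j = sq t j := by
    intro j
    induction j with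
    | zero => intro _; rfl
    | succ j ih =>
      intro hj
      have : s j = t j := not_not.1 (Nat.find_min hex (Nat.lt_of_succ_le hj))
      rw [sq_succ, sq_succ, ih (Nat.le_of_succ_le hj), this]
  have a := hφ s (Nat.find hex + 1)
  have b := hφ t (Nat.find hex + 1)
  rw [sq_succ] at a b
  rw [← agree _ le_rfl] at b
  have hd := Nat.find_spec hex
  cases hs : s (Nat.find hex) <;> cases ht : t (Nat.find hex) <;> rw [hs] at a hd <;>
    rw [ht] at b hd
  · exact absurd rfl hd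
  · exact fun hp => h2 _ _ ⟨b, hφM t⟩ _ ⟨a, hφM s⟩ (hsymm _ _ hp)
  · exact h2 _ _ ⟨a, hφM s⟩ _ ⟨b, hφM t⟩
  · exact absurd rfl hd

variable {X : Type*} [MetricSpace X] [ProperSpace X]
variable {E : Type*} [NormedAddCommGroup E] [NormedSpace ℝ E] [ProperSpace E]
variable {Γ : Type*} [Group Γ] [MulAction Γ X] [IsIsometricSMul Γ X]

lemma isClosed_isom : IsClosed {f : E → X | Isometry f} := by
  simp only [isometry_iff_dist_eq, ofPred_forall]
  exact isClosed_iInter fun a => isClosed_iInter fun b =>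
    isClosed_eq ((continuous_apply a).dist (continuous_apply b)) continuous_const

lemma compact_isom {K : Set X} (hK : IsCompact K) :
    IsCompact {f : E → X | Isometry f ∧ f 0 ∈ K} := by
  refine (isCompact_univ_pi fun a : E => hK.cthickening (r := ‖a‖)).of_isClosed_subset
    (isClosed_isom.inter (hK.isClosed.preimage (continuous_apply 0))) ?_
  rintro f ⟨hf, h0⟩ a -
  exact mem_cthickening_of_dist_le _ _ _ _ h0 (by rw [hf.dist_eq, dist_zero_right])

lemma closed_near (R : ℝ) (a : E) :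
    IsClosed {p : (E → X) × (E → X) | Isometry p.2 ∧ ∃ b, dist (p.1 a) (p.2 b) ≤ R} := by
  rw [isClosed_iff_ultrafilter]
  intro x u hu hs
  have hiso : Isometry x.2 := by
    have hc : IsClosed {p : (E → X) × (E → X) | Isometry p.2} :=
      isClosed_isom.preimage continuous_snd
    exact (isClosed_iff_ultrafilter.1 hc) x u hu (mem_of_superset hs fun p hp => hp.1)
  refine ⟨hiso, ?_⟩
  have : ∀ p : (E → X) × (E → X), ∃ b, (Isometry p.2 ∧ ∃ b, dist (p.1 a) (p.2 b) ≤ R) →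
      dist (p.1 a) (p.2 b) ≤ R := by
    intro p
    by_cases h : ∃ b, dist (p.1 a) (p.2 b) ≤ R
    · exact h.imp fun b hb _ => hb
    · exact ⟨0, fun hh => absurd hh.2 h⟩
  choose β hβ using this
  have t : ∀ c : E, Tendsto (fun p : (E → X) × (E → X) => dist (p.1 a) (p.2 c)) u
      (𝓝 (dist (x.1 a) (x.2 c))) := fun c =>
    ((((continuous_apply a).comp continuous_fst).dist
      ((continuous_apply c).comp continuous_snd)).tendsto x).mono_left hu
  have hev : ∀ᶠ p in (u : Filter _), β p ∈ closedBall (0 : E) (R + (dist (x.1 a) (x.2 0) + 1)) := by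
    filter_upwards [hs, (t 0).eventually (gt_mem_nhds (lt_add_one _))] with p hp hp2
    rw [mem_closedBall, ← hp.1.dist_eq]
    linarith [hβ p hp, dist_triangle_left (p.2 (β p)) (p.2 0) (p.1 a)]
  obtain ⟨b0, -, hb0⟩ := (isCompact_closedBall (0 : E) _).ultrafilter_le_nhds (u.map β)
    (by rw [Ultrafilter.coe_map, le_principal_iff]; exact hev)
  refine ⟨b0, ?_⟩
  have t2 : Tendsto (fun p => R + dist (β p) b0) u (𝓝 (R + 0)) :=
    (tendsto_iff_dist_tendsto_zero.1 hb0).const_add R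
  rw [add_zero] at t2
  refine le_of_tendsto_of_tendsto (t b0) t2 ?_
  filter_upwards [hs] with p hp
  rw [← hp.1.dist_eq]
  linarith [hβ p hp, dist_triangle (p.1 a) (p.2 (β p)) (p.2 b0)]

lemma parR_closed (R : ℝ) {M : Set (E → X)} (hM : IsClosed M) (hiso : ∀ f ∈ M, Isometry f) :
    IsClosed {p : (E → X) × (E → X) | p.1 ∈ M ∧ p.2 ∈ M ∧ ParR R p.1 p.2} := by
  have : {p : (E → X) × (E → X) | p.1 ∈ M ∧ p.2 ∈ M ∧ ParR R p.1 p.2} =
      (Prod.fst ⁻¹' M ∩ Prod.snd ⁻¹' M) ∩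
      ((⋂ a, {p : (E → X) × (E → X) | Isometry p.2 ∧ ∃ b, dist (p.1 a) (p.2 b) ≤ R}) ∩
       ⋂ a, Prod.swap ⁻¹'
        {p : (E → X) × (E → X) | Isometry p.2 ∧ ∃ b, dist (p.1 a) (p.2 b) ≤ R}) := by
    ext p
    simp only [mem_ofPred_eq, mem_inter_iff, mem_preimage, mem_iInter, Prod.fst_swap,
      Prod.snd_swap, ParR]
    constructor
    · rintro ⟨h1, h2, h3, h4⟩
      exact ⟨⟨h1, h2⟩, fun a => ⟨hiso _ h2, h3 a⟩,
        fun a => ⟨hiso _ h1, (h4 a).imp fun b hb => by rwa [dist_comm]⟩⟩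
    · rintro ⟨⟨h1, h2⟩, h3, h4⟩
      exact ⟨h1, h2, fun a => (h3 a).2, fun a => (h4 a).2.imp fun b hb => by rwa [dist_comm]⟩
  rw [this]
  exact ((hM.preimage continuous_fst).inter (hM.preimage continuous_snd)).inter
    ((isClosed_iInter fun a => closed_near R a).inter
      (isClosed_iInter fun a => (closed_near R a).preimage continuous_swap))

/-- The action of `Γ × E` on parametrised flats. -/
def act (γ : Γ) (v : E) (f : E → X) : E → X := fun a => γ • f (a + v)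

lemma act_act (γ δ : Γ) (v w : E) (f : E → X) :
    act γ v (act δ w f) = act (γ * δ) (v + w) f := by
  funext a; simp [act, mul_smul, add_assoc]

lemma act_one (f : E → X) : act (1 : Γ) 0 f = f := by funext a; simp [act]

lemma continuous_act (γ : Γ) (v : E) : Continuous (act γ v : (E → X) → E → X) :=
  continuous_pi fun a => (continuous_apply (a + v)).const_smul γ

lemma isometry_act (γ : Γ) (v : E) {f : E → X} (hf : Isometry f) : Isometry (act γ v f) :=
  (isometry_smul X γ).comp (hf.comp (isometry_add_right v))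

lemma Par.act {f g : E → X} (h : Par f g) (γ : Γ) (v w : E) : Par (act γ v f) (act γ w g) := by
  obtain ⟨R, h1, h2⟩ := h
  refine ⟨R, fun a => ?_, fun b => ?_⟩
  · obtain ⟨b, hb⟩ := h1 (a + v)
    exact ⟨b - w, by simpa [FlatDich.act] using hb⟩
  · obtain ⟨a, ha⟩ := h2 (b + w)
    exact ⟨a - v, by simpa [FlatDich.act] using ha⟩

variable (Γ) in
def Inv (M : Set (E → X)) : Prop :=
  M.Nonempty ∧ (∀ f ∈ M, Isometry f) ∧ IsClosed M ∧ ∀ (γ : Γ) (v : E), ∀ f ∈ M, act γ v f ∈ M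

lemma exists_minimal {K : Set X} (hK : IsCompact K) (hcov : ∀ x : X, ∃ γ : Γ, γ • x ∈ K)
    {M0 : Set (E → X)} (h0 : Inv Γ M0) :
    ∃ M, M ⊆ M0 ∧ Inv Γ M ∧ ∀ M' ⊆ M, Inv Γ M' → M ⊆ M' := by
  obtain ⟨M, hM, hmin⟩ := zorn_superset_nonempty {M : Set (E → X) | Inv Γ M} (by
    intro c hc hch hne
    refine ⟨⋂₀ c, ⟨?_, ?_, isClosed_sInter fun M hM => (hc hM).2.2.1, ?_⟩,
      fun s hs => sInter_subset_of_mem hs⟩
    · have : Nonempty c := hne.to_subtype
      obtain ⟨f, hf⟩ := IsCompact.nonempty_iInter_of_directed_nonempty_isCompact_isClosed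
        (fun M : c => M.1 ∩ {f : E → X | Isometry f ∧ f 0 ∈ K})
        (fun A B => by
          rcases hch.total A.2 B.2 with h | h
          · exact ⟨A, Subset.rfl, inter_subset_inter_left _ h⟩
          · exact ⟨B, inter_subset_inter_left _ h, Subset.rfl⟩)
        (fun M => by
          obtain ⟨⟨f, hf⟩, hi, -, ha⟩ := hc M.2
          obtain ⟨γ, hγ⟩ := hcov (f 0)
          exact ⟨act γ 0 f, ha γ 0 f hf, isometry_act γ 0 (hi f hf), by simpa [act] using hγ⟩)
        (fun M => (compact_isom hK).inter_left (hc M.2).2.2.1)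
        (fun M => (hc M.2).2.2.1.inter (compact_isom hK).isClosed)
      rw [mem_iInter] at hf
      exact ⟨f, fun M hM => (hf ⟨M, hM⟩).1⟩
    · obtain ⟨M, hM⟩ := hne
      exact fun f hf => (hc hM).2.1 f (hf M hM)
    · exact fun γ v f hf M hM => (hc hM).2.2.2 γ v f (hf M hM)) M0 h0
  exact ⟨M, hM, hmin.1, fun M' h1 h2 => hmin.2 h2 h1⟩

lemma range_act (γ : Γ) (v : E) (f : E → X) : range (act γ v f) = γ • range f := by
  ext x
  constructor
  · rintro ⟨a, rfl⟩; exact ⟨_, ⟨a + v, rfl⟩, rfl⟩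
  · rintro ⟨_, ⟨a, rfl⟩, rfl⟩; exact ⟨a - v, by simp [act]⟩

lemma exists_al' (hX : CN X) {f g : E → X} (hf : Isometry f) (hg : Isometry g) (h : Par f g) :
    ∃ g' : E → X, Isometry g' ∧ Al f g' ∧ range g' = range g := by
  obtain ⟨π, h1, h2, h3⟩ := exists_al hX hf hg h
  exact ⟨g ∘ π, hg.comp h1, h3, h2.range_comp g⟩

lemma centre (hX : CN X) {f0 : E → X} (hf0 : Isometry f0) (Λ : Subgroup Γ)
    (hΛ : ∀ l ∈ Λ, Par f0 (act l 0 f0)) {R : ℝ}
    (hR : ∀ g, Isometry g → Al f0 g → dist (f0 0) (g 0) ≤ R) :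
    ∃ g, Isometry g ∧ Al f0 g ∧ ∀ l ∈ Λ, l • range g = range g := by
  set Z := {g : E → X | Isometry g ∧ Al f0 g} with hZ
  have hZc : IsCompact Z := by
    refine (compact_isom (isCompact_closedBall (f0 0) R)).of_isClosed_subset
      (isClosed_isom.inter ?_) fun g hg => ⟨hg.1, mem_closedBall'.2 (hR g hg.1 hg.2)⟩
    change IsClosed {g : E → X | Al f0 g}
    simp only [Al, ofPred_forall]
    exact isClosed_iInter fun a => isClosed_iInter fun b => isClosed_eq
      ((continuous_const.dist (continuous_apply b)).pow 2)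
      (((continuous_const.dist (continuous_apply 0)).pow 2).add continuous_const)
  have alZ : ∀ g ∈ Z, ∀ g' ∈ Z, Al g g' := fun g hg g' hg' =>
    Al.trans hX hg.1 hg'.1 hg.2.symm hg'.2
  choose h hh1 hh2 hh3 using fun l : Λ =>
    exists_al' hX hf0 (isometry_act (l : Γ) 0 hf0) (hΛ l l.2)
  let r : X → ℝ := fun x => ⨆ l : Λ, dist x (h l 0)
  have bdd : ∀ x, BddAbove (range fun l : Λ => dist x (h l 0)) := fun x =>
    ⟨dist x (f0 0) + R, by
      rintro _ ⟨l, rfl⟩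
      linarith [hR _ (hh1 l) (hh2 l), dist_triangle x (f0 0) (h l 0)]⟩
  have rle : ∀ x l, dist x (h l 0) ≤ r x := fun x l => le_ciSup (bdd x) l
  have rc : Continuous r := by
    refine (LipschitzWith.of_le_add fun x y => ciSup_le fun l => ?_).continuous
    linarith [rle y l, dist_triangle x y (h l 0)]
  obtain ⟨g, hg, hmin⟩ := hZc.exists_isMinOn ⟨f0, hf0, Al.refl hf0⟩
    (rc.comp (continuous_apply (0 : E))).continuousOn
  have hmin' : ∀ g' ∈ Z, r (g 0) ≤ r (g' 0) := fun g' hg' => hmin hg'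
  have uniq : ∀ g' ∈ Z, r (g' 0) ≤ r (g 0) → g' = g := by
    intro g' hg' hle
    have hal := alZ g hg g' hg'
    obtain ⟨m, hm, hmid, h1, -⟩ := hal.mid hX hg.1 hg'.1
    have hmZ : m ∈ Z := ⟨hm, Al.trans hX hf0 hm hg.2 h1⟩
    have b : ∀ l : Λ, dist (m 0) (h l 0) ^ 2 ≤ r (g 0) ^ 2 - dist (g 0) (g' 0) ^ 2 / 4 := by
      intro l
      have := hmid 0 (h l 0)
      rw [dist_comm (h l 0), dist_comm (h l 0), dist_comm (h l 0)] at this
      have a1 := pow_le_pow_left₀ dist_nonneg (rle (g 0) l) 2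
      have a2 := pow_le_pow_left₀ dist_nonneg ((rle (g' 0) l).trans hle) 2
      linarith
    have b0 : 0 ≤ r (g 0) ^ 2 - dist (g 0) (g' 0) ^ 2 / 4 := (sq_nonneg _).trans (b 1)
    have b1 : r (m 0) ≤ √(r (g 0) ^ 2 - dist (g 0) (g' 0) ^ 2 / 4) :=
      ciSup_le fun l => Real.le_sqrt_of_sq_le (b l)
    have b2 := (hmin' m hmZ).trans b1
    have b3 := (Real.le_sqrt (dist_nonneg.trans (rle (g 0) 1)) b0).1 b2
    have b4 : dist (g 0) (g' 0) ^ 2 = 0 := le_antisymm (by linarith) (sq_nonneg _)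
    have b5 : dist (g 0) (g' 0) = 0 := (pow_eq_zero_iff two_ne_zero).1 b4
    funext a
    have := hal.diag a
    rw [b5, dist_eq_zero] at this
    exact this.symm
  refine ⟨g, hg.1, hg.2, fun μ hμ => ?_⟩
  obtain ⟨g', a1, a2, a3⟩ := exists_al' hX hf0 (isometry_act μ 0 hg.1)
    ((hΛ μ hμ).trans (hg.2.par.act μ 0 0))
  rw [range_act] at a3
  rw [← a3, uniq g' ⟨a1, a2⟩]
  refine ciSup_le fun l => ?_
  obtain ⟨a, ha⟩ : μ • g 0 ∈ range g' := a3 ▸ smul_mem_smul_set (mem_range_self 0)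
  let l' : Λ := (⟨μ, hμ⟩ : Λ)⁻¹ * l
  obtain ⟨b, hb⟩ : μ • h l' 0 ∈ range (h l) := by
    have e : range (h l) = μ • range (h l') := by
      rw [hh3, hh3, range_act, range_act, smul_smul]
      simp [l']
    rw [e]
    exact smul_mem_smul_set (mem_range_self 0)
  have := (alZ g' ⟨a1, a2⟩ (h l) ⟨hh1 l, hh2 l⟩).le a b
  rw [ha, hb, dist_smul] at this
  exact this.trans (rle _ l')

/-- Core dichotomy inside a closed invariant family, when parallel flats are uniformly close. -/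
lemma core (hX : CN X) {K : Set X} (hK : IsCompact K) (hcov : ∀ x : X, ∃ γ : Γ, γ • x ∈ K)
    {M0 : Set (E → X)} (h0 : Inv Γ M0) {R : ℝ}
    (hR : ∀ f g : E → X, Isometry f → Isometry g → Al f g → dist (f 0) (g 0) ≤ R) :
    (∃ g : E → X, Isometry g ∧ (∃ f ∈ M0, Par f g) ∧ ∃ H : Subgroup Γ,
      (∀ h ∈ H, h • range g = range g) ∧
      ∃ K' : Set X, IsCompact K' ∧ range g ⊆ ⋃ h ∈ H, h • K') ∨
    ∃ φ : (ℕ → Bool) → E → X, (∀ s, φ s ∈ M0) ∧ ∀ s t, s ≠ t → ¬ Par (φ s) (φ t) := by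
  obtain ⟨M, hM0, ⟨⟨f1, hf1⟩, hiso, hcl, hinv⟩, hmin⟩ := exists_minimal hK hcov h0
  have parR : ∀ f g : E → X, Isometry f → Isometry g → Par f g → ParR R f g := by
    intro f g hf hg h
    obtain ⟨π, h1, h2, h3⟩ := exists_al hX hf hg h
    have b := hR _ _ hf (hg.comp h1) h3
    refine ⟨fun a => ⟨π a, (h3.diag a).le.trans b⟩, fun c => ?_⟩
    obtain ⟨a, rfl⟩ := h2 c
    exact ⟨a, (h3.diag a).le.trans b⟩
  by_cases H : ∀ U, IsOpen U → (U ∩ M).Nonempty → ∃ x ∈ U ∩ M, ∃ y ∈ U ∩ M, ¬ ParR R x y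
  · right
    obtain ⟨φ, h1, h2⟩ := cantor_scheme hcl (U0 := {f : E → X | f 0 ∈ ball (f1 0) 1})
      (isOpen_ball.preimage (continuous_apply 0)) ⟨f1, mem_ball_self one_pos, hf1⟩
      (compact_isom (isCompact_closedBall (f1 0) 1))
      (fun f hf => ⟨hiso f hf.2, ball_subset_closedBall hf.1⟩) (ParR R) (fun _ _ h => h.symm)
      (parR_closed R hcl hiso) H
    exact ⟨φ, fun s => hM0 (h1 s),
      fun s t hst hp => h2 s t hst (parR _ _ (hiso _ (h1 s)) (hiso _ (h1 t)) hp)⟩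
  left
  push Not at H
  obtain ⟨U, hU, ⟨f0, hf0U, hf0⟩, hUP⟩ := H
  have cover : ∀ g ∈ M, ∃ p : Γ × E, act p.1 p.2 g ∈ U := by
    by_contra hcon
    push Not at hcon
    obtain ⟨g, hg, hgU⟩ := hcon
    have : M ⊆ {g ∈ M | ∀ p : Γ × E, act p.1 p.2 g ∉ U} := by
      refine hmin _ (sep_subset _ _) ⟨⟨g, hg, hgU⟩, fun f hf => hiso f hf.1, hcl.inter ?_, ?_⟩
      · change IsClosed {g : E → X | ∀ p : Γ × E, act p.1 p.2 g ∉ U}
        rw [ofPred_forall]
        exact isClosed_iInter fun p => (hU.preimage (continuous_act p.1 p.2)).isClosed_compl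
      · intro γ v f hf
        refine ⟨hinv γ v f hf.1, fun p => ?_⟩
        rw [act_act]
        exact hf.2 (p.1 * γ, p.2 + v)
    exact (this hf0).2 (1, 0) (by rwa [act_one])
  obtain ⟨T, hT⟩ := ((compact_isom hK).inter_left hcl).elim_finite_subcover
    (fun p : Γ × E => act p.1 p.2 ⁻¹' U) (fun p => hU.preimage (continuous_act p.1 p.2))
    (fun g hg => mem_iUnion.2 (cover g hg.1))
  have i0 := hiso f0 hf0
  let Λ : Subgroup Γ :=
    { carrier := {l | Par f0 (act l 0 f0)}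
      one_mem' := by change Par f0 (act 1 0 f0); rw [act_one]; exact Par.refl f0
      mul_mem' := fun {a b} ha hb => by
        have := Par.act hb a 0 0
        rw [act_act, add_zero] at this
        exact Par.trans ha this
      inv_mem' := fun {a} ha => by
        have := Par.act ha a⁻¹ 0 0
        rw [act_act, add_zero, inv_mul_cancel, act_one] at this
        exact this.symm }
  obtain ⟨g, hg, hal, hinvg⟩ := centre hX i0 Λ (fun l hl => hl) (fun g => hR f0 g i0)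
  have hK1 : IsCompact (⋃ p ∈ T, p.1 • K) := T.isCompact_biUnion fun p _ => hK.smul p.1
  refine ⟨g, hg, ⟨f0, hM0 hf0, hal.par⟩, Λ, hinvg, cthickening R (⋃ p ∈ T, p.1 • K),
    hK1.cthickening, ?_⟩
  rintro _ ⟨a, rfl⟩
  obtain ⟨γ, hγ⟩ := hcov (f0 a)
  have m1 : act γ a f0 ∈ M := hinv γ a f0 hf0
  have := hT ⟨m1, hiso _ m1, by simpa [act] using hγ⟩
  simp only [mem_iUnion, mem_preimage] at this
  obtain ⟨p, hp, hpU⟩ := this
  rw [act_act] at hpU
  have m2 : act (p.1 * γ) (p.2 + a) f0 ∈ M := hinv _ _ f0 hf0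
  have par1 : Par f0 (act (p.1 * γ) (p.2 + a) f0) := ⟨R, hUP _ ⟨hf0U, hf0⟩ _ ⟨hpU, m2⟩⟩
  have mem : p.1 * γ ∈ Λ := par1.trans ((Par.refl f0).act _ _ _)
  simp only [mem_iUnion]
  refine ⟨(p.1 * γ)⁻¹, Λ.inv_mem mem, ?_⟩
  rw [mem_smul_set_iff_inv_smul_mem, inv_inv]
  refine mem_cthickening_of_dist_le _ ((p.1 * γ) • f0 a) _ _ ?_ ?_
  · simp only [mem_iUnion]
    exact ⟨p, hp, by rw [mul_smul]; exact smul_mem_smul_set hγ⟩
  · rw [dist_smul, dist_comm, hal.diag a]
    exact hR _ _ i0 hg hal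

end Pool.Agent.FlatDich
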