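import Pool.Agent.P.MP_5e292f_al.FValid

set_option autoImplicit false

namespace Pool.Agent.FC

open Filter

/-- A square patch of cells on half units `1 .. N`. -/
def Patch (N : ℤ) (z : ℤ → ℤ → Cell) : Prop := ∀ a b, 1 ≤ a → a ≤ N → 1 ≤ b → b ≤ N →
  od (z a b).P.x = decide (a % 2 = 1) ∧ od (z a b).P.y = decide (b % 2 = 1) ∧
  (a % 2 = 1 → b % 2 = 1 → Valid (z a b)) ∧
  (∀ s, a % 2 = 1 → 1 ≤ a + sgn s → a + sgn s ≤ N → bdC (false, s) (z a b) = z (a + sgn s) b) ∧
  (∀ s, b % 2 = 1 → 1 ≤ b + sgn s → b + sgn s ≤ N → bdC (true, s) (z a b) = z a (b + sgn s))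

def uu (a : ℤ) : U := Fin.ofNat 84 (a % 84).toNat
def Rg (a : ℤ) : ℤ := 2 * (a / 84) + reg (a % 84)

theorem uu_val (a : ℤ) : ((uu a).val : ℤ) = a % 84 := by
  simp only [uu, Fin.val_ofNat]
  omega

theorem od_uu (a : ℤ) : od (uu a) = decide (a % 2 = 1) := by
  have := uu_val a
  unfold od
  by_cases h : a % 2 = 1
  · rw [decide_eq_true h, beq_iff_eq]
    omega
  · rw [decide_eq_false h, beq_eq_false_iff_ne]
    omega

theorem rgo_uu (a : ℤ) : rgo (uu a) = decide (Rg a % 2 = 1) := by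
  have := uu_val a
  unfold rgo Rg reg
  rw [decide_eq_decide]
  split_ifs <;> omega

theorem mv_uu (a : ℤ) (s : Bool) : mv (uu a) (sgn s) = uu (a + sgn s) := by
  have h1 := uu_val a
  have h2 := uu_val (a + sgn s)
  apply Fin.ext
  simp only [mv, Fin.val_ofNat]
  cases s <;> simp only [sgn, Bool.false_eq_true, if_false, if_true] at h2 ⊢ <;> omega

theorem Rg_nf (a : ℤ) (s : Bool) (ha : a % 2 = 1) (h : fIn (uu a) s = false) :
    Rg (a + sgn s) = Rg a := by
  have h1 := uu_val a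
  unfold Rg reg
  cases s <;> simp only [sgn, fIn, Bool.false_eq_true, if_false, if_true,
    beq_eq_false_iff_ne] at h ⊢ <;> split_ifs <;> omega

theorem Rg_f (a : ℤ) (s : Bool) (h : fIn (uu a) s = true) :
    Rg (a + sgn s) = Rg a + sgn s ∧ Rg a % 2 = 1 := by
  have h1 := uu_val a
  unfold Rg reg
  cases s <;> simp only [sgn, fIn, Bool.false_eq_true, if_false, if_true,
    beq_iff_eq] at h ⊢ <;> split_ifs <;> omega

theorem Rg_mem (N a : ℤ) (hN : N % 2 = 1) (h1 : 1 ≤ a) (h2 : a ≤ 42 * (N - 1) + 39) :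
    1 ≤ Rg a ∧ Rg a ≤ N := by
  unfold Rg reg
  split_ifs <;> omega

theorem Patch.step {N : ℤ} {z : ℤ → ℤ → Cell} (hN : N % 2 = 1) (h : Patch N z) :
    Patch (42 * (N - 1) + 39) fun a b => child (z (Rg a) (Rg b)) (uu a) (uu b) := by
  intro a b a1 a2 b1 b2
  obtain ⟨ra1, ra2⟩ := Rg_mem N a hN a1 a2
  obtain ⟨rb1, rb2⟩ := Rg_mem N b hN b1 b2
  obtain ⟨px, py, pv, ph, pw⟩ := h _ _ ra1 ra2 rb1 rb2
  have hx : od (z (Rg a) (Rg b)).P.x = rgo (uu a) := px.trans (rgo_uu a).symm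
  have hy : od (z (Rg a) (Rg b)).P.y = rgo (uu b) := py.trans (rgo_uu b).symm
  refine ⟨od_uu a, od_uu b, fun oa ob => ?_, fun s oa c1 c2 => ?_, fun s ob c1 c2 => ?_⟩
  · refine child_valid _ _ _ hx hy (fun ht => pv ?_ ?_) ?_ ?_
    · exact of_decide_eq_true (px.symm.trans ht.1)
    · exact of_decide_eq_true (py.symm.trans ht.2)
    · rw [od_uu, decide_eq_true oa]
    · rw [od_uu, decide_eq_true ob]
  · have ho : od (uu a) = true := by rw [od_uu, decide_eq_true oa]
    have e1 : mv (uu a) (dx (false, s)) = uu (a + sgn s) := mv_uu a s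
    have e2 : mv (uu b) (dy (false, s)) = uu b := mv_zero _
    obtain ⟨q1, q2⟩ := Rg_mem N _ hN c1 c2
    cases hf : fIn (uu a) s
    · rw [child_bd _ _ _ (false, s) hx hy ho hf, e1, e2]
      simp only [Rg_nf a s oa hf]
    · obtain ⟨r1, r2⟩ := Rg_f a s hf
      rw [r1] at q1 q2
      rw [child_bdF _ _ _ (false, s) hx hy hf, e1, e2, ph s r2 q1 q2]
      simp only [r1]
  · have ho : od (uu b) = true := by rw [od_uu, decide_eq_true ob]
    have e1 : mv (uu a) (dx (true, s)) = uu a := mv_zero _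
    have e2 : mv (uu b) (dy (true, s)) = uu (b + sgn s) := mv_uu b s
    obtain ⟨q1, q2⟩ := Rg_mem N _ hN c1 c2
    cases hf : fIn (uu b) s
    · rw [child_bd _ _ _ (true, s) hx hy ho hf, e1, e2]
      simp only [Rg_nf b s ob hf]
    · obtain ⟨r1, r2⟩ := Rg_f b s hf
      rw [r1] at q1 q2
      rw [child_bdF _ _ _ (true, s) hx hy hf, e1, e2, pw s r2 q1 q2]
      simp only [r1]

theorem exists_patch (n : ℕ) : ∃ (N : ℤ) (z : ℤ → ℤ → Cell), N % 2 = 1 ∧ 4 * (n : ℤ) + 1 ≤ N ∧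
    Patch N z := by
  induction n with
  | zero =>
    obtain ⟨c, hc⟩ := seed
    refine ⟨1, fun _ _ => c, by decide, by simp, fun a b a1 a2 b1 b2 => ?_⟩
    obtain rfl : a = 1 := le_antisymm a2 a1
    obtain rfl : b = 1 := le_antisymm b2 b1
    refine ⟨hc.tl.1, hc.tl.2, fun _ _ => hc, fun s _ c1 c2 => ?_, fun s _ c1 c2 => ?_⟩ <;>
      (exfalso; cases s <;> simp [sgn] at c1 c2)
  | succ n ih =>
    obtain ⟨N, z, h1, h2, h3⟩ := ih
    refine ⟨_, _, by omega, ?_, h3.step h1⟩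
    push_cast
    omega

theorem exists_centred (n : ℕ) : ∃ w : ℤ → ℤ → Cell, ∀ i j : ℤ, -(n : ℤ) ≤ i → i < n →
    -(n : ℤ) ≤ j → j < n → Valid (w i j) ∧
      bdC (false, true) (w i j) = bdC (false, false) (w (i + 1) j) ∧
      bdC (true, true) (w i j) = bdC (true, false) (w i (j + 1)) := by
  obtain ⟨N, z, -, h2, h3⟩ := exists_patch n
  refine ⟨fun i j => z (2 * (i + n) + 1) (2 * (j + n) + 1), fun i j i1 i2 j1 j2 => ?_⟩
  have sp : sgn true = 1 := rfl
  have sm : sgn false = -1 := rfl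
  obtain ⟨-, -, pv, ph, pw⟩ := h3 (2 * (i + n) + 1) (2 * (j + n) + 1) (by omega) (by omega)
    (by omega) (by omega)
  obtain ⟨-, -, -, ph', -⟩ := h3 (2 * (i + 1 + n) + 1) (2 * (j + n) + 1) (by omega) (by omega)
    (by omega) (by omega)
  obtain ⟨-, -, -, -, pw'⟩ := h3 (2 * (i + n) + 1) (2 * (j + 1 + n) + 1) (by omega) (by omega)
    (by omega) (by omega)
  refine ⟨pv (by omega) (by omega), ?_, ?_⟩
  · have e : 2 * (i + n) + 1 + sgn true = 2 * (i + 1 + n) + 1 + sgn false := by omega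
    rw [ph true (by omega) (by omega) (by omega), ph' false (by omega) (by omega) (by omega), e]
  · have e : 2 * (j + n) + 1 + sgn true = 2 * (j + 1 + n) + 1 + sgn false := by omega
    rw [pw true (by omega) (by omega) (by omega), pw' false (by omega) (by omega) (by omega), e]

/-- The valid tiles tile the plane. -/
theorem tiling : ∃ z : ℤ → ℤ → Cell, (∀ i j, Valid (z i j)) ∧
    (∀ i j, bdC (false, true) (z i j) = bdC (false, false) (z (i + 1) j)) ∧
    (∀ i j, bdC (true, true) (z i j) = bdC (true, false) (z i (j + 1))) := by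
  choose w hw using exists_centred
  have hlim : ∀ i j : ℤ, ∃ c : Cell, ∀ᶠ n in (hyperfilter ℕ : Filter ℕ), w n i j = c := by
    intro i j
    obtain ⟨c, hc⟩ := Ultrafilter.eq_pure_of_finite ((hyperfilter ℕ).map fun n => w n i j)
    refine ⟨c, ?_⟩
    have : ({c} : Set Cell) ∈ (hyperfilter ℕ).map fun n => w n i j := by
      rw [hc]
      exact Ultrafilter.mem_pure.2 rfl
    exact this
  choose z hz using hlim
  have key : ∀ i j : ℤ, Valid (z i j) ∧
      bdC (false, true) (z i j) = bdC (false, false) (z (i + 1) j) ∧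
      bdC (true, true) (z i j) = bdC (true, false) (z i (j + 1)) := by
    intro i j
    have hn : ∀ᶠ n in (hyperfilter ℕ : Filter ℕ), i.natAbs + j.natAbs + 1 ≤ n :=
      Nat.hyperfilter_le_atTop (eventually_ge_atTop _)
    obtain ⟨n, ⟨⟨e1, e2⟩, e3⟩, e4⟩ :=
      ((((hz i j).and (hz (i + 1) j)).and (hz i (j + 1))).and hn).exists
    rw [← e1, ← e2, ← e3]
    exact hw n i j (by omega) (by omega) (by omega) (by omega)
  exact ⟨z, fun i j => (key i j).1, fun i j => (key i j).2.1, fun i j => (key i j).2.2⟩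

end Pool.Agent.FC
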