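import Mathlib

set_option autoImplicit false

namespace Pool.Agent.FC

/-- Signed letters with a four-way deterministic family of squares `h v = v' h'`. -/
structure VH (A : Type) where
  c : A → Bool
  sg : A → Bool
  inv : A → A
  Sq : A → A → A → A → Prop
  inv_inv : ∀ a, inv (inv a) = a
  c_inv : ∀ a, c (inv a) = c a
  sg_inv : ∀ a, sg (inv a) = !sg a
  sq_c : ∀ h v v' h', Sq h v v' h' → c h = true ∧ c v = false ∧ c v' = false ∧ c h' = true
  sq_sg : ∀ h v v' h', Sq h v v' h' → sg h' = sg h ∧ sg v' = sg v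
  sq_fun : ∀ h v v' h' v'' h'', Sq h v v' h' → Sq h v v'' h'' → v' = v'' ∧ h' = h''
  sq_r : ∀ h v v' h', Sq h v v' h' → Sq h' (inv v) (inv v') h
  sq_l : ∀ h v v' h', Sq h v v' h' → Sq (inv h) v' v (inv h')

variable {A : Type} {G : Type} [Group G]

theorem VH.sq_inj (D : VH A) {h v v' h' k w : A} (h1 : D.Sq h v v' h') (h2 : D.Sq k w v' h') :
    h = k ∧ v = w := by
  have a := D.sq_l _ _ _ _ (D.sq_r _ _ _ _ h1)
  have b := D.sq_l _ _ _ _ (D.sq_r _ _ _ _ h2)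
  obtain ⟨e1, e2⟩ := D.sq_fun _ _ _ _ _ _ a b
  exact ⟨by rw [← D.inv_inv h, e2, D.inv_inv], by rw [← D.inv_inv v, e1, D.inv_inv]⟩

theorem VH.sq_left (D : VH A) {h v v' h' w k : A} (h1 : D.Sq h v v' h') (h2 : D.Sq h w v' k) :
    v = w ∧ h' = k := by
  obtain ⟨e1, e2⟩ := D.sq_fun _ _ _ _ _ _ (D.sq_l _ _ _ _ h1) (D.sq_l _ _ _ _ h2)
  exact ⟨e1, by rw [← D.inv_inv h', e2, D.inv_inv]⟩

theorem VH.sq_right (D : VH A) {h v v' h' k w : A} (h1 : D.Sq h v v' h') (h2 : D.Sq k v w h') :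
    h = k ∧ v' = w := by
  obtain ⟨e1, e2⟩ := D.sq_fun _ _ _ _ _ _ (D.sq_r _ _ _ _ h1) (D.sq_r _ _ _ _ h2)
  exact ⟨e2, by rw [← D.inv_inv v', e1, D.inv_inv]⟩

/-- The transposed data. -/
def VH.tr (D : VH A) : VH A where
  c a := !D.c a
  sg := D.sg
  inv := D.inv
  Sq v h h' v' := D.Sq h' v' v h
  inv_inv := D.inv_inv
  c_inv a := by rw [D.c_inv]
  sg_inv := D.sg_inv
  sq_c v h h' v' q := by obtain ⟨a, b, c, d⟩ := D.sq_c _ _ _ _ q; simp [a, b, c, d]
  sq_sg v h h' v' q := by obtain ⟨a, b⟩ := D.sq_sg _ _ _ _ q; exact ⟨b.symm, a.symm⟩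
  sq_fun v h h' v' h'' v'' q q' := D.sq_inj q q'
  sq_r v h h' v' q := D.sq_l _ _ _ _ q
  sq_l v h h' v' q := D.sq_r _ _ _ _ q

inductive Eqv (D : VH A) : List A → List A → Prop
  | refl (w : List A) : Eqv D w w
  | symm {u w : List A} : Eqv D u w → Eqv D w u
  | trans {u v w : List A} : Eqv D u v → Eqv D v w → Eqv D u w
  | can (x y : List A) (a : A) : Eqv D (x ++ a :: D.inv a :: y) (x ++ y)
  | sq (x y : List A) (h v v' h' : A) : D.Sq h v v' h' → Eqv D (x ++ h :: v :: y) (x ++ v' :: h' :: y)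

def ev (ι : A → G) (w : List A) : G := (w.map ι).prod

/-- `G` is the group presented by the letters and the squares. -/
structure Pres (D : VH A) (ι : A → G) : Prop where
  inv : ∀ a, ι (D.inv a) = (ι a)⁻¹
  sq : ∀ h v v' h', D.Sq h v v' h' → ι h * ι v = ι v' * ι h'
  surj : ∀ g, ∃ w, ev ι w = g
  eqv : ∀ u w, ev ι u = ev ι w → Eqv D u w

theorem Pres.tr {D : VH A} {ι : A → G} (h : Pres D ι) : Pres D.tr ι := by
  refine ⟨h.inv, fun v k k' v' q => (h.sq _ _ _ _ q).symm, h.surj, fun u w e => ?_⟩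
  have := h.eqv u w e
  clear e
  induction this with
  | refl w => exact .refl w
  | symm _ ih => exact ih.symm
  | trans _ _ i1 i2 => exact i1.trans i2
  | can x y a => exact .can x y a
  | sq x y k v v' k' q => exact (Eqv.sq (D := D.tr) x y v' k' k v q).symm

/-- Irreducible words: no cancelling pair and no corner `h v` of a square. -/
def Irr (D : VH A) (w : List A) : Prop :=
  w.IsChain fun a b => b ≠ D.inv a ∧ ¬∃ v' h', D.Sq a b v' h'

/-- Freely reduced words. -/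
def Red (D : VH A) (w : List A) : Prop := w.IsChain fun a b => b ≠ D.inv a

/-- Least number of horizontal letters in a word for `g`. -/
noncomputable def len (D : VH A) (ι : A → G) (g : G) : ℕ :=
  sInf {n | ∃ w, ev ι w = g ∧ w.countP D.c = n}

noncomputable def rho (D : VH A) (ι : A → G) (g k : G) : ℕ := len D ι (g⁻¹ * k)

/-- A pseudometric with values in `ℕ` that comes from a simplicial tree. -/
structure TM {α : Type} (ρ : α → α → ℕ) : Prop where
  refl : ∀ a, ρ a a = 0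
  symm : ∀ a b, ρ a b = ρ b a
  tri : ∀ a b c, ρ a c ≤ ρ a b + ρ b c
  four : ∀ p q r s, ρ p q + ρ r s ≤ max (ρ p r + ρ q s) (ρ p s + ρ q r)
  par : ∀ a b x, ρ a b = 1 → ρ a x ≠ ρ b x
  step : ∀ a b n, ρ a b = n + 1 → ∃ c, ρ a c = 1 ∧ ρ c b = n

/-- A doubly periodic grid of squares without backtracking. -/
def Torus (D : VH A) : Prop := ∃ (m n : ℕ) (hl vl : ℤ → ℤ → A), 0 < m ∧ 0 < n ∧
  (∀ i j, D.Sq (hl i j) (vl (i + 1) j) (vl i j) (hl i (j + 1))) ∧
  (∀ i j, hl (i + 1) j ≠ D.inv (hl i j)) ∧ (∀ i j, vl i (j + 1) ≠ D.inv (vl i j)) ∧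
  (∀ i j, hl (i + m) j = hl i j) ∧ (∀ i j, hl i (j + n) = hl i j) ∧
  (∀ i j, vl (i + m) j = vl i j) ∧ ∀ i j, vl i (j + n) = vl i j

/-- A grid of squares over the plane without backtracking. -/
def Plane (D : VH A) : Prop := ∃ hl vl : ℤ → ℤ → A,
  (∀ i j, D.Sq (hl i j) (vl (i + 1) j) (vl i j) (hl i (j + 1))) ∧
  (∀ i j, hl (i + 1) j ≠ D.inv (hl i j)) ∧ ∀ i j, vl i (j + 1) ≠ D.inv (vl i j)

end Pool.Agent.FC
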