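import Pool.Agent.P.MP_5e292f_al.FDesc
import Pool.Agent.P.MP_5e292f_al.FExist
import Pool.Agent.P.MP_5e292f_al.GVH

set_option autoImplicit false

namespace Pool.Agent.FC

/-- Signed sides of valid tiles. -/
def FBridgeA : Type :=
  {a : Bool × Cell × Bool // ∃ (t : Cell) (e : Bool), Valid t ∧ a.2.1 = bdC (a.1, e) t}

instance : Finite FBridgeA := by unfold FBridgeA; infer_instance

def FBridgeMk (ax e : Bool) (t : Cell) (ht : Valid t) (σ : Bool) : FBridgeA :=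
  ⟨(ax, bdC (ax, e) t, σ), t, e, ht, rfl⟩

theorem FBridge_ext {a b : FBridgeA} (h1 : a.1.1 = b.1.1) (h2 : a.1.2.1 = b.1.2.1)
    (h3 : a.1.2.2 = b.1.2.2) : a = b :=
  Subtype.ext (Prod.ext h1 (Prod.ext h2 h3))

/-- The tile `t` fills the square with the four given sides. -/
structure FBridgeFill (t : Cell) (h v v' h' : FBridgeA) : Prop where
  val : Valid t
  e1 : h.1.2.1 = bdC (true, !v.1.2.2) t
  e2 : h'.1.2.1 = bdC (true, v.1.2.2) t
  e3 : v.1.2.1 = bdC (false, h.1.2.2) t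
  e4 : v'.1.2.1 = bdC (false, !h.1.2.2) t

theorem FBridgeFill.uniq {t t' : Cell} {h v v' h' w k : FBridgeA} (a : FBridgeFill t h v v' h')
    (b : FBridgeFill t' h v w k) : t = t' :=
  det a.val b.val h.1.2.2 (!v.1.2.2) (a.e3.symm.trans b.e3) (a.e1.symm.trans b.e1)

def FBridgeD : VH FBridgeA where
  c a := a.1.1
  sg a := a.1.2.2
  inv a := ⟨(a.1.1, a.1.2.1, !a.1.2.2), a.2⟩
  Sq h v v' h' := (h.1.1 = true ∧ v.1.1 = false ∧ v'.1.1 = false ∧ h'.1.1 = true) ∧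
    (h'.1.2.2 = h.1.2.2 ∧ v'.1.2.2 = v.1.2.2) ∧ ∃ t, FBridgeFill t h v v' h'
  inv_inv a := FBridge_ext rfl rfl (by simp)
  c_inv _ := rfl
  sg_inv _ := rfl
  sq_c _ _ _ _ q := q.1
  sq_sg _ _ _ _ q := q.2.1
  sq_fun h v v' h' v'' h'' q q' := by
    obtain ⟨⟨-, -, c1, c2⟩, ⟨s1, s2⟩, t, a⟩ := q
    obtain ⟨⟨-, -, d1, d2⟩, ⟨r1, r2⟩, t', b⟩ := q'
    have e := a.uniq b
    subst e
    exact ⟨FBridge_ext (c1.trans d1.symm) (a.e4.trans b.e4.symm) (s2.trans r2.symm),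
      FBridge_ext (c2.trans d2.symm) (a.e2.trans b.e2.symm) (s1.trans r1.symm)⟩
  sq_r h v v' h' q := by
    obtain ⟨⟨c1, c2, c3, c4⟩, ⟨s1, s2⟩, t, a⟩ := q
    refine ⟨⟨c4, c2, c3, c1⟩, ⟨s1.symm, by simp [s2]⟩, t, a.val, ?_, ?_, ?_, ?_⟩
    · simpa using a.e2
    · simpa using a.e1
    · simpa [s1] using a.e3
    · simpa [s1] using a.e4
  sq_l h v v' h' q := by
    obtain ⟨⟨c1, c2, c3, c4⟩, ⟨s1, s2⟩, t, a⟩ := q
    refine ⟨⟨c1, c3, c2, c4⟩, ⟨by simp [s1], s2.symm⟩, t, a.val, ?_, ?_, ?_, ?_⟩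
    · simpa [s2] using a.e1
    · simpa [s2] using a.e2
    · simpa using a.e4
    · simpa using a.e3

theorem FBridge_sq (t : Cell) (ht : Valid t) (a b : Bool) :
    FBridgeD.Sq (FBridgeMk true (!b) t ht a) (FBridgeMk false a t ht b)
      (FBridgeMk false (!a) t ht b) (FBridgeMk true b t ht a) :=
  ⟨⟨rfl, rfl, rfl, rfl⟩, ⟨rfl, rfl⟩, t, ht, rfl, rfl, rfl, rfl⟩

theorem FBridge_all (a : FBridgeA) :
    ∃ h v v' h', FBridgeD.Sq h v v' h' ∧ (a = h ∨ a = v') := by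
  obtain ⟨⟨ax, x, σ⟩, t, e, ht, hx⟩ := a
  simp only at hx
  cases ax
  · refine ⟨_, _, _, _, FBridge_sq t ht (!e) σ, Or.inr (FBridge_ext rfl ?_ rfl)⟩
    simpa [FBridgeMk] using hx
  · refine ⟨_, _, _, _, FBridge_sq t ht σ (!e), Or.inl (FBridge_ext rfl ?_ rfl)⟩
    simpa [FBridgeMk] using hx

theorem FBridge_plane : Plane FBridgeD := by
  obtain ⟨z, hv, hx, hy⟩ := tiling
  refine ⟨fun i j => FBridgeMk true false (z i j) (hv i j) true,
    fun i j => FBridgeMk false false (z i j) (hv i j) true, fun i j => ?_, fun i j h => ?_,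
    fun i j h => ?_⟩
  · exact ⟨⟨rfl, rfl, rfl, rfl⟩, ⟨rfl, rfl⟩, z i j, hv i j, rfl, (hy i j).symm, (hx i j).symm, rfl⟩
  · have := congrArg (fun a : FBridgeA => a.1.2.2) h
    simp [FBridgeMk, FBridgeD] at this
  · have := congrArg (fun a : FBridgeA => a.1.2.2) h
    simp [FBridgeMk, FBridgeD] at this

theorem FBridge_const {f : ℤ → Bool} (h : ∀ j, f (j + 1) = f j) (j : ℤ) : f j = f 0 := by
  induction j using Int.induction_on with
  | zero => rfl
  | succ i ih => rw [h, ih]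
  | pred i ih => rw [← h, sub_add_cancel, ih]

theorem FBridge_torus : ¬Torus FBridgeD := by
  rintro ⟨m, n, hl, vl, hm, hn, hsq, b1, b2, p1, p2, p3, p4⟩
  choose z hz using fun i j => (hsq i j).2.2
  have sh : ∀ i j, (hl i j).1.2.2 = (hl i 0).1.2.2 := fun i j =>
    FBridge_const (f := fun j => (hl i j).1.2.2) (fun j => (hsq i j).2.1.1) j
  have sv : ∀ i j, (vl i j).1.2.2 = (vl 0 j).1.2.2 := fun i j =>
    FBridge_const (f := fun i => (vl i j).1.2.2) (fun i => (hsq i j).2.1.2.symm) i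
  refine no_periodic m n z (fun i => (hl i 0).1.2.2) (fun j => (vl 0 j).1.2.2) hm hn
    ⟨fun i j => (hz i j).val, fun i j => ?_, fun i j => ?_, fun i j hs e => ?_,
      fun i j hs e => ?_⟩ ⟨fun i j => ?_, fun i j => ?_, fun i => ?_, fun j => ?_⟩
  · have a := (hz i j).e3
    have b := (hz (i + 1) j).e4
    rw [sh] at a b
    exact a.symm.trans b
  · have a := (hz i j).e2
    have b := (hz i (j + 1)).e1
    rw [sv] at a b
    exact a.symm.trans b
  · apply b1 i j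
    have a := (hz i j).e1
    have b := (hz (i + 1) j).e1
    rw [sv] at a b
    refine FBridge_ext ((hsq (i + 1) j).1.1.trans (hsq i j).1.1.symm) ?_ ?_
    · exact b.trans (e ▸ a.symm)
    · change (hl (i + 1) j).1.2.2 = !(hl i j).1.2.2
      rw [sh (i + 1), sh i]
      revert hs
      cases (hl i 0).1.2.2 <;> cases (hl (i + 1) 0).1.2.2 <;> simp
  · apply b2 i j
    have a := (hz i j).e4
    have b := (hz i (j + 1)).e4
    rw [sh] at a b
    refine FBridge_ext ((hsq i (j + 1)).1.2.2.1.trans (hsq i j).1.2.2.1.symm) ?_ ?_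
    · exact b.trans (e ▸ a.symm)
    · change (vl i (j + 1)).1.2.2 = !(vl i j).1.2.2
      rw [sv i (j + 1), sv i j]
      revert hs
      cases (vl 0 j).1.2.2 <;> cases (vl 0 (j + 1)).1.2.2 <;> simp
  · have a := hz (i + m) j
    rw [p1, show i + (m : ℤ) + 1 = i + 1 + m by ring, p3] at a
    exact a.uniq (hz i j)
  · have a := hz i (j + n)
    rw [p2, p4] at a
    exact a.uniq (hz i j)
  · simp only [p1]
  · simp only [p4]

theorem exists_vh : ∃ (A : Type) (_ : Finite A) (D : VH A),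
    (∀ a, ∃ h v v' h', D.Sq h v v' h' ∧ (a = h ∨ a = v')) ∧ Plane D ∧ ¬Torus D :=
  ⟨FBridgeA, inferInstance, FBridgeD, FBridge_all, FBridge_plane, FBridge_torus⟩

end Pool.Agent.FC
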