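import Pool.Agent.P.MP_5e292f_al.FLoc

set_option autoImplicit false

namespace Pool.Agent.FC

theorem ch_aux : ∀ u : U, |dR u| ≤ 1 ∧ |dQ u| ≤ 1 ∧ |dP u| ≤ 1 ∧ dP u + dQ u = dR u ∧
    (dQ u ≠ 0 → rgo u = true) ∧ (dR u ≠ 0 → rgo u = true ∧ cSo u = false) ∧
    (cSo u = true → rgo u = true ∧ cPo u = true) ∧ rReg u 0 + dR u = 0 ∧
    (dP u ≠ 0 → cPo u = true ∧ cSo u = false) ∧ (dQ u = 0 → cPo u = rgo u) ∧
    (dQ u ≠ 0 → cPo u = false) ∧ (cPo u = true → dQ u = 0 ∧ rgo u = true) := by decide +kernel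

theorem ch_aux2 : ∀ (u : U) (s : Bool), od u = true →
    (fIn u s = false → dS u (sgn s) + dR u = dR (mv u (sgn s)) ∧
      (pIn u s = false → dQ (mv u (sgn s)) = dQ u) ∧
      (pIn u s = true → dQ u = 0 ∧ dQ (mv u (sgn s)) = sgn s ∧ rgo u = true)) ∧
    (fIn u s = true → dS u (sgn s) = 0 ∧ dR u = sgn s ∧ dR (mv u (sgn s)) = 0 ∧ dQ u = sgn s ∧
      dQ (mv u (sgn s)) = 0 ∧ rgo u = true ∧ cSo u = false ∧ cSo (mv u (sgn s)) = false ∧
      rEx u 0 = 0) := by decide +kernel

theorem fIn_od : ∀ (u : U) (s : Bool), fIn u s = true → od u = true := by decide +kernel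

theorem win_dR (u : U) {p : Bool} (hp : p = rgo u) (c : ℤ) (h : win (cSo u) c = true) :
    win p (c + dR u) = true := by
  obtain ⟨a1, -, -, -, -, a2, a3, -⟩ := ch_aux u
  by_cases h0 : dR u = 0
  · rw [h0, add_zero]
    cases hc : cSo u
    · rw [hc] at h
      cases p
      · exact h
      · have := win_step (e := 0) (by simp) h
        rwa [add_zero] at this
    · rw [hc] at h; rw [hp, (a3 hc).1]; exact h
  · rw [(a2 h0).2] at h
    rw [hp, (a2 h0).1]
    exact win_step a1 h

theorem look_chP (P : Blk) (x y : U) (hx : od P.x = rgo x) (hy : od P.y = rgo y) {c e : ℤ}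
    (hc : |c| ≤ 1) (he : |e| ≤ 1) : look (chP P x y).σ c e = infAt P (c + dR x) (e + dR y) := by
  simp only [chP]
  rw [look_sh _ _ _ _ _ (win_of hc) (win_of he),
    look_G P (win_dR x hx _ (win_of hc)) (win_dR y hy _ (win_of he))]

/-- On a tile of the region of a parent tile, the inherited record is the parent's own record. -/
theorem chP_oR (P : Blk) (x y : U) (hx : od P.x = rgo x) (hy : od P.y = rgo y) :
    oR (chP P x y) 0 0 = inf P := by
  have ex : (chP P x y).x = x := rfl
  have ey : (chP P x y).y = y := rfl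
  rw [oR, ex, ey, look_chP P x y hx hy (r_le x (by simp)).2 (r_le y (by simp)).2,
    (ch_aux x).2.2.2.2.2.2.2.1, (ch_aux y).2.2.2.2.2.2.2.1, inf]

theorem bd_chP (P : Blk) (x y : U) (d : Dir) (ho : od (co d.1 x y) = true)
    (hf : fIn (co d.1 x y) d.2 = false) :
    bd d (chP P x y) = chP P (mv x (dx d)) (mv y (dy d)) := by
  obtain ⟨a, s⟩ := d
  have h1 := ((ch_aux2 _ s ho).1 hf).1
  have hs : |sgn s| ≤ 1 := by cases s <;> decide
  cases a <;> simp only [co, Bool.false_eq_true, if_false, if_true] at h1 ho <;>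
    simp only [bd, bdv, chP, dx, dy, Bool.false_eq_true, if_false, if_true, mv_zero, dS_zero,
      and_true, true_and] <;> congr 1
  · split_ifs with h0
    · rw [← h1, h0, zero_add, (od_mv x hs).2.1 h0]
    · rw [sh_sh _ _ _ _ _ _ _ _ _ (win_cS x hs fun _ => ho) (fun c h => by rwa [add_zero]), h1,
        zero_add]
  · split_ifs with h0
    · rw [← h1, h0, zero_add, (od_mv y hs).2.1 h0]
    · rw [sh_sh _ _ _ _ _ _ _ _ _ (fun c h => by rwa [add_zero]) (win_cS y hs fun _ => ho), h1,
        zero_add]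

theorem chS_congr (c : Cell) (x y : U) {kx ky kx' ky' : Bool} (h : kk x y kx' ky' = kk x y kx ky) :
    chS c x y kx' ky' = chS c x y kx ky := by
  have e : ∀ i, sym x y kx' ky' i = sym x y kx ky i := fun i => by
    unfold sym; rw [(sdT_congr h).2.2]
  funext i
  unfold chS
  rw [e]

theorem child_bd (c : Cell) (x y : U) (d : Dir) (hx : od c.P.x = rgo x) (hy : od c.P.y = rgo y)
    (ho : od (co d.1 x y) = true) (hf : fIn (co d.1 x y) d.2 = false) :
    bdC d (child c x y) = child c (mv x (dx d)) (mv y (dy d)) := by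
  have hb := bd_chP c.P x y d ho hf
  refine Cell.ext hb ?_
  have hk := (kk_bd (chP c.P x y) d ho).2
  rw [hb] at hk
  simp only [bdC, child]
  rw [chS_congr c (mv x (dx d)) (mv y (dy d)) hk, opOf_eq _ _ ho]
  have ex : (chP c.P x y).x = x := rfl
  have ey : (chP c.P x y).y = y := rfl
  rw [ex, ey, hf]
  generalize kX (chP c.P x y) = kx
  generalize kY (chP c.P x y) = ky
  simp only [Bool.false_eq_true, if_false]
  funext i
  have h := sym_spec d x y ho kx ky i
  have q := ((ch_aux2 _ d.2 ho).1 hf).2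
  simp only [cSymT] at h
  unfold act chS sym
  by_cases m0 : mode (pop x y d kx ky) i = 0
  · simp only [m0, if_true, Bool.and_eq_true, beq_iff_eq, Bool.or_eq_true, bne_iff_ne,
      Bool.not_eq_true'] at h ⊢
    rw [← h.1.1]
    by_cases s1 : symT (tab (mv x (dx d)) (mv y (dy d))) kx ky i = 1
    · rw [if_pos s1, if_pos s1, h.2.resolve_left (not_not.2 s1)]
    · rw [if_neg s1, if_neg s1]
      split_ifs with s2
      · have := q.1 (h.1.2.resolve_left (not_not.2 s2))
        obtain ⟨a, s⟩ := d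
        cases a <;> simp only [co, Bool.false_eq_true, if_false, if_true] at this <;>
          simp [dx, dy, mv_zero, this]
      · rfl
  · by_cases m1 : mode (pop x y d kx ky) i = 1
    · simp only [m1, if_true, beq_iff_eq, one_ne_zero, if_false] at h ⊢
      simp [h]
    · simp only [m0, m1, if_false, Bool.and_eq_true, beq_iff_eq] at h ⊢
      rw [h.1.1, h.1.2]
      obtain ⟨q1, q2, q3⟩ := q.2 h.2
      obtain ⟨a, s⟩ := d
      have hs : |sgn s| ≤ 1 := by cases s <;> decide
      cases a <;> simp only [co, Bool.false_eq_true, if_false, if_true] at q1 q2 q3 <;>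
        simp only [dx, dy, Bool.false_eq_true, if_false, if_true, mv_zero, q1, q2, bd,
          OfNat.ofNat_ne_one, Option.map_some]
      · rw [bdv_bdv _ _ _ _ _ (by simp) (ch_aux y).2.1 hs (by simp) (Or.inl rfl) (Or.inr rfl)
          (fun _ => by rw [hx, q3]) (fun h => by rw [hy, (ch_aux y).2.2.2.2.1 (by simpa using h)])]
        simp
      · rw [bdv_bdv _ _ _ _ _ (ch_aux x).2.1 (by simp) (by simp) hs (Or.inr rfl) (Or.inl rfl)
          (fun h => by rw [hx, (ch_aux x).2.2.2.2.1 (by simpa using h)]) (fun _ => by rw [hy, q3])]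
        simp

theorem opOf_chP (P : Blk) (x y : U) (d : Dir) (hx : od P.x = rgo x) (hy : od P.y = rgo y)
    (hf : fIn (co d.1 x y) d.2 = true) :
    (if d.1 then oY (chP P x y) 0 0 else oX (chP P x y) 0 0) =
      (if d.1 then (inf (bd d P)).ty else (inf (bd d P)).tx) ∧ opOf d (chP P x y) = opOf d P := by
  have ho := fIn_od _ _ hf
  have ex : (chP P x y).x = x := rfl
  have ey : (chP P x y).y = y := rfl
  have key : (if d.1 then oY (chP P x y) 0 0 else oX (chP P x y) 0 0) =
      (if d.1 then (inf (bd d P)).ty else (inf (bd d P)).tx) := by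
    obtain ⟨-, q2, -, -, -, -, -, -, q9⟩ := (ch_aux2 _ d.2 ho).2 hf
    rw [(o_bd P d).2.2]
    obtain ⟨a, s⟩ := d
    cases a <;> simp only [co, Bool.false_eq_true, if_false, if_true] at q2 q9 ⊢
    · rw [oX, ex, ey, look_chP P x y hx hy (r_le x (by simp)).1 (r_le y (by simp)).2, q9, q2,
        (ch_aux y).2.2.2.2.2.2.2.1]
      simp [dx, dy]
    · rw [oY, ex, ey, look_chP P x y hx hy (r_le x (by simp)).2 (r_le y (by simp)).1, q9, q2,
        (ch_aux x).2.2.2.2.2.2.2.1]
      simp [dx, dy]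
  refine ⟨key, ?_⟩
  rw [opOf_eq _ _ ho, ex, ey, if_pos hf, key]
  rfl

theorem tch_aux : ∀ (d : Dir) (O : Bool × Op) (i : Fin 4),
    (tch (side d O) i = true → i ≠ (if tch O.2 2 then 3 else 2)) ∧
    (tch (side d O) i = false → mode (side d O) i = 0 ∧ src (side d O) i = i) ∧
    (tch (side d O) i = true → mode (side d O) i = 0 → tch (side d O) (src (side d O) i) = true) ∧
    (mode (side d O) i ≠ 0 → tch (side d O) i = true) := by
  decide +kernel

theorem gate (x y : U) (d : Dir) (hf : fIn (co d.1 x y) d.2 = true) (kx ky : Bool) :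
    pop x y d kx ky = 0 ∧
      ∀ i, i ≠ (if (if d.1 then ky else kx) then 3 else 2) → sd x y kx ky i = true := by
  have ho := fIn_od _ _ hf
  have hs := (step_spec d x y ho).2 kx ky
  simp only [cStepT, Bool.and_eq_true] at hs
  have hs2 := hs.1.1.2
  rw [if_pos ((line_aux _ d.2 ho).2.2.2.2.2 hf), Bool.and_eq_true, beq_iff_eq] at hs2
  refine ⟨hs2.1, fun i hi => ?_⟩
  have := all4_spec hs2.2 i
  rw [Bool.or_eq_true, beq_iff_eq] at this
  exact this.resolve_left hi

theorem child_bdF (c : Cell) (x y : U) (d : Dir) (hx : od c.P.x = rgo x) (hy : od c.P.y = rgo y)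
    (hf : fIn (co d.1 x y) d.2 = true) :
    bdC d (child c x y) = child (bdC d c) (mv x (dx d)) (mv y (dy d)) := by
  have ho := fIn_od _ _ hf
  obtain ⟨q1, q2, q3, q4, q5, q6, q7, q8, -⟩ := (ch_aux2 _ d.2 ho).2 hf
  have hs : |sgn d.2| ≤ 1 := by cases d.2 <;> decide
  have hs0 : sgn d.2 ≠ 0 := by cases d.2 <;> decide
  have hb : bd d (chP c.P x y) = chP (bd d c.P) (mv x (dx d)) (mv y (dy d)) := by
    obtain ⟨a, s⟩ := d
    cases a <;> simp only [co, Bool.false_eq_true, if_false, if_true] at q1 q2 q3 q6 q7 q8 hs hs0 <;>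
      simp only [bd, chP, dx, dy, Bool.false_eq_true, if_false, if_true, mv_zero]
    · rw [G_bdv _ _ _ hs (by simp) (fun _ => by rw [hx, q6]) (by simp), mv_zero,
        sh_sh _ _ _ _ _ _ _ _ _ _ (win_dR y hy)]
      · simp [bdv, q1, q2, q3, q7, q8, dS_zero, mv_zero]
      · intro e he
        rw [(od_mv _ hs).1 hs0, hx, q6, q3, add_zero]
        rwa [q8] at he
    · rw [G_bdv _ _ _ (by simp) hs (by simp) (fun _ => by rw [hy, q6]), mv_zero,
        sh_sh _ _ _ _ _ _ _ _ _ (win_dR x hx)]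
      · simp [bdv, q1, q2, q3, q7, q8, dS_zero, mv_zero]
      · intro e he
        rw [(od_mv _ hs).1 hs0, hy, q6, q3, add_zero]
        rwa [q8] at he
  refine Cell.ext hb ?_
  have hk := (kk_bd (chP c.P x y) d ho).2
  rw [hb] at hk
  obtain ⟨o1, o2⟩ := opOf_chP c.P x y d hx hy hf
  have hQ : bdv (dQ (mv x (dx d))) (dQ (mv y (dy d))) (bd d c.P) = bdv (dQ x) (dQ y) c.P := by
    obtain ⟨a, s⟩ := d
    cases a <;> simp only [co, Bool.false_eq_true, if_false, if_true] at q4 q5 q6 hs <;>
      simp only [bd, dx, dy, Bool.false_eq_true, if_false, if_true, mv_zero, q4, q5]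
    · rw [bdv_bdv _ _ _ _ _ hs (by simp) (by simp) (ch_aux y).2.1 (Or.inr rfl) (Or.inl rfl)
        (fun _ => by rw [hx, q6]) (fun h => by rw [hy, (ch_aux y).2.2.2.2.1 (by simpa using h)])]
      simp
    · rw [bdv_bdv _ _ _ _ _ (by simp) hs (ch_aux x).2.1 (by simp) (Or.inl rfl) (Or.inr rfl)
        (fun h => by rw [hx, (ch_aux x).2.2.2.2.1 (by simpa using h)]) (fun _ => by rw [hy, q6])]
      simp
  have hk2 : (if d.1 then kY (chP c.P x y) else kX (chP c.P x y)) =
      tch (if d.1 then (inf (bd d c.P)).ty else (inf (bd d c.P)).tx).2 2 := by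
    rw [← o1]
    cases d.1 <;> rfl
  obtain ⟨g1, g2⟩ := gate x y d hf (kX (chP c.P x y)) (kY (chP c.P x y))
  rw [hk2] at g2
  have eo : opOf d c.P = side d (if d.1 then (inf (bd d c.P)).ty else (inf (bd d c.P)).tx) := rfl
  simp only [bdC, child]
  rw [chS_congr _ (mv x (dx d)) (mv y (dy d)) hk, o2, eo]
  generalize (if d.1 then (inf (bd d c.P)).ty else (inf (bd d c.P)).tx) = O at g2
  generalize kX (chP c.P x y) = kx at g1 g2
  generalize kY (chP c.P x y) = ky at g1 g2
  have es : ∀ i, sym (mv x (dx d)) (mv y (dy d)) kx ky i = sym x y kx ky i := fun i => by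
    have h := sym_spec d x y ho kx ky i
    rw [g1] at h
    have m : mode 0 i = 0 ∧ src 0 i = i := by clear h; revert i; decide
    simp only [cSymT, m.1, m.2, if_true, Bool.and_eq_true, beq_iff_eq] at h
    exact h.1.1
  have s1 : ∀ i, tch (side d O) i = true → chS c x y kx ky i = c.s i := fun i h => by
    have : sym x y kx ky i = 1 := symT_one.2 (g2 i ((tch_aux d O i).1 h))
    simp [chS, this]
  funext i
  cases ht : tch (side d O) i
  · obtain ⟨m1, m2⟩ := (tch_aux d O i).2.1 ht
    simp only [act, chS, es, m1, m2, if_true, hQ]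
  · have : sym x y kx ky i = 1 := symT_one.2 (g2 i ((tch_aux d O i).1 ht))
    rw [chS, es, if_pos this]
    simp only [act]
    split_ifs with a b
    · exact s1 _ ((tch_aux d O i).2.2.1 ht a)
    · rfl
    · rw [s1 _ ht]

theorem child_valP (c : Cell) (x y : U) (h : sP x y = true) :
    valP (child c x y) = some (bdv (dQ x) (dQ y) c.P) := by
  have := sym_pi x y (kX (chP c.P x y)) (kY (chP c.P x y)) h
  show chS c x y _ _ (piS x y (kX (chP c.P x y)) (kY (chP c.P x y))) = _
  simp [chS, this]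

theorem child_slot (c : Cell) (x y : U) (i : Fin 4)
    (h : sd x y (kX (chP c.P x y)) (kY (chP c.P x y)) i = true) : (child c x y).s i = c.s i := by
  have : sym x y (kX (chP c.P x y)) (kY (chP c.P x y)) i = 1 := symT_one.2 h
  simp [child, chS, this]

end Pool.Agent.FC
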