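import Pool.Agent.P.MP_5e292f_al.FDefs

set_option autoImplicit false

namespace Pool.Agent.FC

def cSymT (t e : ℕ) (p kx ky : Bool) (op : Op) (i : Fin 4) : Bool :=
  if mode op i = 0 then
    symT e kx ky i == symT t kx ky (src op i) && (symT e kx ky i != 2 || !p) &&
      (symT e kx ky i != 1 || src op i == i)
  else if mode op i = 1 then symT e kx ky i == 0
  else symT e kx ky i == 2 && symT t kx ky i == 2 && p

/-- `t, e, o`: table values at the cell, the facet and the opposite cell. -/
def cStepT (ax : Bool) (t e o : ℕ) (p p' f s : Bool) (kx ky : Bool) : Bool :=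
  all4 (cSymT t e p kx ky (popT t e p kx ky)) &&
  (if f then
      popT t e p kx ky == 0 &&
        all4 fun i => i == (if (if ax then ky else kx) then 3 else 2) || sdT t kx ky i
    else (popT t e p kx ky == 0 || popT o e p' kx ky == 0)) &&
  (!s || (sPT t && mode (popT t e p kx ky) (piT t kx ky) == 0)) &&
  (!hit (popT t e p kx ky) || hit (popT t e p false false) || hit (popT t e p true true))

def cKT (t e : ℕ) (a b : Bool) : Bool :=
  (a || (kfT t != 1 && kfT e != 1)) && (b || (kfT t != 2 && kfT e != 2))

def c1 (d : Dir) (x y : U) : Bool :=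
  !od (co d.1 x y) ||
    frc (tab x y) fun t => frc (tab (mv x (dx d)) (mv y (dy d))) fun e =>
    frc (tab (mv x (2 * dx d)) (mv y (2 * dy d))) fun o =>
    frb (pIn (co d.1 x y) d.2) fun p => frb (pIn (mv (co d.1 x y) (2 * sgn d.2)) (!d.2)) fun p' =>
    frb (isF (mv (co d.1 x y) (sgn d.2))) fun f =>
    frb (sIn (co d.1 x y) d.2 && od (co (!d.1) x y)) fun s =>
    frb (rEx x (dx d) == rEx x 0 && rReg y (dy d) == rReg y 0) fun a =>
    frb (rReg x (dx d) == rReg x 0 && rEx y (dy d) == rEx y 0) fun b =>
    cKT t e a b && allB fun kx => allB fun ky => cStepT d.1 t e o p p' f s kx ky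

theorem chk1a : allU (fun x => allU (c1 (false, true) x)) = true := by decide +kernel
theorem chk1b : allU (fun x => allU (c1 (false, false) x)) = true := by decide +kernel
theorem chk1c : allU (fun x => allU (c1 (true, true) x)) = true := by decide +kernel
theorem chk1d : allU (fun x => allU (c1 (true, false) x)) = true := by decide +kernel

end Pool.Agent.FC
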