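import Pool.Agent.P.MP_5e292f_al.FChk3

set_option autoImplicit false

namespace Pool.Agent.FC

/-- Position of the tile column `i`. -/
def tp (i : ℤ) : U := Fin.ofNat 84 ((2 * i + 1) % 84).toNat

def inZ (i j : ℤ) : Bool := decide (0 ≤ i ∧ i < 20 ∧ 0 ≤ j ∧ j < 20)
def arm1 (sg : Bool) (a b : ℤ) : Bool :=
  decide (3 ≤ b ∧ b < 17) && (if sg then decide (20 ≤ a ∧ a < 29) else decide (-9 ≤ a ∧ a < 0))
def inA (d : Dir) (i j : ℤ) : Bool := if d.1 then arm1 d.2 j i else arm1 d.2 i j

def ptr (v : ℕ) (i j : ℤ) : ℕ := (bigP >>> (8 * (1444 * v + 38 * (i + 9).toNat + (j + 9).toNat))) % 256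
def dep (v : ℕ) (i j : ℤ) : ℕ := ptr v i j / 4
def pdir (v : ℕ) (i j : ℤ) : Dir := (ptr v i j / 2 % 2 == 1, ptr v i j % 2 == 1)
/-- Table index of slot colour `l` in variant `k`; 0 is the colour P, 1 is the window. -/
def vix (l : Fin 4) (k : Bool) : ℕ :=
  if l.val < 2 then 2 + l.val else 2 * l.val + (if k then 1 else 0)

/-- The pointer of table `v` at `(i,j)` stays in the region, lowers the depth, crosses no F-line. -/
def cMove (v : ℕ) (i j : ℤ) : Bool :=
  let d := pdir v i j
  (!inZ i j || inZ (i + dx d) (j + dy d)) &&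
  (allB fun a => allB fun s => !inA (a, s) i j || inZ (i + dx d) (j + dy d) ||
    inA (a, s) (i + dx d) (j + dy d)) &&
  decide (dep v (i + dx d) (j + dy d) < dep v i j) &&
  !fIn (co d.1 (tp i) (tp j)) d.2 && !fIn (co d.1 (tp (i + dx d)) (tp (j + dy d))) (!d.2)

def cP (i j : ℤ) : Bool :=
  !sP (tp i) (tp j) || (i == 10 && j == 12) ||
    (cMove 0 i j && sP (mv (tp i) (dx (pdir 0 i j))) (mv (tp j) (dy (pdir 0 i j))) &&
      sP (tp (i + dx (pdir 0 i j))) (tp (j + dy (pdir 0 i j))) &&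
      !pIn (co (pdir 0 i j).1 (tp i) (tp j)) (pdir 0 i j).2)

def cW (i j : ℤ) : Bool :=
  sP (tp i) (tp j) ||
    (cMove 1 i j && !sIn (co (pdir 1 i j).1 (tp i) (tp j)) (pdir 1 i j).2 &&
      !sIn (co (pdir 1 i j).1 (tp (i + dx (pdir 1 i j))) (tp (j + dy (pdir 1 i j)))) (!(pdir 1 i j).2))

def cL (l : Fin 4) (k : Bool) (i j : ℤ) : Bool :=
  !sd (tp i) (tp j) k k l || (i == 9 && j == 10) ||
    (cMove (vix l k) i j &&
      sd (mv (tp i) (dx (pdir (vix l k) i j))) (mv (tp j) (dy (pdir (vix l k) i j))) k k l &&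
      sd (tp (i + dx (pdir (vix l k) i j))) (tp (j + dy (pdir (vix l k) i j))) k k l)

/-- Variant flags vanish on the zone and its edges, and are of the arm's axis on an arm. -/
def cF (i j : ℤ) : Bool :=
  allB fun a => allB fun s =>
    (!inZ i j || (kf (tp i) (tp j) == 0 && kf (mv (tp i) (dx (a, s))) (mv (tp j) (dy (a, s))) == 0)) &&
    allB fun b => allB fun r => !inA (b, r) i j ||
      (kf (tp i) (tp j) != (if b then 1 else 2) &&
        kf (mv (tp i) (dx (a, s))) (mv (tp j) (dy (a, s))) != (if b then 1 else 2))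

def inC (i j : ℤ) : Bool := inZ i j || inA (false, false) i j || inA (false, true) i j ||
  inA (true, false) i j || inA (true, true) i j

def allC (f : ℤ → ℤ → Bool) : Bool :=
  allN 38 fun a => allN 38 fun b => !inC ((a : ℤ) - 9) ((b : ℤ) - 9) || f ((a : ℤ) - 9) ((b : ℤ) - 9)

theorem allC_spec {f : ℤ → ℤ → Bool} (h : allC f = true) {i j : ℤ} (hc : inC i j = true) :
    f i j = true := by
  have hr : -9 ≤ i ∧ i < 29 ∧ -9 ≤ j ∧ j < 29 := by
    simp only [inC, inZ, inA, arm1, Bool.or_eq_true, Bool.and_eq_true, decide_eq_true_eq,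
      Bool.false_eq_true, if_false, if_true] at hc
    omega
  have h1 := (allN_iff _ _).1 ((allN_iff _ _).1 h (i + 9).toNat (by omega)) (j + 9).toNat (by omega)
  have e1 : (((i + 9).toNat : ℕ) : ℤ) - 9 = i := by omega
  have e2 : (((j + 9).toNat : ℕ) : ℤ) - 9 = j := by omega
  rw [e1, e2, hc] at h1
  simpa using h1

theorem chkP : allC cP = true := by decide +kernel
theorem chkW : allC cW = true := by decide +kernel
theorem chkF : allC cF = true := by decide +kernel
theorem chkL0 : (allB fun k => allC (cL 0 k)) = true := by decide +kernel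
theorem chkL1 : (allB fun k => allC (cL 1 k)) = true := by decide +kernel
theorem chkL2 : (allB fun k => allC (cL 2 k)) = true := by decide +kernel
theorem chkL3 : (allB fun k => allC (cL 3 k)) = true := by decide +kernel

end Pool.Agent.FC
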