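import Pool.Agent.P.MP_5e292f_al.FLoc

set_option autoImplicit false

namespace Pool.Agent.FC

theorem op_aux : ∀ (op : Op) (i : Fin 4), (mode op i = 0 → mode op (src op i) = 0 ∧
    src op (src op i) = i) ∧ (mode op i ≠ 0 → hit op = true ∧ ∀ j, j ≠ i → mode op j = 0) := by
  decide +kernel

theorem act_rec {op : Op} {d : Dir} {s s' : Fin 4 → Option Blk} (h : act op d s = act op d s')
    {i : Fin 4} (hi : mode op i = 0) : s i = s' i := by
  obtain ⟨a, b⟩ := (op_aux op i).1 hi
  have := congrFun h (src op i)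
  simpa only [act, a, if_true, b] using this

theorem act_del {op : Op} {d : Dir} {s s' : Fin 4 → Option Blk} (h : act op d s = act op d s')
    {i : Fin 4} (hi : mode op i = 2) : (s i).map (bd d) = (s' i).map (bd d) := by
  have := congrFun h i
  simpa [act, hi] using this

theorem mv_inj_aux : ∀ (u : U) (i : Fin 5), |vo i| ≤ 1 → mv (mv u (vo i)) (-vo i) = u := by
  decide +kernel

theorem mv_inj {u u' : U} {e : ℤ} (he : |e| ≤ 1) (h : mv u e = mv u' e) : u = u' := by
  obtain ⟨i, rfl⟩ := ex_vo (he.trans one_le_two)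
  rw [← mv_inj_aux u i he, h, mv_inj_aux u' i he]

theorem pos_eq {P P' : Blk} {d : Dir} (h : bd d P = bd d P') : P.x = P'.x ∧ P.y = P'.y :=
  ⟨mv_inj (dxy_le d).1 (congrArg Blk.x h), mv_inj (dxy_le d).2 (congrArg Blk.y h)⟩

theorem tile_co {P : Blk} (h : tile P) (a : Bool) : od (co a P.x P.y) = true := by
  cases a
  · exact h.1
  · exact h.2

theorem blk_eq {P P' : Blk} {d : Dir} (hP : tile P) (h : bd d P = bd d P')
    (hs : sIn (co d.1 P.x P.y) d.2 = false) : P = P' := by
  obtain ⟨ex, ey⟩ := pos_eq h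
  refine Blk.ext ex ey ?_
  rw [← bd_sigma P d (tile_co hP _) hs, h, bd_sigma P' d (by rw [← ex, ← ey]; exact tile_co hP _)
    (by rw [← ex, ← ey]; exact hs)]

theorem core_eq {u u' : Blk} {o : Option Blk} (h : core u o) (h' : core u' o) (ex : u.x = u'.x)
    (ey : u.y = u'.y) : u = u' := by
  obtain ⟨w, e, -, -, s, -⟩ := h
  obtain ⟨w', e', -, -, s', -⟩ := h'
  obtain rfl : w = w' := Option.some.inj (e.symm.trans e')
  exact Blk.ext ex ey (by rw [s, s', ex, ey])

theorem sf_aux : ∀ (u : U) (s : Bool), sIn u s = true → fIn u s = false := by decide +kernel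

theorem own_eq {t t' : Cell} (h : Valid t) (h' : Valid t') (d : Dir) (hd : bdC d t = bdC d t') :
    t.P = t'.P := by
  have hb : bd d t.P = bd d t'.P := congrArg Cell.P hd
  by_cases hs : sIn (co d.1 t.P.x t.P.y) d.2 = true
  swap
  · exact blk_eq h.tl hb (by simpa using hs)
  obtain ⟨ex, ey⟩ := pos_eq hb
  have o := tile_co h.tl d.1
  have o' := tile_co h'.tl d.1
  have k := (sdT_congr (kk_bd t.P d o).1).2.1
  have k' := (sdT_congr (kk_bd t'.P d o').1).2.1
  have epi : piS t'.P.x t'.P.y (kX t'.P) (kY t'.P) = piS t.P.x t.P.y (kX t.P) (kY t.P) := by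
    simp only [piS]
    rw [← k, ← k', hb, ex, ey]
  have hc := (step_spec d t.P.x t.P.y o).2 (kX t.P) (kY t.P)
  simp only [cStepT, Bool.and_eq_true] at hc
  have hc := hc.1.2
  simp only [hs, tile_co h.tl, Bool.and_self, Bool.not_true, Bool.false_or, Bool.and_eq_true,
    beq_iff_eq] at hc
  have eo : opOf d t'.P = opOf d t.P := by simp only [opOf, hb]
  have hm : mode (opOf d t.P) (piS t.P.x t.P.y (kX t.P) (kY t.P)) = 0 := by
    rw [opOf_eq _ _ o, sf_aux _ _ hs]
    exact hc.2
  have ha : act (opOf d t.P) d t.s = act (opOf d t.P) d t'.s := by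
    have := congrArg Cell.s hd
    simp only [bdC] at this
    rwa [eo] at this
  have c1 := h.cr _ ⟨hc.1, rfl⟩
  have c2 := h'.cr _ ⟨by rw [← ex, ← ey]; exact hc.1, epi⟩
  rw [← act_rec ha hm] at c2
  exact core_eq c1 c2 ex ey

theorem act_eq {t t' : Cell} (d : Dir) (hd : bdC d t = bdC d t') (e : t.P = t'.P) :
    act (opOf d t.P) d t.s = act (opOf d t.P) d t'.s := by
  have := congrArg Cell.s hd
  simp only [bdC] at this
  rwa [← e] at this

theorem c2_spec (sx sy : Bool) (x y : U) (ox : od x = true) (oy : od y = true) (kx ky : Bool) :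
    cCorT (tab x y) (tab (mv x (sgn sx)) y) (tab x (mv y (sgn sy))) (pIn x sx) (pIn y sy) (fIn x sx)
      (fIn y sy) (cPo x && cPo y) (xc sx sy) kx ky = true ∧
    (sIn x sx = true → sIn y sy = true → sP x y = true ∧ piS x y kx ky = xc sx sy) := by
  have : c2 sx sy x y = true := by
    cases sx <;> cases sy
    · exact allU_spec (allU_spec chk2d x) y
    · exact allU_spec (allU_spec chk2c x) y
    · exact allU_spec (allU_spec chk2b x) y
    · exact allU_spec (allU_spec chk2a x) y
  simp only [c2, ox, oy, Bool.and_self, Bool.not_true, Bool.false_or, frc_eq, frb_eq] at this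
  have := allB_spec (allB_spec this kx) ky
  rw [Bool.and_eq_true] at this
  refine ⟨this.1, fun a b => ?_⟩
  simpa [a, b, sP, piS] using this.2

/-- Four-way determinism. -/
theorem det {t t' : Cell} (h : Valid t) (h' : Valid t') (sx sy : Bool)
    (hx : bdC (false, sx) t = bdC (false, sx) t') (hy : bdC (true, sy) t = bdC (true, sy) t') :
    t = t' := by
  have e := own_eq h h' _ hx
  have ax := act_eq _ hx e
  have ay := act_eq _ hy e
  refine Cell.ext e (funext fun i => ?_)
  by_cases mx : mode (opOf (false, sx) t.P) i = 0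
  · exact act_rec ax mx
  by_cases my : mode (opOf (true, sy) t.P) i = 0
  · exact act_rec ay my
  obtain ⟨m1, m2, j, hj, hr⟩ := h.okk sx sy i mx my
  have ej : t.s j = t'.s j := act_rec ax (((op_aux _ i).2 mx).2 j hj)
  have r := h.rl i j _ hr
  have r' := h'.rl i j _ (e ▸ hr)
  have d1 := act_del ax m1
  have d2 := act_del ay m2
  cases hw : t.s i with
  | none =>
    rw [hw] at d1
    have : t'.s i = none := by simpa using d1.symm
    exact this.symm
  | some w =>
    cases hw' : t'.s i with
    | none => rw [hw, hw'] at d1; simp at d1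
    | some w' =>
      rw [hw, hw'] at d1 d2
      simp only [Option.map_some, Option.some.injEq] at d1 d2
      obtain ⟨tw, cw⟩ := r w hw
      obtain ⟨tw', cw'⟩ := r' w' hw'
      congr 1
      by_cases s1 : sIn w.x sx = true
      swap
      · exact blk_eq tw d1 (by simpa [co] using s1)
      by_cases s2 : sIn w.y sy = true
      swap
      · exact blk_eq tw d2 (by simpa [co] using s2)
      obtain ⟨ex, ey⟩ := pos_eq d1
      have c1 := cw ((c2_spec sx sy _ _ tw.1 tw.2 _ _).2 s1 s2)
      have c2 := cw' ((c2_spec sx sy _ _ tw'.1 tw'.2 _ _).2 (ex ▸ s1) (ey ▸ s2))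
      rw [← ej] at c2
      exact core_eq c1 c2 ex ey

/-- Two different valid tiles share a side only along a wall or a good line. -/
theorem ufold {t t' : Cell} (h : Valid t) (h' : Valid t') (d : Dir) (hd : bdC d t = bdC d t')
    (hne : t ≠ t') : wg t.P.x t.P.y d = true := by
  have e := own_eq h h' _ hd
  have a := act_eq _ hd e
  have o := tile_co h.tl d.1
  obtain ⟨i, hi⟩ : ∃ i, mode (opOf d t.P) i ≠ 0 := by
    by_contra hc
    push Not at hc
    exact hne (Cell.ext e (funext fun i => act_rec a (hc i)))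
  have hh := ((op_aux _ i).2 hi).1
  by_cases hf : fIn (co d.1 t.P.x t.P.y) d.2 = true
  · simp [wg, good, hf]
  rw [opOf_eq _ _ o, if_neg hf] at hh
  have hc := (step_spec d t.P.x t.P.y o).2 (kX t.P) (kY t.P)
  simp only [cStepT, Bool.and_eq_true] at hc
  have hc := hc.2
  simp only [pop] at hh
  simp only [hh, Bool.not_true, Bool.false_or, Bool.or_eq_true] at hc
  simp only [wg, pop, Bool.or_eq_true]
  exact hc.elim (fun a => Or.inl (Or.inr a)) Or.inr

end Pool.Agent.FC
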