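import Pool.Agent.P.MP_5e292f_al.FFold

set_option autoImplicit false

namespace Pool.Agent.FC

/-- Column of chart coordinate `a` in the chart centred at the marker `i`. -/
def col (s : ℤ → Bool) (i a : ℤ) : ℤ := i + sgn (s i) * (a - 9)

/-- The chart centred at `i` is unfolded and in standard position on `[lo, hi)`. -/
def Str (s : ℤ → Bool) (X : ℤ → U) (i lo hi : ℤ) : Prop :=
  ∀ a, lo ≤ a → a < hi → s (col s i a) = s i ∧ X (col s i a) = tp a

/-- How two consecutive markers `i < k` are related. -/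
def Link (s : ℤ → Bool) (X : ℤ → U) (i k : ℤ) : Prop :=
  (s k = s i ∧ k = i + 42 ∧ (s i = true → Str s X i 0 62) ∧ (s i = false → Str s X k 0 62)) ∨
  (s k = !s i ∧ col s i (if s i then 19 else 0) + 1 = col s k (if s i then 19 else 0)) ∨
  (s k = !s i ∧ col s i (if s i then 28 else -9) + 1 = col s k (if s i then 28 else -9) ∧
    Str s X i (if s i then 0 else -9) (if s i then 29 else 20) ∧
    Str s X k (if s i then 0 else -9) (if s i then 29 else 20))

theorem FMark_tp (i : ℤ) : ((tp i).val : ℤ) = (2 * i + 1) % 84 := by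
  simp only [tp, Fin.val_ofNat]
  omega

theorem FMark_tp_congr {a b : ℤ} (h : a % 42 = b % 42) : tp a = tp b := by
  have h1 := FMark_tp a
  have h2 := FMark_tp b
  apply Fin.ext
  omega

theorem FMark_tp_inj {a b : ℤ} (h : tp a = tp b) : a % 42 = b % 42 := by
  have h1 := FMark_tp a
  have h2 := FMark_tp b
  rw [h] at h1
  omega

theorem FMark_same : ∀ (u v : U) (σ : Bool), mv u (sgn σ) = mv v (sgn (!σ)) →
    (v.val : ℤ) = (u.val + 2 * sgn σ) % 84 := by decide +kernel

theorem FMark_fold : ∀ (u v : U) (σ : Bool), mv u (sgn σ) = mv v (sgn σ) → v = u := by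
  decide +kernel

theorem FMark_good : ∀ (u : U) (σ : Bool), good u σ = true →
    (σ = true ∧ (u.val = 39 ∨ u.val = 57)) ∨ (σ = false ∧ (u.val = 1 ∨ u.val = 67)) := by
  decide +kernel

/-- The chart with centre `c` and orientation `σ` is correct at the coordinate `a`. -/
def FMarkQ (s : ℤ → Bool) (X : ℤ → U) (c : ℤ) (σ : Bool) (a : ℤ) : Prop :=
  s (c + sgn σ * (a - 9)) = σ ∧ X (c + sgn σ * (a - 9)) = tp a

section

variable {s : ℤ → Bool} {X : ℤ → U}

theorem FMark_step (hX : FL s X) (hg : ∀ i, s i ≠ s (i + 1) → good (X i) (s i) = true)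
    {i j : ℤ} (hj : j = i + 1) :
    (s j = s i ∧ ((X j).val : ℤ) = ((X i).val + 2 * sgn (s i)) % 84) ∨
      (s j = !s i ∧ X j = X i ∧ ((s i = true ∧ ((X i).val = 39 ∨ (X i).val = 57)) ∨
        (s i = false ∧ ((X i).val = 1 ∨ (X i).val = 67)))) := by
  subst hj
  have h := hX.adj i
  by_cases e : s i = s (i + 1)
  · rw [← e] at h
    exact Or.inl ⟨e.symm, FMark_same _ _ _ h⟩
  · have e' : s (i + 1) = !s i := by
      revert e
      cases s i <;> cases s (i + 1) <;> simp
    rw [e', Bool.not_not] at h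
    exact Or.inr ⟨e', FMark_fold _ _ _ h, FMark_good _ _ (hg i e)⟩

theorem FMark_up (hX : FL s X) (hg : ∀ i, s i ≠ s (i + 1) → good (X i) (s i) = true)
    {c a : ℤ} {σ : Bool} (h : FMarkQ s X c σ a) :
    FMarkQ s X c σ (a + 1) ∨
      (FMarkQ s X (c + sgn σ * (2 * a - 17)) (!σ) a ∧ (a % 42 = 19 ∨ a % 42 = 28)) := by
  obtain ⟨h1, h2⟩ := h
  have t1 := FMark_tp a
  have t2 := FMark_tp (a + 1)
  cases σ
  · have e : c + sgn false * (2 * a - 17) + sgn (!false) * (a - 9) =
        c + sgn false * (a + 1 - 9) := by simp only [sgn]; simp; ring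
    unfold FMarkQ
    rw [e]
    rcases FMark_step hX hg (i := c + sgn false * (a + 1 - 9)) (j := c + sgn false * (a - 9))
      (by simp only [sgn]; simp; ring) with ⟨k1, k2⟩ | ⟨k1, k2, k3⟩
    · rw [h1] at k1
      rw [← k1, h2] at k2
      refine Or.inl ⟨k1.symm, Fin.ext ?_⟩
      have := (X (c + sgn false * (a + 1 - 9))).isLt
      simp only [sgn, Bool.false_eq_true, if_false] at k2 this ⊢
      omega
    · rw [h1] at k1
      rw [h2] at k2
      have k4 : s (c + sgn false * (a + 1 - 9)) = true := by simpa using k1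
      rw [k4, ← k2] at k3
      refine Or.inr ⟨⟨k4, k2.symm⟩, ?_⟩
      simp only [true_and, Bool.true_eq_false, false_and, or_false] at k3
      omega
  · have e : c + sgn true * (2 * a - 17) + sgn (!true) * (a - 9) =
        c + sgn true * (a + 1 - 9) := by simp only [sgn]; simp; ring
    unfold FMarkQ
    rw [e]
    rcases FMark_step hX hg (i := c + sgn true * (a - 9)) (j := c + sgn true * (a + 1 - 9))
      (by simp only [sgn]; simp; ring) with ⟨k1, k2⟩ | ⟨k1, k2, k3⟩
    · rw [h1] at k1
      rw [h1, h2] at k2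
      refine Or.inl ⟨k1, Fin.ext ?_⟩
      simp only [sgn, if_true] at k2 ⊢
      omega
    · rw [h1] at k1
      rw [h2] at k2
      rw [h1, h2] at k3
      refine Or.inr ⟨⟨k1, k2⟩, ?_⟩
      simp only [true_and, Bool.true_eq_false, false_and, or_false] at k3
      omega

theorem FMark_down (hX : FL s X) (hg : ∀ i, s i ≠ s (i + 1) → good (X i) (s i) = true)
    {c a : ℤ} {σ : Bool} (h : FMarkQ s X c σ a) :
    FMarkQ s X c σ (a - 1) ∨
      (FMarkQ s X (c + sgn σ * (2 * a - 19)) (!σ) a ∧ (a % 42 = 0 ∨ a % 42 = 33)) := by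
  obtain ⟨h1, h2⟩ := h
  have t1 := FMark_tp a
  have t2 := FMark_tp (a - 1)
  cases σ
  · have e : c + sgn false * (2 * a - 19) + sgn (!false) * (a - 9) =
        c + sgn false * (a - 1 - 9) := by simp only [sgn]; simp; ring
    unfold FMarkQ
    rw [e]
    rcases FMark_step hX hg (i := c + sgn false * (a - 9)) (j := c + sgn false * (a - 1 - 9))
      (by simp only [sgn]; simp; ring) with ⟨k1, k2⟩ | ⟨k1, k2, k3⟩
    · rw [h1] at k1
      rw [h1, h2] at k2
      refine Or.inl ⟨k1, Fin.ext ?_⟩
      simp only [sgn, Bool.false_eq_true, if_false] at k2 ⊢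
      omega
    · rw [h1] at k1
      rw [h2] at k2
      rw [h1, h2] at k3
      refine Or.inr ⟨⟨k1, k2⟩, ?_⟩
      simp only [true_and, Bool.false_eq_true, false_and, false_or] at k3
      omega
  · have e : c + sgn true * (2 * a - 19) + sgn (!true) * (a - 9) =
        c + sgn true * (a - 1 - 9) := by simp only [sgn]; simp; ring
    unfold FMarkQ
    rw [e]
    rcases FMark_step hX hg (i := c + sgn true * (a - 1 - 9)) (j := c + sgn true * (a - 9))
      (by simp only [sgn]; simp; ring) with ⟨k1, k2⟩ | ⟨k1, k2, k3⟩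
    · rw [h1] at k1
      rw [← k1, h2] at k2
      refine Or.inl ⟨k1.symm, Fin.ext ?_⟩
      have := (X (c + sgn true * (a - 1 - 9))).isLt
      simp only [sgn, if_true] at k2 this ⊢
      omega
    · rw [h1] at k1
      rw [h2] at k2
      have k4 : s (c + sgn true * (a - 1 - 9)) = false := by simpa using k1
      rw [k4, ← k2] at k3
      refine Or.inr ⟨⟨k4, k2.symm⟩, ?_⟩
      simp only [true_and, Bool.false_eq_true, false_and, false_or] at k3
      omega

theorem FMark_ups (hX : FL s X) (hg : ∀ i, s i ≠ s (i + 1) → good (X i) (s i) = true)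
    {c a : ℤ} {σ : Bool} (h : FMarkQ s X c σ a) (b : ℤ) (hab : a ≤ b) :
    (∀ t, a ≤ t → t < b → t % 42 ≠ 19 ∧ t % 42 ≠ 28) → FMarkQ s X c σ b := by
  induction b, hab using Int.le_induction with
  | base => exact fun _ => h
  | succ n hn ih =>
    intro ht
    rcases FMark_up hX hg (ih fun t h1 h2 => ht t h1 (by omega)) with k | ⟨_, k⟩
    · exact k
    · have := ht n hn (by omega)
      omega

theorem FMark_downs (hX : FL s X) (hg : ∀ i, s i ≠ s (i + 1) → good (X i) (s i) = true)
    {c a : ℤ} {σ : Bool} (h : FMarkQ s X c σ a) (b : ℤ) (hab : b ≤ a) :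
    (∀ t, b < t → t ≤ a → t % 42 ≠ 0 ∧ t % 42 ≠ 33) → FMarkQ s X c σ b := by
  induction b, hab using Int.le_induction_down with
  | base => exact fun _ => h
  | pred n hn ih =>
    intro ht
    rcases FMark_down hX hg (ih fun t h1 h2 => ht t (by omega) h2) with k | ⟨_, k⟩
    · exact k
    · have := ht n (by omega) hn
      omega

theorem FMark_nine {c : ℤ} {σ : Bool} : FMarkQ s X c σ 9 ↔ s c = σ ∧ X c = tp 9 := by
  simp [FMarkQ]

theorem FMark_str {c lo hi : ℤ} {σ : Bool} (hc : s c = σ)
    (h : ∀ a, lo ≤ a → a < hi → FMarkQ s X c σ a) : Str s X c lo hi := by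
  subst hc
  exact h

theorem FMark_base (hX : FL s X) (hg : ∀ i, s i ≠ s (i + 1) → good (X i) (s i) = true)
    {c : ℤ} {σ : Bool} (h : FMarkQ s X c σ 9) (a : ℤ) (h0 : 0 ≤ a) (h1 : a < 20) :
    FMarkQ s X c σ a := by
  rcases le_total a 9 with e | e
  · exact FMark_downs hX hg h a e fun t _ _ => by omega
  · exact FMark_ups hX hg h a e fun t _ _ => by omega

theorem FMark_exists (hX : FL s X) (hg : ∀ i, s i ≠ s (i + 1) → good (X i) (s i) = true) :
    ∃ i, X i = tp 9 := by
  obtain ⟨a, a0, a1, ha⟩ : ∃ a : ℤ, 0 ≤ a ∧ a < 42 ∧ X 0 = tp a := by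
    have h1 := hX.od 0
    have h2 := (X 0).isLt
    simp only [od, beq_iff_eq] at h1
    refine ⟨((X 0).val : ℤ) / 2, by omega, by omega, Fin.ext ?_⟩
    have := FMark_tp (((X 0).val : ℤ) / 2)
    omega
  have h : FMarkQ s X (-(sgn (s 0) * (a - 9))) (s 0) a := by
    unfold FMarkQ
    rw [neg_add_cancel]
    exact ⟨rfl, ha⟩
  by_cases e : a ≤ 9
  · exact ⟨_, (FMark_ups hX hg h 9 e fun t _ _ => by omega).2⟩
  by_cases e' : a ≤ 32
  · exact ⟨_, (FMark_downs hX hg h 9 (by omega) fun t _ _ => by omega).2⟩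
  · exact ⟨_, (FMark_ups hX hg h 51 (by omega) fun t _ _ => by omega).2.trans
      (FMark_tp_congr (by norm_num))⟩

theorem FMark_ne {c a j : ℤ} {σ : Bool} (h : FMarkQ s X c σ a) (hj : j = c + sgn σ * (a - 9))
    (ha : a % 42 ≠ 9) : X j ≠ tp 9 := fun e => by
  rw [hj, h.2] at e
  have := FMark_tp_inj e
  omega

theorem FMark_sT : sgn true = 1 := rfl

theorem FMark_sF : sgn false = -1 := rfl

theorem FMark_next (hX : FL s X) (hg : ∀ i, s i ≠ s (i + 1) → good (X i) (s i) = true)
    (i : ℤ) (hi : X i = tp 9) : ∃ k, X k = tp 9 ∧ i + 19 ≤ k ∧ Link s X i k ∧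
      ∀ j, i < j → j < k → X j ≠ tp 9 := by
  have b0 := FMark_base hX hg (FMark_nine.2 ⟨rfl, hi⟩)
  cases hσ : s i
  · rw [hσ] at b0
    rcases FMark_down hX hg (b0 0 le_rfl (by norm_num)) with q1 | ⟨q1, -⟩
    · have b1 : ∀ a, -9 ≤ a → a < 20 → FMarkQ s X i false a := fun a h1 h2 => by
        by_cases e : 0 ≤ a
        · exact b0 a e h2
        · exact FMark_downs hX hg q1 a (by omega) fun t _ _ => by omega
      rcases FMark_down hX hg (b1 (-9) le_rfl (by norm_num)) with q2 | ⟨q2, -⟩
      · have b2 : ∀ a, -42 ≤ a → a < 20 → FMarkQ s X i false a := fun a h1 h2 => by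
          by_cases e : -9 ≤ a
          · exact b1 a e h2
          · exact FMark_downs hX hg q2 a (by omega) fun t _ _ => by omega
        have b3 : ∀ a, 0 ≤ a → a < 62 → FMarkQ s X (i + 42) false a := fun a h1 h2 => by
          have := b2 (a - 42) (by omega) (by omega)
          unfold FMarkQ at this ⊢
          rw [show i + 42 + sgn false * (a - 9) = i + sgn false * (a - 42 - 9) by
            rw [FMark_sF]; ring, FMark_tp_congr (show a % 42 = (a - 42) % 42 by omega)]
          exact this
        obtain ⟨m1, m2⟩ := FMark_nine.1 (b3 9 (by norm_num) (by norm_num))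
        refine ⟨i + 42, m2, by omega, Or.inl ⟨m1.trans hσ.symm, rfl, fun e => ?_,
          fun _ => FMark_str m1 b3⟩, fun j h1 h2 => ?_⟩
        · rw [hσ] at e
          exact absurd e (by simp)
        · exact FMark_ne (b2 (9 - (j - i)) (by omega) (by omega)) (by rw [FMark_sF]; ring)
            (by omega)
      · rw [show i + sgn false * (2 * -9 - 19) = i + 37 by rw [FMark_sF]; ring,
          Bool.not_false] at q2
        have b3 : ∀ a, -9 ≤ a → a < 20 → FMarkQ s X (i + 37) true a := fun a h1 h2 =>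
          FMark_ups hX hg q2 a h1 fun t _ _ => by omega
        obtain ⟨m1, m2⟩ := FMark_nine.1 (b3 9 (by norm_num) (by norm_num))
        refine ⟨i + 37, m2, by omega, Or.inr (Or.inr ?_), fun j h1 h2 => ?_⟩
        · simp only [hσ, Bool.false_eq_true, if_false, col, m1, FMark_sF, FMark_sT]
          exact ⟨rfl, by ring, FMark_str hσ b1, FMark_str m1 b3⟩
        · by_cases e : j ≤ i + 18
          · exact FMark_ne (b1 (9 - (j - i)) (by omega) (by omega)) (by rw [FMark_sF]; ring)
              (by omega)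
          · exact FMark_ne (b3 (9 + (j - i - 37)) (by omega) (by omega))
              (by rw [FMark_sT]; ring) (by omega)
    · rw [show i + sgn false * (2 * 0 - 19) = i + 19 by rw [FMark_sF]; ring,
        Bool.not_false] at q1
      have b3 : ∀ a, 0 ≤ a → a < 20 → FMarkQ s X (i + 19) true a := fun a h1 h2 =>
        FMark_ups hX hg q1 a h1 fun t _ _ => by omega
      obtain ⟨m1, m2⟩ := FMark_nine.1 (b3 9 (by norm_num) (by norm_num))
      refine ⟨i + 19, m2, by omega, Or.inr (Or.inl ?_), fun j h1 h2 => ?_⟩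
      · simp only [hσ, Bool.false_eq_true, if_false, col, m1, FMark_sF, FMark_sT]
        exact ⟨rfl, by ring⟩
      · by_cases e : j ≤ i + 9
        · exact FMark_ne (b0 (9 - (j - i)) (by omega) (by omega)) (by rw [FMark_sF]; ring)
            (by omega)
        · exact FMark_ne (b3 (9 + (j - i - 19)) (by omega) (by omega))
            (by rw [FMark_sT]; ring) (by omega)
  · rw [hσ] at b0
    rcases FMark_up hX hg (b0 19 (by norm_num) (by norm_num)) with q1 | ⟨q1, -⟩
    · have b1 : ∀ a, 0 ≤ a → a < 29 → FMarkQ s X i true a := fun a h1 h2 => by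
        by_cases e : a < 20
        · exact b0 a h1 e
        · exact FMark_ups hX hg q1 a (by omega) fun t _ _ => by omega
      rcases FMark_up hX hg (b1 28 (by norm_num) (by norm_num)) with q2 | ⟨q2, -⟩
      · have b2 : ∀ a, 0 ≤ a → a < 62 → FMarkQ s X i true a := fun a h1 h2 => by
          by_cases e : a < 29
          · exact b1 a h1 e
          · exact FMark_ups hX hg q2 a (by omega) fun t _ _ => by omega
        obtain ⟨m1, m2⟩ := b2 51 (by norm_num) (by norm_num)
        rw [show i + sgn true * (51 - 9) = i + 42 by rw [FMark_sT]; ring] at m1 m2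
        refine ⟨i + 42, m2.trans (FMark_tp_congr (by norm_num)), by omega,
          Or.inl ⟨m1.trans hσ.symm, rfl, fun _ => FMark_str hσ b2, fun e => ?_⟩,
          fun j h1 h2 => ?_⟩
        · rw [hσ] at e
          exact absurd e (by simp)
        · exact FMark_ne (b2 (9 + (j - i)) (by omega) (by omega)) (by rw [FMark_sT]; ring)
            (by omega)
      · rw [show i + sgn true * (2 * 28 - 17) = i + 39 by rw [FMark_sT]; ring,
          Bool.not_true] at q2
        have b3 : ∀ a, 0 ≤ a → a < 29 → FMarkQ s X (i + 39) false a := fun a h1 h2 =>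
          FMark_downs hX hg q2 a (by omega) fun t _ _ => by omega
        obtain ⟨m1, m2⟩ := FMark_nine.1 (b3 9 (by norm_num) (by norm_num))
        refine ⟨i + 39, m2, by omega, Or.inr (Or.inr ?_), fun j h1 h2 => ?_⟩
        · simp only [hσ, if_true, col, m1, FMark_sF, FMark_sT]
          exact ⟨rfl, by ring, FMark_str hσ b1, FMark_str m1 b3⟩
        · by_cases e : j ≤ i + 19
          · exact FMark_ne (b1 (9 + (j - i)) (by omega) (by omega)) (by rw [FMark_sT]; ring)
              (by omega)
          · exact FMark_ne (b3 (9 - (j - i - 39)) (by omega) (by omega))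
              (by rw [FMark_sF]; ring) (by omega)
    · rw [show i + sgn true * (2 * 19 - 17) = i + 21 by rw [FMark_sT]; ring,
        Bool.not_true] at q1
      have b3 : ∀ a, 0 ≤ a → a < 20 → FMarkQ s X (i + 21) false a := fun a h1 h2 =>
        FMark_downs hX hg q1 a (by omega) fun t _ _ => by omega
      obtain ⟨m1, m2⟩ := FMark_nine.1 (b3 9 (by norm_num) (by norm_num))
      refine ⟨i + 21, m2, by omega, Or.inr (Or.inl ?_), fun j h1 h2 => ?_⟩
      · simp only [hσ, if_true, col, m1, FMark_sF, FMark_sT]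
        exact ⟨rfl, by ring⟩
      · by_cases e : j ≤ i + 10
        · exact FMark_ne (b0 (9 + (j - i)) (by omega) (by omega)) (by rw [FMark_sT]; ring)
            (by omega)
        · exact FMark_ne (b3 (9 - (j - i - 21)) (by omega) (by omega))
            (by rw [FMark_sF]; ring) (by omega)

theorem FMark_col {c : ℤ} (hs : ∀ i, s (i + c) = s i) (i a : ℤ) :
    col s (i + c) a = col s i a + c := by
  unfold col
  rw [hs]
  ring

theorem FMark_str_shift {c : ℤ} (hs : ∀ i, s (i + c) = s i) (hp : ∀ i, X (i + c) = X i)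
    {i lo hi : ℤ} (h : Str s X i lo hi) : Str s X (i + c) lo hi := fun a h1 h2 => by
  rw [FMark_col hs, hs, hs, hp]
  exact h a h1 h2

theorem FMark_link_shift {c : ℤ} (hs : ∀ i, s (i + c) = s i) (hp : ∀ i, X (i + c) = X i)
    {i k : ℤ} (h : Link s X i k) : Link s X (i + c) (k + c) := by
  unfold Link
  simp only [FMark_col hs, hs]
  rcases h with ⟨h1, h2, h3, h4⟩ | ⟨h1, h2⟩ | ⟨h1, h2, h3, h4⟩
  · exact Or.inl ⟨h1, by omega, fun e => FMark_str_shift hs hp (h3 e),
      fun e => FMark_str_shift hs hp (h4 e)⟩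
  · exact Or.inr (Or.inl ⟨h1, by omega⟩)
  · exact Or.inr (Or.inr ⟨h1, by omega, FMark_str_shift hs hp h3, FMark_str_shift hs hp h4⟩)

end

/-- Markers of a periodic folded line whose folds are good: a periodic enumeration with a
smaller period. -/
theorem markers {s : ℤ → Bool} {X : ℤ → U} (hX : FL s X)
    (hg : ∀ i, s i ≠ s (i + 1) → good (X i) (s i) = true) {m : ℕ} (hm : 0 < m)
    (hs : ∀ i, s (i + m) = s i) (hp : ∀ i, X (i + m) = X i) :
    ∃ (e : ℤ → ℤ) (m' : ℕ), 0 < m' ∧ m' < m ∧ (∀ k, e (k + m') = e k + m) ∧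
      (∀ k, Str s X (e k) 0 20) ∧ ∀ k, Link s X (e k) (e (k + 1)) := by
  obtain ⟨e₀, he₀⟩ := FMark_exists hX hg
  choose! nx n1 n2 n3 n4 using FMark_next hX hg
  obtain ⟨f, f0, fs⟩ : ∃ f : ℕ → ℤ, f 0 = e₀ ∧ ∀ n, f (n + 1) = nx (f n) :=
    ⟨fun n => nx^[n] e₀, rfl, fun n => Function.iterate_succ_apply' nx n e₀⟩
  have fm : ∀ n, X (f n) = tp 9 := fun n => by
    induction n with
    | zero => rw [f0]; exact he₀
    | succ n ih => rw [fs]; exact n1 _ ih
  have fl : ∀ n : ℕ, e₀ + 19 * n ≤ f n := fun n => by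
    induction n with
    | zero => rw [f0]; simp
    | succ n ih =>
      have := n2 _ (fm n)
      rw [← fs] at this
      push_cast
      omega
  have hex : ∃ n, e₀ + m < f (n + 1) := ⟨m, by
    have := fl (m + 1)
    push_cast at this
    omega⟩
  obtain ⟨m', q1, q2⟩ : ∃ n, e₀ + m < f (n + 1) ∧ f n ≤ e₀ + m := by
    refine ⟨Nat.find hex, Nat.find_spec hex, ?_⟩
    rcases e : Nat.find hex with _ | n
    · rw [f0]; omega
    · exact not_lt.1 (Nat.find_min hex (m := n) (by omega))
  have q3 : f m' = e₀ + m := by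
    by_contra hne
    refine n4 _ (fm m') (e₀ + m) (by omega) (by rw [← fs]; exact q1) ?_
    rw [hp, he₀]
  have q4 := fl m'
  have m0 : 0 < m' := by
    rcases m' with _ | n
    · rw [f0] at q3; omega
    · omega
  have m0' : (0 : ℤ) < m' := by exact_mod_cast m0
  have hs' : ∀ q i : ℤ, s (i + q * m) = s i := fun q =>
    Function.Periodic.int_mul (f := s) (c := (m : ℤ)) hs q
  have hp' : ∀ q i : ℤ, X (i + q * m) = X i := fun q =>
    Function.Periodic.int_mul (f := X) (c := (m : ℤ)) hp q
  refine ⟨fun k => f (k % m').toNat + k / m' * m, m', m0, by omega, fun k => ?_, fun k => ?_,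
    fun k => ?_⟩
  · have e1 : (k + m') / m' = k / m' + 1 := by
      have := Int.add_mul_ediv_right k 1 m0'.ne'
      rwa [one_mul] at this
    simp only [Int.add_emod_right, e1]
    ring
  · exact FMark_str_shift (hs' _) (hp' _)
      (FMark_str rfl (FMark_base hX hg (FMark_nine.2 ⟨rfl, fm _⟩)))
  · have r0 := Int.emod_nonneg k m0'.ne'
    have r1 := Int.emod_lt_of_pos k m0'
    have r2 := Int.emod_add_mul_ediv k m'
    have e1 : f ((k + 1) % m').toNat + (k + 1) / m' * m =
        f ((k % m').toNat + 1) + k / m' * m := by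
      by_cases e : k % m' + 1 < m'
      · obtain ⟨a, b⟩ := (Int.ediv_emod_unique (a := k + 1) (r := k % m' + 1) (q := k / m') m0').2
          ⟨by omega, by omega, e⟩
        rw [a, b, show (k % m' + 1).toNat = (k % m').toNat + 1 by omega]
      · obtain ⟨a, b⟩ := (Int.ediv_emod_unique (a := k + 1) (r := 0) (q := k / m' + 1) m0').2
          ⟨by rw [mul_add]; omega, le_rfl, m0'⟩
        rw [a, b, show (k % m').toNat + 1 = m' by omega, q3, Int.toNat_zero, f0]
        ring
    show Link s X (f (k % m').toNat + k / m' * m) (f ((k + 1) % m').toNat + (k + 1) / m' * m)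
    rw [e1, fs]
    exact FMark_link_shift (hs' _) (hp' _) (n3 _ (fm _))

end Pool.Agent.FC
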