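import Pool.Agent.P.MP_5e292f_al.FPass
import Pool.Agent.P.MP_5e292f_al.FMark
import Pool.Agent.P.MP_5e292f_al.FDet

set_option autoImplicit false

namespace Pool.Agent.FC

/-- A folded tiling of the plane. -/
structure Flat (z : ℤ → ℤ → Cell) (s r : ℤ → Bool) : Prop where
  val : ∀ i j, Valid (z i j)
  ax : ∀ i j, bdC (false, s i) (z i j) = bdC (false, !s (i + 1)) (z (i + 1) j)
  ay : ∀ i j, bdC (true, r j) (z i j) = bdC (true, !r (j + 1)) (z i (j + 1))
  fx : ∀ i j, s i ≠ s (i + 1) → z i j ≠ z (i + 1) j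
  fy : ∀ i j, r j ≠ r (j + 1) → z i j ≠ z i (j + 1)

def Per (z : ℤ → ℤ → Cell) (s r : ℤ → Bool) (m n : ℕ) : Prop :=
  (∀ i j, z (i + m) j = z i j) ∧ (∀ i j, z i (j + n) = z i j) ∧ (∀ i, s (i + m) = s i) ∧
    ∀ j, r (j + n) = r j

theorem FDesc_const {α : Type} {f : ℤ → α} (h : ∀ i, f i = f (i + 1)) (i : ℤ) : f i = f 0 := by
  induction i using Int.induction_on with
  | zero => rfl
  | succ n ih => rw [← h, ih]
  | pred n ih => rw [h, sub_add_cancel, ih]

theorem FDesc_not {a b : Bool} (h : a ≠ b) : (!b) = a := by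
  cases a <;> cases b <;> simp_all

theorem FDesc_step {α : Type} {s : ℤ → Bool} {X : ℤ → U} {F : Bool → ℤ → α}
    (hF : ∀ p, F (s p) p = F (!s (p + 1)) (p + 1)) {i lo hi a : ℤ} (h : Str s X i lo hi)
    (h1 : lo ≤ a) (h2 : a + 1 < hi) : F true (col s i a) = F false (col s i (a + 1)) := by
  have e1 := (h a h1 (by omega)).1
  have e2 := (h (a + 1) (by omega) h2).1
  cases hs : s i
  · have e : col s i a = col s i (a + 1) + 1 := by
      simp only [col, hs, sgn, Bool.false_eq_true, if_false]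
      ring
    have := hF (col s i (a + 1))
    rw [← e, e1, e2, hs] at this
    exact this.symm
  · have e : col s i (a + 1) = col s i a + 1 := by
      simp only [col, hs, sgn, if_true]
      ring
    have := hF (col s i a)
    rw [← e, e1, e2, hs] at this
    exact this

/-- The rectangle of chart coordinates with range `[lo, hi)` along the axis. -/
def FDesc_box (ax : Bool) (lo hi u v : ℤ) : Prop :=
  if ax then lo ≤ v ∧ v < hi ∧ 0 ≤ u ∧ u < 20 else lo ≤ u ∧ u < hi ∧ 0 ≤ v ∧ v < 20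

theorem FDesc_zone (ax : Bool) (u v : ℤ) (h : inZ u v = true) : FDesc_box ax 0 20 u v := by
  simp only [inZ, decide_eq_true_eq] at h
  cases ax <;> simp only [FDesc_box, Bool.false_eq_true, if_false, if_true] <;> omega

theorem FDesc_arm (ax sg : Bool) (u v : ℤ) (h : inZ u v = true ∨ inA (ax, sg) u v = true) :
    FDesc_box ax (if sg then 0 else -9) (if sg then 29 else 20) u v := by
  cases ax <;> cases sg <;>
    simp only [FDesc_box, inZ, inA, arm1, Bool.and_eq_true, decide_eq_true_eq, Bool.false_eq_true,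
      if_false, if_true] at h ⊢ <;> omega

theorem FDesc_pass (ax : Bool) {s : ℤ → Bool} {X : ℤ → U} {Z : ℤ → ℤ → ℤ → Cell}
    {w : ℤ → ℤ → Cell} (hat : ∀ i a b, atx ax (Z i) a b = w (col s i a) b)
    (hch : ∀ i lo hi, Str s X i lo hi → Chart (FDesc_box ax lo hi) (Z i))
    (hw : ∀ p b, bdC (ax, s p) (w p b) = bdC (ax, !s (p + 1)) (w (p + 1) b))
    (hf : ∀ p b, s p ≠ s (p + 1) → w p b ≠ w (p + 1) b) {i k : ℤ} (hi : Str s X i 0 20)
    (hk : Str s X k 0 20) (hl : Link s X i k) :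
    bdC (ax, s i) (par (Z i)) = bdC (ax, !s k) (par (Z k)) ∧
      (s i ≠ s k → par (Z i) ≠ par (Z k)) := by
  have sh : ∀ i k, (∀ a, col s i (a + 42) = col s k a) → shift ax (Z i) = Z k := by
    intro i k e
    funext u v
    cases ax
    · exact (hat i (u + 42) v).trans (by rw [e]; exact (hat k u v).symm)
    · exact (hat i (v + 42) u).trans (by rw [e]; exact (hat k v u).symm)
  have fold : ∀ c, s k = (!s i) → col s i c + 1 = col s k c → s (col s i c) = s i →
      s (col s k c) = s k → (∀ b, bdC (ax, s i) (atx ax (Z i) c b) =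
        bdC (ax, s i) (atx ax (Z k) c b)) ∧ atx ax (Z i) c 3 ≠ atx ax (Z k) c 3 := by
    intro c e1 e2 e3 e4
    refine ⟨fun b => ?_, ?_⟩
    · have := hw (col s i c) b
      rw [e2, e3, e4, e1, Bool.not_not] at this
      rw [hat, hat]
      exact this
    · rw [hat, hat, ← e2]
      refine hf _ _ ?_
      rw [e2, e3, e4, e1]
      cases s i <;> simp
  rcases hl with ⟨e1, e2, h1, h2⟩ | ⟨e1, e2⟩ | ⟨e1, e2, h1, h2⟩
  · refine ⟨?_, fun a => absurd e1.symm a⟩
    rw [e1]
    cases hs : s i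
    · have := pass_straight ax (hch k 0 62 (h2 hs))
      rw [sh k i fun a => by
        simp only [col, e1, hs, sgn, Bool.false_eq_true, if_false]
        omega] at this
      exact this.symm
    · have := pass_straight ax (hch i 0 62 (h1 hs))
      rw [sh i k fun a => by
        simp only [col, e1, hs, sgn, if_true]
        omega] at this
      exact this
  · have c1 : (0 : ℤ) ≤ (if s i then 19 else 0) := by split_ifs <;> omega
    have c2 : (if s i then 19 else 0) < (20 : ℤ) := by split_ifs <;> omega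
    obtain ⟨a, b⟩ := fold _ e1 e2 (hi _ c1 c2).1 (hk _ c1 c2).1
    have := pass_foldP (ax, s i) ((hch i 0 20 hi).mono (FDesc_zone ax))
      ((hch k 0 20 hk).mono (FDesc_zone ax)) (fun b _ _ => a b) b
    rw [e1, Bool.not_not]
    exact ⟨this.1, fun _ => this.2⟩
  · have c1 : (if s i then 0 else -9 : ℤ) ≤ (if s i then 28 else -9) := by split_ifs <;> omega
    have c2 : (if s i then 28 else -9 : ℤ) < (if s i then 29 else 20) := by split_ifs <;> omega
    obtain ⟨a, b⟩ := fold _ e1 e2 (h1 _ c1 c2).1 (h2 _ c1 c2).1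
    have := pass_foldF (ax, s i) ((hch i _ _ h1).mono (FDesc_arm ax (s i)))
      ((hch k _ _ h2).mono (FDesc_arm ax (s i))) (fun b _ _ => a b) b
    rw [e1, Bool.not_not]
    exact ⟨this.1, fun _ => this.2⟩

namespace Flat

variable {z : ℤ → ℤ → Cell} {s r : ℤ → Bool} (h : Flat z s r)
include h

theorem FDesc_x (i j : ℤ) : (z i j).P.x = (z i 0).P.x :=
  FDesc_const (f := fun j => (z i j).P.x) (fun j => by
    have : mv (z i j).P.x 0 = mv (z i (j + 1)).P.x 0 := congrArg (fun c => c.P.x) (h.ay i j)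
    rwa [mv_zero, mv_zero] at this) j

theorem FDesc_y (i j : ℤ) : (z i j).P.y = (z 0 j).P.y :=
  FDesc_const (f := fun i => (z i j).P.y) (fun i => by
    have : mv (z i j).P.y 0 = mv (z (i + 1) j).P.y 0 := congrArg (fun c => c.P.y) (h.ax i j)
    rwa [mv_zero, mv_zero] at this) i

theorem FDesc_FLx : FL s fun i => (z i 0).P.x :=
  ⟨fun i => (h.val i 0).tl.1, fun i => congrArg (fun c => c.P.x) (h.ax i 0)⟩

theorem FDesc_FLy : FL r fun j => (z 0 j).P.y :=
  ⟨fun j => (h.val 0 j).tl.2, fun j => congrArg (fun c => c.P.y) (h.ay 0 j)⟩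

theorem FDesc_good : (∀ i, s i ≠ s (i + 1) → good (z i 0).P.x (s i) = true) ∧
    ∀ j, r j ≠ r (j + 1) → good (z 0 j).P.y (r j) = true := by
  refine folds_good h.FDesc_FLx h.FDesc_FLy (fun i j e => ?_) fun i j e => ?_
  · have := h.ax i j
    rw [FDesc_not e] at this
    rw [← h.FDesc_x i j, ← h.FDesc_y i j]
    exact ufold (h.val _ _) (h.val _ _) _ this (h.fx i j e)
  · have := h.ay i j
    rw [FDesc_not e] at this
    rw [← h.FDesc_x i j, ← h.FDesc_y i j]
    exact ufold (h.val _ _) (h.val _ _) _ this (h.fy i j e)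

theorem FDesc_chart {i j lo hi lo' hi' : ℤ} (hx : Str s (fun i => (z i 0).P.x) i lo hi)
    (hy : Str r (fun j => (z 0 j).P.y) j lo' hi') :
    Chart (fun u v => lo ≤ u ∧ u < hi ∧ lo' ≤ v ∧ v < hi') fun a b => z (col s i a) (col r j b) :=
  ⟨fun _ _ _ => h.val _ _, fun a _ e => (h.FDesc_x _ _).trans (hx a e.1 e.2.1).2,
    fun _ b e => (h.FDesc_y _ _).trans (hy b e.2.2.1 e.2.2.2).2,
    fun _ b e e' => FDesc_step (F := fun sg p => bdC (false, sg) (z p (col r j b)))
      (fun p => h.ax p _) hx e.1 e'.2.1,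
    fun a _ e e' => FDesc_step (F := fun sg q => bdC (true, sg) (z (col s i a) q))
      (fun q => h.ay _ q) hy e.2.2.1 e'.2.2.2⟩

theorem FDesc_desc {e f : ℤ → ℤ} (e1 : ∀ k, Str s (fun i => (z i 0).P.x) (e k) 0 20)
    (e2 : ∀ k, Link s (fun i => (z i 0).P.x) (e k) (e (k + 1)))
    (f1 : ∀ k, Str r (fun j => (z 0 j).P.y) (f k) 0 20)
    (f2 : ∀ k, Link r (fun j => (z 0 j).P.y) (f k) (f (k + 1))) :
    Flat (fun k l => par fun a b => z (col s (e k) a) (col r (f l) b)) (fun k => s (e k))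
      fun l => r (f l) := by
  have hx := fun k l => FDesc_pass false (Z := fun i a b => z (col s i a) (col r (f l) b))
    (w := fun p b => z p (col r (f l) b)) (fun _ _ _ => rfl)
    (fun i lo hi a => h.FDesc_chart a (f1 l)) (fun p _ => h.ax p _) (fun p _ => h.fx p _)
    (e1 k) (e1 (k + 1)) (e2 k)
  have hy := fun k l => FDesc_pass true (Z := fun j a b => z (col s (e k) a) (col r j b))
    (w := fun q a => z (col s (e k) a) q) (fun _ _ _ => rfl)
    (fun j lo hi a => (h.FDesc_chart (e1 k) a).mono fun _ _ c => ⟨c.2.2.1, c.2.2.2, c.1, c.2.1⟩)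
    (fun q _ => h.ay _ q) (fun q _ => h.fy _ q) (f1 l) (f1 (l + 1)) (f2 l)
  exact ⟨fun k l => (rec_zone ((h.FDesc_chart (e1 k) (f1 l)).mono (FDesc_zone false))).1,
    fun k l => (hx k l).1, fun k l => (hy k l).1, fun k l => (hx k l).2, fun k l => (hy k l).2⟩

end Flat

theorem FDesc_col {s : ℤ → Bool} {m : ℤ} (h : ∀ i, s (i + m) = s i) (i a : ℤ) :
    col s (i + m) a = col s i a + m := by
  simp only [col, h]
  ring

theorem no_periodic (m : ℕ) : ∀ (n : ℕ) (z : ℤ → ℤ → Cell) (s r : ℤ → Bool), 0 < m → 0 < n →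
    Flat z s r → Per z s r m n → False := by
  induction m using Nat.strong_induction_on with
  | _ m ih =>
  intro n z s r hm hn h ⟨p1, p2, p3, p4⟩
  obtain ⟨e, m', a1, a2, a3, a4, a5⟩ := markers h.FDesc_FLx h.FDesc_good.1 hm p3
    fun i => by rw [p1]
  obtain ⟨f, n', b1, -, b3, b4, b5⟩ := markers h.FDesc_FLy h.FDesc_good.2 hn p4
    fun j => by rw [p2]
  refine ih m' a2 n' _ _ _ a1 b1 (h.FDesc_desc a4 a5 b4 b5) ⟨fun k l => ?_, fun k l => ?_,
    fun k => ?_, fun l => ?_⟩
  · simp only [a3, FDesc_col p3, p1]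
  · simp only [b3, FDesc_col p4, p2]
  · simp only [a3, p3]
  · simp only [b3, p4]

end Pool.Agent.FC
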