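import Pool.Agent.P.MP_5e292f_al.GVH

set_option autoImplicit false

namespace Pool.Agent.FC

variable {G : Type} [Group G] {ρ : G → G → ℕ}

/-- Points between `p` and `q` at the same distance from `p` coincide. -/
theorem btw_unique {α : Type} {ρ : α → α → ℕ} (T : TM ρ) {p q x y : α}
    (hx : ρ p x + ρ x q = ρ p q) (hy : ρ p y + ρ y q = ρ p q) (e : ρ p x = ρ p y) : ρ x y = 0 := by
  have h := T.four x y p q
  rw [T.symm x p, T.symm y p] at h
  omega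

theorem gaxis_pow (T : TM ρ) (hinv : ∀ g a b, ρ (g * a) (g * b) = ρ a b) {g x : G}
    (h0 : ρ x (g * x) ≠ 0) (h2 : ρ x (g * (g * x)) = 2 * ρ x (g * x)) (n : ℕ) :
    ρ x (g ^ n * x) = n * ρ x (g * x) := by
  have key : ∀ n : ℕ, ρ x (g ^ n * x) = n * ρ x (g * x) ∧
      ρ x (g ^ (n + 1) * x) = (n + 1) * ρ x (g * x) := by
    intro n
    induction n with
    | zero => simp [T.refl]
    | succ n ih =>
      refine ⟨ih.2, ?_⟩
      obtain ⟨a, b⟩ := ih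
      have e1 : g ^ (n + 1) * x = g ^ n * (g * x) := by rw [pow_succ, mul_assoc]
      have e2 : g ^ (n + 1 + 1) * x = g ^ n * (g * (g * x)) := by
        rw [pow_succ, pow_succ, mul_assoc, mul_assoc]
      rw [e1] at b
      rw [e2]
      have f := T.four x (g ^ n * (g * x)) (g ^ n * x) (g ^ n * (g * (g * x)))
      have t := T.tri x (g ^ n * (g * x)) (g ^ n * (g * (g * x)))
      rw [hinv, hinv, hinv, hinv, T.symm (g * x) x, a, b, h2] at f
      rw [hinv, hinv, b] at t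
      simp only [add_mul, one_mul] at f t ⊢
      omega
  exact (key n).1

/-- An element without fixed point in an invariant convex set has an axis point there. -/
theorem exists_axis (T : TM ρ) (hinv : ∀ g a b, ρ (g * a) (g * b) = ρ a b) (ε : G → ℤ)
    (hε : ∀ g k, ε (g * k) = ε g + ε k)
    (hε' : ∀ a b, (ε (a⁻¹ * b) - ρ a b) % 2 = 0 ∧ (ρ a b = 0 → ε (a⁻¹ * b) = 0))
    (g : G) (S : Set G) (hne : S.Nonempty) (hS : ∀ x ∈ S, g * x ∈ S)
    (hconv : ∀ x ∈ S, ∀ y ∈ S, ∀ z, ρ x z + ρ z y = ρ x y → z ∈ S)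
    (hfix : ∀ x ∈ S, ρ x (g * x) ≠ 0) :
    ∃ x ∈ S, ∀ n : ℕ, ρ x (g ^ n * x) = n * ρ x (g * x) := by
  obtain ⟨x, hx, hmin⟩ : ∃ x ∈ S, ∀ y ∈ S, ρ x (g * x) ≤ ρ y (g * y) :=
    ⟨Function.argminOn (fun x => ρ x (g * x)) S hne, Function.argminOn_mem _ S hne,
      fun y hy => Function.argminOn_le (fun x => ρ x (g * x)) S hy⟩
  refine ⟨x, hx, gaxis_pow T hinv (hfix x hx) ?_⟩
  obtain ⟨m, hm⟩ := Nat.exists_eq_succ_of_ne_zero (hfix x hx)
  obtain ⟨y, h1, h2⟩ := T.step x (g * x) m hm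
  have hy : y ∈ S := hconv x hx (g * x) (hS x hx) y (by omega)
  have h3 : ρ (g * x) (g * y) = 1 := by rw [hinv, h1]
  have h4 := T.par _ _ x h3
  rw [T.symm _ x, T.symm _ x] at h4
  have t1 := T.tri x (g * x) (g * y)
  have t2 := T.tri x (g * y) (g * x)
  have t3 := T.tri x (g * x) (g * (g * x))
  have t4 := T.tri x (g * y) (g * (g * x))
  have f1 := T.four x (g * y) (g * x) (g * (g * x))
  have f2 := T.four y (g * y) x (g * x)
  have h5 := hmin y hy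
  simp only [hinv] at t1 t2 t3 t4 f1 f2
  rw [T.symm y x] at t2 f1 f2
  rw [T.symm (g * y) x] at f2
  have e0 : ε 1 = 0 := by
    have := hε 1 1
    rw [one_mul] at this
    omega
  have e1 : ε x⁻¹ + ε x = 0 := by rw [← hε, inv_mul_cancel, e0]
  have e2 := (hε' x (g * x)).1
  have e3 := (hε' x (g * (g * x))).2
  simp only [hε] at e2 e3
  omega

/-- Two axis points lie on one line. -/
theorem axis_btw (T : TM ρ) (hinv : ∀ g a b, ρ (g * a) (g * b) = ρ a b) {g o x : G} {τ σ : ℕ}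
    (hτ : 0 < τ) (ho : ∀ n : ℕ, ρ o (g ^ n * o) = n * τ) (hx : ∀ n : ℕ, ρ x (g ^ n * x) = n * σ)
    (n : ℕ) (hn : ρ o x < n) :
    ρ ((g ^ n)⁻¹ * o) x + ρ x (g ^ n * o) = ρ ((g ^ n)⁻¹ * o) (g ^ n * o) := by
  have key : ∀ {o x : G} {τ σ : ℕ}, (∀ n : ℕ, ρ o (g ^ n * o) = n * τ) →
      (∀ n : ℕ, ρ x (g ^ n * x) = n * σ) → τ ≤ σ := by
    intro o x τ σ ho hx
    by_contra hc
    have h1 := Nat.mul_le_mul_left (2 * ρ o x + 1) (show σ + 1 ≤ τ by omega)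
    have t1 := T.tri o x (g ^ (2 * ρ o x + 1) * o)
    have t2 := T.tri x (g ^ (2 * ρ o x + 1) * x) (g ^ (2 * ρ o x + 1) * o)
    rw [hinv, hx, T.symm x o] at t2
    rw [ho] at t1
    rw [mul_add_one] at h1
    omega
  have e : σ = τ := le_antisymm (key hx ho) (key ho hx)
  subst e
  have e1 : ρ ((g ^ n)⁻¹ * o) x = ρ o (g ^ n * x) := by
    rw [← hinv (g ^ n), mul_inv_cancel_left]
  have e2 : ρ ((g ^ n)⁻¹ * o) (g ^ n * o) = n * σ + n * σ := by
    rw [← hinv (g ^ n), mul_inv_cancel_left, ← mul_assoc, ← pow_add, ho, add_mul]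
  have t := T.tri ((g ^ n)⁻¹ * o) x (g ^ n * o)
  have f := T.four o (g ^ n * x) x (g ^ n * o)
  rw [hinv, T.symm x o, T.symm (g ^ n * x) x, ho, hx] at f
  have h1 : n ≤ n * σ := Nat.le_mul_of_pos_right n hτ
  omega

theorem gaxis_le (T : TM ρ) (hinv : ∀ g a b, ρ (g * a) (g * b) = ρ a b) (g o : G) (n : ℕ) :
    ρ o (g ^ n * o) ≤ n * ρ o (g * o) := by
  induction n with
  | zero => simp [T.refl]
  | succ n ih =>
    have t := T.tri o (g ^ n * o) (g ^ n * (g * o))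
    rw [hinv] at t
    rw [pow_succ, mul_assoc, add_mul, one_mul]
    omega

/-- A copy of `ℤ × ℤ` contains a nontrivial element with a fixed point. -/
theorem exists_elliptic (T : TM ρ) (hinv : ∀ g a b, ρ (g * a) (g * b) = ρ a b) (ε : G → ℤ)
    (hε : ∀ g k, ε (g * k) = ε g + ε k)
    (hε' : ∀ a b, (ε (a⁻¹ * b) - ρ a b) % 2 = 0 ∧ (ρ a b = 0 → ε (a⁻¹ * b) = 0))
    (f : Multiplicative (ℤ × ℤ) →* G) : ∃ c, c ≠ 1 ∧ ∃ x, ρ x (f c * x) = 0 := by
  obtain ⟨u, hu⟩ : ∃ u : Multiplicative (ℤ × ℤ), u = Multiplicative.ofAdd (1, 0) := ⟨_, rfl⟩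
  obtain ⟨v, hv⟩ : ∃ v : Multiplicative (ℤ × ℤ), v = Multiplicative.ofAdd (0, 1) := ⟨_, rfl⟩
  have inj : ∀ p q : ℕ × ℕ, u ^ p.1 * v ^ p.2 = u ^ q.1 * v ^ q.2 → p = q := by
    intro p q h
    have h1 := congrArg Multiplicative.toAdd h
    simp only [hu, hv, toAdd_mul, toAdd_pow, toAdd_ofAdd, Prod.smul_mk, Prod.mk_add_mk,
      Prod.mk.injEq, nsmul_eq_mul, mul_one, mul_zero, add_zero, zero_add, Nat.cast_inj] at h1
    exact Prod.ext h1.1 h1.2
  by_cases hfix : ∃ x, ρ x (f u * x) = 0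
  · refine ⟨u, fun h => ?_, hfix⟩
    have := inj (1, 0) (0, 0) (by simp [h])
    simp at this
  obtain ⟨o, -, ho⟩ := exists_axis T hinv ε hε hε' (f u) Set.univ ⟨1, trivial⟩
    (fun _ _ => trivial) (fun _ _ _ _ _ _ => trivial) (fun x _ h => hfix ⟨x, h⟩)
  have hτ : 0 < ρ o (f u * o) := Nat.pos_of_ne_zero (fun h => hfix ⟨o, h⟩)
  obtain ⟨C, hC⟩ : ∃ C, C = ρ o (f u * o) + ρ o (f v * o) := ⟨_, rfl⟩
  have hax : ∀ (c : Multiplicative (ℤ × ℤ)) (n : ℕ),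
      ρ (f c * o) (f u ^ n * (f c * o)) = n * ρ o (f u * o) := by
    intro c n
    rw [← mul_assoc, ← map_pow, ← map_mul, mul_comm (u ^ n) c, map_mul, map_pow, mul_assoc, hinv,
      ho]
  have hb : ∀ p ∈ Finset.range (2 * C + 1) ×ˢ Finset.range (2 * C + 1),
      ρ o (f (u ^ p.1 * v ^ p.2) * o) ≤ 2 * C * C := by
    intro p hp
    obtain ⟨h1, h2⟩ := Finset.mem_product.1 hp
    rw [Finset.mem_range] at h1 h2
    have t := T.tri o (f u ^ p.1 * o) (f u ^ p.1 * (f v ^ p.2 * o))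
    rw [hinv] at t
    have a1 := gaxis_le T hinv (f u) o p.1
    have a2 := gaxis_le T hinv (f v) o p.2
    have a3 := Nat.mul_le_mul_right (ρ o (f u * o)) (show p.1 ≤ 2 * C by omega)
    have a4 := Nat.mul_le_mul_right (ρ o (f v * o)) (show p.2 ≤ 2 * C by omega)
    have a5 : 2 * C * C = 2 * C * ρ o (f u * o) + 2 * C * ρ o (f v * o) := by
      rw [← mul_add, ← hC]
    rw [map_mul, map_pow, map_pow, mul_assoc]
    omega
  obtain ⟨K, hK⟩ : ∃ K, K = 2 * C * C := ⟨_, rfl⟩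
  rw [← hK] at hb
  obtain ⟨P, hP⟩ : ∃ P, P = (f u ^ (K + 1))⁻¹ * o := ⟨_, rfl⟩
  have hC0 : 0 < C := by omega
  obtain ⟨p, hp, q, hq, hne, he⟩ := Finset.exists_ne_map_eq_of_card_lt_of_maps_to
    (s := Finset.range (2 * C + 1) ×ˢ Finset.range (2 * C + 1))
    (t := Finset.Icc (ρ P o - K) (ρ P o + K))
    (f := fun p => ρ P (f (u ^ p.1 * v ^ p.2) * o))
    (by
      rw [Finset.card_product, Finset.card_range, Nat.card_Icc]
      have : (2 * C + 1) * (2 * C + 1) = 2 * K + 4 * C + 1 := by rw [hK]; ring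
      omega)
    (fun p hp => by
      have h1 := hb p hp
      have t1 := T.tri P o (f (u ^ p.1 * v ^ p.2) * o)
      have t2 := T.tri P (f (u ^ p.1 * v ^ p.2) * o) o
      rw [T.symm (f (u ^ p.1 * v ^ p.2) * o) o] at t2
      simp only [Finset.coe_Icc, Set.mem_Icc]
      omega)
  have b1 := axis_btw T hinv hτ ho (hax (u ^ p.1 * v ^ p.2)) (K + 1) (Nat.lt_succ_of_le (hb p hp))
  have b2 := axis_btw T hinv hτ ho (hax (u ^ q.1 * v ^ q.2)) (K + 1) (Nat.lt_succ_of_le (hb q hq))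
  rw [← hP] at b1 b2
  have z := btw_unique T b1 b2 he
  refine ⟨(u ^ p.1 * v ^ p.2)⁻¹ * (u ^ q.1 * v ^ q.2), fun h => hne (inj p q ?_), o, ?_⟩
  · exact inv_mul_eq_one.1 h
  · rw [← z, ← hinv (f (u ^ p.1 * v ^ p.2)), ← mul_assoc, ← map_mul, mul_inv_cancel_left]

end Pool.Agent.FC
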