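import Pool.Agent.P.MP_5e292f_al.GTree
import Pool.Agent.P.MP_5e292f_al.GAxis
import Pool.Agent.P.MP_5e292f_al.GRect

set_option autoImplicit false

namespace Pool.Agent.FC

variable {A : Type} {G : Type} [Group G] {D : VH A} {ι : A → G}

theorem gnoz_trtr (g : G) : len D.tr.tr ι g = len D ι g := by
  have : D.tr.tr.c = D.c := by
    funext a
    simp [VH.tr]
  simp only [len, this]

theorem gnoz_len_le (w : List A) : len D ι (ev ι w) ≤ w.length :=
  (len_le w).trans List.countP_le_length

theorem gnoz_red_pow {U : List A} (hU : Red D (U ++ U)) (n : ℕ) :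
    Red D (List.replicate n U).flatten := by
  obtain ⟨h1, -, h2⟩ := List.isChain_append.1 hU
  induction n with
  | zero => exact List.isChain_nil
  | succ n ih =>
    rw [List.replicate_succ, List.flatten_cons]
    refine List.isChain_append.2 ⟨h1, ih, fun x hx y hy => h2 x hx y ?_⟩
    cases n with
    | zero => simp at hy
    | succ n =>
      rw [List.replicate_succ, List.flatten_cons] at hy
      cases U with
      | nil => simp at hx
      | cons a U => simpa using hy

theorem gnoz_ev_pow (U : List A) (n : ℕ) : ev ι (List.replicate n U).flatten = ev ι U ^ n := by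
  induction n with
  | zero => simp [ev]
  | succ n ih => rw [List.replicate_succ, List.flatten_cons, ev_append, ih, pow_succ']

theorem gnoz_conj (g c : G) (n : ℕ) : (g⁻¹ * c * g) ^ n = g⁻¹ * (c ^ n * g) := by
  have := conj_pow (i := n) (a := g⁻¹) (b := c)
  rw [inv_inv] at this
  rw [this, mul_assoc]

/-- A word whose length is not larger than one of its letter counts is reduced. -/
theorem gnoz_red (h : Pres D ι) {w : List A} (hw : w.length ≤ len D ι (ev ι w)) : Red D w := by
  refine List.isChain_iff_forall_rel_of_append_cons_cons.2 fun a b x y e hb => ?_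
  have e1 : ev ι w = ev ι (x ++ y) := by
    rw [e, hb, ev_append, ev_cons, ev_cons, h.inv, ev_append, mul_inv_cancel_left]
  have := gnoz_len_le (D := D) (ι := ι) (x ++ y)
  rw [← e1] at this
  have e2 : w.length = (x ++ y).length + 2 := by
    rw [e]; simp; omega
  omega

/-- A nontrivial element fixing the vertex `x` of the horizontal tree is, at some point `g` of that
vertex, a cyclically reduced vertical word. -/
theorem exists_cyc (h : Pres D ι) {c x : G} (hc : c ≠ 1) (hx : rho D ι x (c * x) = 0) :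
    ∃ (g : G) (U : List A), rho D ι x g = 0 ∧ U ≠ [] ∧ Red D (U ++ U) ∧ (∀ a ∈ U, D.c a = false) ∧
      ev ι U = g⁻¹ * c * g ∧ ∀ n : ℕ, rho D.tr ι g (c ^ n * g) = n * U.length := by
  classical
  have T := tm_rho h
  have hex : ∃ m, ∃ g, rho D ι x g = 0 ∧ rho D.tr ι g (c * g) = m := ⟨_, x, T.refl x, rfl⟩
  obtain ⟨g, hg, hm⟩ := Nat.find_spec hex
  have hmin : ∀ k, rho D ι x k = 0 → rho D.tr ι g (c * g) ≤ rho D.tr ι k (c * k) :=
    fun k hk => hm ▸ Nat.find_min' hex ⟨k, hk, rfl⟩
  have h0 : rho D ι g (c * g) = 0 := by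
    have a1 := T.tri g x (c * g)
    have a2 := T.tri x (c * x) (c * g)
    rw [rho_mul] at a2
    have a3 := T.symm g x
    omega
  obtain ⟨U, rU, cU, eU, lU⟩ := len_zero h h0
  have eU' : ev ι U = g⁻¹ * c * g := by rw [eU, mul_assoc]
  have nU : U ≠ [] := by
    rintro rfl
    apply hc
    have : (1 : G) = g⁻¹ * c * g := eU'
    calc c = g * (g⁻¹ * c * g) * g⁻¹ := by group
      _ = 1 := by rw [← this]; group
  have rUU : Red D (U ++ U) := by
    refine List.isChain_append.2 ⟨rU, rU, fun b hb a ha hab => ?_⟩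
    obtain ⟨M, rfl⟩ : ∃ M, U = a :: M := by
      cases U with
      | nil => simp at ha
      | cons a' M =>
        have : a' = a := by simpa using ha
        exact ⟨M, by rw [this]⟩
    rcases List.eq_nil_or_concat M with rfl | ⟨N, b', rfl⟩
    · have : a = b := by simpa using hb
      have s := D.sg_inv b
      rw [← hab, this] at s
      cases hs : D.sg b <;> simp [hs] at s
    · have : b' = b := by
        rw [List.concat_eq_append, ← List.cons_append, List.getLast?_concat] at hb
        simpa using hb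
      subst this
      have ca : D.c a = false := cU a List.mem_cons_self
      have r1 := rho_letter h g a
      rw [ca] at r1
      have a1 := T.tri x g (g * ι a)
      have a2 := hmin (g * ι a) (by simp at r1; omega)
      have e1 : (g * ι a)⁻¹ * (c * (g * ι a)) = ev ι N := by
        have : (g * ι a)⁻¹ * (c * (g * ι a)) = (ι a)⁻¹ * (g⁻¹ * (c * g)) * ι a := by group
        rw [this, ← eU, List.concat_eq_append, ev_cons, ev_append, ev_cons, hab, h.inv]
        simp [ev]
      have a3 : rho D.tr ι (g * ι a) (c * (g * ι a)) ≤ N.length := by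
        rw [rho, e1]; exact gnoz_len_le N
      have a4 : rho D.tr ι g (c * g) = N.length + 2 := by
        rw [rho, lU]; simp
      omega
  refine ⟨g, U, hg, nU, rUU, cU, eU', fun n => ?_⟩
  have cP : ∀ a ∈ (List.replicate n U).flatten, D.c a = false := by
    intro a ha
    obtain ⟨l, hl, hal⟩ := List.mem_flatten.1 ha
    rw [List.eq_of_mem_replicate hl] at hal
    exact cU a hal
  have := (len_irr h (irr_of_red (gnoz_red_pow rUU n) cP)).2
  rw [gnoz_ev_pow, eU', gnoz_conj] at this
  rw [rho, this, List.countP_eq_length.2 fun a ha => by simp [VH.tr, cP a ha]]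
  simp

theorem gnoz_eps (h : Pres D ι) : ∃ ε : G → ℤ, (∀ g k, ε (g * k) = ε g + ε k) ∧
    ∀ a b, (ε (a⁻¹ * b) - rho D ι a b) % 2 = 0 ∧ (rho D ι a b = 0 → ε (a⁻¹ * b) = 0) := by
  obtain ⟨ε, h1, h2⟩ := exists_eps h
  exact ⟨ε, h1, fun a b => h2 _⟩

theorem torsion_free (h : Pres D ι) {c : G} {n : ℕ} (hn : 0 < n) (e : c ^ n = 1) : c = 1 := by
  by_contra hc
  by_cases hx : ∃ x, rho D ι x (c * x) = 0
  · obtain ⟨x, hx⟩ := hx
    obtain ⟨g, U, -, nU, -, -, -, hU⟩ := exists_cyc h hc hx
    have := hU n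
    rw [e, one_mul, (tm_rho h.tr).refl] at this
    have l := List.length_pos_iff.2 nU
    exact absurd this (Nat.mul_pos hn l).ne
  · obtain ⟨ε, h1, h2⟩ := gnoz_eps h
    obtain ⟨x, -, hx'⟩ := exists_axis (tm_rho h) rho_mul ε h1 h2 c Set.univ ⟨1, trivial⟩
      (fun _ _ => trivial) (fun _ _ _ _ _ _ => trivial) fun x _ hx' => hx ⟨x, hx'⟩
    have := hx' n
    rw [e, one_mul, (tm_rho h).refl] at this
    rcases Nat.mul_eq_zero.1 this.symm with h0 | h0
    · omega
    · exact hx ⟨x, h0⟩

section tree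

variable {ρ : G → G → ℕ}

/-- An element with unbounded orbit has no fixed point. -/
theorem gnoz_nofix (T : TM ρ) (hinv : ∀ g a b, ρ (g * a) (g * b) = ρ a b) {c g : G} {τ : ℕ}
    (hτ : 0 < τ) (hg : ∀ n : ℕ, ρ g (c ^ n * g) = n * τ) (y : G) : ρ y (c * y) ≠ 0 := by
  intro hy
  have h1 : ∀ n : ℕ, ρ y (c ^ n * y) = 0 := by
    intro n
    induction n with
    | zero => simpa using T.refl y
    | succ n ih =>
      have a1 := T.tri y (c * y) (c * (c ^ n * y))
      rw [hinv, ← mul_assoc, ← pow_succ'] at a1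
      omega
  have a0 := hg (2 * ρ g y + 1)
  have a1 := T.tri g y (c ^ (2 * ρ g y + 1) * g)
  have a2 := T.tri y (c ^ (2 * ρ g y + 1) * y) (c ^ (2 * ρ g y + 1) * g)
  rw [hinv, h1] at a2
  have a3 := T.symm g y
  have a4 : 2 * ρ g y + 1 ≤ (2 * ρ g y + 1) * τ := Nat.le_mul_of_pos_right _ hτ
  omega

/-- Fixed sets are convex. -/
theorem gnoz_conv (T : TM ρ) (hinv : ∀ g a b, ρ (g * a) (g * b) = ρ a b) {c x y z : G}
    (hx : ρ x (c * x) = 0) (hy : ρ y (c * y) = 0) (hz : ρ x z + ρ z y = ρ x y) :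
    ρ z (c * z) = 0 := by
  have e1 : ρ x (c * z) = ρ x z := by
    have a1 := T.tri x (c * x) (c * z)
    have a2 := T.tri (c * x) x (c * z)
    have a3 := T.symm x (c * x)
    rw [hinv] at a1 a2
    omega
  have e2 : ρ (c * z) y = ρ z y := by
    have a1 := T.tri (c * z) (c * y) y
    have a2 := T.tri (c * z) y (c * y)
    have a3 := T.symm y (c * y)
    rw [hinv] at a1 a2
    omega
  exact btw_unique T hz (by rw [e1, e2]; exact hz) e1.symm

theorem gnoz_inv (hinv : ∀ g a b, ρ (g * a) (g * b) = ρ a b) {c d x : G} (e : Commute d c)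
    (hx : ρ x (c * x) = 0) : ρ (d * x) (c * (d * x)) = 0 := by
  rw [← mul_assoc, ← e.eq, mul_assoc, hinv, hx]

end tree

theorem torus_of_ZZ [Finite A] (h : Pres D ι) (f : Multiplicative (ℤ × ℤ) →* G)
    (hf : Function.Injective f) : Torus D := by
  have TH := tm_rho h
  have TV := tm_rho h.tr
  obtain ⟨ε, e1, e2⟩ := gnoz_eps h
  obtain ⟨δ, d1, d2⟩ := gnoz_eps h.tr
  obtain ⟨c', hc', x0, hx0⟩ := exists_elliptic TH rho_mul ε e1 e2 f
  obtain ⟨d', hd', y0, hy0⟩ := exists_elliptic TV rho_mul δ d1 d2 f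
  have hc : f c' ≠ 1 := fun e => hc' (hf (e.trans f.map_one.symm))
  have hd : f d' ≠ 1 := fun e => hd' (hf (e.trans f.map_one.symm))
  have cd : Commute (f c') (f d') := (Commute.all c' d').map f
  generalize f c' = c at hc hx0 cd
  generalize f d' = d at hd hy0 cd
  have nd : ∀ z, rho D ι z (d * z) ≠ 0 := by
    intro z hz
    obtain ⟨g, U, -, nU, -, -, -, hU⟩ := exists_cyc h hd hz
    exact gnoz_nofix TV rho_mul (List.length_pos_iff.2 nU) hU y0 hy0
  obtain ⟨x, hx, ax⟩ := exists_axis TH rho_mul ε e1 e2 d {x | rho D ι x (c * x) = 0} ⟨x0, hx0⟩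
    (fun x hx => gnoz_inv rho_mul cd.symm hx)
    (fun x hx y hy z hz => gnoz_conv TH rho_mul hx hy hz) fun x _ => nd x
  obtain ⟨g, U, hg, nU, rU, cU, eU, hU⟩ := exists_cyc h hc hx
  have lU := List.length_pos_iff.2 nU
  have nc := gnoz_nofix TV rho_mul lU hU
  obtain ⟨y, hy, ay⟩ := exists_axis TV rho_mul δ d1 d2 c {y | rho D.tr ι y (d * y) = 0} ⟨y0, hy0⟩
    (fun x hx => gnoz_inv rho_mul cd hx)
    (fun x hx y hy z hz => gnoz_conv TV rho_mul hx hy hz) fun x _ => nc x
  have hb := axis_btw TV rho_mul (Nat.pos_of_ne_zero (nc y)) ay hU (rho D.tr ι y g + 1)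
    (Nat.lt_succ_self _)
  have gd : rho D.tr ι g (d * g) = 0 :=
    gnoz_conv TV rho_mul (gnoz_inv rho_mul (cd.pow_left _).inv_left hy)
      (gnoz_inv rho_mul (cd.pow_left _) hy) hb
  obtain ⟨W, -, cW, eW, lW⟩ := len_zero h.tr gd
  rw [gnoz_trtr] at lW
  have mv : ∀ k, rho D ι g (k * g) = rho D ι x (k * x) := by
    intro k
    have a1 := TH.tri g x (k * g)
    have a2 := TH.tri x (k * x) (k * g)
    have a3 := TH.tri x g (k * x)
    have a4 := TH.tri g (k * g) (k * x)
    have a5 := TH.symm g x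
    rw [rho_mul] at a2 a4
    omega
  have l1 : rho D ι x (d * x) = W.length := by rw [← mv, rho, lW]
  have nW : W ≠ [] := by
    rintro rfl
    exact nd x l1
  have rW : Red D (W ++ W) := by
    refine gnoz_red h ?_
    have a1 := ax 2
    rw [← mv, l1, rho] at a1
    have a2 : ev ι (W ++ W) = g⁻¹ * (d ^ 2 * g) := by
      rw [ev_append, eW, pow_two]; group
    rw [a2, a1, List.length_append]
    omega
  refine torus_of_comm h nW nU rW rU (fun a ha => by simpa [VH.tr] using cW a ha) cU ?_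
  rw [eW, eU]
  calc g⁻¹ * (d * g) * (g⁻¹ * c * g) = g⁻¹ * (d * c) * g := by group
    _ = g⁻¹ * (c * d) * g := by rw [cd.eq]
    _ = g⁻¹ * c * g * (g⁻¹ * (d * g)) := by group

end Pool.Agent.FC
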