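import Pool.Agent.P.MP_5e292f_al.GVH

set_option autoImplicit false

namespace Pool.Agent.FC

theorem gpres_left {A : Type} {D : VH A} (p : List A) {u w : List A} (h : Eqv D u w) :
    Eqv D (p ++ u) (p ++ w) := by
  induction h with
  | refl w => exact .refl _
  | symm _ ih => exact ih.symm
  | trans _ _ i1 i2 => exact i1.trans i2
  | can x y a => simpa only [List.append_assoc] using Eqv.can (D := D) (p ++ x) y a
  | sq x y h v v' h' q => simpa only [List.append_assoc] using Eqv.sq (p ++ x) y h v v' h' q

theorem gpres_right {A : Type} {D : VH A} (p : List A) {u w : List A} (h : Eqv D u w) :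
    Eqv D (u ++ p) (w ++ p) := by
  induction h with
  | refl w => exact .refl _
  | symm _ ih => exact ih.symm
  | trans _ _ i1 i2 => exact i1.trans i2
  | can x y a =>
    simpa only [List.append_assoc, List.cons_append] using Eqv.can (D := D) x (y ++ p) a
  | sq x y h v v' h' q =>
    simpa only [List.append_assoc, List.cons_append] using Eqv.sq x (y ++ p) h v v' h' q

/-- The congruence on the free monoid. -/
def gpresCon {A : Type} (D : VH A) : Con (FreeMonoid A) where
  r u w := Eqv D u.toList w.toList
  iseqv := ⟨fun _ => .refl _, fun h => h.symm, fun h h' => h.trans h'⟩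
  mul' {a b c d} h h' := by
    show Eqv D (a.toList ++ c.toList) (b.toList ++ d.toList)
    exact (gpres_right _ h).trans (gpres_left _ h')

theorem gpres_mul {A : Type} (D : VH A) (a : A) :
    (gpresCon D).mk' (FreeMonoid.of a) * (gpresCon D).mk' (FreeMonoid.of (D.inv a)) = 1 := by
  rw [← map_mul, ← map_one (gpresCon D).mk']
  exact (Con.eq _).2 (Eqv.can (D := D) [] [] a)

theorem gpres_ev {A : Type} (D : VH A) (w : List A) :
    (w.map fun a => (gpresCon D).mk' (FreeMonoid.of a)).prod =
      (gpresCon D).mk' (FreeMonoid.ofList w) := by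
  induction w with
  | nil => simp
  | cons a w ih => rw [List.map_cons, List.prod_cons, ih, ← map_mul, FreeMonoid.ofList_cons]

theorem gpres_unit {A : Type} (D : VH A) (g : (gpresCon D).Quotient) : IsUnit g := by
  obtain ⟨w, rfl⟩ := (gpresCon D).mk'_surjective g
  induction w using FreeMonoid.inductionOn' with
  | one => simp
  | of_mul a w ih =>
    rw [map_mul]
    refine IsUnit.mul ⟨⟨_, (gpresCon D).mk' (FreeMonoid.of (D.inv a)), gpres_mul D a, ?_⟩, rfl⟩ ih
    have := gpres_mul D (D.inv a)
    rwa [D.inv_inv] at this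

theorem exists_pres {A : Type} (D : VH A) : ∃ (G : Type) (_ : Group G) (ι : A → G), Pres D ι := by
  refine ⟨(gpresCon D).Quotient, groupOfIsUnit (gpres_unit D),
    fun a => (gpresCon D).mk' (FreeMonoid.of a), ?_⟩
  let _ : Group (gpresCon D).Quotient := groupOfIsUnit (gpres_unit D)
  refine ⟨fun a => eq_inv_of_mul_eq_one_right (gpres_mul D a), fun h v v' h' q => ?_,
    fun g => ?_, fun u w e => ?_⟩
  · show (gpresCon D).mk' (FreeMonoid.of h * FreeMonoid.of v) =
      (gpresCon D).mk' (FreeMonoid.of v' * FreeMonoid.of h')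
    exact (Con.eq _).2 (Eqv.sq [] [] h v v' h' q)
  · obtain ⟨w, rfl⟩ := (gpresCon D).mk'_surjective g
    exact ⟨w.toList, gpres_ev D _⟩
  · have e' : (gpresCon D).mk' (FreeMonoid.ofList u) = (gpresCon D).mk' (FreeMonoid.ofList w) :=
      (gpres_ev D u).symm.trans (e.trans (gpres_ev D w))
    exact (Con.eq _).1 e'

end Pool.Agent.FC
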