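import Pool.Agent.P.MP_5e292f_al.FBridge
import Pool.Agent.P.MP_5e292f_al.GPres
import Pool.Agent.P.MP_5e292f_al.GNoZ
import Pool.Agent.P.MP_5e292f_al.DCat
import Pool.Agent.P.MP_5e292f_al.DFlat
import Pool.Agent.P.MP_5e292f_al.DPer
import Pool.Agent.P.MP_5e292f_al.DCplx

set_option autoImplicit false

open Pointwise

namespace Pool.Agent.FC

theorem main : ∃ (X : Type) (_ : MetricSpace X) (_ : ProperSpace X) (Γ : Type) (_ : Group Γ)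
    (_ : MulAction Γ X) (_ : IsIsometricSMul Γ X),
    (∀ x y : X, ∃ m : X, ∀ z : X,
      dist z m ^ 2 ≤ (dist z x ^ 2 + dist z y ^ 2) / 2 - dist x y ^ 2 / 4) ∧
    (∀ K : Set X, IsCompact K → {g : Γ | ((g • K) ∩ K).Nonempty}.Finite) ∧
    (∃ K : Set X, IsCompact K ∧ ∀ x : X, ∃ g : Γ, x ∈ g • K) ∧
    (∃ (I : Type) (_ : Finite I)
      (σ : I → {p : EuclideanSpace ℝ (Fin 2) // ∀ i, p i ∈ Set.Icc (0 : ℝ) 1} → X),
      (∀ i, Isometry (σ i)) ∧ (∀ x : X, ∃ (g : Γ) (i : I) (p : _), x = g • σ i p) ∧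
      ∀ (g : Γ) (i j : I), ∃ F : Fin 2 → Set ℝ,
        (∀ k, F k = ∅ ∨ F k = {0} ∨ F k = {1} ∨ F k = Set.univ) ∧
        ∀ p, σ i p ∈ g • Set.range (σ j) ↔ ∀ k, p.1 k ∈ F k) ∧
    (∀ (g : Γ) (n : ℕ), 0 < n → g ^ n = 1 → g = 1) ∧
    (∃ f : EuclideanSpace ℝ (Fin 2) → X, Isometry f) ∧
    (¬∃ φ : Multiplicative (ℤ × ℤ) →* Γ, Function.Injective φ) ∧
    ¬∃ f : EuclideanSpace ℝ (Fin 2) → X, Isometry f ∧ ∃ H : Subgroup Γ,
      (∀ h : Γ, h ∈ H → h • Set.range f = Set.range f) ∧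
      ∃ K : Set X, IsCompact K ∧ Set.range f ⊆ ⋃ h ∈ H, (h : Γ) • K := by
  obtain ⟨A, hA, D, hfull, hP, hT⟩ := exists_vh
  obtain ⟨G, hG, ι, hι⟩ := exists_pres D
  have ne : Nonempty A := by obtain ⟨hl, -, -⟩ := hP; exact ⟨hl 0 0⟩
  obtain ⟨S, hP, hT⟩ : ∃ S : Sys, Plane S.D ∧ ¬Torus S.D :=
    ⟨⟨A, hA, ne, D, G, hG, ι, hι, hfull⟩, hP, hT⟩
  have noZ : ¬∃ φ : Multiplicative (ℤ × ℤ) →* S.G, Function.Injective φ :=
    fun ⟨φ, hφ⟩ => hT (torus_of_ZZ S.pres φ hφ)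
  refine ⟨S.X, inferInstance, inferInstance, S.G, inferInstance, inferInstance, inferInstance,
    S.cn, S.proper_action, S.cocompact, S.complex, fun c n hn e => torsion_free S.pres hn e,
    S.flat hP, noZ, ?_⟩
  rintro ⟨f, hf, H, hH, K, hK, hcov⟩
  exact noZ (ZZ_of_periodic S.proper_action (fun c n hn e => torsion_free S.pres hn e) hf H hH hK
    hcov)

end Pool.Agent.FC
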