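import Pool.Agent.P.MP_5e292f_al.FChk4

set_option autoImplicit false

namespace Pool.Agent.FC

/-- A folded line of tile positions: `s i` is the orientation of column `i`. -/
structure FL (s : ℤ → Bool) (X : ℤ → U) : Prop where
  od : ∀ i, od (X i) = true
  adj : ∀ i, mv (X i) (sgn (s i)) = mv (X (i + 1)) (sgn (!s (i + 1)))

theorem ffold_tn_val (a : ℕ) : (tn a).val = (2 * a + 1) % 84 := rfl

theorem ffold_mv_val (u : U) (e : ℤ) : (mv u e).val = ((u.val : ℤ) + e + 84).toNat % 84 := rfl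

theorem ffold_idx {u : U} (h : od u = true) : ∃ a < 42, u = tn a := by
  have h1 := u.isLt
  simp only [od, beq_iff_eq] at h
  exact ⟨u.val / 2, by omega, Fin.ext (by rw [ffold_tn_val]; omega)⟩

theorem ffold_same {r : ℤ → Bool} {Y : ℤ → U} (h : FL r Y) {j : ℤ} (hj : r j ≠ r (j + 1)) :
    Y (j + 1) = Y j := by
  have h1 := congrArg Fin.val (h.adj j)
  have h2 := (Y j).isLt
  have h3 := (Y (j + 1)).isLt
  rw [ffold_mv_val, ffold_mv_val] at h1
  refine Fin.ext ?_
  cases h4 : r j <;> cases h5 : r (j + 1) <;> simp only [h4, h5, sgn] at h1 hj <;>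
    simp at h1 hj <;> omega

theorem ffold_step {r : ℤ → Bool} {Y : ℤ → U} (h : FL r Y) {j : ℤ} (hj : r (j + 1) = r j) {a : ℕ}
    (ha : Y j = tn a) : Y (j + 1) = tn (a + if r j then 1 else 41) := by
  have h1 := congrArg Fin.val (h.adj j)
  have h3 := (Y (j + 1)).isLt
  rw [ffold_mv_val, ffold_mv_val, ha, hj, ffold_tn_val] at h1
  refine Fin.ext ?_
  rw [ffold_tn_val]
  cases h4 : r j <;> simp only [h4, sgn] at h1 <;> simp at h1 ⊢ <;> omega

/-- Some position among `3..16` does not occur. -/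
def ffoldMiss (Y : ℤ → U) : Prop := ∃ k < 14, ∀ j, Y j ≠ tn (3 + k)

/-- A fold at the position `u` with direction `b`. -/
def ffoldAt (r : ℤ → Bool) (Y : ℤ → U) (u : U) (b : Bool) : Prop :=
  ∃ j, r j ≠ r (j + 1) ∧ Y j = u ∧ r j = b

theorem ffold_fwd {r : ℤ → Bool} {Y : ℤ → U} (h : FL r Y) (hm : ffoldMiss Y) (j : ℤ) {a : ℕ}
    (ha : a < 42) (hj : Y j = tn a) :
    ∃ H : ℕ, (∀ k ≤ H, Y (j + k) = tn (a + (if r j then 1 else 41) * k)) ∧ r (j + H) = r j ∧
      r (j + H) ≠ r (j + H + 1) := by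
  by_contra hc
  push Not at hc
  have h1 : ∀ H : ℕ, (∀ k ≤ H, Y (j + k) = tn (a + (if r j then 1 else 41) * k)) ∧
      r (j + H) = r j := by
    intro H
    induction H with
    | zero => exact ⟨fun k hk => by obtain rfl : k = 0 := by omega
                                    simpa using hj, by simp⟩
    | succ H ih =>
      have h2 := hc H ih.1 ih.2
      refine ⟨fun k hk => ?_, by push_cast; rw [← add_assoc, ← h2, ih.2]⟩
      rcases Nat.lt_succ_iff_lt_or_eq.1 (Nat.lt_succ_of_le hk) with h3 | rfl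
      · exact ih.1 k (by omega)
      · have h4 := ffold_step h h2.symm (ih.1 H le_rfl)
        push_cast
        rw [← add_assoc, h4, ih.2, mul_add, mul_one, add_assoc]
  obtain ⟨k, hk, h2⟩ := hm
  cases hr : r j
  · refine h2 _ (((h1 (a + 39 - k)).1 _ le_rfl).trans (Fin.ext ?_))
    rw [ffold_tn_val, ffold_tn_val, hr, if_neg (by simp)]
    omega
  · refine h2 _ (((h1 (45 + k - a)).1 _ le_rfl).trans (Fin.ext ?_))
    rw [ffold_tn_val, ffold_tn_val, hr, if_pos rfl]
    omega

theorem ffold_run {r : ℤ → Bool} {Y : ℤ → U} (h : FL r Y) (hm : ffoldMiss Y) :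
    ∃ a < 42, ∃ H < 55, short a (H + 1) = true ∧ (∀ k ≤ H, ∃ j, Y j = tn (a + k)) ∧
      ffoldAt r Y (tn a) false ∧ ffoldAt r Y (tn (a + H)) true := by
  have h1 : ∃ j, r j = false := by
    cases h0 : r 0
    · exact ⟨0, h0⟩
    · obtain ⟨a, ha, h2⟩ := ffold_idx (h.od 0)
      obtain ⟨H, -, h3, h4⟩ := ffold_fwd h hm 0 ha h2
      rw [h3, h0] at h4
      exact ⟨_, by simpa using h4.symm⟩
  obtain ⟨j, hj⟩ := h1
  obtain ⟨a, ha, h2⟩ := ffold_idx (h.od j)
  obtain ⟨H, -, h3, h4⟩ := ffold_fwd h hm j ha h2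
  rw [hj] at h3
  generalize j + H = i at h3 h4
  have h5 : r (i + 1) = true := by
    rw [h3] at h4
    simpa using h4.symm
  obtain ⟨b, hb, h6⟩ := ffold_idx (h.od (i + 1))
  obtain ⟨K, h7, h8, h9⟩ := ffold_fwd h hm (i + 1) hb h6
  simp only [h5, if_true, one_mul] at h7 h8
  have h10 : K + 1 < (45 - b) % 42 + 14 := by
    by_contra hc
    obtain ⟨k, hk, h11⟩ := hm
    refine h11 _ ((h7 ((45 - b) % 42 + k) (by omega)).trans (Fin.ext ?_))
    rw [ffold_tn_val, ffold_tn_val]
    omega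
  exact ⟨b, hb, K, by omega, decide_eq_true h10, fun k hk => ⟨_, h7 k hk⟩,
    ⟨i, h4, (ffold_same h h4).symm.trans h6, h3⟩, ⟨_, h9, h7 K le_rfl, h8⟩⟩

theorem ffold_bad {r : ℤ → Bool} {Y : ℤ → U} (h : FL r Y) (hm : ffoldMiss Y) :
    ∃ j, r j ≠ r (j + 1) ∧ ¬ good (Y j) (r j) = true := by
  obtain ⟨a, ha, H, -, h1, -, ⟨i, h2, h3, h4⟩, ⟨j, h5, h6, h7⟩⟩ := ffold_run h hm
  by_contra hc
  push Not at hc
  have h8 := hc i h2
  have h9 := hc j h5
  rw [h3, h4] at h8
  rw [h6, h7] at h9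
  simp only [good, fIn, pIn, short, ffold_tn_val, Bool.false_eq_true, if_false, if_true,
    Bool.or_eq_true, beq_iff_eq, decide_eq_true_eq] at h1 h8 h9
  omega

theorem ffold_miss (ax b : Bool) {u : U} (hu : od u = true) (hg : ¬ good u b = true) {Y : ℤ → U}
    (h : ∀ j, (if ax then wg (Y j) u (ax, b) else wg u (Y j) (ax, b)) = true) : ffoldMiss Y := by
  obtain ⟨a, ha, rfl⟩ := ffold_idx hu
  have h1 := (allN_iff _ _).1 (allB_spec (allB_spec chkRun ax) b) a ha
  by_contra hc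
  simp only [ffoldMiss, not_exists, not_and, not_forall, not_not] at hc
  have h2 : (allN 14 fun k => if ax then wg (tn (3 + k)) (tn a) (ax, b)
      else wg (tn a) (tn (3 + k)) (ax, b)) = true := by
    refine (allN_iff _ _).2 fun k hk => ?_
    obtain ⟨j, hj⟩ := hc k hk
    rw [← hj]; exact h j
  rw [cRun, h2] at h1
  exact hg (by simpa using h1)

/-- If every fold runs along walls or good lines, then every fold is on a good line. -/
theorem folds_good {s r : ℤ → Bool} {X Y : ℤ → U} (hX : FL s X) (hY : FL r Y)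
    (hV : ∀ i j, s i ≠ s (i + 1) → wg (X i) (Y j) (false, s i) = true)
    (hH : ∀ i j, r j ≠ r (j + 1) → wg (X i) (Y j) (true, r j) = true) :
    (∀ i, s i ≠ s (i + 1) → good (X i) (s i) = true) ∧
      ∀ j, r j ≠ r (j + 1) → good (Y j) (r j) = true := by
  have hA : ∀ i, s i ≠ s (i + 1) → ¬ good (X i) (s i) = true → ffoldMiss Y :=
    fun i h1 h2 => ffold_miss false (s i) (hX.od i) h2 fun j => hV i j h1
  have hB : ∀ j, r j ≠ r (j + 1) → ¬ good (Y j) (r j) = true → ffoldMiss X :=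
    fun j h1 h2 => ffold_miss true (r j) (hY.od j) h2 fun i => hH i j h1
  have hC : ffoldMiss X → ffoldMiss Y → False := by
    intro mX mY
    obtain ⟨a, ha, W, hW, a1, a2, a3, a4⟩ := ffold_run hX mX
    obtain ⟨b, hb, H, hH', b1, b2, b3, b4⟩ := ffold_run hY mY
    have hv : ∀ u c, ffoldAt s X u c → ∀ k ≤ H, wg u (tn (b + k)) (false, c) = true := by
      rintro u c ⟨i, h1, rfl, rfl⟩ k hk
      obtain ⟨j, hj⟩ := b2 k hk
      rw [← hj]; exact hV i j h1
    have hh : ∀ u c, ffoldAt r Y u c → ∀ k ≤ W, wg (tn (a + k)) u (true, c) = true := by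
      rintro u c ⟨j, h1, rfl, rfl⟩ k hk
      obtain ⟨i, hi⟩ := a2 k hk
      rw [← hi]; exact hH i j h1
    have h1 := (allN_iff _ _).1 ((allN_iff _ _).1 chkRect a ha) b hb
    have e1 : wg (tn a) (tn b) (false, false) = true := hv _ _ a3 0 (by omega)
    have e2 : wg (tn a) (tn b) (true, false) = true := hh _ _ b3 0 (by omega)
    have e3 : wg (tn (a + W)) (tn b) (false, true) = true := hv _ _ a4 0 (by omega)
    have e4 : (allN (W + 1) fun k => wg (tn (a + k)) (tn b) (true, false)) = true :=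
      (allN_iff _ _).2 fun k hk => hh _ _ b3 k (by omega)
    have e5 : (allN (H + 1) fun k => wg (tn a) (tn (b + k)) (false, false) &&
        wg (tn (a + W)) (tn (b + k)) (false, true)) = true :=
      (allN_iff _ _).2 fun k hk => by
        rw [hv _ _ a3 k (by omega), hv _ _ a4 k (by omega)]; rfl
    have e6 : (allN (W + 1) fun k => wg (tn (a + k)) (tn (b + H)) (true, true)) = true :=
      (allN_iff _ _).2 fun k hk => hh _ _ b4 k (by omega)
    rw [cRect, e1, e2, Bool.and_self, Bool.not_true, Bool.false_or] at h1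
    have h2 := (allN_iff _ _).1 h1 W hW
    rw [a1, e3, e4, Bool.and_self, Bool.and_self, Bool.not_true, Bool.false_or] at h2
    have h3 := (allN_iff _ _).1 h2 H hH'
    rw [b1, e5, e6] at h3
    exact absurd h3 (by decide)
  constructor
  · intro i h1
    by_contra h2
    have mY := hA i h1 h2
    obtain ⟨j, h3, h4⟩ := ffold_bad hY mY
    exact hC (hB j h3 h4) mY
  · intro j h1
    by_contra h2
    have mX := hB j h1 h2
    obtain ⟨i, h3, h4⟩ := ffold_bad hX mX
    exact hC mX (hA i h3 h4)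

end Pool.Agent.FC
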