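import Pool.Agent.P.MP_5e292f_al.FChk1
import Pool.Agent.P.MP_5e292f_al.FChk2

set_option autoImplicit false

namespace Pool.Agent.FC

theorem mv_zero : ∀ u : U, mv u 0 = u := by decide +kernel

theorem dS_zero (u : U) : dS u 0 = 0 := by simp [dS]

theorem bdv_zero (P : Blk) : bdv 0 0 P = P := by
  simp [bdv, mv_zero, dS_zero]

theorem ex_vo {a : ℤ} (h : |a| ≤ 2) : ∃ i : Fin 5, a = vo i := by
  have := abs_le.1 h
  refine ⟨⟨(a + 2).toNat, by omega⟩, ?_⟩
  simp only [vo]
  omega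

theorem vo_ix {a : ℤ} (h : |a| ≤ 2) : vo (ix a) = a := by
  obtain ⟨i, rfl⟩ := ex_vo h
  revert i; decide

theorem ix_vo : ∀ i : Fin 5, ix (vo i) = i := by decide

theorem win_le {p : Bool} {a : ℤ} (h : win p a = true) : |a| ≤ 2 := by
  cases p <;> simp [win] at h <;> rw [abs_le] <;> omega

theorem win_of {p : Bool} {a : ℤ} (h : |a| ≤ 1) : win p a = true := by
  have := abs_le.1 h
  cases p <;> simp [win] <;> omega

theorem look_sh (a b : ℤ) (px py : Bool) (σ : Win) {c e : ℤ} (hc : win px c = true)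
    (he : win py e = true) : look (sh a b px py σ) c e = look σ (c + a) (e + b) := by
  simp only [look, sh, vo_ix (win_le hc), vo_ix (win_le he), hc, he, Bool.and_self, if_true]

theorem look_G (P : Blk) {c e : ℤ} (hc : win (od P.x) c = true) (he : win (od P.y) e = true) :
    look (G P) c e = infAt P c e := by
  simp only [look, G, vo_ix (win_le hc), vo_ix (win_le he), hc, he, Bool.and_self, if_true]

theorem sh_sh (a b a' b' : ℤ) (px py qx qy : Bool) (σ : Win)
    (hx : ∀ c, win qx c = true → win px (c + a') = true)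
    (hy : ∀ c, win qy c = true → win py (c + b') = true) :
    sh a' b' qx qy (sh a b px py σ) = sh (a' + a) (b' + b) qx qy σ := by
  funext i j
  simp only [sh]
  split_ifs with h
  · rw [Bool.and_eq_true] at h
    rw [look_sh a b px py σ (hx _ h.1) (hy _ h.2), add_assoc, add_assoc]
  · rfl

theorem oneD_aux : ∀ (u : U) (i j : Fin 5), |vo i| ≤ 1 → |vo j + vo i| ≤ 2 →
    rEx (mv u (vo i)) (vo j) + dS u (vo i) = rEx u (vo j + vo i) ∧
    rReg (mv u (vo i)) (vo j) + dS u (vo i) = rReg u (vo j + vo i) ∧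
    mv (mv u (vo i)) (vo j) = mv u (vo j + vo i) ∧
    |rEx u (vo j)| ≤ 1 ∧ |rReg u (vo j)| ≤ 1 := by decide +kernel

theorem oneD (u : U) {e a : ℤ} (he : |e| ≤ 1) (ha : |a| ≤ 2) (ha' : |a + e| ≤ 2) :
    rEx (mv u e) a + dS u e = rEx u (a + e) ∧ rReg (mv u e) a + dS u e = rReg u (a + e) ∧
    mv (mv u e) a = mv u (a + e) := by
  obtain ⟨i, rfl⟩ := ex_vo (he.trans one_le_two)
  obtain ⟨j, rfl⟩ := ex_vo ha
  have := oneD_aux u i j he ha'
  exact ⟨this.1, this.2.1, this.2.2.1⟩

theorem r_le (u : U) {a : ℤ} (ha : |a| ≤ 2) : |rEx u a| ≤ 1 ∧ |rReg u a| ≤ 1 := by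
  obtain ⟨j, rfl⟩ := ex_vo ha
  have := oneD_aux u 2 j (by decide) (by simpa [vo] using ha)
  exact this.2.2.2

theorem look_bdv (P : Blk) (e f : ℤ) {c g : ℤ} (hc : |c| ≤ 1) (hg : |g| ≤ 1) :
    look (bdv e f P).σ c g = look P.σ (c + dS P.x e) (g + dS P.y f) := by
  simp only [bdv]
  split_ifs with h
  · rw [h.1, h.2, add_zero, add_zero]
  · exact look_sh _ _ _ _ _ (win_of hc) (win_of hg)

theorem infAt_bdv (P : Blk) (e f a b : ℤ) (he : |e| ≤ 1) (hf : |f| ≤ 1) (ha : |a| ≤ 2) (hb : |b| ≤ 2)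
    (ha' : |a + e| ≤ 2) (hb' : |b + f| ≤ 2) :
    oX (bdv e f P) a b = oX P (a + e) (b + f) ∧ oY (bdv e f P) a b = oY P (a + e) (b + f) ∧
      oR (bdv e f P) a b = oR P (a + e) (b + f) ∧ infAt (bdv e f P) a b = infAt P (a + e) (b + f) := by
  obtain ⟨x1, x2, x3⟩ := oneD P.x he ha ha'
  obtain ⟨y1, y2, y3⟩ := oneD P.y hf hb hb'
  have ex : (bdv e f P).x = mv P.x e := rfl
  have ey : (bdv e f P).y = mv P.y f := rfl
  have h1 : oX (bdv e f P) a b = oX P (a + e) (b + f) := by
    simp only [oX]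
    rw [look_bdv P e f (r_le _ ha).1 (r_le _ hb).2, ex, ey, x1, y2]
  have h2 : oY (bdv e f P) a b = oY P (a + e) (b + f) := by
    simp only [oY]
    rw [look_bdv P e f (r_le _ ha).2 (r_le _ hb).1, ex, ey, x2, y1]
  have h3 : oR (bdv e f P) a b = oR P (a + e) (b + f) := by
    simp only [oR]
    rw [look_bdv P e f (r_le _ ha).2 (r_le _ hb).2, ex, ey, x2, y2]
  refine ⟨h1, h2, h3, ?_⟩
  simp only [infAt]
  rw [h1, h2, h3, ex, ey, x3, y3]

theorem od_mv_aux : ∀ (u : U) (i : Fin 5), |vo i| ≤ 1 →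
    (vo i ≠ 0 → od (mv u (vo i)) = !od u) ∧ (dS u (vo i) = 0 → cSo (mv u (vo i)) = cSo u) ∧
    (od u = true → dS u (vo i) ≠ 0 → cSo u = true ∧ cSo (mv u (vo i)) = false ∧ dS u (vo i) = vo i) := by
  decide +kernel

theorem od_mv (u : U) {e : ℤ} (he : |e| ≤ 1) :
    (e ≠ 0 → od (mv u e) = !od u) ∧ (dS u e = 0 → cSo (mv u e) = cSo u) ∧
    (od u = true → dS u e ≠ 0 → cSo u = true ∧ cSo (mv u e) = false ∧ dS u e = e) := by
  obtain ⟨i, rfl⟩ := ex_vo (he.trans one_le_two)
  exact od_mv_aux u i he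

theorem win_step {c e : ℤ} (he : |e| ≤ 1) (h : win false c = true) : win true (c + e) = true := by
  have := abs_le.1 he
  simp [win] at h ⊢
  omega

theorem win_od (u : U) {e : ℤ} (he : |e| ≤ 1) (he' : e ≠ 0 → od u = true) (c : ℤ)
    (h : win (od (mv u e)) c = true) : win (od u) (c + e) = true := by
  by_cases h0 : e = 0
  · subst h0; rwa [mv_zero, ← add_zero c] at h
  · rw [(od_mv u he).1 h0, he' h0] at h
    rw [he' h0]
    exact win_step he h

theorem G_bdv (P : Blk) (e f : ℤ) (he : |e| ≤ 1) (hf : |f| ≤ 1) (he' : e ≠ 0 → od P.x = true)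
    (hf' : f ≠ 0 → od P.y = true) :
    G (bdv e f P) = sh e f (od (mv P.x e)) (od (mv P.y f)) (G P) := by
  funext i j
  have ex : (bdv e f P).x = mv P.x e := rfl
  have ey : (bdv e f P).y = mv P.y f := rfl
  simp only [sh]
  rw [G, ex, ey]
  split_ifs with h
  · rw [Bool.and_eq_true] at h
    have a := win_od P.x he he' _ h.1
    have b := win_od P.y hf hf' _ h.2
    rw [look_G P a b]
    exact (infAt_bdv P e f _ _ he hf (win_le h.1) (win_le h.2) (win_le a) (win_le b)).2.2.2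
  · rfl

theorem win_cS (u : U) {e : ℤ} (he : |e| ≤ 1) (he' : e ≠ 0 → od u = true) (c : ℤ)
    (h : win (cSo (mv u e)) c = true) : win (cSo u) (c + dS u e) = true := by
  by_cases h0 : dS u e = 0
  · rwa [h0, add_zero, ← (od_mv u he).2.1 h0]
  · have e0 : e ≠ 0 := by rintro rfl; exact h0 (dS_zero u)
    obtain ⟨a, b, c'⟩ := (od_mv u he).2.2 (he' e0) h0
    rw [b] at h
    rw [a, c']
    exact win_step he h

theorem bdv_xy (P : Blk) (e f : ℤ) (he : |e| ≤ 1) (hf : |f| ≤ 1) (ho : e ≠ 0 → od P.x = true)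
    (ho' : f ≠ 0 → od P.y = true) :
    bdv 0 f (bdv e 0 P) = bdv e f P ∧ bdv e 0 (bdv 0 f P) = bdv e f P := by
  constructor
  · simp only [bdv, mv_zero, dS_zero, and_true, true_and]
    congr 1
    by_cases hx : dS P.x e = 0 <;> by_cases hy : dS P.y f = 0
    · simp [hx, hy]
    · simp [hx, hy]
    · simp [hx, hy, (od_mv P.y hf).2.1 hy]
    · simp only [hx, hy, if_false, false_and]
      rw [sh_sh _ _ _ _ _ _ _ _ _ (fun c h => by rwa [add_zero]) (win_cS P.y hf ho'), zero_add, add_zero]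
  · simp only [bdv, mv_zero, dS_zero, and_true, true_and]
    congr 1
    by_cases hx : dS P.x e = 0 <;> by_cases hy : dS P.y f = 0
    · simp [hx, hy]
    · simp [hx, hy, (od_mv P.x he).2.1 hx]
    · simp [hx, hy]
    · simp only [hx, hy, if_false, false_and]
      rw [sh_sh _ _ _ _ _ _ _ _ _ (win_cS P.x he ho) (fun c h => by rwa [add_zero]), zero_add, add_zero]

theorem bdv_bdv (P : Blk) (e f e' f' : ℤ) (he : |e| ≤ 1) (hf : |f| ≤ 1) (he' : |e'| ≤ 1) (hf' : |f'| ≤ 1)
    (h1 : e = 0 ∨ e' = 0) (h2 : f = 0 ∨ f' = 0) (ho : e + e' ≠ 0 → od P.x = true)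
    (ho' : f + f' ≠ 0 → od P.y = true) :
    bdv e' f' (bdv e f P) = bdv (e + e') (f + f') P := by
  rcases h1 with rfl | rfl <;> rcases h2 with rfl | rfl
  · simp [bdv_zero]
  · simp only [zero_add, add_zero] at *
    exact (bdv_xy P e' f he' hf ho ho').2
  · simp only [zero_add, add_zero] at *
    exact (bdv_xy P e f' he hf' ho ho').1
  · simp [bdv_zero]

theorem dxy_le (d : Dir) : |dx d| ≤ 1 ∧ |dy d| ≤ 1 := by revert d; decide

theorem o_bd (P : Blk) (d : Dir) : oX (bd d P) 0 0 = oX P (dx d) (dy d) ∧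
    oY (bd d P) 0 0 = oY P (dx d) (dy d) ∧ inf (bd d P) = infAt P (dx d) (dy d) := by
  have := infAt_bdv P (dx d) (dy d) 0 0 (dxy_le d).1 (dxy_le d).2 (by simp) (by simp)
    (by simpa using (dxy_le d).1.trans one_le_two) (by simpa using (dxy_le d).2.trans one_le_two)
  simp only [zero_add] at this
  exact ⟨this.1, this.2.1, this.2.2.2⟩

theorem c1_spec (d : Dir) (x y : U) : c1 d x y = true := by
  obtain ⟨a, s⟩ := d
  cases a <;> cases s
  · exact allU_spec (allU_spec chk1b x) y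
  · exact allU_spec (allU_spec chk1a x) y
  · exact allU_spec (allU_spec chk1d x) y
  · exact allU_spec (allU_spec chk1c x) y

theorem step_spec (d : Dir) (x y : U) (ho : od (co d.1 x y) = true) :
    cKT (tab x y) (tab (mv x (dx d)) (mv y (dy d)))
      (rEx x (dx d) == rEx x 0 && rReg y (dy d) == rReg y 0)
      (rReg x (dx d) == rReg x 0 && rEx y (dy d) == rEx y 0) = true ∧
    ∀ kx ky, cStepT d.1 (tab x y) (tab (mv x (dx d)) (mv y (dy d)))
      (tab (mv x (2 * dx d)) (mv y (2 * dy d))) (pIn (co d.1 x y) d.2)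
      (pIn (mv (co d.1 x y) (2 * sgn d.2)) (!d.2)) (isF (mv (co d.1 x y) (sgn d.2)))
      (sIn (co d.1 x y) d.2 && od (co (!d.1) x y)) kx ky = true := by
  have := c1_spec d x y
  simp only [c1, ho, Bool.not_true, Bool.false_or, frc_eq, frb_eq, Bool.and_eq_true] at this
  exact ⟨this.1, fun kx ky => allB_spec (allB_spec this.2 kx) ky⟩

theorem kkT_congr (t : ℕ) {kx ky kx' ky' : Bool} (h1 : kx' = kx ∨ kfT t ≠ 1)
    (h2 : ky' = ky ∨ kfT t ≠ 2) : kkT t kx' ky' = kkT t kx ky := by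
  simp only [kkT]
  rcases h1 with rfl | h1 <;> rcases h2 with rfl | h2
  · rfl
  · rw [beq_false_of_ne h2]; simp
  · rw [beq_false_of_ne h1]; simp
  · rw [beq_false_of_ne h1, beq_false_of_ne h2]; simp

theorem kk_bd (P : Blk) (d : Dir) (ho : od (co d.1 P.x P.y) = true) :
    kk P.x P.y (kX (bd d P)) (kY (bd d P)) = kk P.x P.y (kX P) (kY P) ∧
    kk (bd d P).x (bd d P).y (kX (bd d P)) (kY (bd d P)) = kk (bd d P).x (bd d P).y (kX P) (kY P) := by
  have h := (step_spec d P.x P.y ho).1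
  simp only [cKT, Bool.and_eq_true, Bool.or_eq_true, beq_iff_eq, bne_iff_ne] at h
  have hx : rEx P.x (dx d) = rEx P.x 0 ∧ rReg P.y (dy d) = rReg P.y 0 → kX (bd d P) = kX P := by
    intro h
    simp only [kX]
    rw [(o_bd P d).1, oX, oX, h.1, h.2]
  have hy : rReg P.x (dx d) = rReg P.x 0 ∧ rEx P.y (dy d) = rEx P.y 0 → kY (bd d P) = kY P := by
    intro h
    simp only [kY]
    rw [(o_bd P d).2.1, oY, oY, h.1, h.2]
  exact ⟨kkT_congr _ (h.1.imp hx fun a => a.1) (h.2.imp hy fun a => a.1),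
    kkT_congr _ (h.1.imp hx fun a => a.2) (h.2.imp hy fun a => a.2)⟩

theorem sdT_congr {t : ℕ} {kx ky kx' ky' : Bool} (h : kkT t kx' ky' = kkT t kx ky) :
    sdT t kx' ky' = sdT t kx ky ∧ piT t kx' ky' = piT t kx ky ∧ symT t kx' ky' = symT t kx ky := by
  have h1 : sdT t kx' ky' = sdT t kx ky := by funext i; simp only [sdT, h]
  have h2 : piT t kx' ky' = piT t kx ky := by simp only [piT, h]
  exact ⟨h1, h2, by funext i; simp only [symT, h1, h2]⟩

theorem popT_congr {t e : ℕ} (p : Bool) {kx ky kx' ky' : Bool} (h : kkT t kx' ky' = kkT t kx ky)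
    (h' : kkT e kx' ky' = kkT e kx ky) : popT t e p kx' ky' = popT t e p kx ky := by
  simp only [popT, (sdT_congr h).1, (sdT_congr h).2.1, (sdT_congr h').1, (sdT_congr h').2.1]

theorem line_aux : ∀ (u : U) (s : Bool), od u = true →
    mv (mv u (sgn s)) (sgn (!s)) = u ∧ mv (mv u (sgn s)) (sgn s) = mv u (2 * sgn s) ∧
    (fIn u s = true → (mv u (sgn s)).val = (if s then 58 else 66) ∧ rEx u (sgn s) = rEx u 0) ∧
    (fIn u s = false → isF (mv u (sgn s)) = true → (mv u (sgn s)).val = if s then 66 else 58) ∧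
    (sIn u s = false → dS u (sgn s) = 0) ∧ (fIn u s = true → isF (mv u (sgn s)) = true) := by
  decide +kernel

theorem line_aux2 : ∀ (u : U) (s : Bool),
    mv (mv u (2 * sgn s)) (sgn (!s)) = mv u (sgn s) := by decide +kernel

theorem thp_eq (d : Dir) (x y : U) (ho : od (co d.1 x y) = true) (kx ky : Bool) :
    thp d.1 (mv x (dx d)) (mv y (dy d)) kx ky =
      if d.2 then pick (pop x y d kx ky) (popT (tab (mv x (2 * dx d)) (mv y (2 * dy d)))
        (tab (mv x (dx d)) (mv y (dy d))) (pIn (mv (co d.1 x y) (2 * sgn d.2)) (!d.2)) kx ky)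
      else pick (popT (tab (mv x (2 * dx d)) (mv y (2 * dy d)))
        (tab (mv x (dx d)) (mv y (dy d))) (pIn (mv (co d.1 x y) (2 * sgn d.2)) (!d.2)) kx ky)
        (pop x y d kx ky) := by
  obtain ⟨l1, l2, -⟩ := line_aux _ d.2 ho
  have l3 := line_aux2 (co d.1 x y) d.2
  obtain ⟨a, s⟩ := d
  cases a <;> cases s <;>
    simp only [co, Bool.false_eq_true, if_false, if_true, Bool.not_true, Bool.not_false] at l1 l2 l3 <;>
    simp [thp, pop, dx, dy, co, mv_zero, l1, l2, l3]

theorem side_pick (a s : Bool) (o o' : Op) (h : o = 0 ∨ o' = 0) :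
    side (a, s) (if s then pick o o' else pick o' o) = o := by
  cases s <;> rcases h with rfl | rfl <;> simp [side, pick] <;> split_ifs <;> simp_all

theorem opOf_eq (P : Blk) (d : Dir) (ho : od (co d.1 P.x P.y) = true) :
    opOf d P = if fIn (co d.1 P.x P.y) d.2 then side d (if d.1 then oY P 0 0 else oX P 0 0)
      else pop P.x P.y d (kX P) (kY P) := by
  have e0 : opOf d P = side d (th d.1 (bd d P).x (bd d P).y (oX (bd d P) 0 0) (oY (bd d P) 0 0)) := by
    obtain ⟨a, s⟩ := d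
    cases a <;> simp [opOf, opAt, inf, infAt, inf0, mv_zero]
  obtain ⟨-, -, l3, l4, -⟩ := line_aux _ d.2 ho
  have hco : co d.1 (bd d P).x (bd d P).y = mv (co d.1 P.x P.y) (sgn d.2) := by
    obtain ⟨a, s⟩ := d
    cases a <;> simp [co, bd, bdv, dx, dy]
  have hs := (step_spec d P.x P.y ho).2 (kX (bd d P)) (kY (bd d P))
  have hp : pop P.x P.y d (kX (bd d P)) (kY (bd d P)) = pop P.x P.y d (kX P) (kY P) :=
    popT_congr _ (kk_bd P d ho).1 (kk_bd P d ho).2
  rw [e0, ← hp]
  simp only [cStepT, Bool.and_eq_true] at hs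
  have hs2 := hs.1.1.2
  by_cases hf : fIn (co d.1 P.x P.y) d.2 = true
  · rw [if_pos hf]
    obtain ⟨h1, h2⟩ := l3 hf
    have hO : (if d.1 then oY (bd d P) 0 0 else oX (bd d P) 0 0) =
        if d.1 then oY P 0 0 else oX P 0 0 := by
      obtain ⟨a, s⟩ := d
      cases a
      · simp only [Bool.false_eq_true, if_false]
        rw [(o_bd P _).1, oX, oX]
        simp only [co, Bool.false_eq_true, if_false] at h2
        simp [dx, dy, h2]
      · simp only [if_true]
        rw [(o_bd P _).2.1, oY, oY]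
        simp only [co, if_true] at h2
        simp [dx, dy, h2]
    rw [← hO]
    simp only [th, hco, h1]
    obtain ⟨a, s⟩ := d
    generalize (if (a, s).1 = true then oY (bd (a, s) P) 0 0 else oX (bd (a, s) P) 0 0) = O
    obtain ⟨b, o⟩ := O
    cases s <;> cases b <;> simp [side]
  · rw [if_neg hf]
    rw [Bool.not_eq_true] at hf
    by_cases hF : isF (mv (co d.1 P.x P.y) (sgn d.2)) = true
    · have h1 := l4 hf hF
      rw [if_pos hF, Bool.and_eq_true, beq_iff_eq] at hs2
      rw [pop, hs2.1]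
      simp only [th, hco, h1]
      obtain ⟨a, s⟩ := d
      cases s <;> simp [side]
    · rw [if_neg hF, Bool.or_eq_true, beq_iff_eq, beq_iff_eq] at hs2
      have hF' := hF
      simp only [isF, Bool.or_eq_true, beq_iff_eq, not_or] at hF'
      simp only [th, hco, hF'.1, hF'.2, if_false]
      rw [← side_pick d.1 d.2 (pop P.x P.y d (kX (bd d P)) (kY (bd d P))) _ hs2,
        ← thp_eq d _ _ ho]
      rfl

theorem bd_sigma (P : Blk) (d : Dir) (ho : od (co d.1 P.x P.y) = true)
    (hs : sIn (co d.1 P.x P.y) d.2 = false) : (bd d P).σ = P.σ := by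
  have := (line_aux _ d.2 ho).2.2.2.2.1 hs
  obtain ⟨a, s⟩ := d
  cases a <;> simp only [co, Bool.false_eq_true, if_false, if_true] at this <;>
    simp [bd, bdv, dx, dy, dS_zero, this]

theorem sym_spec (d : Dir) (x y : U) (ho : od (co d.1 x y) = true) (kx ky : Bool) (i : Fin 4) :
    cSymT (tab x y) (tab (mv x (dx d)) (mv y (dy d))) (pIn (co d.1 x y) d.2) kx ky
      (pop x y d kx ky) i = true := by
  have hs := (step_spec d x y ho).2 kx ky
  simp only [cStepT, Bool.and_eq_true] at hs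
  exact all4_spec hs.1.1.1 i

theorem symT_one {t : ℕ} {kx ky : Bool} {i : Fin 4} : symT t kx ky i = 1 ↔ sdT t kx ky i = true := by
  simp only [symT]
  split_ifs <;> simp_all

theorem symT_two {t : ℕ} {kx ky : Bool} {i : Fin 4} (h : symT t kx ky i = 2) :
    sPT t = true ∧ piT t kx ky = i := by
  by_contra h2
  simp only [symT, h2, if_false] at h
  split_ifs at h <;> omega

theorem sym_pi (x y : U) (kx ky : Bool) (h : sP x y = true) : sym x y kx ky (piS x y kx ky) = 2 := by
  have := allU_spec (allU_spec chk0 x) y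
  simp only [c0, frc_eq] at this
  have := allB_spec (allB_spec this kx) ky
  simp only [sP] at h
  simp only [h, Bool.not_true, Bool.false_or, Bool.not_eq_true'] at this
  simp [sym, piS, symT, this, h]

/-- The value of the colour P displayed by a cell. -/
def valP (t : Cell) : Option Blk := t.s (piS t.P.x t.P.y (kX t.P) (kY t.P))

theorem ft_slot (t : Cell) (d : Dir) (i : Fin 4) (ho : od (co d.1 t.P.x t.P.y) = true)
    (hf : fIn (co d.1 t.P.x t.P.y) d.2 = false)
    (hs : sd (mv t.P.x (dx d)) (mv t.P.y (dy d)) (kX t.P) (kY t.P) i = true) :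
    (bdC d t).s i = t.s i := by
  have h := sym_spec d _ _ ho (kX t.P) (kY t.P) i
  have h1 := symT_one.2 hs
  simp only [bdC, act, opOf_eq _ _ ho, hf, Bool.false_eq_true, if_false]
  simp only [cSymT, h1] at h
  split_ifs at h ⊢ with a b
  · simp only [Bool.and_eq_true, bne_self_eq_false, Bool.false_or, beq_iff_eq] at h
    rw [h.2]
  · simp at h
  · simp at h

theorem ft_P (t : Cell) (d : Dir) (ho : od (co d.1 t.P.x t.P.y) = true)
    (hf : fIn (co d.1 t.P.x t.P.y) d.2 = false)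
    (hs : sP (mv t.P.x (dx d)) (mv t.P.y (dy d)) = true) :
    valP (bdC d t) = if pIn (co d.1 t.P.x t.P.y) d.2 then (valP t).map (bd d) else valP t := by
  have e1 : valP (bdC d t) =
      (bdC d t).s (piS (mv t.P.x (dx d)) (mv t.P.y (dy d)) (kX t.P) (kY t.P)) := by
    simp only [valP]
    congr 1
    exact (sdT_congr (kk_bd t.P d ho).2).2.1
  have h1 := sym_pi _ _ (kX t.P) (kY t.P) hs
  rw [e1]
  generalize piS (mv t.P.x (dx d)) (mv t.P.y (dy d)) (kX t.P) (kY t.P) = i at h1 ⊢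
  have h := sym_spec d _ _ ho (kX t.P) (kY t.P) i
  simp only [bdC, act, opOf_eq _ _ ho, hf, Bool.false_eq_true, if_false, valP]
  simp only [sym] at h1
  simp only [cSymT, h1] at h
  by_cases a : mode (pop t.P.x t.P.y d (kX t.P) (kY t.P)) i = 0
  · simp only [a, if_true, Bool.and_eq_true, beq_iff_eq, bne_self_eq_false, Bool.false_or,
      Bool.not_eq_true'] at h ⊢
    rw [h.1.2, piS, (symT_two h.1.1.symm).2]
    simp
  · by_cases b : mode (pop t.P.x t.P.y d (kX t.P) (kY t.P)) i = 1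
    · simp [b] at h
    · simp only [a, b, if_false, Bool.and_eq_true, beq_iff_eq] at h ⊢
      rw [h.2, piS, (symT_two h.1.2).2]
      simp

end Pool.Agent.FC
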