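import Pool.Agent.P.MP_5e292f_al.FRec

set_option autoImplicit false

namespace Pool.Agent.FC

/-- Tile with coordinate `a` along the axis `ax` and `b` across. -/
def atx (ax : Bool) (Z : ℤ → ℤ → Cell) (a b : ℤ) : Cell := if ax then Z b a else Z a b
def shift (ax : Bool) (Z : ℤ → ℤ → Cell) : ℤ → ℤ → Cell :=
  fun i j => if ax then Z i (j + 42) else Z (i + 42) j
def band (ax : Bool) (i j : ℤ) : Prop :=
  if ax then 0 ≤ j ∧ j < 62 ∧ 0 ≤ i ∧ i < 20 else 0 ≤ i ∧ i < 62 ∧ 0 ≤ j ∧ j < 20

theorem FPass_cross {β : Type} (ax : Bool) (T : ℤ → Cell) (φ : Cell → β)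
    (h1 : ∀ a, 28 ≤ a → a ≤ 32 → bdC (ax, true) (T a) = bdC (ax, false) (T (a + 1)))
    (h2 : ∀ a s, 29 ≤ a → a ≤ 32 → φ (bdC (ax, s) (T a)) = φ (T a)) :
    φ (bdC (ax, true) (T 28)) = φ (bdC (ax, false) (T 33)) := by
  have e : ∀ a, 29 ≤ a → a ≤ 32 → φ (bdC (ax, false) (T a)) = φ (bdC (ax, false) (T (a + 1))) :=
    fun a h h' => by rw [h2 a false h h', ← h2 a true h h', h1 a (by omega) h']
  rw [h1 28 le_rfl (by norm_num)]
  exact (e 29 (by norm_num) (by norm_num)).trans ((e 30 (by norm_num) (by norm_num)).trans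
    ((e 31 (by norm_num) (by norm_num)).trans (e 32 (by norm_num) (by norm_num))))

/-- Coordinates of the point with coordinate `u` along the axis and `v` across. -/
def qx (ax : Bool) (u v : U) : U := if ax then v else u
def qy (ax : Bool) (u v : U) : U := if ax then u else v
def lF (s : Bool) : U := if s then 58 else 66
def lP (s : Bool) : U := if s then 40 else 0
def rowS (ax : Bool) : ℤ := if ax then 7 else 9

theorem FPass_arm (d : Dir) {Z : ℤ → ℤ → Cell}
    (h : Chart (fun i j => inZ i j = true ∨ inA d i j = true) Z) (b : ℤ) (h1 : 3 ≤ b) (h2 : b < 17) :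
    atx d.1 Z (if d.2 then 28 else -9) b = child (par Z)
      (qx d.1 (tp (if d.2 then 28 else -9)) (tp b)) (qy d.1 (tp (if d.2 then 28 else -9)) (tp b)) ∧
    bdC d (atx d.1 Z (if d.2 then 28 else -9) b) =
      child (bdC d (par Z)) (qx d.1 (lF d.2) (tp b)) (qy d.1 (lF d.2) (tp b)) := by
  obtain ⟨-, p2, -⟩ := rec_par h (rgn_arm d)
  have g : rgo (tp b) = true := by
    have := tp_val b
    simp only [rgo, decide_eq_true_eq]
    omega
  have key := rec_arm d h
  obtain ⟨a, s⟩ := d
  cases a <;> cases s <;> simp only [atx, qx, qy, lF, Bool.false_eq_true, if_false, if_true]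
  · have e := key (-9) b (by simp [inA, arm1, h1, h2])
    refine ⟨e, ?_⟩
    rw [e, child_bdF _ _ _ _ (p2.1.trans (by decide)) (p2.2.trans g.symm) (by simp only [co, Bool.false_eq_true, if_false, if_true]; decide)]
    simp only [dx, dy, Bool.false_eq_true, if_false, mv_zero]
    rfl
  · have e := key 28 b (by simp [inA, arm1, h1, h2])
    refine ⟨e, ?_⟩
    rw [e, child_bdF _ _ _ _ (p2.1.trans (by decide)) (p2.2.trans g.symm) (by simp only [co, Bool.false_eq_true, if_false, if_true]; decide)]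
    simp only [dx, dy, Bool.false_eq_true, if_false, mv_zero]
    rfl
  · have e := key b (-9) (by simp [inA, arm1, h1, h2])
    refine ⟨e, ?_⟩
    rw [e, child_bdF _ _ _ _ (p2.1.trans g.symm) (p2.2.trans (by decide)) (by simp only [co, Bool.false_eq_true, if_false, if_true]; decide)]
    simp only [dx, dy, if_true, mv_zero]
    rfl
  · have e := key b 28 (by simp [inA, arm1, h1, h2])
    refine ⟨e, ?_⟩
    rw [e, child_bdF _ _ _ _ (p2.1.trans g.symm) (p2.2.trans (by decide)) (by simp only [co, Bool.false_eq_true, if_false, if_true]; decide)]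
    simp only [dx, dy, if_true, mv_zero]
    rfl

theorem FPass_readF (ax s : Bool) (C : Cell) :
    (∀ l, (child C (qx ax (lF s) (tp (rowS ax))) (qy ax (lF s) (tp (rowS ax)))).s l = C.s l) ∧
      valP (child C (qx ax (lF s) (tp 3)) (qy ax (lF s) (tp 3))) = some C.P := by
  have a : ∀ (ax s kx ky : Bool) (l : Fin 4),
      sd (qx ax (lF s) (tp (rowS ax))) (qy ax (lF s) (tp (rowS ax))) kx ky l = true ∧
      sP (qx ax (lF s) (tp 3)) (qy ax (lF s) (tp 3)) = true ∧ dQ (qx ax (lF s) (tp 3)) = 0 ∧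
      dQ (qy ax (lF s) (tp 3)) = 0 := by decide +kernel
  refine ⟨fun l => child_slot _ _ _ _ (a ax s _ _ l).1, ?_⟩
  obtain ⟨-, a1, a2, a3⟩ := a ax s false false 0
  rw [child_valP _ _ _ a1, a2, a3, bdv_zero]

theorem FPass_rowS (ax : Bool) : 3 ≤ rowS ax ∧ rowS ax < 17 := by cases ax <;> decide

theorem FPass_tp (a : ℤ) : tp (a + 42) = tp a := by
  have h1 := tp_val (a + 42)
  have h2 := tp_val a
  apply Fin.ext
  omega

theorem FPass_shift (ax : Bool) {Z : ℤ → ℤ → Cell} (h : Chart (band ax) Z) :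
    Chart (fun i j => inZ i j = true ∨ inA (ax, false) i j = true) (shift ax Z) := by
  have hb : ∀ i j, (inZ i j = true ∨ inA (ax, false) i j = true) →
      band ax (if ax then i else i + 42) (if ax then j + 42 else j) := by
    intro i j r
    cases ax <;> simp only [inZ, inA, arm1, band, Bool.and_eq_true, decide_eq_true_eq,
      Bool.false_eq_true, if_false, if_true] at r ⊢ <;> omega
  cases ax <;> simp only [Bool.false_eq_true, if_false, if_true] at hb
  · refine ⟨fun i j r => h.val _ _ (hb i j r), fun i j r => (h.px _ _ (hb i j r)).trans (FPass_tp i),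
      fun i j r => h.py _ _ (hb i j r), fun i j r r' => ?_, fun i j r r' => h.ay _ _ (hb i j r) (hb _ _ r')⟩
    have := h.ax _ _ (hb i j r) (by rw [add_right_comm]; exact hb _ _ r')
    rwa [add_right_comm] at this
  · refine ⟨fun i j r => h.val _ _ (hb i j r), fun i j r => h.px _ _ (hb i j r),
      fun i j r => (h.py _ _ (hb i j r)).trans (FPass_tp j),
      fun i j r r' => h.ax _ _ (hb i j r) (hb _ _ r'), fun i j r r' => ?_⟩
    have := h.ay _ _ (hb i j r) (by rw [add_right_comm]; exact hb _ _ r')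
    rwa [add_right_comm] at this

theorem FPass_band (ax : Bool) {Z : ℤ → ℤ → Cell} (h : Chart (band ax) Z) (b : ℤ) (h1 : 0 ≤ b)
    (h2 : b < 20) (a : ℤ) (h3 : 28 ≤ a) (h4 : a ≤ 32) :
    bdC (ax, true) (atx ax Z a b) = bdC (ax, false) (atx ax Z (a + 1) b) ∧
      (atx ax Z a b).P.x = qx ax (tp a) (tp b) ∧ (atx ax Z a b).P.y = qy ax (tp a) (tp b) := by
  cases ax <;> simp only [atx, qx, qy, Bool.false_eq_true, if_false, if_true]
  · have r : band false a b := by simp only [band, Bool.false_eq_true, if_false]; omega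
    exact ⟨h.ax _ _ r (by simp only [band, Bool.false_eq_true, if_false]; omega), h.px _ _ r, h.py _ _ r⟩
  · have r : band true b a := by simp only [band, if_true]; omega
    exact ⟨h.ay _ _ r (by simp only [band, if_true]; omega), h.px _ _ r, h.py _ _ r⟩

theorem FPass_mid : ∀ (ax s kx ky : Bool) (l : Fin 4) (n : Fin 4) (b : Bool),
    od (co ax (qx ax (tp (29 + n.val)) (tp (if b then 3 else rowS ax)))
      (qy ax (tp (29 + n.val)) (tp (if b then 3 else rowS ax)))) = true ∧
    fIn (co ax (qx ax (tp (29 + n.val)) (tp (if b then 3 else rowS ax)))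
      (qy ax (tp (29 + n.val)) (tp (if b then 3 else rowS ax)))) s = false ∧
    pIn (co ax (qx ax (tp (29 + n.val)) (tp 3)) (qy ax (tp (29 + n.val)) (tp 3))) s = false ∧
    sd (mv (qx ax (tp (29 + n.val)) (tp (rowS ax))) (dx (ax, s)))
      (mv (qy ax (tp (29 + n.val)) (tp (rowS ax))) (dy (ax, s))) kx ky l = true ∧
    sP (mv (qx ax (tp (29 + n.val)) (tp 3)) (dx (ax, s)))
      (mv (qy ax (tp (29 + n.val)) (tp 3)) (dy (ax, s))) = true := by decide +kernel

theorem FPass_ex {a : ℤ} (h : 29 ≤ a) (h' : a ≤ 32) : ∃ n : Fin 4, a = 29 + (n.val : ℤ) :=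
  ⟨⟨(a - 29).toNat, by omega⟩, by simp only; omega⟩

def rowP (d : Dir) (l : Fin 4) : ℤ :=
  if d.1 then (if d.2 then ![10, 3, 3, 3] l else ![3, 4, 13, 3] l)
  else (if d.2 then ![4, 9, 13, 3] l else ![3, 9, 3, 3] l)

theorem FPass_zone (d : Dir) {Z : ℤ → ℤ → Cell} (h : Chart (fun i j => inZ i j = true) Z) (b : ℤ)
    (h1 : 0 ≤ b) (h2 : b < 20) :
    atx d.1 Z (if d.2 then 19 else 0) b = child (par Z)
      (qx d.1 (tp (if d.2 then 19 else 0)) (tp b)) (qy d.1 (tp (if d.2 then 19 else 0)) (tp b)) ∧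
    bdC d (atx d.1 Z (if d.2 then 19 else 0) b) =
      child (par Z) (qx d.1 (lP d.2) (tp b)) (qy d.1 (lP d.2) (tp b)) := by
  obtain ⟨p, key⟩ := rec_zone h
  have p2 := p.tl
  have g : rgo (tp b) = true := by
    have := tp_val b
    simp only [rgo, decide_eq_true_eq]
    omega
  obtain ⟨a, s⟩ := d
  cases a <;> cases s <;> simp only [atx, qx, qy, lP, Bool.false_eq_true, if_false, if_true]
  · have e := key 0 b (by simp [inZ, h1, h2])
    refine ⟨e, ?_⟩
    rw [e, child_bd _ _ _ _ (p2.1.trans (by decide)) (p2.2.trans g.symm) (od_co _ _ _)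
      (by simp only [co, Bool.false_eq_true, if_false, if_true]; decide)]
    simp only [dx, dy, Bool.false_eq_true, if_false, mv_zero]
    rfl
  · have e := key 19 b (by simp [inZ, h1, h2])
    refine ⟨e, ?_⟩
    rw [e, child_bd _ _ _ _ (p2.1.trans (by decide)) (p2.2.trans g.symm) (od_co _ _ _)
      (by simp only [co, Bool.false_eq_true, if_false, if_true]; decide)]
    simp only [dx, dy, Bool.false_eq_true, if_false, mv_zero]
    rfl
  · have e := key b 0 (by simp [inZ, h1, h2])
    refine ⟨e, ?_⟩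
    rw [e, child_bd _ _ _ _ (p2.1.trans g.symm) (p2.2.trans (by decide)) (od_co _ _ _)
      (by simp only [co, Bool.false_eq_true, if_false, if_true]; decide)]
    simp only [dx, dy, if_true, mv_zero]
    rfl
  · have e := key b 19 (by simp [inZ, h1, h2])
    refine ⟨e, ?_⟩
    rw [e, child_bd _ _ _ _ (p2.1.trans g.symm) (p2.2.trans (by decide)) (od_co _ _ _)
      (by simp only [co, Bool.false_eq_true, if_false, if_true]; decide)]
    simp only [dx, dy, if_true, mv_zero]
    rfl

theorem FPass_readP : ∀ (a s kx ky : Bool) (l : Fin 4), 0 ≤ rowP (a, s) l ∧ rowP (a, s) l < 20 ∧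
    sd (qx a (lP s) (tp (rowP (a, s) l))) (qy a (lP s) (tp (rowP (a, s) l))) kx ky l = true ∧
    sP (qx a (lP s) (tp 3)) (qy a (lP s) (tp 3)) = true ∧
    dQ (qx a (lP s) (tp 3)) = dx (a, s) ∧ dQ (qy a (lP s) (tp 3)) = dy (a, s) := by decide +kernel

theorem pass_straight (ax : Bool) {Z : ℤ → ℤ → Cell} (h : Chart (band ax) Z) :
    bdC (ax, true) (par Z) = bdC (ax, false) (par (shift ax Z)) := by
  have hA : Chart (fun i j => inZ i j = true ∨ inA (ax, true) i j = true) Z := by
    refine h.mono fun i j r => ?_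
    cases ax <;> simp only [inZ, inA, arm1, band, Bool.and_eq_true, decide_eq_true_eq,
      Bool.false_eq_true, if_false, if_true] at r ⊢ <;> omega
  have hB := FPass_shift ax h
  have es : ∀ b, atx ax (shift ax Z) (-9) b = atx ax Z 33 b := fun b => by cases ax <;> rfl
  have a1 := fun b h1 h2 => (FPass_arm (ax, true) hA b h1 h2).2
  have a2 := fun b h1 h2 => (FPass_arm (ax, false) hB b h1 h2).2
  simp only [Bool.false_eq_true, if_false, if_true, es] at a1 a2
  obtain ⟨r1, r2⟩ := FPass_rowS ax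
  refine Cell.ext ?_ (funext fun l => ?_)
  · have := FPass_cross ax (fun a => atx ax Z a 3) valP
      (fun a h1 h2 => (FPass_band ax h 3 (by norm_num) (by norm_num) a h1 h2).1) (fun a s h1 h2 => ?_)
    · rw [a1 3 le_rfl (by norm_num), a2 3 le_rfl (by norm_num), (FPass_readF ax true _).2,
        (FPass_readF ax false _).2] at this
      exact Option.some.inj this
    · obtain ⟨-, ex, ey⟩ := FPass_band ax h 3 (by norm_num) (by norm_num) a (by omega) h2
      obtain ⟨n, rfl⟩ := FPass_ex h1 h2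
      obtain ⟨m1, m2, m3, -, m5⟩ := FPass_mid ax s false false 0 n true
      have := ft_P (atx ax Z (29 + n.val) 3) (ax, s)
      rw [ex, ey] at this
      rw [this m1 m2 m5, m3]
      rfl
  · have := FPass_cross ax (fun a => atx ax Z a (rowS ax)) (fun c => c.s l)
      (fun a h1 h2 => (FPass_band ax h _ (by omega) (by omega) a h1 h2).1) (fun a s h1 h2 => ?_)
    · rwa [a1 _ r1 r2, a2 _ r1 r2, (FPass_readF ax true _).1, (FPass_readF ax false _).1] at this
    · obtain ⟨-, ex, ey⟩ := FPass_band ax h (rowS ax) (by omega) (by omega) a (by omega) h2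
      obtain ⟨n, rfl⟩ := FPass_ex h1 h2
      have := ft_slot (atx ax Z (29 + n.val) (rowS ax)) (ax, s) l
      rw [ex, ey] at this
      obtain ⟨m1, m2, -, m4, -⟩ := FPass_mid ax s _ _ l n false
      exact this m1 m2 m4

theorem pass_foldP (d : Dir) {Z Z' : ℤ → ℤ → Cell} (h : Chart (fun i j => inZ i j = true) Z)
    (h' : Chart (fun i j => inZ i j = true) Z')
    (he : ∀ b, 0 ≤ b → b < 20 → bdC d (atx d.1 Z (if d.2 then 19 else 0) b) =
      bdC d (atx d.1 Z' (if d.2 then 19 else 0) b))
    (hne : atx d.1 Z (if d.2 then 19 else 0) 3 ≠ atx d.1 Z' (if d.2 then 19 else 0) 3) :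
    bdC d (par Z) = bdC d (par Z') ∧ par Z ≠ par Z' := by
  refine ⟨?_, fun e => hne ?_⟩
  · have e1 : bd d (par Z).P = bd d (par Z').P := by
      have := he 3 (by norm_num) (by norm_num)
      rw [(FPass_zone d h 3 (by norm_num) (by norm_num)).2,
        (FPass_zone d h' 3 (by norm_num) (by norm_num)).2] at this
      replace this := congrArg valP this
      obtain ⟨-, -, -, m1, m2, m3⟩ := FPass_readP d.1 d.2 false false 0
      rw [child_valP _ _ _ m1, child_valP _ _ _ m1, m2, m3] at this
      exact Option.some.inj this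
    have e2 : (par Z).s = (par Z').s := by
      funext l
      obtain ⟨m1, m2, -⟩ := FPass_readP d.1 d.2 false false l
      have := he _ m1 m2
      rw [(FPass_zone d h _ m1 m2).2, (FPass_zone d h' _ m1 m2).2] at this
      replace this := congrArg (fun c => c.s l) this
      rwa [child_slot _ _ _ _ (FPass_readP d.1 d.2 _ _ l).2.2.1,
        child_slot _ _ _ _ (FPass_readP d.1 d.2 _ _ l).2.2.1] at this
    simp only [bdC, opOf, e1, e2]
  · rw [(FPass_zone d h 3 (by norm_num) (by norm_num)).1,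
      (FPass_zone d h' 3 (by norm_num) (by norm_num)).1, e]

theorem pass_foldF (d : Dir) {Z Z' : ℤ → ℤ → Cell}
    (h : Chart (fun i j => inZ i j = true ∨ inA d i j = true) Z)
    (h' : Chart (fun i j => inZ i j = true ∨ inA d i j = true) Z')
    (he : ∀ b, 0 ≤ b → b < 20 → bdC d (atx d.1 Z (if d.2 then 28 else -9) b) =
      bdC d (atx d.1 Z' (if d.2 then 28 else -9) b))
    (hne : atx d.1 Z (if d.2 then 28 else -9) 3 ≠ atx d.1 Z' (if d.2 then 28 else -9) 3) :
    bdC d (par Z) = bdC d (par Z') ∧ par Z ≠ par Z' := by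
  obtain ⟨r1, r2⟩ := FPass_rowS d.1
  refine ⟨Cell.ext ?_ (funext fun l => ?_), fun e => hne ?_⟩
  · have := he 3 (by norm_num) (by norm_num)
    rw [(FPass_arm d h 3 le_rfl (by norm_num)).2, (FPass_arm d h' 3 le_rfl (by norm_num)).2] at this
    replace this := congrArg valP this
    rw [(FPass_readF _ _ _).2, (FPass_readF _ _ _).2] at this
    exact Option.some.inj this
  · have := he _ (by omega) (show rowS d.1 < 20 by omega)
    rw [(FPass_arm d h _ r1 r2).2, (FPass_arm d h' _ r1 r2).2] at this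
    replace this := congrArg (fun c => c.s l) this
    rwa [(FPass_readF _ _ _).1, (FPass_readF _ _ _).1] at this
  · rw [(FPass_arm d h 3 le_rfl (by norm_num)).1, (FPass_arm d h' 3 le_rfl (by norm_num)).1, e]

end Pool.Agent.FC
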