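import Pool.Agent.P.MP_5e292f_al.FValid
import Pool.Agent.P.MP_5e292f_al.FChk4

set_option autoImplicit false

namespace Pool.Agent.FC

/-- An unfolded patch of valid tiles at their standard positions over the region `R`. -/
structure Chart (R : ℤ → ℤ → Prop) (Z : ℤ → ℤ → Cell) : Prop where
  val : ∀ i j, R i j → Valid (Z i j)
  px : ∀ i j, R i j → (Z i j).P.x = tp i
  py : ∀ i j, R i j → (Z i j).P.y = tp j
  ax : ∀ i j, R i j → R (i + 1) j → bdC (false, true) (Z i j) = bdC (false, false) (Z (i + 1) j)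
  ay : ∀ i j, R i j → R i (j + 1) → bdC (true, true) (Z i j) = bdC (true, false) (Z i (j + 1))

theorem Chart.mono {R R' : ℤ → ℤ → Prop} {Z : ℤ → ℤ → Cell} (h : Chart R Z)
    (hR : ∀ i j, R' i j → R i j) : Chart R' Z :=
  ⟨fun i j a => h.val i j (hR i j a), fun i j a => h.px i j (hR i j a),
    fun i j a => h.py i j (hR i j a), fun i j a b => h.ax i j (hR _ _ a) (hR _ _ b),
    fun i j a b => h.ay i j (hR _ _ a) (hR _ _ b)⟩

/-- The parent read from a zone. -/
def par (Z : ℤ → ℤ → Cell) : Cell := ⟨(valP (Z 10 12)).getD (Z 10 12).P, (Z 9 10).s⟩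

theorem tp_val (i : ℤ) : ((tp i).val : ℤ) = (2 * i + 1) % 84 := by
  simp only [tp, Fin.val_ofNat]
  omega

theorem mv_val (u : U) {e : ℤ} (he : |e| ≤ 2) : ((mv u e).val : ℤ) = ((u.val : ℤ) + e) % 84 := by
  have := abs_le.1 he
  simp only [mv, Fin.val_ofNat]
  omega

theorem od_tp (i : ℤ) : od (tp i) = true := by
  have := tp_val i
  simp only [od, beq_iff_eq]
  omega

theorem tp_edge (i e : ℤ) (he : |e| ≤ 1) : mv (tp (i + e)) (-e) = mv (tp i) e := by
  have h1 := mv_val (tp (i + e)) (e := -e) (by rw [abs_neg]; exact he.trans one_le_two)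
  have h2 := mv_val (tp i) (he.trans one_le_two)
  rw [tp_val] at h1 h2
  apply Fin.ext
  omega

theorem opp_d : ∀ d : Dir, dx (d.1, !d.2) = -dx d ∧ dy (d.1, !d.2) = -dy d := by decide

theorem od_co (a : Bool) (i j : ℤ) : od (co a (tp i) (tp j)) = true := by
  cases a <;> exact od_tp _

theorem Chart.nb {R : ℤ → ℤ → Prop} {Z : ℤ → ℤ → Cell} (h : Chart R Z) (d : Dir) {i j : ℤ}
    (a : R i j) (b : R (i + dx d) (j + dy d)) :
    bdC d (Z i j) = bdC (d.1, !d.2) (Z (i + dx d) (j + dy d)) := by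
  obtain ⟨p, s⟩ := d
  cases p <;> cases s <;>
    simp only [dx, dy, sgn, Bool.false_eq_true, if_false, if_true, add_zero, Bool.not_true,
      Bool.not_false] at b ⊢
  · have := h.ax (i + -1) j b (by simpa using a)
    simpa using this.symm
  · exact h.ax i j a b
  · have := h.ay i (j + -1) b (by simpa using a)
    simpa using this.symm
  · exact h.ay i j a b

theorem rgo_inC {i j : ℤ} (h : inC i j = true) : rgo (tp i) = true ∧ rgo (tp j) = true := by
  have hr : -9 ≤ i ∧ i < 29 ∧ -9 ≤ j ∧ j < 29 := by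
    simp only [inC, inZ, inA, arm1, Bool.or_eq_true, Bool.and_eq_true, decide_eq_true_eq,
      Bool.false_eq_true, if_false, if_true] at h
    omega
  have h1 := tp_val i
  have h2 := tp_val j
  simp only [rgo, decide_eq_true_eq]
  omega

/-- A region closed under the pointers. -/
structure Rgn (R : ℤ → ℤ → Prop) : Prop where
  inC : ∀ i j, R i j → inC i j = true
  zone : ∀ i j, inZ i j = true → R i j
  mov : ∀ v i j, R i j → cMove v i j = true → R (i + dx (pdir v i j)) (j + dy (pdir v i j))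

theorem cMove_spec {v : ℕ} {i j : ℤ} (h : cMove v i j = true) :
    dep v (i + dx (pdir v i j)) (j + dy (pdir v i j)) < dep v i j ∧
    fIn (co (pdir v i j).1 (tp i) (tp j)) (pdir v i j).2 = false ∧
    fIn (co (pdir v i j).1 (tp (i + dx (pdir v i j))) (tp (j + dy (pdir v i j)))) (!(pdir v i j).2)
      = false := by
  simp only [cMove, Bool.and_eq_true, decide_eq_true_eq, Bool.not_eq_true'] at h
  exact ⟨h.1.1.2, h.1.2, h.2⟩

theorem dep_ind {R : ℤ → ℤ → Prop} (v : ℕ) (Q : ℤ → ℤ → Prop)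
    (step : ∀ i j, R i j → (∀ i' j', R i' j' → dep v i' j' < dep v i j → Q i' j') → Q i j) :
    ∀ i j, R i j → Q i j := by
  have : ∀ n i j, dep v i j = n → R i j → Q i j := by
    intro n
    induction n using Nat.strong_induction_on with
    | _ n ih => exact fun i j e r => step i j r fun i' j' r' l => ih _ (e ▸ l) i' j' rfl r'
  exact fun i j => this _ i j rfl

theorem par_spec {Z : ℤ → ℤ → Cell} (hv : Valid (Z 10 12)) (hx : (Z 10 12).P.x = tp 10)
    (hy : (Z 10 12).P.y = tp 12) : valP (Z 10 12) = some (par Z).P ∧ tile (par Z).P ∧ ok (par Z).P := by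
  obtain ⟨w, e, a, b, -, c⟩ := hv.cr _ ⟨by rw [hx, hy]; decide +kernel, rfl⟩
  have e' : valP (Z 10 12) = some w := e
  have ep : (par Z).P = w := by simp [par, e']
  have ht : tile w := ⟨by rw [a, hx]; decide, by rw [b, hy]; decide⟩
  rw [ep]
  exact ⟨e', ht, c ht⟩

theorem child_nb (C : Cell) (hC : tile C.P) {R : ℤ → ℤ → Prop} (hR : Rgn R) {v : ℕ} {i j : ℤ}
    (r : R i j) (hm : cMove v i j = true) :
    bdC (pdir v i j) (child C (tp i) (tp j)) = bdC ((pdir v i j).1, !(pdir v i j).2)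
      (child C (tp (i + dx (pdir v i j))) (tp (j + dy (pdir v i j)))) := by
  obtain ⟨-, f1, f2⟩ := cMove_spec hm
  have g1 := rgo_inC (hR.inC _ _ r)
  have g2 := rgo_inC (hR.inC _ _ (hR.mov v i j r hm))
  rw [child_bd C _ _ _ (hC.1.trans g1.1.symm) (hC.2.trans g1.2.symm) (od_co _ _ _) f1,
    child_bd C _ _ (_, !(pdir v i j).2) (hC.1.trans g2.1.symm) (hC.2.trans g2.2.symm) (od_co _ _ _) f2,
    (opp_d _).1, (opp_d _).2, tp_edge _ _ (dxy_le _).1, tp_edge _ _ (dxy_le _).2]

section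
variable {R : ℤ → ℤ → Prop} {Z : ℤ → ℤ → Cell} (h : Chart R Z) (hR : Rgn R)
include h hR

theorem rec_par : valP (Z 10 12) = some (par Z).P ∧ tile (par Z).P ∧ ok (par Z).P :=
  have r := hR.zone 10 12 (by decide)
  par_spec (h.val _ _ r) (h.px _ _ r) (h.py _ _ r)

theorem rec_P : ∀ i j, R i j → sP (tp i) (tp j) = true →
    valP (Z i j) = valP (child (par Z) (tp i) (tp j)) := by
  obtain ⟨p1, p2, -⟩ := rec_par h hR
  refine dep_ind 0 _ fun i j r ih hs => ?_
  have hc := allC_spec chkP (hR.inC i j r)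
  simp only [cP, hs, Bool.not_true, Bool.false_or, Bool.or_eq_true, Bool.and_eq_true, beq_iff_eq,
    Bool.not_eq_true'] at hc
  rcases hc with ⟨rfl, rfl⟩ | ⟨⟨⟨hm, s1⟩, s2⟩, s3⟩
  · rw [p1, child_valP _ _ _ hs, show dQ (tp 10) = 0 by decide, show dQ (tp 12) = 0 by decide,
      bdv_zero]
  have r' := hR.mov 0 i j r hm
  obtain ⟨l, f1, f2⟩ := cMove_spec hm
  have IH := ih _ _ r' l s2
  have n1 := h.nb _ r r'
  have n2 := child_nb _ p2 hR r hm
  generalize pdir 0 i j = d at *
  have s1' : sP (mv (tp (i + dx d)) (dx (d.1, !d.2))) (mv (tp (j + dy d)) (dy (d.1, !d.2))) = true := by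
    rwa [(opp_d _).1, (opp_d _).2, tp_edge _ _ (dxy_le _).1, tp_edge _ _ (dxy_le _).2]
  have a1 := ft_P (Z i j) d
  have a2 := ft_P (Z (i + dx d) (j + dy d)) (d.1, !d.2)
  rw [h.px _ _ r, h.py _ _ r] at a1
  rw [h.px _ _ r', h.py _ _ r'] at a2
  have b1 := ft_P (child (par Z) (tp i) (tp j)) d (od_co _ _ _) f1 s1
  have b2 := ft_P (child (par Z) (tp (i + dx d)) (tp (j + dy d))) (d.1, !d.2) (od_co _ _ _) f2 s1'
  replace a1 := a1 (od_co _ _ _) f1 s1
  replace a2 := a2 (od_co _ _ _) f2 s1'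
  have e1 : pIn (co d.1 (child (par Z) (tp i) (tp j)).P.x (child (par Z) (tp i) (tp j)).P.y) d.2
    = false := s3
  rw [e1] at b1
  rw [s3] at a1
  simp only [Bool.false_eq_true, if_false] at a1 b1
  rw [← a1, ← b1, n1, n2, a2, b2, IH]
  rfl

theorem rec_W : ∀ i j, R i j → (Z i j).P = chP (par Z).P (tp i) (tp j) := by
  obtain ⟨p1, p2, -⟩ := rec_par h hR
  refine dep_ind 1 _ fun i j r ih => ?_
  have hc := allC_spec chkW (hR.inC i j r)
  simp only [cW, Bool.or_eq_true, Bool.and_eq_true, Bool.not_eq_true'] at hc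
  rcases hc with hs | ⟨⟨hm, s1⟩, -⟩
  · obtain ⟨w, e, -, -, a, -⟩ := (h.val _ _ r).cr _ ⟨by rw [h.px _ _ r, h.py _ _ r]; exact hs, rfl⟩
    have e' : valP (Z i j) = some w := e
    rw [rec_P h hR i j r hs, child_valP _ _ _ hs] at e'
    obtain rfl := Option.some.inj e'
    have g1 := rgo_inC (hR.inC _ _ r)
    rw [h.px _ _ r, h.py _ _ r, sh_G_dQ _ _ _ (p2.1.trans g1.1.symm) (p2.2.trans g1.2.symm)] at a
    exact Blk.ext (h.px _ _ r) (h.py _ _ r) a
  have r' := hR.mov 1 i j r hm
  have IH := ih _ _ r' (cMove_spec hm).1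
  have n1 := congrArg Cell.P (h.nb _ r r')
  have n2 := congrArg Cell.P (child_nb _ p2 hR r hm)
  simp only [bdC, child] at n1 n2
  rw [IH, ← n2] at n1
  exact blk_eq (h.val _ _ r).tl n1 (by rw [h.px _ _ r, h.py _ _ r]; exact s1)

theorem rec_L (κ : Bool) (hk : ∀ i j d, R i j →
      kk (mv (tp i) (dx d)) (mv (tp j) (dy d)) (kX (Z i j).P) (kY (Z i j).P) =
        kk (mv (tp i) (dx d)) (mv (tp j) (dy d)) κ κ) (l : Fin 4) :
    ∀ i j, R i j → sd (tp i) (tp j) κ κ l = true → (Z i j).s l = (par Z).s l := by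
  refine dep_ind (vix l κ) _ fun i j r ih hs => ?_
  have hc : allC (cL l κ) = true := by
    fin_cases l
    · exact allB_spec chkL0 κ
    · exact allB_spec chkL1 κ
    · exact allB_spec chkL2 κ
    · exact allB_spec chkL3 κ
  replace hc := allC_spec hc (hR.inC i j r)
  simp only [cL, hs, Bool.not_true, Bool.false_or, Bool.or_eq_true, Bool.and_eq_true,
    beq_iff_eq] at hc
  rcases hc with ⟨rfl, rfl⟩ | ⟨⟨hm, s1⟩, s2⟩
  · rfl
  have r' := hR.mov _ i j r hm
  obtain ⟨lt, f1, f2⟩ := cMove_spec hm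
  have IH := ih _ _ r' lt s2
  have n1 := h.nb _ r r'
  generalize pdir (vix l κ) i j = d at *
  have a1 := ft_slot (Z i j) d l
  have a2 := ft_slot (Z (i + dx d) (j + dy d)) (d.1, !d.2) l
  rw [h.px _ _ r, h.py _ _ r] at a1
  rw [h.px _ _ r', h.py _ _ r'] at a2
  rw [← IH, ← a1 (od_co _ _ _) f1, ← a2 (od_co _ _ _) f2, n1]
  · rw [sd, (sdT_congr (hk _ _ _ r')).1, (opp_d _).1, (opp_d _).2, tp_edge _ _ (dxy_le _).1,
      tp_edge _ _ (dxy_le _).2]
    exact s1
  · rw [sd, (sdT_congr (hk _ _ _ r)).1]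
    exact s1

theorem rec_all (κ : Bool) (hk : ∀ i j d, R i j →
      kk (mv (tp i) (dx d)) (mv (tp j) (dy d)) (kX (Z i j).P) (kY (Z i j).P) =
        kk (mv (tp i) (dx d)) (mv (tp j) (dy d)) κ κ)
    (hk' : ∀ i j, R i j → kk (tp i) (tp j) (kX (Z i j).P) (kY (Z i j).P) = kk (tp i) (tp j) κ κ)
    (i j : ℤ) (r : R i j) : Z i j = child (par Z) (tp i) (tp j) := by
  have e := rec_W h hR i j r
  refine Cell.ext e (funext fun l => ?_)
  by_cases s1 : sym (tp i) (tp j) (kX (Z i j).P) (kY (Z i j).P) l = 1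
  · have s1' : sd (tp i) (tp j) (kX (Z i j).P) (kY (Z i j).P) l = true := symT_one.1 s1
    rw [child_slot _ _ _ _ (e ▸ s1')]
    refine rec_L h hR κ hk l i j r ?_
    rwa [sd, (sdT_congr (hk' _ _ r)).1] at s1'
  by_cases s2 : sym (tp i) (tp j) (kX (Z i j).P) (kY (Z i j).P) l = 2
  · obtain ⟨a, b⟩ := symT_two s2
    have := rec_P h hR i j r a
    simp only [valP] at this
    rw [h.px _ _ r, h.py _ _ r, piS, b] at this
    rw [this]
    congr 1
    rw [e] at b
    exact b
  · have s0 : sym (tp i) (tp j) (kX (Z i j).P) (kY (Z i j).P) l = 0 := by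
      simp only [sym, symT] at s1 s2 ⊢
      split_ifs at s1 s2 ⊢ <;> simp_all
    rw [(h.val _ _ r).nl l (by rw [nul_eq, h.px _ _ r, h.py _ _ r, s0]; rfl)]
    rw [e] at s0
    simp [child, chS, s0]

end

theorem rgn_zone : Rgn (fun i j => inZ i j = true) := by
  refine ⟨fun i j r => by simp [inC, r], fun _ _ r => r, fun v i j r hm => ?_⟩
  simp only [cMove, Bool.and_eq_true, r, Bool.not_true, Bool.false_or] at hm
  exact hm.1.1.1.1

theorem rgn_arm (d : Dir) : Rgn (fun i j => inZ i j = true ∨ inA d i j = true) := by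
  refine ⟨fun i j r => ?_, fun _ _ r => Or.inl r, fun v i j r hm => ?_⟩
  · obtain ⟨a, s⟩ := d
    rcases r with r | r <;> cases a <;> cases s <;> simp [inC, r]
  · simp only [cMove, Bool.and_eq_true] at hm
    rcases r with r | r
    · have := hm.1.1.1.1
      simp only [r, Bool.not_true, Bool.false_or] at this
      exact Or.inl this
    · have := allB_spec (allB_spec hm.1.1.1.2 d.1) d.2
      simpa only [r, Bool.not_true, Bool.false_or, Bool.or_eq_true] using this

theorem kf_zone {i j : ℤ} (r : inZ i j = true) (d : Dir) :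
    kf (tp i) (tp j) = 0 ∧ kf (mv (tp i) (dx d)) (mv (tp j) (dy d)) = 0 := by
  have := allB_spec (allB_spec (allC_spec chkF (rgn_zone.inC i j r)) d.1) d.2
  simp only [r, Bool.not_true, Bool.false_or, Bool.and_eq_true, beq_iff_eq] at this
  exact this.1

theorem kf_arm {i j : ℤ} {a : Dir} (r : inA a i j = true) (d : Dir) :
    kf (tp i) (tp j) ≠ (if a.1 then 1 else 2) ∧
      kf (mv (tp i) (dx d)) (mv (tp j) (dy d)) ≠ (if a.1 then 1 else 2) := by
  have := allB_spec (allB_spec (allC_spec chkF ((rgn_arm a).inC i j (Or.inr r))) d.1) d.2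
  rw [Bool.and_eq_true] at this
  have := allB_spec (allB_spec this.2 a.1) a.2
  simpa only [r, Bool.not_true, Bool.false_or, Bool.and_eq_true, bne_iff_ne] using this

theorem kk_zero {x y : U} (h : kf x y = 0) (a b a' b' : Bool) : kk x y a b = kk x y a' b' :=
  kkT_congr _ (Or.inr (by rw [kf] at h; omega)) (Or.inr (by rw [kf] at h; omega))

theorem rec_zone {Z : ℤ → ℤ → Cell} (h : Chart (fun i j => inZ i j = true) Z) :
    Valid (par Z) ∧ ∀ i j, inZ i j = true → Z i j = child (par Z) (tp i) (tp j) := by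
  have key := rec_all h rgn_zone false (fun i j d r => kk_zero (kf_zone r d).2 _ _ _ _)
    (fun i j r => kk_zero (kf_zone r (false, false)).1 _ _ _ _)
  obtain ⟨-, p2, p3⟩ := rec_par h rgn_zone
  refine ⟨⟨p2, p3, fun l => ?_, fun i j l hr => ?_, fun i hn => ?_⟩, key⟩
  · have hl : ∀ (l : Fin 4) (kx ky : Bool), sP (tp 0) (tp (if l = 1 then 9 else 0)) = true ∧
        sd (tp 0) (tp (if l = 1 then 9 else 0)) kx ky l = true ∧
        cPo (tp (if l = 1 then 9 else 0)) = true ∧ dQ (tp (if l = 1 then 9 else 0)) = 0 ∧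
        inZ 0 (if l = 1 then 9 else 0) = true := by decide +kernel
    replace hl := hl l
    generalize (if l = 1 then (9 : ℤ) else 0) = b at hl
    obtain ⟨a1, -, a3, a4, r⟩ := hl false false
    have hv := h.val _ _ r
    rw [key _ _ r] at hv
    have a2 := (hl (kX (chP (par Z).P (tp 0) (tp b))) (kY (chP (par Z).P (tp 0) (tp b)))).2.1
    have := hv.rl (piS (tp 0) (tp b) (kX (chP (par Z).P (tp 0) (tp b)))
      (kY (chP (par Z).P (tp 0) (tp b)))) l l (by
        rw [rel_eq]
        show (cPo (tp 0) && cPo (tp b) && sP (tp 0) (tp b) && _ == _ && l == l &&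
          sd (tp 0) (tp b) (kX (chP (par Z).P (tp 0) (tp b))) (kY (chP (par Z).P (tp 0) (tp b))) l
          || _) = true
        rw [a1, a2, a3, show cPo (tp 0) = true by decide]
        simp [child, chP])
    have e := child_valP (par Z) _ _ a1
    rw [a4, show dQ (tp 0) = 0 by decide, bdv_zero] at e
    rw [child_slot _ _ _ _ a2] at this
    exact (this _ e).2
  · have r : inZ 9 10 = true := by decide
    have hs : ∀ (kx ky : Bool) (i : Fin 4), sd (tp 9) (tp 10) kx ky i = true := by decide +kernel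
    refine (h.val _ _ r).rl i j l ?_
    rw [rel_eq, rec_W h rgn_zone _ _ r, chP_oR _ _ _ (p2.1.trans (by decide)) (p2.2.trans (by decide)),
      hr]
    have e1 : (chP (par Z).P (tp 9) (tp 10)).x = tp 9 := rfl
    have e2 : (chP (par Z).P (tp 9) (tp 10)).y = tp 10 := rfl
    simp only [e1, e2, hs, show rgo (tp 9) = true by decide, show rgo (tp 10) = true by decide]
    simp
  · have r : inZ 9 10 = true := by decide
    have hs : ∀ (kx ky : Bool) (i : Fin 4), sd (tp 9) (tp 10) kx ky i = true := by decide +kernel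
    refine (h.val _ _ r).nl i ?_
    rw [nul_eq, rec_W h rgn_zone _ _ r, chP_oR _ _ _ (p2.1.trans (by decide)) (p2.2.trans (by decide)),
      hn]
    have e1 : (chP (par Z).P (tp 9) (tp 10)).x = tp 9 := rfl
    have e2 : (chP (par Z).P (tp 9) (tp 10)).y = tp 10 := rfl
    rw [e1, e2, hs, show rgo (tp 9) = true by decide, show rgo (tp 10) = true by decide]
    simp

theorem k_arm (P : Blk) (hP : tile P) {i j : ℤ} {d : Dir} (r : inA d i j = true) :
    (if d.1 then kY (chP P (tp i) (tp j)) else kX (chP P (tp i) (tp j))) =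
      tch (if d.1 then (infAt P (dx d) (dy d)).ty else (infAt P (dx d) (dy d)).tx).2 2 := by
  have g := rgo_inC ((rgn_arm d).inC i j (Or.inr r))
  have ex : (chP P (tp i) (tp j)).x = tp i := rfl
  have ey : (chP P (tp i) (tp j)).y = tp j := rfl
  have aux : ∀ (s : Bool) (a b : ℤ), arm1 s a b = true → rEx (tp a) 0 + dR (tp a) = sgn s := by
    intro s a b hh
    have := tp_val a
    cases s <;> simp only [arm1, Bool.and_eq_true, decide_eq_true_eq, Bool.false_eq_true, if_false,
      if_true] at hh <;> simp only [rEx, dR, exi, reg, sgn, Bool.false_eq_true, if_false, if_true] <;>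
      split_ifs <;> omega
  obtain ⟨a, s⟩ := d
  cases a <;> simp only [inA, Bool.false_eq_true, if_false, if_true] at r ⊢
  · rw [kX, oX, ex, ey, look_chP P _ _ (hP.1.trans g.1.symm) (hP.2.trans g.2.symm)
      (r_le _ (by simp)).1 (r_le _ (by simp)).2, aux _ _ _ r, (ch_aux _).2.2.2.2.2.2.2.1]
    rfl
  · rw [kY, oY, ex, ey, look_chP P _ _ (hP.1.trans g.1.symm) (hP.2.trans g.2.symm)
      (r_le _ (by simp)).2 (r_le _ (by simp)).1, aux _ _ _ r, (ch_aux _).2.2.2.2.2.2.2.1]
    rfl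

theorem rec_arm {Z : ℤ → ℤ → Cell} (d : Dir)
    (h : Chart (fun i j => inZ i j = true ∨ inA d i j = true) Z) :
    ∀ i j, inA d i j = true → Z i j = child (par Z) (tp i) (tp j) := by
  obtain ⟨-, p2, -⟩ := rec_par h (rgn_arm d)
  have key : ∀ i j, inA d i j = true → ∀ x y : U, kf x y ≠ (if d.1 then 1 else 2) →
      kk x y (kX (Z i j).P) (kY (Z i j).P) = kk x y
        (tch (if d.1 then (infAt (par Z).P (dx d) (dy d)).ty else (infAt (par Z).P (dx d) (dy d)).tx).2 2)
        (tch (if d.1 then (infAt (par Z).P (dx d) (dy d)).ty else (infAt (par Z).P (dx d) (dy d)).tx).2 2)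
        := by
    intro i j r x y hf
    rw [← k_arm _ p2 r, ← rec_W h (rgn_arm d) i j (Or.inr r)]
    cases hd : d.1 <;> rw [hd] at hf
    · exact kkT_congr _ (Or.inl rfl) (Or.inr hf)
    · exact kkT_congr _ (Or.inr hf) (Or.inl rfl)
  intro i j r
  refine rec_all h (rgn_arm d)
    (tch (if d.1 then (infAt (par Z).P (dx d) (dy d)).ty else (infAt (par Z).P (dx d) (dy d)).tx).2 2)
    (fun i j e r => ?_) (fun i j r => ?_) i j (Or.inr r)
  · exact r.elim (fun r => kk_zero (kf_zone r e).2 _ _ _ _) fun r => key i j r _ _ (kf_arm r e).2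
  · exact r.elim (fun r => kk_zero (kf_zone r d).1 _ _ _ _) fun r => key i j r _ _ (kf_arm r d).1

end Pool.Agent.FC
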