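import Pool.Agent.P.MP_5e292f_al.FChild
import Pool.Agent.P.MP_5e292f_al.FDet

set_option autoImplicit false

namespace Pool.Agent.FC

theorem inf_eq (P : Blk) : inf P = inf0 P.x P.y (oX P 0 0) (oY P 0 0) (oR P 0 0) := by
  rw [inf, infAt, mv_zero, mv_zero]

theorem rel_eq (P : Blk) (i j l : Fin 4) : (inf P).rel i j l =
    ((cPo P.x && cPo P.y && sP P.x P.y && piS P.x P.y (kX P) (kY P) == i && j == l &&
      sd P.x P.y (kX P) (kY P) l) ||
    (rgo P.x && rgo P.y && (oR P 0 0).rel i j l && sd P.x P.y (kX P) (kY P) i &&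
      sd P.x P.y (kX P) (kY P) j)) := by
  rw [inf_eq]; rfl

theorem nul_eq (P : Blk) (i : Fin 4) : (inf P).nul i =
    (sym P.x P.y (kX P) (kY P) i == 0 ||
    (rgo P.x && rgo P.y && (oR P 0 0).nul i && sd P.x P.y (kX P) (kY P) i)) := by
  rw [inf_eq]; rfl

theorem od_dQ (u x : U) (hx : od u = rgo x) : od (mv u (dQ x)) = cPo x := by
  obtain ⟨-, a1, -, -, a2, -, -, -, -, a3, a4, -⟩ := ch_aux x
  by_cases h0 : dQ x = 0
  · rw [h0, mv_zero, hx, a3 h0]
  · rw [(od_mv u a1).1 h0, hx, a2 h0, a4 h0]; rfl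

theorem win_dP (x : U) (c : ℤ) (h : win (cSo x) c = true) : win (cPo x) (c + dP x) = true := by
  obtain ⟨-, -, a1, -, -, -, a2, -, a3, -⟩ := ch_aux x
  by_cases h0 : dP x = 0
  · rw [h0, add_zero]
    cases hc : cSo x
    · rw [hc] at h
      cases cPo x
      · exact h
      · have := win_step (e := 0) (by simp) h
        rwa [add_zero] at this
    · rw [hc] at h; rw [(a2 hc).2]; exact h
  · rw [(a3 h0).2] at h
    rw [(a3 h0).1]
    exact win_step a1 h

theorem sh_G_dQ (P : Blk) (x y : U) (hx : od P.x = rgo x) (hy : od P.y = rgo y) :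
    sh (dP x) (dP y) (cSo x) (cSo y) (G (bdv (dQ x) (dQ y) P)) =
      sh (dR x) (dR y) (cSo x) (cSo y) (G P) := by
  rw [G_bdv _ _ _ (ch_aux x).2.1 (ch_aux y).2.1 (fun h => by rw [hx, (ch_aux x).2.2.2.2.1 h])
    (fun h => by rw [hy, (ch_aux y).2.2.2.2.1 h]), od_dQ _ _ hx, od_dQ _ _ hy,
    sh_sh _ _ _ _ _ _ _ _ _ (win_dP x) (win_dP y), (ch_aux x).2.2.2.1, (ch_aux y).2.2.2.1]

theorem child_ok (c : Cell) (x y : U) (hx : od c.P.x = rgo x) (hy : od c.P.y = rgo y)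
    (hv : tile c.P → Valid c) (ox : od x = true) (oy : od y = true) : ok (chP c.P x y) := by
  intro sx sy i mx my
  have ex : (chP c.P x y).x = x := rfl
  have ey : (chP c.P x y).y = y := rfl
  have hc := (c2_spec sx sy x y ox oy (kX (chP c.P x y)) (kY (chP c.P x y))).1
  simp only [cCorT, Bool.and_eq_true] at hc
  replace hc := hc.2
  have e1 := opOf_eq (chP c.P x y) (false, sx) ox
  have e2 := opOf_eq (chP c.P x y) (true, sy) oy
  simp only [co, Bool.false_eq_true, if_false, if_true, ex, ey, pop, dx, dy, mv_zero] at e1 e2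
  by_cases fx : fIn x sx = true <;> by_cases fy : fIn y sy = true
  · rw [if_pos ⟨fx, fy⟩] at hc
    have rx := ((ch_aux2 x sx ox).2 fx).2.2.2.2.2.1
    have ry := ((ch_aux2 y sy oy).2 fy).2.2.2.2.2.1
    rw [(opOf_chP c.P x y (false, sx) hx hy fx).2] at mx ⊢
    rw [(opOf_chP c.P x y (true, sy) hx hy fy).2] at my ⊢
    obtain ⟨m1, m2, j, hj, hr⟩ := (hv ⟨hx.trans rx, hy.trans ry⟩).okk sx sy i mx my
    refine ⟨m1, m2, j, hj, ?_⟩
    rw [rel_eq, chP_oR _ _ _ hx hy, ex, ey, rx, ry, hr]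
    have a := all4_spec hc i
    have b := all4_spec hc j
    simp only [sd, a, b, Bool.and_self, Bool.or_true]
  · rw [if_neg (fun h => fy h.2), if_pos fx] at hc
    rw [e1, if_pos fx] at mx
    rw [e2, if_neg fy] at my
    have a := all4_spec hc i
    rw [Bool.or_eq_true, beq_iff_eq, beq_iff_eq] at a
    exact absurd (a.resolve_left my) ((tch_aux _ _ i).1 ((tch_aux _ _ i).2.2.2 mx))
  · rw [if_neg (fun h => fx h.1), if_neg fx, if_pos fy] at hc
    rw [e1, if_neg fx] at mx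
    rw [e2, if_pos fy] at my
    have a := all4_spec hc i
    rw [Bool.or_eq_true, beq_iff_eq, beq_iff_eq] at a
    exact absurd (a.resolve_left mx) ((tch_aux _ _ i).1 ((tch_aux _ _ i).2.2.2 my))
  · rw [if_neg (fun h => fx h.1), if_neg fx, if_neg fy] at hc
    rw [e1, if_neg fx] at mx ⊢
    rw [e2, if_neg fy] at my ⊢
    have a := all4_spec hc i
    simp only [Bool.or_eq_true, beq_iff_eq, Bool.and_eq_true, bne_iff_ne] at a
    obtain ⟨⟨⟨⟨⟨⟨a1, a2⟩, a3, a3'⟩, a4⟩, a5⟩, a6⟩, a7⟩ :=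
      a.resolve_left (fun h => h.elim mx my)
    refine ⟨a1, a2, xc sx sy, a7, ?_⟩
    rw [rel_eq, ex, ey]
    simp only [sP, piS, sd, a3, a3', a4, a5, a6, beq_self_eq_true, Bool.and_self, Bool.true_or]

theorem child_valid (c : Cell) (x y : U) (hx : od c.P.x = rgo x) (hy : od c.P.y = rgo y)
    (hv : tile c.P → Valid c) (ox : od x = true) (oy : od y = true) : Valid (child c x y) := by
  have ex : (child c x y).P.x = x := rfl
  have ey : (child c x y).P.y = y := rfl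
  have eP : (child c x y).P = chP c.P x y := rfl
  have hz : cPo x = true → cPo y = true → bdv (dQ x) (dQ y) c.P = c.P ∧ tile c.P := fun a b => by
    obtain ⟨a1, a2⟩ := (ch_aux x).2.2.2.2.2.2.2.2.2.2.2 a
    obtain ⟨b1, b2⟩ := (ch_aux y).2.2.2.2.2.2.2.2.2.2.2 b
    exact ⟨by rw [a1, b1, bdv_zero], hx.trans a2, hy.trans b2⟩
  refine ⟨⟨ox, oy⟩, child_ok c x y hx hy hv ox oy, ?_, ?_, ?_⟩
  · rintro l ⟨hs, rfl⟩
    refine ⟨_, child_valP c x y hs, od_dQ _ _ hx, od_dQ _ _ hy, (sh_G_dQ _ _ _ hx hy).symm, ?_⟩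
    intro ht
    obtain ⟨e, h⟩ := hz ((od_dQ _ _ hx).symm.trans ht.1) ((od_dQ _ _ hy).symm.trans ht.2)
    rw [e]
    exact (hv h).okk
  · intro i j l h
    rw [rel_eq, ex, ey, eP, chP_oR _ _ _ hx hy] at h
    simp only [Bool.or_eq_true, Bool.and_eq_true, beq_iff_eq] at h
    rcases h with ⟨⟨⟨⟨⟨a1, a2⟩, a3⟩, rfl⟩, rfl⟩, a6⟩ | ⟨⟨⟨⟨a1, a2⟩, a3⟩, a4⟩, a5⟩
    · obtain ⟨e, h⟩ := hz a1 a2
      have := child_valP c x y a3
      rw [e] at this
      intro u hu
      obtain rfl : c.P = u := Option.some.inj (this.symm.trans hu)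
      rw [child_slot c x y j a6]
      exact ⟨h, (hv h).cr j⟩
    · rw [child_slot c x y i a4, child_slot c x y j a5]
      exact (hv ⟨hx.trans a1, hy.trans a2⟩).rl i j l a3
  · intro i h
    rw [nul_eq, ex, ey, eP, chP_oR _ _ _ hx hy] at h
    simp only [Bool.or_eq_true, Bool.and_eq_true, beq_iff_eq] at h
    rcases h with h | ⟨⟨⟨a1, a2⟩, a3⟩, a4⟩
    · simp [child, chS, h]
    · rw [child_slot c x y i a4]
      exact (hv ⟨hx.trans a1, hy.trans a2⟩).nl i a3

theorem seed : ∃ c, Valid c :=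
  ⟨child ⟨⟨0, 0, fun _ _ => dflt⟩, fun _ => none⟩ 59 59,
    child_valid _ _ _ (by decide) (by decide) (fun h => absurd h.1 (by decide)) (by decide) (by decide)⟩

end Pool.Agent.FC
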