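import Pool.Agent.P.MP_5e292f_al.GVH

set_option autoImplicit false

namespace Pool.Agent.FC

variable {A : Type} {G : Type} [Group G] {D : VH A} {ι : A → G}

theorem ev_append (u w : List A) : ev ι (u ++ w) = ev ι u * ev ι w := by simp [ev]

theorem ev_cons (a : A) (w : List A) : ev ι (a :: w) = ι a * ev ι w := by simp [ev]

/-- One rewriting step. -/
inductive GNfSt (D : VH A) : List A → List A → Prop
  | can (a b : A) (y : List A) : b = D.inv a → GNfSt D (a :: b :: y) y
  | sq (h v v' h' : A) (y : List A) : D.Sq h v v' h' → GNfSt D (h :: v :: y) (v' :: h' :: y)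
  | cons (a : A) {u w : List A} : GNfSt D u w → GNfSt D (a :: u) (a :: w)

/-- The number of pairs with a horizontal letter before a vertical one. -/
def gnfN (D : VH A) : List A → ℕ
  | [] => 0
  | a :: w => gnfN D w + if D.c a then w.countP D.tr.c else 0

theorem gnf_trc (a : A) : D.tr.c a = !D.c a := rfl

theorem gnf_count {u w : List A} (h : GNfSt D u w) :
    w.countP D.c ≤ u.countP D.c ∧ w.countP D.tr.c ≤ u.countP D.tr.c ∧
      w.length + gnfN D w < u.length + gnfN D u := by
  induction h with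
  | can a b y e =>
    simp only [List.countP_cons, List.length_cons, gnfN]
    omega
  | sq h v v' h' y q =>
    obtain ⟨c1, c2, c3, c4⟩ := D.sq_c _ _ _ _ q
    simp [gnfN, gnf_trc, c1, c2, c3, c4]
  | cons a _ ih =>
    simp only [List.countP_cons, List.length_cons, gnfN]
    split_ifs <;> omega

theorem gnf_ev (h : Pres D ι) {u w : List A} (s : GNfSt D u w) : ev ι w = ev ι u := by
  induction s with
  | can a b y e => rw [ev_cons, ev_cons, e, h.inv, mul_inv_cancel_left]
  | sq k v v' k' y q =>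
    rw [ev_cons, ev_cons, ev_cons, ev_cons, ← mul_assoc, ← mul_assoc, h.sq _ _ _ _ q]
  | cons a _ ih => rw [ev_cons, ev_cons, ih]

theorem gnf_irr_step {u w : List A} (s : GNfSt D u w) : ¬Irr D u := by
  induction s with
  | can a b y e => exact fun hu => (List.isChain_cons_cons.1 hu).1.1 e
  | sq k v v' k' y q => exact fun hu => (List.isChain_cons_cons.1 hu).1.2 ⟨_, _, q⟩
  | cons a _ ih => exact fun hu => ih (List.IsChain.tail hu)

theorem gnf_step_of_not_irr : ∀ u : List A, ¬Irr D u → ∃ w, GNfSt D u w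
  | [], h => (h List.IsChain.nil).elim
  | [a], h => (h (List.IsChain.singleton a)).elim
  | a :: b :: y, h => by
    by_cases e : b = D.inv a
    · exact ⟨_, .can a b y e⟩
    by_cases q : ∃ v' h', D.Sq a b v' h'
    · obtain ⟨v', h', q⟩ := q
      exact ⟨_, .sq _ _ _ _ y q⟩
    obtain ⟨w, s⟩ := gnf_step_of_not_irr (b :: y)
      fun hi => h (List.isChain_cons_cons.2 ⟨⟨e, q⟩, hi⟩)
    exact ⟨_, .cons a s⟩

open Relation

theorem gnf_cons_star (a : A) {u w : List A} (s : ReflTransGen (GNfSt D) u w) :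
    ReflTransGen (GNfSt D) (a :: u) (a :: w) := by
  induction s with
  | refl => exact .refl
  | tail _ t ih => exact ih.tail (.cons a t)

theorem gnf_can_cons {a b : A} {y w : List A} (e : b = D.inv a) (s : GNfSt D (b :: y) w) :
    ∃ z, ReflTransGen (GNfSt D) y z ∧ ReflTransGen (GNfSt D) (a :: w) z := by
  cases s with
  | can _ c y' e' =>
    have : c = a := by rw [e', e, D.inv_inv]
    subst this
    exact ⟨_, .refl, .refl⟩
  | sq _ v v' h' y' q =>
    have q' := D.sq_l _ _ _ _ q
    rw [e, D.inv_inv] at q'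
    exact ⟨_, .refl, (ReflTransGen.single (.sq _ _ _ _ _ q')).tail
      (.cons v (.can _ _ _ (D.inv_inv h').symm))⟩
  | cons _ t => exact ⟨_, .single t, .single (.can _ _ _ e)⟩

theorem gnf_sq_cons {h v v' h' : A} {y w : List A} (q : D.Sq h v v' h')
    (s : GNfSt D (v :: y) w) :
    ∃ z, ReflTransGen (GNfSt D) (v' :: h' :: y) z ∧ ReflTransGen (GNfSt D) (h :: w) z := by
  cases s with
  | can _ c y' e' =>
    have q' := D.sq_r _ _ _ _ q
    rw [← e'] at q'
    exact ⟨_, (ReflTransGen.single (.cons v' (.sq _ _ _ _ _ q'))).tail (.can _ _ _ rfl), .refl⟩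
  | sq _ u u' k' y' q' =>
    have c1 := (D.sq_c _ _ _ _ q).2.1
    rw [(D.sq_c _ _ _ _ q').1] at c1
    exact absurd c1 (by decide)
  | cons _ t => exact ⟨_, .single (.cons _ (.cons _ t)), .single (.sq _ _ _ _ _ q)⟩

theorem gnf_no_can_sq {a b v' h' : A} (e : b = D.inv a) (q : D.Sq a b v' h') : False := by
  obtain ⟨c1, c2, -, -⟩ := D.sq_c _ _ _ _ q
  rw [e, D.c_inv, c1] at c2
  exact absurd c2 (by decide)

theorem gnf_local {u w w' : List A} (s : GNfSt D u w) (s' : GNfSt D u w') :
    ∃ z, ReflTransGen (GNfSt D) w z ∧ ReflTransGen (GNfSt D) w' z := by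
  induction s generalizing w' with
  | can a b y e =>
    cases s' with
    | can _ _ _ _ => exact ⟨_, .refl, .refl⟩
    | sq _ _ v' h' _ q => exact (gnf_no_can_sq e q).elim
    | cons _ t => exact gnf_can_cons e t
  | sq k v v' k' y q =>
    cases s' with
    | can _ _ _ e => exact (gnf_no_can_sq e q).elim
    | sq _ _ v'' k'' _ q' =>
      obtain ⟨rfl, rfl⟩ := D.sq_fun _ _ _ _ _ _ q q'
      exact ⟨_, .refl, .refl⟩
    | cons _ t => exact gnf_sq_cons q t
  | cons a t ih =>
    cases s' with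
    | can _ b _ e =>
      obtain ⟨z, h1, h2⟩ := gnf_can_cons e t
      exact ⟨z, h2, h1⟩
    | sq _ v v' k' y q =>
      obtain ⟨z, h1, h2⟩ := gnf_sq_cons q t
      exact ⟨z, h2, h1⟩
    | cons _ t' =>
      obtain ⟨z, h1, h2⟩ := ih t'
      exact ⟨_, gnf_cons_star a h1, gnf_cons_star a h2⟩

theorem gnf_norm (u : List A) : ∃ w, Irr D w ∧ ReflTransGen (GNfSt D) u w := by
  induction hn : u.length + gnfN D u using Nat.strong_induction_on generalizing u with
  | _ n ih =>
    by_cases hi : Irr D u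
    · exact ⟨u, hi, .refl⟩
    obtain ⟨v, s⟩ := gnf_step_of_not_irr u hi
    obtain ⟨w, hw, t⟩ := ih _ (hn ▸ (gnf_count s).2.2) v rfl
    exact ⟨w, hw, t.head s⟩

theorem gnf_irr_star {u w : List A} (hu : Irr D u) (s : ReflTransGen (GNfSt D) u w) : u = w := by
  rcases s.cases_head with e | ⟨c, t, -⟩
  · exact e
  · exact (gnf_irr_step t hu).elim

theorem gnf_newman (u : List A) : ∀ w w', Irr D w → Irr D w' → ReflTransGen (GNfSt D) u w →
    ReflTransGen (GNfSt D) u w' → w = w' := by
  induction hn : u.length + gnfN D u using Nat.strong_induction_on generalizing u with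
  | _ n ih =>
    intro w w' hw hw' s s'
    rcases s.cases_head with e | ⟨c, t, r⟩
    · subst e; exact gnf_irr_star hw s'
    rcases s'.cases_head with e | ⟨c', t', r'⟩
    · subst e; exact (gnf_irr_step t hw').elim
    obtain ⟨z, h1, h2⟩ := gnf_local t t'
    obtain ⟨m, hm, h3⟩ := gnf_norm (D := D) z
    exact (ih _ (hn ▸ (gnf_count t).2.2) c rfl w m hw hm r (h1.trans h3)).trans
      (ih _ (hn ▸ (gnf_count t').2.2) c' rfl m w' hm hw' (h2.trans h3) r')

theorem gnf_ctx (x : List A) {u w : List A} (s : GNfSt D u w) : GNfSt D (x ++ u) (x ++ w) := by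
  induction x with
  | nil => exact s
  | cons a x ih => exact .cons a ih

theorem gnf_step_iff {u w n : List A} (s : GNfSt D u w) (hn : Irr D n) :
    ReflTransGen (GNfSt D) u n ↔ ReflTransGen (GNfSt D) w n := by
  refine ⟨fun t => ?_, fun t => t.head s⟩
  obtain ⟨m, hm, r⟩ := gnf_norm (D := D) w
  rw [gnf_newman u n m hn hm t (r.head s)]
  exact r

theorem gnf_eqv {u w n : List A} (e : Eqv D u w) (hn : Irr D n) :
    ReflTransGen (GNfSt D) u n ↔ ReflTransGen (GNfSt D) w n := by
  induction e with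
  | refl w => exact Iff.rfl
  | symm _ ih => exact ih.symm
  | trans _ _ i1 i2 => exact i1.trans i2
  | can x y a => exact gnf_step_iff (gnf_ctx x (.can a _ y rfl)) hn
  | sq x y h v v' h' q => exact gnf_step_iff (gnf_ctx x (.sq h v v' h' y q)) hn

/-- Every word has an irreducible equivalent with no more letters of either kind. -/
theorem nf_exists (h : Pres D ι) (u : List A) : ∃ w, Irr D w ∧ ev ι w = ev ι u ∧
    w.countP D.c ≤ u.countP D.c ∧ w.countP D.tr.c ≤ u.countP D.tr.c := by
  obtain ⟨w, hw, s⟩ := gnf_norm (D := D) u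
  refine ⟨w, hw, ?_⟩
  clear hw
  induction s with
  | refl => exact ⟨rfl, le_rfl, le_rfl⟩
  | tail _ t ih =>
    exact ⟨(gnf_ev h t).trans ih.1, (gnf_count t).1.trans ih.2.1, (gnf_count t).2.1.trans ih.2.2⟩

theorem nf_unique (h : Pres D ι) {u w : List A} (hu : Irr D u) (hw : Irr D w)
    (e : ev ι u = ev ι w) : u = w :=
  gnf_irr_star hu ((gnf_eqv (h.eqv u w e) hw).2 .refl)

theorem len_irr (h : Pres D ι) {w : List A} (hw : Irr D w) :
    len D ι (ev ι w) = w.countP D.c ∧ len D.tr ι (ev ι w) = w.countP D.tr.c := by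
  constructor
  · refine le_antisymm (Nat.sInf_le ⟨w, rfl, rfl⟩) (le_csInf ⟨_, w, rfl, rfl⟩ ?_)
    rintro n ⟨u, e, rfl⟩
    obtain ⟨w', hw', e', c1, -⟩ := nf_exists h u
    rw [← nf_unique h hw' hw (e'.trans e)]
    exact c1
  · refine le_antisymm (Nat.sInf_le ⟨w, rfl, rfl⟩) (le_csInf ⟨_, w, rfl, rfl⟩ ?_)
    rintro n ⟨u, e, rfl⟩
    obtain ⟨w', hw', e', -, c2⟩ := nf_exists h u
    rw [← nf_unique h hw' hw (e'.trans e)]
    exact c2

theorem len_le (w : List A) : len D ι (ev ι w) ≤ w.countP D.c :=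
  Nat.sInf_le ⟨w, rfl, rfl⟩

/-- A reduced word in letters of one kind is irreducible. -/
theorem irr_of_red {w : List A} {b : Bool} (hw : Red D w) (hc : ∀ a ∈ w, D.c a = b) : Irr D w := by
  refine List.IsChain.imp_of_mem_imp (fun x y hx hy e => ⟨e, ?_⟩) hw
  rintro ⟨v', h', q⟩
  obtain ⟨c1, c2, -, -⟩ := D.sq_c _ _ _ _ q
  rw [hc x hx] at c1
  rw [hc y hy, c1] at c2
  exact absurd c2 (by decide)

/-- A reduced vertical word followed by a reduced horizontal word is irreducible. -/
theorem irr_vh {u w : List A} (hu : Red D u) (hw : Red D w) (cu : ∀ a ∈ u, D.c a = false)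
    (cw : ∀ a ∈ w, D.c a = true) : Irr D (u ++ w) := by
  refine List.IsChain.append (irr_of_red hu cu) (irr_of_red hw cw) fun x hx y hy => ?_
  have c1 := cu x (List.mem_of_mem_getLast? hx)
  have c2 := cw y (List.mem_of_mem_head? hy)
  refine ⟨fun e => ?_, ?_⟩
  · rw [e, D.c_inv, c1] at c2
    exact absurd c2 (by decide)
  · rintro ⟨v', h', q⟩
    rw [(D.sq_c _ _ _ _ q).1] at c1
    exact absurd c1 (by decide)

theorem gnf_word (h : Pres D ι) (g : G) : ∃ w, Irr D w ∧ ev ι w = g ∧
    len D ι g = w.countP D.c ∧ len D.tr ι g = w.countP D.tr.c := by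
  obtain ⟨u, rfl⟩ := h.surj g
  obtain ⟨w, hw, e, -, -⟩ := nf_exists h u
  exact ⟨w, hw, e, e ▸ len_irr h hw⟩

theorem len_zero (h : Pres D ι) {g : G} (hg : len D ι g = 0) :
    ∃ w, Red D w ∧ (∀ a ∈ w, D.c a = false) ∧ ev ι w = g ∧ len D.tr ι g = w.length := by
  obtain ⟨w, hw, e, l1, l2⟩ := gnf_word h g
  rw [hg, eq_comm, List.countP_eq_zero] at l1
  have hc : ∀ a ∈ w, D.c a = false := fun a ha => by simpa using l1 a ha
  refine ⟨w, List.IsChain.imp (fun _ _ t => t.1) hw, hc, e, ?_⟩
  rw [l2, List.countP_eq_length]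
  intro a ha
  rw [gnf_trc, hc a ha]; rfl

theorem gnf_length (w : List A) : w.length = w.countP D.c + w.countP D.tr.c := by
  induction w with
  | nil => rfl
  | cons a w ih =>
    cases e : D.c a <;> simp [gnf_trc, e] <;> omega

theorem finite_ball [Finite A] (h : Pres D ι) (n : ℕ) :
    {g : G | len D ι g ≤ n ∧ len D.tr ι g ≤ n}.Finite := by
  refine ((List.finite_length_le A (2 * n)).image (ev ι)).subset ?_
  rintro g ⟨h1, h2⟩
  obtain ⟨w, -, e, l1, l2⟩ := gnf_word h g
  refine ⟨w, ?_, e⟩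
  show w.length ≤ 2 * n
  rw [gnf_length (D := D)]
  omega

/-- The sign of a letter. -/
def gnfS (D : VH A) (a : A) : ℤ := if D.c a then (if D.sg a then 1 else -1) else 0

theorem gnf_S_eqv {u w : List A} (e : Eqv D u w) :
    (u.map (gnfS D)).sum = (w.map (gnfS D)).sum := by
  induction e with
  | refl w => rfl
  | symm _ ih => exact ih.symm
  | trans _ _ i1 i2 => exact i1.trans i2
  | can x y a =>
    have : gnfS D a + gnfS D (D.inv a) = 0 := by
      unfold gnfS
      rw [D.c_inv, D.sg_inv]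
      cases D.c a <;> cases D.sg a <;> simp
    simp only [List.map_append, List.map_cons, List.sum_append, List.sum_cons]
    linarith
  | sq x y h v v' h' q =>
    obtain ⟨c1, c2, c3, c4⟩ := D.sq_c _ _ _ _ q
    have : gnfS D h + gnfS D v = gnfS D v' + gnfS D h' := by
      unfold gnfS
      rw [c1, c2, c3, c4, (D.sq_sg _ _ _ _ q).1]
      simp
    simp only [List.map_append, List.map_cons, List.sum_append, List.sum_cons]
    linarith

theorem gnf_S_par (w : List A) : ((w.map (gnfS D)).sum - (w.countP D.c : ℕ)) % 2 = 0 ∧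
    (w.countP D.c = 0 → (w.map (gnfS D)).sum = 0) := by
  induction w with
  | nil => simp
  | cons a w ih =>
    simp only [List.map_cons, List.sum_cons, List.countP_cons]
    generalize (w.map (gnfS D)).sum = S at *
    unfold gnfS
    obtain ⟨i1, i2⟩ := ih
    constructor
    · split_ifs <;> omega
    · by_cases c1 : D.c a = true
      · rw [if_pos c1, if_pos c1]
        exact fun e => absurd e (Nat.succ_ne_zero _)
      · rw [if_neg c1, if_neg c1]
        omega

/-- The signed count of horizontal letters. -/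
theorem exists_eps (h : Pres D ι) : ∃ ε : G → ℤ, (∀ g k, ε (g * k) = ε g + ε k) ∧
    ∀ g, (ε g - len D ι g) % 2 = 0 ∧ (len D ι g = 0 → ε g = 0) := by
  choose f hf using h.surj
  have key : ∀ w, ((f (ev ι w)).map (gnfS D)).sum = (w.map (gnfS D)).sum :=
    fun w => gnf_S_eqv (h.eqv _ _ (hf _))
  refine ⟨fun g => ((f g).map (gnfS D)).sum, fun g k => ?_, fun g => ?_⟩
  · have := key (f g ++ f k)
    rw [ev_append, hf, hf] at this
    simpa using this
  · obtain ⟨w, -, rfl, l1, -⟩ := gnf_word h g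
    simp only [key, l1]
    exact gnf_S_par w

end Pool.Agent.FC
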