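import Pool.Agent.P.MP_5e292f_al.Dyn
import Pool.Agent.P.MP_5e292f_al.Bieber

set_option autoImplicit false
set_option linter.unusedSectionVars false

namespace Pool.Agent.FlatDich

open Metric Set Filter Topology Pointwise

variable {X : Type*} [MetricSpace X] [ProperSpace X]
variable {Γ : Type*} [Group Γ] [MulAction Γ X] [IsIsometricSMul Γ X]

lemma subflat {V : Type*} [NormedAddCommGroup V] [InnerProductSpace ℝ V] [FiniteDimensional ℝ V]
    (hprop : ∀ K : Set X, IsCompact K → {g : Γ | ((g • K) ∩ K).Nonempty}.Finite)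
    {g : V → X} (hg : Isometry g) (H : Subgroup Γ) (hH : ∀ h ∈ H, h • range g = range g)
    {K : Set X} (hK : IsCompact K) (hcov : range g ⊆ ⋃ h ∈ H, h • K) {n : ℕ}
    (hn : n ≤ Module.finrank ℝ V) :
    ∃ f : EuclideanSpace ℝ (Fin n) → X, Isometry f ∧ ∃ H : Subgroup Γ,
      (∀ h : Γ, h ∈ H → h • range f = range f) ∧
      ∃ K : Set X, IsCompact K ∧ range f ⊆ ⋃ h ∈ H, (h : Γ) • K := by
  have ex : ∀ (h : H) (a : V), ∃ b, g b = (h : Γ) • g a := fun h a => by
    have : (h : Γ) • g a ∈ range g := hH h h.2 ▸ smul_mem_smul_set (mem_range_self a)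
    exact this
  choose σ hσ using ex
  have σmul : ∀ h k a, σ (h * k) a = σ h (σ k a) := fun h k a =>
    hg.injective (by rw [hσ, hσ, hσ, Subgroup.coe_mul, mul_smul])
  have σone : ∀ a, σ 1 a = a := fun a => hg.injective (by rw [hσ]; simp)
  let I : H → V ≃ᵢ V := fun h =>
    { toFun := σ h
      invFun := σ h⁻¹
      left_inv := fun a => by rw [← σmul, inv_mul_cancel, σone]
      right_inv := fun a => by rw [← σmul, mul_inv_cancel, σone]
      isometry_toFun := Isometry.of_dist_eq fun a b => by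
        rw [← hg.dist_eq, hσ, hσ, dist_smul, hg.dist_eq] }
  let A : H → V ≃ₗᵢ[ℝ] V := fun h => (I h).toRealLinearIsometryEquiv
  let t : H → V := fun h => σ h 0
  have hA : ∀ h x, A h x = σ h x - t h := fun h x => (I h).toRealLinearIsometryEquiv_apply x
  have ht : ∀ h k, t (h * k) = A h (t k) + t h := fun h k => by
    rw [hA, sub_add_cancel]; exact σmul h k 0
  have C : Cryst A t := by
    refine ⟨fun h k x => ?_, ht, fun R => ?_, ?_⟩
    · rw [hA (h * k), ht, σmul, hA k, map_sub, hA h (σ k x)]; abel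
    · refine ((hprop _ (isCompact_closedBall (g 0) R)).preimage
        (Subtype.val_injective (p := fun x => x ∈ H)).injOn).subset fun h hh => ?_
      have hR : ‖t h‖ ≤ R := hh
      refine ⟨(h : Γ) • g 0, smul_mem_smul_set (mem_closedBall_self ((norm_nonneg _).trans hR)), ?_⟩
      rw [mem_closedBall, ← hσ, hg.dist_eq, dist_zero_right]
      exact hR
    · obtain ⟨d, hd⟩ := hK.isBounded.subset_closedBall (g 0)
      refine ⟨d, fun x => ?_⟩
      have := hcov (mem_range_self x)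
      simp only [mem_iUnion] at this
      obtain ⟨h, hh, k, hk, e⟩ := this
      refine ⟨⟨h, hh⟩, ?_⟩
      rw [← dist_eq_norm, ← hg.dist_eq, hσ, ← e, dist_smul]
      exact hd hk
  obtain ⟨W, d, hW, hd⟩ := C.subspace hn
  let ι : EuclideanSpace ℝ (Fin n) ≃ₗᵢ[ℝ] W :=
    ((stdOrthonormalBasis ℝ W).reindex (finCongr hW)).repr.symm
  have hr : range (fun x => g (ι x)) = g '' W := by
    ext y
    constructor
    · rintro ⟨x, rfl⟩; exact ⟨_, (ι x).2, rfl⟩
    · rintro ⟨w, hw, rfl⟩; exact ⟨ι.symm ⟨w, hw⟩, by simp⟩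
  have tr : ∀ h : H, (∀ y, A h y = y) → ∀ x, (h : Γ) • g x = g (x + t h) := fun h h1 x => by
    rw [← hσ]; congr 1; rw [← h1 x, hA, sub_add_cancel, ← hA, h1]
  refine ⟨fun x => g (ι x), hg.comp (isometry_subtype_coe.comp ι.isometry),
    MulAction.stabilizer Γ (g '' W), fun h hh => by rw [hr]; exact hh, closedBall (g 0) d,
    isCompact_closedBall _ _, ?_⟩
  rw [hr]
  rintro _ ⟨x, hx, rfl⟩
  obtain ⟨h, h1, h2, h3⟩ := hd x hx
  simp only [mem_iUnion]
  refine ⟨h, ?_, g (x - t h), ?_, ?_⟩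
  · rw [MulAction.mem_stabilizer_iff]
    ext y
    constructor
    · rintro ⟨_, ⟨w, hw, rfl⟩, rfl⟩
      exact ⟨w + t h, W.add_mem hw h2, (tr h h1 w).symm⟩
    · rintro ⟨w, hw, rfl⟩
      exact ⟨_, ⟨w - t h, W.sub_mem hw h2, rfl⟩, by
        change (h : Γ) • g _ = _
        rw [tr h h1, sub_add_cancel]⟩
  · rw [mem_closedBall, hg.dist_eq, dist_zero_right]; exact h3
  · change (h : Γ) • g _ = _
    rw [tr h h1, sub_add_cancel]

lemma haus_top {E : Type*} {f g : E → X} (h : ¬ Par f g) :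
    hausdorffEDist (range f) (range g) = ⊤ := by
  by_contra hne
  refine h ⟨hausdorffDist (range f) (range g) + 1, fun a => ?_, fun b => ?_⟩
  · obtain ⟨_, ⟨b, rfl⟩, hb⟩ :=
      exists_dist_lt_of_hausdorffDist_lt (mem_range_self a) (lt_add_one _) hne
    exact ⟨b, hb.le⟩
  · obtain ⟨_, ⟨a, rfl⟩, ha⟩ :=
      exists_dist_lt_of_hausdorffDist_lt' (mem_range_self b) (lt_add_one _) hne
    exact ⟨a, ha.le⟩

lemma flat_succ {N : ℕ} {L : EuclideanSpace ℝ (Fin N) × ℝ → X}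
    (hL : ∀ p q, dist (L p) (L q) ^ 2 = (p.2 - q.2) ^ 2 + dist p.1 q.1 ^ 2) :
    ∃ f : EuclideanSpace ℝ (Fin (N + 1)) → X, Isometry f := by
  refine ⟨fun x => L (WithLp.toLp 2 fun i => x i.castSucc, x (Fin.last N)),
    Isometry.of_dist_eq fun x y => ?_⟩
  refine (pow_left_inj₀ dist_nonneg dist_nonneg two_ne_zero).1 ?_
  rw [hL, EuclideanSpace.dist_sq_eq, EuclideanSpace.dist_sq_eq, Fin.sum_univ_castSucc, add_comm]
  simp [Real.dist_eq]

theorem main (hX : CN X)
    (hprop : ∀ K : Set X, IsCompact K → {g : Γ | ((g • K) ∩ K).Nonempty}.Finite)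
    (hcoc : ∃ K : Set X, IsCompact K ∧ ∀ x : X, ∃ g : Γ, x ∈ g • K) (N : ℕ)
    (f : EuclideanSpace ℝ (Fin N) → X) (hf : Isometry f) :
    (∀ n ≤ N, ∃ f' : EuclideanSpace ℝ (Fin n) → X, Isometry f' ∧ ∃ H : Subgroup Γ,
      (∀ h : Γ, h ∈ H → h • range f' = range f') ∧
      ∃ K : Set X, IsCompact K ∧ range f' ⊆ ⋃ h ∈ H, (h : Γ) • K) ∨
    ∃ F : ℝ → EuclideanSpace ℝ (Fin N) → X, (∀ s, Isometry (F s)) ∧
      (∀ s t, s ≠ t → hausdorffEDist (range (F s)) (range (F t)) = ⊤) ∧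
      ((¬ ∃ g : EuclideanSpace ℝ (Fin (N + 1)) → X, Isometry g) →
        ∀ s, F s ∈ closure {g | ∃ (γ : Γ) (v : EuclideanSpace ℝ (Fin N)),
          g = fun a => γ • f (a + v)}) := by
  obtain ⟨K, hK, hcov⟩ := hcoc
  have hcov' : ∀ x : X, ∃ γ : Γ, γ • x ∈ K := fun x =>
    (hcov x).elim fun γ h => ⟨γ⁻¹, mem_smul_set_iff_inv_smul_mem.1 h⟩
  rcases Nat.eq_zero_or_pos N with rfl | hN
  · left
    intro n hn
    obtain rfl : n = 0 := by omega
    refine ⟨f, hf, ⊥, fun h hh => by rw [Subgroup.mem_bot.1 hh, one_smul], range f,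
      (finite_range f).isCompact, fun x hx => ?_⟩
    simp only [mem_iUnion]
    exact ⟨1, Subgroup.one_mem _, by rwa [one_smul]⟩
  by_cases hun : ∀ R : ℝ, ∃ f g : EuclideanSpace ℝ (Fin N) → X,
      Isometry f ∧ Isometry g ∧ Al f g ∧ R ≤ dist (f 0) (g 0)
  · right
    obtain ⟨L, hL⟩ := exists_thick hX hK hcov' hun
    obtain ⟨F, h1, h2⟩ := tilt (e := EuclideanSpace.single (⟨0, hN⟩ : Fin N) (1 : ℝ))
      (by simp) hL
    exact ⟨F, h1, fun s t hst => haus_top (h2 s t hst), fun h => absurd (flat_succ hL) h⟩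
  push Not at hun
  obtain ⟨R, hR⟩ := hun
  set M0 := closure {g | ∃ (γ : Γ) (v : EuclideanSpace ℝ (Fin N)), g = fun a => γ • f (a + v)}
    with hM0
  have hiso : ∀ g ∈ M0, Isometry g := closure_minimal
    (by rintro _ ⟨γ, v, rfl⟩; exact isometry_act γ v hf) isClosed_isom
  have hinv : Inv Γ M0 := by
    refine ⟨⟨_, subset_closure ⟨1, 0, rfl⟩⟩, hiso, isClosed_closure, fun γ v g hg => ?_⟩
    refine map_mem_closure (continuous_act γ v) hg ?_
    rintro _ ⟨δ, w, rfl⟩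
    exact ⟨γ * δ, v + w, act_act γ δ v w f⟩
  rcases core hX hK hcov' hinv (fun f g a b c => (hR f g a b c).le) with
    ⟨g, hg, -, H, hH, K', hK', hc⟩ | ⟨φ, h1, h2⟩
  · left
    intro n hn
    exact subflat hprop hg H hH hK' hc (by simpa using hn)
  · right
    obtain ⟨e⟩ : Nonempty (ℝ ≃ (ℕ → Bool)) := by
      rw [← Cardinal.eq]; simp [Cardinal.mk_real]
    exact ⟨fun s => φ (e s), fun s => hiso _ (h1 _),
      fun s t hst => haus_top (h2 _ _ (e.injective.ne hst)), fun _ s => h1 _⟩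

end Pool.Agent.FlatDich
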