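import Pool.Agent.P.MP_5e292f_al.Cat

set_option autoImplicit false
set_option linter.unusedSectionVars false

/-! Flat strips between parallel flats, their limits, and tilted flats. -/

namespace Pool.Agent.FlatDich

open Metric Set Filter Topology

variable {X : Type*} [MetricSpace X]
variable {E : Type*} [NormedAddCommGroup E] [NormedSpace ℝ E]

lemma chain_weak (hX : CN X) (m : ℕ) : ∀ f g : E → X, Isometry f → Isometry g → Al f g →
    ∃ F : ℕ → E → X, (∀ j ≤ 2 ^ m, Isometry (F j)) ∧ F 0 = f ∧ F (2 ^ m) = g ∧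
      ∀ j < 2 ^ m, ∀ a, dist (F j a) (F (j + 1) a) ≤ dist (f 0) (g 0) / 2 ^ m := by
  induction m with
  | zero =>
    intro f g hf hg h
    refine ⟨fun j => if j = 0 then f else g, fun j _ => ?_, by simp, by simp, fun j hj a => ?_⟩
    · dsimp only; split_ifs; exacts [hf, hg]
    · have : j = 0 := by omega
      subst this
      simp [h.diag a]
  | succ m ih =>
    intro f g hf hg h
    obtain ⟨u, hu, hmid, h1, h2⟩ := h.mid hX hf hg
    obtain ⟨F1, a1, b1, c1, d1⟩ := ih f u hf hu h1
    obtain ⟨F2, a2, b2, c2, d2⟩ := ih u g hu hg h2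
    have l := (hmid 0).left
    have r := (hmid 0).right
    rw [dist_comm] at r
    have hp : (0 : ℝ) < 2 ^ m := by positivity
    have hN : 0 < 2 ^ m := by positivity
    have e : dist (f 0) (g 0) / 2 ^ (m + 1) = (dist (f 0) (g 0) / 2) / 2 ^ m := by
      rw [pow_succ]; field_simp
    refine ⟨fun j => if j ≤ 2 ^ m then F1 j else F2 (j - 2 ^ m), fun j hj => ?_, by simp [b1],
      ?_, fun j hj a => ?_⟩
    · dsimp only; split_ifs with hh
      · exact a1 j hh
      · exact a2 _ (by rw [pow_succ] at hj; omega)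
    · dsimp only
      rw [if_neg (by rw [pow_succ]; omega), ← c2]
      congr 1; rw [pow_succ]; omega
    · dsimp only
      rw [e]
      rcases lt_trichotomy j (2 ^ m) with hlt | heq | hgt
      · rw [if_pos hlt.le, if_pos (Nat.succ_le_of_lt hlt)]
        exact (d1 j hlt a).trans (div_le_div_of_nonneg_right l hp.le)
      · rw [if_pos heq.le, if_neg (by omega), heq, c1, ← b2]
        have := d2 0 hN a
        rw [show 2 ^ m + 1 - 2 ^ m = 0 + 1 by omega]
        exact this.trans (div_le_div_of_nonneg_right r hp.le)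
      · rw [if_neg (by omega), if_neg (by omega)]
        have := d2 (j - 2 ^ m) (by rw [pow_succ] at hj; omega) a
        rw [show j + 1 - 2 ^ m = j - 2 ^ m + 1 by omega]
        exact this.trans (div_le_div_of_nonneg_right r hp.le)

lemma chain (hX : CN X) (m : ℕ) {f g : E → X} (hf : Isometry f) (hg : Isometry g) (h : Al f g) :
    ∃ F : ℕ → E → X, ∀ i ≤ 2 ^ m, ∀ j ≤ 2 ^ m, ∀ a b,
      dist (F i a) (F j b) ^ 2 =
        (((i : ℝ) - j) * (dist (f 0) (g 0) / 2 ^ m)) ^ 2 + dist a b ^ 2 := by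
  obtain ⟨F, a1, b1, c1, d1⟩ := chain_weak hX m f g hf hg h
  set s := dist (f 0) (g 0) / 2 ^ m with hs
  have up : ∀ i k, i + k ≤ 2 ^ m → ∀ a, dist (F i a) (F (i + k) a) ≤ k * s := by
    intro i k
    induction k with
    | zero => intro _ a; simp
    | succ k ih =>
      intro hk a
      have h1 := ih (by omega) a
      have h2 := d1 (i + k) (by omega) a
      have h3 := dist_triangle (F i a) (F (i + k) a) (F (i + k + 1) a)
      push_cast
      rw [← add_assoc]
      linarith
  have main : ∀ i k, i + k ≤ 2 ^ m → ∀ a b,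
      dist (F i a) (F (i + k) b) ^ 2 = (k * s) ^ 2 + dist a b ^ 2 := by
    intro i k hk
    refine rect hX (a1 i (by omega)) (a1 _ hk) (up i k hk) (fun a b => ?_)
    have h1 := up 0 i (by omega) a
    obtain ⟨r, hr⟩ := Nat.exists_eq_add_of_le hk
    have h2 := up (i + k) r hr.ge b
    rw [← hr, c1] at h2
    rw [zero_add, b1] at h1
    have h3 := h.le a b
    have h4 := dist_triangle4 (f a) (F i a) (F (i + k) b) (g b)
    have h5 : dist (f 0) (g 0) = (i + k + r : ℝ) * s := by
      have : ((2 : ℝ) ^ m) = (i + k + r : ℝ) := by exact_mod_cast hr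
      rw [hs, ← this]; field_simp
    nlinarith
  refine ⟨F, fun i hi j hj a b => ?_⟩
  rcases le_total i j with hij | hij
  · obtain ⟨k, rfl⟩ := Nat.exists_eq_add_of_le hij
    rw [main i k hj a b]; push_cast; ring
  · obtain ⟨k, rfl⟩ := Nat.exists_eq_add_of_le hij
    rw [dist_comm, main j k hi b a, dist_comm b a]; push_cast; ring

lemma ultralimit [ProperSpace X] {Y : Type*} (d : Y → Y → ℝ) (G : ℕ → Y → X) (y0 : Y)
    {K : Set X} (hK : IsCompact K) (h0 : ∀ k, G k y0 ∈ K)
    (hd : ∀ p q, Tendsto (fun k => dist (G k p) (G k q)) atTop (𝓝 (d p q))) :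
    ∃ L : Y → X, ∀ p q, dist (L p) (L q) = d p q := by
  let U : Ultrafilter ℕ := hyperfilter ℕ
  have hU : (U : Filter ℕ) ≤ atTop := by
    rw [← Nat.cofinite_eq_atTop]; exact hyperfilter_le_cofinite
  have ex : ∀ p, ∃ x, Tendsto (fun k => G k p) U (𝓝 x) := by
    intro p
    have hc : IsCompact (cthickening (d p y0 + 1) K) := hK.cthickening
    have hev : ∀ᶠ k in (U : Filter ℕ), G k p ∈ cthickening (d p y0 + 1) K := by
      apply hU
      filter_upwards [(hd p y0).eventually (gt_mem_nhds (lt_add_one _))] with k hk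
      exact mem_cthickening_of_dist_le _ _ _ _ (h0 k) hk.le
    obtain ⟨x, -, hx⟩ := hc.ultrafilter_le_nhds (U.map fun k => G k p)
      (by rw [Ultrafilter.coe_map, le_principal_iff]; exact hev)
    exact ⟨x, hx⟩
  choose L hL using ex
  refine ⟨L, fun p q => ?_⟩
  exact tendsto_nhds_unique ((hL p).dist (hL q)) ((hd p q).mono_left hU)

lemma exists_thick [ProperSpace X] (hX : CN X) {Γ : Type*} [Group Γ] [MulAction Γ X]
    [IsIsometricSMul Γ X] {K : Set X} (hK : IsCompact K) (hcov : ∀ x : X, ∃ γ : Γ, γ • x ∈ K)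
    (hun : ∀ R : ℝ, ∃ f g : E → X, Isometry f ∧ Isometry g ∧ Al f g ∧ R ≤ dist (f 0) (g 0)) :
    ∃ L : E × ℝ → X, ∀ p q, dist (L p) (L q) ^ 2 = (p.2 - q.2) ^ 2 + dist p.1 q.1 ^ 2 := by
  have step : ∀ k : ℕ, ∃ (G : E × ℝ → X) (τ : ℝ → ℝ), G (0, 0) ∈ K ∧
      (∀ p q, dist (G p) (G q) ^ 2 = (τ p.2 - τ q.2) ^ 2 + dist p.1 q.1 ^ 2) ∧
      ∀ t : ℝ, |t| ≤ k → |τ t - t| ≤ 1 / (k + 1) := by
    intro k
    obtain ⟨f, g, hf, hg, hal, hR⟩ := hun (2 * k + 1)
    set D := dist (f 0) (g 0) with hD
    have hD0 : 0 < D := by have : (0 : ℝ) ≤ k := k.cast_nonneg; linarith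
    obtain ⟨m, hm⟩ := pow_unbounded_of_one_lt (D * (k + 1)) (one_lt_two (α := ℝ))
    obtain ⟨F, hF⟩ := chain hX m hf hg hal
    rw [← hD] at hF
    set s := D / 2 ^ m with hs
    have hp : (0 : ℝ) < 2 ^ m := by positivity
    have hs0 : 0 < s := by positivity
    have hs1 : s ≤ 1 / (k + 1) := by
      rw [hs, div_le_div_iff₀ hp (by positivity)]; linarith
    let idx : ℝ → ℕ := fun t => min (2 ^ m) ⌊(t + D / 2) / s⌋₊
    obtain ⟨γ, hγ⟩ := hcov (F (idx 0) 0)
    refine ⟨fun p => γ • F (idx p.2) p.1, fun t => idx t * s - D / 2, hγ, fun p q => ?_,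
      fun t ht => ?_⟩
    · rw [dist_smul, hF _ (min_le_left _ _) _ (min_le_left _ _)]; ring
    · rw [abs_le] at ht
      have h0 : 0 ≤ (t + D / 2) / s := div_nonneg (by linarith) hs0.le
      have h1 : (t + D / 2) / s ≤ 2 ^ m := by
        rw [div_le_iff₀ hs0, hs, mul_div_cancel₀ _ hp.ne']; linarith
      have h2 : idx t = ⌊(t + D / 2) / s⌋₊ := by
        apply min_eq_right
        apply Nat.floor_le_of_le
        exact_mod_cast h1
      have h3 := Nat.floor_le h0
      have h4 := Nat.lt_floor_add_one ((t + D / 2) / s)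
      rw [le_div_iff₀ hs0] at h3
      rw [div_lt_iff₀ hs0] at h4
      dsimp only
      rw [h2, abs_le]
      constructor <;> nlinarith
  choose G τ h0 hG hτ using step
  have hτ' : ∀ t, Tendsto (fun k => τ k t) atTop (𝓝 t) := by
    intro t
    rw [tendsto_iff_dist_tendsto_zero]
    refine squeeze_zero' (Eventually.of_forall fun _ => dist_nonneg) ?_
      tendsto_one_div_add_atTop_nhds_zero_nat
    filter_upwards [eventually_ge_atTop ⌈|t|⌉₊] with k hk
    rw [Real.dist_eq]
    exact hτ k t ((Nat.le_ceil _).trans (by exact_mod_cast hk))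
  obtain ⟨L, hL⟩ := ultralimit (fun p q : E × ℝ => √((p.2 - q.2) ^ 2 + dist p.1 q.1 ^ 2)) G (0, 0)
    hK h0 (fun p q => by
      have : (fun k => dist (G k p) (G k q)) =
          fun k => √((τ k p.2 - τ k q.2) ^ 2 + dist p.1 q.1 ^ 2) := by
        funext k
        rw [← hG k p q, Real.sqrt_sq dist_nonneg]
      rw [this]
      exact ((((hτ' _).sub (hτ' _)).pow 2).add_const _).sqrt)
  refine ⟨L, fun p q => ?_⟩
  rw [hL, Real.sq_sqrt (by positivity)]

lemma tilt {V : Type*} [NormedAddCommGroup V] [InnerProductSpace ℝ V] {e : V} (he : ‖e‖ = 1)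
    {L : V × ℝ → X} (hL : ∀ p q, dist (L p) (L q) ^ 2 = (p.2 - q.2) ^ 2 + dist p.1 q.1 ^ 2) :
    ∃ F : ℝ → V → X, (∀ s, Isometry (F s)) ∧ ∀ s t, s ≠ t → ¬ Par (F s) (F t) := by
  let c : ℝ → ℝ := fun r => Real.cos (Real.arctan r)
  let s : ℝ → ℝ := fun r => Real.sin (Real.arctan r)
  have cs : ∀ r, c r ^ 2 + s r ^ 2 = 1 := fun r => Real.cos_sq_add_sin_sq _
  have hee : inner ℝ e e = (1 : ℝ) := by rw [real_inner_self_eq_norm_sq, he]; norm_num
  have nrm : ∀ (x : V) (t : ℝ), ‖x - t • e‖ ^ 2 = ‖x‖ ^ 2 - 2 * t * inner ℝ x e + t ^ 2 := by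
    intro x t
    rw [norm_sub_sq_real, inner_smul_right, norm_smul, he, mul_one, Real.norm_eq_abs, sq_abs]
    ring
  refine ⟨fun r a => L (a - ((1 - c r) * inner ℝ a e) • e, s r * inner ℝ a e), fun r => ?_,
    fun r r' hne => ?_⟩
  · apply Isometry.of_dist_eq
    intro a b
    refine (pow_left_inj₀ dist_nonneg dist_nonneg two_ne_zero).1 ?_
    rw [hL]
    dsimp only
    have : a - ((1 - c r) * inner ℝ a e) • e - (b - ((1 - c r) * inner ℝ b e) • e)
        = (a - b) - ((1 - c r) * inner ℝ (a - b) e) • e := by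
      rw [inner_sub_left]; module
    rw [dist_eq_norm, dist_eq_norm, this, nrm, ← mul_sub, ← inner_sub_left]
    have := cs r
    linear_combination (inner ℝ (a - b) e) ^ 2 * this
  · rintro ⟨R, h1, -⟩
    set κ := c r * s r' - s r * c r' with hκ
    have hκ0 : κ ≠ 0 := by
      intro h
      have h2 : Real.sin (Real.arctan r' - Real.arctan r) = 0 := by
        rw [Real.sin_sub]; simp only [hκ, c, s] at h; linarith
      have b1 := Real.arctan_lt_pi_div_two r
      have b2 := Real.arctan_lt_pi_div_two r'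
      have b3 := Real.neg_pi_div_two_lt_arctan r
      have b4 := Real.neg_pi_div_two_lt_arctan r'
      rw [Real.sin_eq_zero_iff_of_lt_of_lt (by linarith) (by linarith)] at h2
      exact hne (Real.arctan_injective (by linarith))
    have key : ∀ t : ℝ, (t * κ) ^ 2 ≤ R ^ 2 := by
      intro t
      obtain ⟨b, hb⟩ := h1 (t • e)
      have hb2 := pow_le_pow_left₀ dist_nonneg hb 2
      rw [hL] at hb2
      dsimp only at hb2
      set β := inner ℝ b e with hβ
      have i1 : inner ℝ (t • e) e = t := by rw [inner_smul_left, hee]; simp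
      rw [i1, dist_eq_norm] at hb2
      set x := t • e - ((1 - c r) * t) • e - (b - ((1 - c r') * β) • e) with hx
      have i2 : inner ℝ x e = c r * t - c r' * β := by
        rw [hx, inner_sub_left, inner_sub_left, inner_sub_left, inner_smul_left, inner_smul_left,
          inner_smul_left, hee, ← hβ]
        simp; ring
      have i3 : (inner ℝ x e) ^ 2 ≤ ‖x‖ ^ 2 := by
        have := abs_real_inner_le_norm x e
        rw [he, mul_one] at this
        rw [← sq_abs]
        exact pow_le_pow_left₀ (abs_nonneg _) this 2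
      rw [i2] at i3
      have := cs r'
      have e1 : t * κ = (c r * t - c r' * β) * s r' - (s r * t - s r' * β) * c r' := by
        rw [hκ]; ring
      rw [e1]
      set A := c r * t - c r' * β
      set B := s r * t - s r' * β
      nlinarith [sq_nonneg (A * c r' + B * s r')]
    have := key ((|R| + 1) / κ)
    rw [div_mul_cancel₀ _ hκ0, ← sq_abs R] at this
    nlinarith [abs_nonneg R]

end Pool.Agent.FlatDich
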